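import Pool.Agent.LC3.Defs

/-!
# LC3.BBounds : elementary bounds for the binomial weights

`bb m i t = C(m,i) t^i (1-t)^(m-i)`, `PB m i t = ∑_{i<j≤m} bb m j t`.

* `sum_bb`: binomial theorem.
* `PB_le_exp`: for `j ≥ i+1`, with `k = j-i-1`,
  `C(m,j)/C(m,i+1) = (m-i-1)(m-i-2)...(m-j+1) / ((i+2)(i+3)...j) ≤ m^k / k!`, hence
  `bb m j t ≤ bb m (i+1) t * (m^k/k!) * (t/(1-t))^k ≤ bb m (i+1) t * (2 m t)^k / k!` and
  `∑_k (2mt)^k/k! ≤ exp (2 m t)`.
* `bb_low`: for `t` in the window and `m ∈ {n-2,n-1,n}`: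
  `C(m,i) ≥ ((m-i)/i)^i`-type bound: `C(m,i) t^i ≥ (m-i+1)^i t^i / i! ≥ ((al/2)^i)/i!` for `n` large
  (as `(m-i+1) t ≥ (n-i-1) al/n ≥ al/2`), and `(1-t)^(m-i) ≥ (1 - be/n)^n ≥ exp(-2 be)` for `n ≥ 20`
  (`1 - x ≥ exp(-2x)` for `0 ≤ x ≤ 1/2`). Take the minimum over `i ≤ D`.
-/

set_option autoImplicit false

open Classical

namespace Pool.Agent.LC3

theorem al_pos : 0 < al := by
  unfold al; norm_num

theorem al_lt_be : al < be := by
  unfold al be; norm_num

theorem bb_nonneg (m i : ℕ) {t : ℝ} (h0 : 0 ≤ t) (h1 : t ≤ 1) : 0 ≤ bb m i t := by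
  unfold bb
  have h := sub_nonneg.mpr h1
  positivity

theorem sum_bb (m : ℕ) (t : ℝ) : ∑ j ∈ Finset.range (m + 1), bb m j t = 1 := by
  have h := add_pow t (1 - t) m
  rw [add_sub_cancel, one_pow] at h
  rw [h]
  refine Finset.sum_congr rfl fun j _ => ?_
  unfold bb
  ring

theorem bb_le_one (m i : ℕ) {t : ℝ} (h0 : 0 ≤ t) (h1 : t ≤ 1) : bb m i t ≤ 1 := by
  rcases Nat.lt_or_ge m i with h | h
  · unfold bb
    rw [Nat.choose_eq_zero_of_lt h]
    simp
  · rw [← sum_bb m t]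
    exact Finset.single_le_sum (f := fun j => bb m j t) (fun j _ => bb_nonneg m j h0 h1)
      (Finset.mem_range.mpr (by omega))

theorem PB_nonneg (m i : ℕ) {t : ℝ} (h0 : 0 ≤ t) (h1 : t ≤ 1) : 0 ≤ PB m i t :=
  Finset.sum_nonneg fun j _ => bb_nonneg m j h0 h1

theorem PB_le_one (m i : ℕ) {t : ℝ} (h0 : 0 ≤ t) (h1 : t ≤ 1) : PB m i t ≤ 1 := by
  rw [← sum_bb m t]
  unfold PB
  refine Finset.sum_le_sum_of_subset_of_nonneg ?_ (fun j _ _ => bb_nonneg m j h0 h1)
  intro j hj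
  rw [Finset.mem_Ioc] at hj
  exact Finset.mem_range.mpr (by omega)

theorem continuous_bb (m i : ℕ) : Continuous (bb m i) := by
  unfold bb
  fun_prop

private theorem bb_succ_le {m j : ℕ} {t : ℝ} (h0 : 0 < t) (h1 : t ≤ 1 / 2) :
    bb m (j + 1) t * (j + 1) ≤ bb m j t * (2 * m * t) := by
  have ht : 0 < 1 - t := by linarith
  rcases Nat.lt_or_ge j m with h | h
  · have hc : (m.choose (j + 1) : ℝ) * (j + 1) = m.choose j * ((m : ℝ) - j) := by
      have := Nat.choose_succ_right_eq m j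
      have h2 : ((m.choose (j + 1) * (j + 1) : ℕ) : ℝ) = ((m.choose j * (m - j) : ℕ) : ℝ) := by
        rw [this]
      push_cast [Nat.cast_sub h.le] at h2
      exact h2
    obtain ⟨d, rfl⟩ : ∃ d, m = j + 1 + d := ⟨m - (j + 1), by omega⟩
    unfold bb
    have e1 : j + 1 + d - (j + 1) = d := by omega
    have e2 : j + 1 + d - j = d + 1 := by omega
    rw [e1, e2]
    have hA : 0 ≤ ((j + 1 + d).choose j : ℝ) * t ^ j * (1 - t) ^ d := by positivity
    have e3 : ((j + 1 + d).choose (j + 1) : ℝ) * t ^ (j + 1) * (1 - t) ^ d * (j + 1)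
        = (((j + 1 + d).choose j : ℝ) * t ^ j * (1 - t) ^ d) *
          ((((j + 1 + d : ℕ) : ℝ) - j) * t) := by
      have : ((j + 1 + d).choose (j + 1) : ℝ) * t ^ (j + 1) * (1 - t) ^ d * (j + 1)
          = (((j + 1 + d).choose (j + 1) : ℝ) * (j + 1)) * (t ^ (j + 1) * (1 - t) ^ d) := by ring
      rw [this, hc]
      ring
    rw [e3]
    have e4 : ((j + 1 + d).choose j : ℝ) * t ^ j * (1 - t) ^ (d + 1) *
        (2 * ((j + 1 + d : ℕ) : ℝ) * t)
        = (((j + 1 + d).choose j : ℝ) * t ^ j * (1 - t) ^ d) *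
          ((1 - t) * (2 * ((j + 1 + d : ℕ) : ℝ) * t)) := by
      ring
    rw [e4]
    refine mul_le_mul_of_nonneg_left ?_ hA
    have hm : (0 : ℝ) ≤ ((j + 1 + d : ℕ) : ℝ) := Nat.cast_nonneg _
    have hj : (0 : ℝ) ≤ (j : ℝ) := Nat.cast_nonneg _
    have h3 : ((j + 1 + d : ℕ) : ℝ) - j ≤ (1 - t) * (2 * ((j + 1 + d : ℕ) : ℝ)) := by
      nlinarith
    calc (((j + 1 + d : ℕ) : ℝ) - j) * t ≤ (1 - t) * (2 * ((j + 1 + d : ℕ) : ℝ)) * t :=
          mul_le_mul_of_nonneg_right h3 h0.le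
      _ = (1 - t) * (2 * ((j + 1 + d : ℕ) : ℝ) * t) := by ring
  · have h2 : bb m (j + 1) t = 0 := by
      unfold bb
      rw [Nat.choose_eq_zero_of_lt (by omega)]
      simp
    rw [h2, zero_mul]
    have := bb_nonneg m j h0.le (by linarith)
    positivity

private theorem bb_shift_le {m i : ℕ} {t : ℝ} (h0 : 0 < t) (h1 : t ≤ 1 / 2) (k : ℕ) :
    bb m (i + 1 + k) t ≤ bb m (i + 1) t * ((2 * m * t) ^ k / (k.factorial : ℝ)) := by
  induction k with
  | zero => simp
  | succ k ih =>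
    have h2 := bb_succ_le (m := m) (j := i + 1 + k) h0 h1
    have hb : 0 ≤ bb m (i + 1 + k + 1) t := bb_nonneg _ _ h0.le (by linarith)
    have hx : (0 : ℝ) ≤ 2 * m * t := by positivity
    have hk : (0 : ℝ) < (k : ℝ) + 1 := by positivity
    have h3 : bb m (i + 1 + k + 1) t * ((k : ℝ) + 1) ≤ bb m (i + 1 + k) t * (2 * m * t) := by
      refine le_trans ?_ h2
      refine mul_le_mul_of_nonneg_left ?_ hb
      push_cast
      have : (0 : ℝ) ≤ (i : ℝ) := Nat.cast_nonneg _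
      linarith
    have h4 : bb m (i + 1 + k + 1) t ≤ bb m (i + 1 + k) t * (2 * m * t) / ((k : ℝ) + 1) := by
      rw [le_div_iff₀ hk]
      exact h3
    rw [← add_assoc]
    refine h4.trans ?_
    have h5 : bb m (i + 1 + k) t * (2 * m * t) / ((k : ℝ) + 1)
        ≤ bb m (i + 1) t * ((2 * m * t) ^ k / (k.factorial : ℝ)) * (2 * m * t) / ((k : ℝ) + 1) := by
      gcongr
    refine h5.trans (le_of_eq ?_)
    have hf : (k.factorial : ℝ) ≠ 0 := by positivity
    rw [Nat.factorial_succ]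
    push_cast
    field_simp
    ring

theorem PB_le_exp {m i : ℕ} (hi : i + 1 ≤ m) {t : ℝ} (h0 : 0 < t) (h1 : t ≤ 1 / 2) :
    PB m i t ≤ Real.exp (2 * m * t) * bb m (i + 1) t := by
  have hx : (0 : ℝ) ≤ 2 * m * t := by positivity
  have e : PB m i t = ∑ k ∈ Finset.range (m - i), bb m (i + 1 + k) t := by
    unfold PB
    have h3 : Finset.Ioc i m = Finset.Ico (i + 1) (m + 1) := by
      ext x
      simp only [Finset.mem_Ioc, Finset.mem_Ico]
      omega
    rw [h3, Finset.sum_Ico_eq_sum_range]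
    have h4 : m + 1 - (i + 1) = m - i := by omega
    rw [h4]
  rw [e]
  have h2 : ∑ k ∈ Finset.range (m - i), bb m (i + 1 + k) t
      ≤ ∑ k ∈ Finset.range (m - i), bb m (i + 1) t * ((2 * m * t) ^ k / (k.factorial : ℝ)) :=
    Finset.sum_le_sum fun k _ => bb_shift_le h0 h1 k
  refine h2.trans ?_
  rw [← Finset.mul_sum, mul_comm]
  exact mul_le_mul_of_nonneg_right (Real.sum_le_exp_of_nonneg hx _)
    (bb_nonneg _ _ h0.le (by linarith))

theorem bb_low (D : ℕ) : ∃ c : ℝ, 0 < c ∧ ∃ N : ℕ, ∀ n : ℕ, N ≤ n → ∀ m : ℕ, n ≤ m + 2 → m ≤ n →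
    ∀ t : ℝ, al / n ≤ t → t ≤ be / n → ∀ i ≤ D, c ≤ bb m i t := by
  have hal : (0 : ℝ) < al / 2 := by have := al_pos; positivity
  refine ⟨(al / 2) ^ D / (D.factorial : ℝ) * Real.exp (-2 * be), by positivity,
    2 * (D + 2) + 12, ?_⟩
  intro n hn m hm1 hm2 t ht1 ht2 i hi
  have hnR : ((2 * (D + 2) + 12 : ℕ) : ℝ) ≤ (n : ℝ) := by exact_mod_cast hn
  push_cast at hnR
  have hD0 : (0 : ℝ) ≤ (D : ℝ) := Nat.cast_nonneg _
  have hn0 : (0 : ℝ) < (n : ℝ) := by linarith
  have hbe : be / n ≤ 1 / 2 := by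
    rw [div_le_iff₀ hn0]
    unfold be
    linarith
  have hbe0 : (0 : ℝ) ≤ be / n := by
    have := al_pos.trans al_lt_be
    positivity
  have ht0 : 0 < t := lt_of_lt_of_le (by have := al_pos; positivity) ht1
  have him : i ≤ m := by omega
  -- the power of `1 - t`
  have h1 : Real.exp (-2 * be) ≤ (1 - t) ^ (m - i) := by
    have hstep : Real.exp (-2 * (be / n)) ≤ 1 - t := by
      have h2 : Real.exp (-2 * (be / n)) ≤ 1 - be / n := by
        have h3 : 1 ≤ Real.exp (2 * (be / n)) * (1 - be / n) := by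
          have h4 : 2 * (be / n) + 1 ≤ Real.exp (2 * (be / n)) := Real.add_one_le_exp _
          have h5 : (0 : ℝ) ≤ 1 - be / n := by linarith
          have h6 : (2 * (be / n) + 1) * (1 - be / n) ≤ Real.exp (2 * (be / n)) * (1 - be / n) :=
            mul_le_mul_of_nonneg_right h4 h5
          nlinarith
        have h7 : Real.exp (-2 * (be / n)) * (Real.exp (2 * (be / n)) * (1 - be / n))
            = 1 - be / n := by
          rw [← mul_assoc, ← Real.exp_add]
          have : -2 * (be / n) + 2 * (be / n) = 0 := by ring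
          rw [this, Real.exp_zero, one_mul]
        have h8 : Real.exp (-2 * (be / n)) * 1
            ≤ Real.exp (-2 * (be / n)) * (Real.exp (2 * (be / n)) * (1 - be / n)) :=
          mul_le_mul_of_nonneg_left h3 (Real.exp_pos _).le
        rw [h7, mul_one] at h8
        exact h8
      linarith
    have h9 : Real.exp (-2 * be) = Real.exp (-2 * (be / n)) ^ n := by
      rw [← Real.exp_nat_mul]
      congr 1
      field_simp
    rw [h9]
    have h10 : (0 : ℝ) ≤ 1 - t := by linarith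
    have h11 : (1 : ℝ) - t ≤ 1 := by linarith
    calc Real.exp (-2 * (be / n)) ^ n ≤ (1 - t) ^ n :=
          pow_le_pow_left₀ (Real.exp_pos _).le hstep n
      _ ≤ (1 - t) ^ (m - i) := pow_le_pow_of_le_one h10 h11 (by omega)
  -- the binomial coefficient
  have h2 : (al / 2) ^ D / (D.factorial : ℝ) ≤ (m.choose i : ℝ) * t ^ i := by
    have h3 : ((m + 1 - i : ℕ) ^ i : ℝ) / (i.factorial : ℝ) ≤ m.choose i := Nat.pow_le_choose i m
    have h4 : al / 2 ≤ ((m + 1 - i : ℕ) : ℝ) * t := by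
      have h5 : (n : ℝ) / 2 ≤ ((m + 1 - i : ℕ) : ℝ) := by
        have h6 : n ≤ 2 * (m + 1 - i) := by omega
        have h7 : (n : ℝ) ≤ ((2 * (m + 1 - i) : ℕ) : ℝ) := by exact_mod_cast h6
        rw [Nat.cast_mul] at h7
        push_cast at h7 ⊢
        linarith
      calc al / 2 = (n : ℝ) / 2 * (al / n) := by field_simp
        _ ≤ ((m + 1 - i : ℕ) : ℝ) * t := by
          refine mul_le_mul h5 ht1 ?_ (Nat.cast_nonneg _)
          have := al_pos
          positivity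
    have h8 : (al / 2) ^ i / (i.factorial : ℝ) ≤ (m.choose i : ℝ) * t ^ i := by
      calc (al / 2) ^ i / (i.factorial : ℝ)
          ≤ (((m + 1 - i : ℕ) : ℝ) * t) ^ i / (i.factorial : ℝ) := by gcongr
        _ = ((m + 1 - i : ℕ) : ℝ) ^ i / (i.factorial : ℝ) * t ^ i := by
          rw [mul_pow]; ring
        _ ≤ (m.choose i : ℝ) * t ^ i := mul_le_mul_of_nonneg_right h3 (by positivity)
    refine le_trans ?_ h8
    have h9 : (al / 2) ^ D ≤ (al / 2) ^ i :=
      pow_le_pow_of_le_one hal.le (by unfold al; norm_num) hi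
    have h10 : (i.factorial : ℝ) ≤ (D.factorial : ℝ) := by exact_mod_cast Nat.factorial_le hi
    gcongr
  unfold bb
  exact mul_le_mul h2 h1 (Real.exp_pos _).le (by positivity)

end Pool.Agent.LC3
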