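import Pool.Agent.LC3.Defs

/-!
# LC3.NetBasic : elementary facts on colourings, nets and forced relations

All proofs are direct from the definitions (`Proper A σ` means `σ a ≠ σ b` for `s(a,b) ∈ A`).
* `col_st`: if `v` does not occur in `A` and `v ∉ W` then a proper colouring of `A ∪ st v W` is a
  proper colouring `σ` of `A` with `σ v ∉ σ(W)`; given a proper `σ` of `A` and a colour `c` missing on
  `W`, change the colour of `v` to `c` (`Function.update σ v c`), this is still proper for `A`.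
* `eqv_iff`: a proper colouring of `insert s(x,y) A` is a proper colouring of `A` with `σ x ≠ σ y`.
* `eqv_st` : combine `eqv_iff`, `col_st` for `W` replaced by `insert x W`
  (`insert s(v,x) (A ∪ st v W) = A ∪ st v (insert x W)`).
* `three_net`: three elements of `Fin 3` exhaust `Fin 3` iff they are pairwise different.
-/

set_option autoImplicit false

open Classical

namespace Pool.Agent.LC3

theorem Proper.mono {A B : Finset (Sym2 ℕ)} {σ : ℕ → Fin 3} (h : A ⊆ B) (hσ : Proper B σ) :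
    Proper A σ := fun a b hab => hσ a b (h hab)

theorem Col.mono {A B : Finset (Sym2 ℕ)} (h : A ⊆ B) (hB : Col B) : Col A := by
  obtain ⟨σ, hσ⟩ := hB
  exact ⟨σ, hσ.mono h⟩

theorem Net.mono_left {A B : Finset (Sym2 ℕ)} {W : Finset ℕ} (h : A ⊆ B) (hA : Net A W) :
    Net B W := fun σ hσ => hA σ (hσ.mono h)

theorem Net.mono_right {A : Finset (Sym2 ℕ)} {W W' : Finset ℕ} (h : W ⊆ W') (hA : Net A W) :
    Net A W' := by
  intro σ hσ c
  obtain ⟨w, hw, hc⟩ := hA σ hσ c
  exact ⟨w, h hw, hc⟩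

theorem net_of_not_col {A : Finset (Sym2 ℕ)} (h : ¬ Col A) (W : Finset ℕ) : Net A W :=
  fun σ hσ => (h ⟨σ, hσ⟩).elim

theorem Eqv.mono {A B : Finset (Sym2 ℕ)} {x y : ℕ} (h : A ⊆ B) (hA : Eqv A x y) : Eqv B x y :=
  fun σ hσ => hA σ (hσ.mono h)

theorem Dif.mono {A B : Finset (Sym2 ℕ)} {x y : ℕ} (h : A ⊆ B) (hA : Dif A x y) : Dif B x y :=
  fun σ hσ => hA σ (hσ.mono h)

theorem Eqv.refl (A : Finset (Sym2 ℕ)) (x : ℕ) : Eqv A x x := fun _ _ => rfl

theorem Eqv.symm {A : Finset (Sym2 ℕ)} {x y : ℕ} (h : Eqv A x y) : Eqv A y x :=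
  fun σ hσ => (h σ hσ).symm

theorem Eqv.trans {A : Finset (Sym2 ℕ)} {x y z : ℕ} (h : Eqv A x y) (h' : Eqv A y z) :
    Eqv A x z := fun σ hσ => (h σ hσ).trans (h' σ hσ)

theorem dif_of_mem {A : Finset (Sym2 ℕ)} {x y : ℕ} (h : s(x, y) ∈ A) : Dif A x y :=
  fun _ hσ => hσ x y h

/-- in a colourable graph `Eqv` and `Dif` exclude each other -/
theorem not_dif_of_eqv {A : Finset (Sym2 ℕ)} {x y : ℕ} (hA : Col A) (h : Eqv A x y) :
    ¬ Dif A x y := by
  obtain ⟨σ, hσ⟩ := hA
  exact fun hd => hd σ hσ (h σ hσ)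

/-- the empty graph is colourable -/
theorem col_empty : Col ∅ := ⟨fun _ => 0, fun a b hab => by simp at hab⟩

private theorem fin3_pig : ∀ a b c d : Fin 3,
    a = b ∨ a = c ∨ a = d ∨ b = c ∨ b = d ∨ c = d := by decide

/-- the complete graph on at least four vertices is not 3-colourable -/
theorem not_col_EN {n : ℕ} (hn : 4 ≤ n) : ¬ Col (EN n) := by
  rintro ⟨σ, hσ⟩
  have h : ∀ a b : ℕ, a < 4 → b < 4 → a ≠ b → σ a ≠ σ b := by
    intro a b ha hb hab
    apply hσ a b
    unfold EN EE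
    rw [Finset.mem_filter, Finset.mk_mem_sym2_iff, Sym2.mk_isDiag_iff]
    exact ⟨⟨Finset.mem_range.2 (by omega), Finset.mem_range.2 (by omega)⟩, hab⟩
  have h01 := h 0 1 (by omega) (by omega) (by omega)
  have h02 := h 0 2 (by omega) (by omega) (by omega)
  have h03 := h 0 3 (by omega) (by omega) (by omega)
  have h12 := h 1 2 (by omega) (by omega) (by omega)
  have h13 := h 1 3 (by omega) (by omega) (by omega)
  have h23 := h 2 3 (by omega) (by omega) (by omega)
  rcases fin3_pig (σ 0) (σ 1) (σ 2) (σ 3) with h | h | h | h | h | h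
  · exact h01 h
  · exact h02 h
  · exact h03 h
  · exact h12 h
  · exact h13 h
  · exact h23 h

theorem col_st {A : Finset (Sym2 ℕ)} {v : ℕ} {W : Finset ℕ} (hv : ∀ e ∈ A, v ∉ e) (hW : v ∉ W) :
    Col (A ∪ st v W) ↔ ¬ Net A W := by
  constructor
  · rintro ⟨σ, hσ⟩ hN
    obtain ⟨w, hw, hc⟩ := hN σ (hσ.mono Finset.subset_union_left) (σ v)
    refine hσ v w (Finset.mem_union_right _ ?_) hc.symm
    exact Finset.mem_image.2 ⟨w, hw, rfl⟩
  · intro hN
    unfold Net at hN
    push Not at hN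
    obtain ⟨σ, hσ, c, hc⟩ := hN
    refine ⟨Function.update σ v c, ?_⟩
    intro a b hab
    rcases Finset.mem_union.1 hab with h | h
    · have h1 : a ≠ v := by
        rintro rfl
        exact hv _ h (Sym2.mem_mk_left _ _)
      have h2 : b ≠ v := by
        rintro rfl
        exact hv _ h (Sym2.mem_mk_right _ _)
      rw [Function.update_of_ne h1, Function.update_of_ne h2]
      exact hσ a b h
    · obtain ⟨w, hw, he⟩ := Finset.mem_image.1 h
      have hwv : w ≠ v := by
        rintro rfl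
        exact hW hw
      rcases Sym2.eq_iff.1 he with ⟨h1, h2⟩ | ⟨h1, h2⟩
      · subst h1; subst h2
        rw [Function.update_self, Function.update_of_ne hwv]
        exact (hc w hw).symm
      · subst h1; subst h2
        rw [Function.update_self, Function.update_of_ne hwv]
        exact hc w hw

theorem eqv_iff {A : Finset (Sym2 ℕ)} {x y : ℕ} : Eqv A x y ↔ ¬ Col (insert s(x, y) A) := by
  constructor
  · rintro h ⟨σ, hσ⟩
    exact hσ x y (Finset.mem_insert_self _ _) (h σ (hσ.mono (Finset.subset_insert _ _)))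
  · intro h σ hσ
    by_contra hne
    apply h
    refine ⟨σ, fun a b hab => ?_⟩
    rcases Finset.mem_insert.1 hab with h1 | h1
    · rcases Sym2.eq_iff.1 h1 with ⟨h2, h3⟩ | ⟨h2, h3⟩
      · subst h2; subst h3; exact hne
      · subst h2; subst h3; exact Ne.symm hne
    · exact hσ a b h1

theorem eqv_st {A : Finset (Sym2 ℕ)} {v x : ℕ} {W : Finset ℕ} (hv : ∀ e ∈ A, v ∉ e) (hW : v ∉ W)
    (hx : x ≠ v) : Eqv (A ∪ st v W) v x ↔ Net A (insert x W) := by
  have h1 : insert s(v, x) (A ∪ st v W) = A ∪ st v (insert x W) := by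
    unfold st
    rw [Finset.image_insert]
    ext e
    simp only [Finset.mem_insert, Finset.mem_union]
    tauto
  rw [eqv_iff, h1, col_st hv (by
    rw [Finset.mem_insert]
    rintro (h | h)
    · exact hx h.symm
    · exact hW h), not_not]

theorem eqv_st_old {A : Finset (Sym2 ℕ)} {v : ℕ} {W : Finset ℕ} (hv : ∀ e ∈ A, v ∉ e)
    (hW : v ∉ W) (h : ¬ Net A W) : ∀ x y : ℕ, Eqv A x y → Eqv (A ∪ st v W) x y :=
  fun _ _ hxy => hxy.mono Finset.subset_union_left

/-- a net of a colourable graph has at least three elements -/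
theorem not_net_of_card {A : Finset (Sym2 ℕ)} (hA : Col A) {W : Finset ℕ} (hW : W.card ≤ 2) :
    ¬ Net A W := by
  obtain ⟨σ, hσ⟩ := hA
  intro hN
  have h1 : (Finset.univ : Finset (Fin 3)) ⊆ W.image σ := by
    intro c _
    obtain ⟨w, hw, hc⟩ := hN σ hσ c
    exact Finset.mem_image.2 ⟨w, hw, hc⟩
  have h2 := Finset.card_le_card h1
  rw [Finset.card_univ, Fintype.card_fin] at h2
  have h3 : (W.image σ).card ≤ W.card := Finset.card_image_le
  omega

private theorem fin3_exh : ∀ a b c : Fin 3,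
    (∀ d : Fin 3, a = d ∨ b = d ∨ c = d) ↔ (a ≠ b ∧ b ≠ c ∧ a ≠ c) := by decide

theorem three_net {A : Finset (Sym2 ℕ)} {x y z : ℕ} :
    Net A {x, y, z} ↔ Dif A x y ∧ Dif A y z ∧ Dif A x z := by
  have key : Net A {x, y, z} ↔
      ∀ σ : ℕ → Fin 3, Proper A σ → (σ x ≠ σ y ∧ σ y ≠ σ z ∧ σ x ≠ σ z) := by
    unfold Net
    refine forall_congr' fun σ => forall_congr' fun hσ => ?_
    rw [← fin3_exh]
    refine forall_congr' fun d => ?_
    simp
  rw [key]
  constructor
  · intro h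
    exact ⟨fun σ hσ => (h σ hσ).1, fun σ hσ => (h σ hσ).2.1, fun σ hσ => (h σ hσ).2.2⟩
  · rintro ⟨h1, h2, h3⟩ σ hσ
    exact ⟨h1 σ hσ, h2 σ hσ, h3 σ hσ⟩

theorem dif_congr {A : Finset (Sym2 ℕ)} {x x' y : ℕ} (h : Eqv A x x') (hd : Dif A x y) :
    Dif A x' y := by
  intro σ hσ
  rw [← h σ hσ]
  exact hd σ hσ

private theorem fin3_third : ∀ x y z z' : Fin 3, x ≠ y → x ≠ z → y ≠ z → x ≠ z' → y ≠ z' →
    z = z' := by decide

/-- the third colour is determined -/
theorem eqv_of_dif {A : Finset (Sym2 ℕ)} {x y z z' : ℕ} (hxy : Dif A x y) (hxz : Dif A x z)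
    (hyz : Dif A y z) (hxz' : Dif A x z') (hyz' : Dif A y z') : Eqv A z z' :=
  fun σ hσ => fin3_third _ _ _ _ (hxy σ hσ) (hxz σ hσ) (hyz σ hσ) (hxz' σ hσ) (hyz' σ hσ)

end Pool.Agent.LC3
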