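import Pool.Agent.LC3.Split
import Pool.Agent.LC3.NetBasic

/-!
# LC3.BigT : completing many vertices means a large class after adding a vertex

`G(m+1,t)` is `A = G(m,t)` plus the vertex `m` joined to a random set `W` (`ex_EN_succ`). If `|W| = i`,
`W` is not a net and more than `θ (m-i)` vertices `x ∉ W` satisfy `Net A (insert x W)`, then
`A ∪ st m W` is colourable (`col_st`) and all these `x` satisfy `Eqv (A ∪ st m W) m x` (`eqv_st`), and
also `x = m`. So the class of `m` has at least `θ (m-i) ≥ (θ/2)(m+1)` elements (as `i ≤ 18`, `m ≥ 40`),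
i.e. `Big (m+1) (θ/2)`. The probability of `|W| = i` and `W` one of the bad sets is
`t^i (1-t)^(m-i) * (number of bad sets) = bb m i t * bigf m i θ A` (`ex_by_card`). Hence
`ell (m+1) (θ/2) t ≥ ex t (EN m) (ind (Col A) * bb m i t * bigf m i θ A)`.
-/

set_option autoImplicit false

open Classical

namespace Pool.Agent.LC3

/-- a bad set gives a large class after adding the vertex `m` -/
theorem BigT_big {m i : ℕ} {θ θ' : ℝ} (hθ : θ' * ((m : ℝ) + 1) ≤ θ * ((m : ℝ) - i))
    {A : Finset (Sym2 ℕ)} (hA : A ⊆ EN m) {W : Finset ℕ} (hW : W ⊆ Finset.range m)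
    (h1 : ¬ Net A W) (h2 : θ * ((m : ℝ) - i) <
      (((Finset.range m).filter (fun x => x ∉ W ∧ Net A (insert x W))).card : ℝ)) :
    Col (A ∪ st m W) ∧ Big (m + 1) θ' (A ∪ st m W) := by
  have hv : ∀ e ∈ A, m ∉ e := not_mem_of_EN le_rfl hA
  have hmW : m ∉ W := fun h => by
    have := Finset.mem_range.1 (hW h)
    omega
  refine ⟨(col_st hv hmW).2 h1, m, Nat.lt_succ_self m, ?_⟩
  have h3 : ((Finset.range m).filter (fun x => x ∉ W ∧ Net A (insert x W))).card ≤
      ((Finset.range (m + 1)).filter (fun x => Eqv (A ∪ st m W) m x)).card := by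
    apply Finset.card_le_card
    intro x hx
    rw [Finset.mem_filter, Finset.mem_range] at hx ⊢
    exact ⟨by omega, (eqv_st hv hmW (by omega)).2 hx.2.2⟩
  have h4 : (((Finset.range m).filter (fun x => x ∉ W ∧ Net A (insert x W))).card : ℝ) ≤
      (((Finset.range (m + 1)).filter (fun x => Eqv (A ∪ st m W) m x)).card : ℝ) := by
    exact_mod_cast h3
  push_cast
  linarith

theorem BigT_pt {m i : ℕ} (hi : i ≤ m) {θ θ' : ℝ}
    (hθ : θ' * ((m : ℝ) + 1) ≤ θ * ((m : ℝ) - i)) {t : ℝ} (h0 : 0 ≤ t) (h1 : t ≤ 1)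
    {A : Finset (Sym2 ℕ)} (hA : A ⊆ EN m) :
    bb m i t * (ind (Col A) * bigf m i θ A) ≤
      ex t (Finset.range m) (fun W => ind (Col (A ∪ st m W) ∧ Big (m + 1) θ' (A ∪ st m W))) := by
  have hR : 0 ≤ ex t (Finset.range m)
      (fun W => ind (Col (A ∪ st m W) ∧ Big (m + 1) θ' (A ∪ st m W))) :=
    ex_nonneg h0 h1 fun W _ => ind_nonneg _
  by_cases hc : Col A
  · rw [ind_of hc, one_mul]
    set P : Finset ℕ → Prop := fun W => ¬ Net A W ∧
      θ * ((m : ℝ) - i) <
        (((Finset.range m).filter (fun x => x ∉ W ∧ Net A (insert x W))).card : ℝ) with hP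
    have h2 : ex t (Finset.range m) (fun W => ind (W.card = i ∧ P W)) ≤
        ex t (Finset.range m)
          (fun W => ind (Col (A ∪ st m W) ∧ Big (m + 1) θ' (A ∪ st m W))) := by
      refine ex_mono h0 h1 fun W hW => ind_mono ?_
      rintro ⟨-, h3, h4⟩
      exact BigT_big hθ hA hW h3 h4
    refine le_trans ?_ h2
    rw [ex_by_card, Finset.card_range]
    have h1t : 0 ≤ 1 - t := by linarith
    have h5 : t ^ i * (1 - t) ^ (m - i) *
        ∑ W ∈ (Finset.range m).powersetCard i, ind (W.card = i ∧ P W) ≤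
        ∑ j ∈ Finset.range (m + 1), t ^ j * (1 - t) ^ (m - j) *
          ∑ W ∈ (Finset.range m).powersetCard j, ind (W.card = i ∧ P W) := by
      refine Finset.single_le_sum (f := fun j => t ^ j * (1 - t) ^ (m - j) *
          ∑ W ∈ (Finset.range m).powersetCard j, ind (W.card = i ∧ P W)) ?_ ?_
      · intro j _
        exact mul_nonneg (mul_nonneg (pow_nonneg h0 _) (pow_nonneg h1t _))
          (Finset.sum_nonneg fun W _ => ind_nonneg _)
      · rw [Finset.mem_range]
        omega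
    refine le_trans (le_of_eq ?_) h5
    have h6 : ∑ W ∈ (Finset.range m).powersetCard i, ind (W.card = i ∧ P W) =
        ((((Finset.range m).powersetCard i).filter P).card : ℝ) := by
      rw [Finset.card_filter]
      push_cast
      refine Finset.sum_congr rfl fun W hW => ?_
      have hWc : W.card = i := (Finset.mem_powersetCard.1 hW).2
      unfold ind
      by_cases hp : P W
      · rw [if_pos ⟨hWc, hp⟩, if_pos hp]
      · rw [if_neg (fun h => hp h.2), if_neg hp]
    rw [h6]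
    unfold bb bigf
    have h7 : (m.choose i : ℝ) ≠ 0 := by
      exact_mod_cast (Nat.choose_pos hi).ne'
    have h8 : ((Finset.range m).powersetCard i).filter P =
        ((Finset.range m).powersetCard i).filter (fun Z => ¬ Net A Z ∧
      θ * ((m : ℝ) - i) <
        (((Finset.range m).filter (fun x => x ∉ Z ∧ Net A (insert x Z))).card : ℝ)) := by
      ext W
      simp only [Finset.mem_filter, hP]
    rw [h8]
    field_simp
  · rw [ind_of_not hc, zero_mul, mul_zero]
    exact hR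

theorem BigT_main {m i : ℕ} (hi : i ≤ m) {θ θ' : ℝ}
    (hθ : θ' * ((m : ℝ) + 1) ≤ θ * ((m : ℝ) - i)) {t : ℝ} (h0 : 0 ≤ t) (h1 : t ≤ 1) :
    bb m i t * Bf m i θ t ≤ ell (m + 1) θ' t := by
  unfold Bf ell
  rw [← ex_mul_left, ex_EN_succ]
  exact ex_mono h0 h1 fun A hA => BigT_pt hi hθ h0 h1 hA

theorem Bf_le {m i : ℕ} (hm : 40 ≤ m) (hi : i ≤ 18) {θ : ℝ} (hθ : 0 < θ) {t : ℝ} (h0 : 0 ≤ t)
    (h1 : t ≤ 1) : bb m i t * Bf m i θ t ≤ ell (m + 1) (θ / 2) t := by
  refine BigT_main (by omega) ?_ h0 h1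
  have h2 : (40 : ℝ) ≤ m := by exact_mod_cast hm
  have h3 : (i : ℝ) ≤ 18 := by exact_mod_cast hi
  nlinarith

/-- general `i`: the same with `2 i + 2 ≤ m` -/
theorem Bf_le' {m i : ℕ} (hm : 2 * i + 2 ≤ m) {θ : ℝ} (hθ : 0 < θ) {t : ℝ} (h0 : 0 ≤ t)
    (h1 : t ≤ 1) : bb m i t * Bf m i θ t ≤ ell (m + 1) (θ / 3) t := by
  refine BigT_main (by omega) ?_ h0 h1
  have h2 : 2 * (i : ℝ) + 2 ≤ m := by exact_mod_cast hm
  nlinarith

end Pool.Agent.LC3
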