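import Pool.Agent.LC3.Split
import Pool.Agent.LC3.NetBasic
import Pool.Agent.Hhelper85.TC.Final

/-!
# LC3.ColSmall : `G(m,t)` with `t ≥ c0/m` is not 3-colourable, exponentially likely

Since `ind (Col A)` is decreasing in `A`, `t ↦ ex t (EN m) (ind (Col A))` is antitone on `[0,1]`
(`ex_mono_t` for `1 - ind (Col A)`), so it suffices to treat `t = c0/m`, and there it is
`Pool.Agent.Hhelper85.TC.PG_colorable_le` after the bijection between `Finset (Sym2 ℕ)`-subsets of `EN m` and
`SimpleGraph (Fin m)`: `G ↦ G.edgeFinset.image (Sym2.map Fin.val)`. Under this bijection cardinalities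
correspond, `(EN m).card = m.choose 2`, and `Col A ↔ G.Colorable 3`
(a colouring `σ : ℕ → Fin 3` restricts to `Fin m`; conversely extend by `0`).
`exp(16 - m/250) + exp(1 - 49/10^7 m) ≤ exp(-10^-7 m)` for `m` large.
-/

set_option autoImplicit false

open Classical

namespace Pool.Agent.LC3

noncomputable def c0 : ℝ := 503 / 100

private noncomputable def colSmall_phi {m : ℕ} (G : SimpleGraph (Fin m)) : Finset (Sym2 ℕ) :=
  G.edgeFinset.image (Sym2.map Fin.val)

private theorem colSmall_mem {m : ℕ} (G : SimpleGraph (Fin m)) (a b : ℕ) :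
    s(a, b) ∈ colSmall_phi G ↔ ∃ (ha : a < m) (hb : b < m), G.Adj ⟨a, ha⟩ ⟨b, hb⟩ := by
  unfold colSmall_phi
  rw [Finset.mem_image]
  constructor
  · rintro ⟨e, he, h⟩
    rw [SimpleGraph.mem_edgeFinset] at he
    induction e using Sym2.ind with
    | _ x y =>
      rw [SimpleGraph.mem_edgeSet] at he
      rw [Sym2.map_mk, Sym2.eq_iff] at h
      rcases h with ⟨rfl, rfl⟩ | ⟨rfl, rfl⟩
      · exact ⟨x.2, y.2, he⟩
      · exact ⟨y.2, x.2, he.symm⟩
  · rintro ⟨ha, hb, h⟩
    refine ⟨s(⟨a, ha⟩, ⟨b, hb⟩), ?_, ?_⟩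
    · rw [SimpleGraph.mem_edgeFinset, SimpleGraph.mem_edgeSet]
      exact h
    · rw [Sym2.map_mk]

private theorem colSmall_inj {m : ℕ} :
    Function.Injective (colSmall_phi : SimpleGraph (Fin m) → Finset (Sym2 ℕ)) := by
  intro G H h
  have h1 := Finset.image_injective (Sym2.map.injective Fin.val_injective) h
  exact SimpleGraph.edgeFinset_inj.1 h1

private theorem colSmall_sub {m : ℕ} (G : SimpleGraph (Fin m)) : colSmall_phi G ⊆ EN m := by
  intro e
  induction e using Sym2.ind with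
  | _ a b =>
    rw [colSmall_mem, mem_EN]
    rintro ⟨ha, hb, h⟩
    refine ⟨ha, hb, ?_⟩
    rintro rfl
    exact h.ne rfl

private theorem colSmall_surj {m : ℕ} {A : Finset (Sym2 ℕ)} (hA : A ⊆ EN m) :
    ∃ G : SimpleGraph (Fin m), colSmall_phi G = A := by
  have hsymm : ∀ a b : Fin m, s((a : ℕ), (b : ℕ)) ∈ A → s((b : ℕ), (a : ℕ)) ∈ A := by
    intro a b h
    rwa [Sym2.eq_swap]
  refine ⟨SimpleGraph.fromRel (fun a b : Fin m => s((a : ℕ), (b : ℕ)) ∈ A), ?_⟩
  ext e
  induction e using Sym2.ind with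
  | _ a b =>
    rw [colSmall_mem]
    constructor
    · rintro ⟨ha, hb, h⟩
      rw [SimpleGraph.fromRel_adj] at h
      rcases h.2 with h1 | h1
      · exact h1
      · exact hsymm _ _ h1
    · intro h
      have h1 := hA h
      rw [mem_EN] at h1
      refine ⟨h1.1, h1.2.1, ?_⟩
      rw [SimpleGraph.fromRel_adj]
      exact ⟨fun h2 => h1.2.2 (congrArg Fin.val h2), Or.inl h⟩

private theorem colSmall_card {m : ℕ} (G : SimpleGraph (Fin m)) :
    (colSmall_phi G).card = G.edgeFinset.card :=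
  Finset.card_image_of_injective _ (Sym2.map.injective Fin.val_injective)

private theorem colSmall_col {m : ℕ} (G : SimpleGraph (Fin m)) :
    Col (colSmall_phi G) ↔ G.Colorable 3 := by
  constructor
  · rintro ⟨σ, hσ⟩
    refine ⟨SimpleGraph.Coloring.mk (fun v : Fin m => σ v) ?_⟩
    intro v w h
    exact hσ v w ((colSmall_mem G v w).2 ⟨v.2, w.2, h⟩)
  · rintro ⟨c⟩
    refine ⟨fun v => if h : v < m then c ⟨v, h⟩ else 0, ?_⟩
    intro a b hab
    rw [colSmall_mem] at hab
    obtain ⟨ha, hb, h⟩ := hab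
    simp only [dif_pos ha, dif_pos hb]
    exact c.valid h

/-- transfer to `SimpleGraph (Fin m)` -/
theorem PG_eq (m : ℕ) (t : ℝ) :
    ex t (EN m) (fun A => ind (Col A)) =
      Pool.Agent.Hhelper85.TC.PG m t (fun G => G.Colorable 3) := by
  unfold ex Pool.Agent.Hhelper85.TC.PG
  rw [Finset.sum_filter]
  symm
  refine Finset.sum_bij (fun G _ => colSmall_phi G) ?_ ?_ ?_ ?_
  · intro G _
    rw [Finset.mem_powerset]
    exact colSmall_sub G
  · intro G _ H _ h
    exact colSmall_inj h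
  · intro A hA
    obtain ⟨G, hG⟩ := colSmall_surj (Finset.mem_powerset.1 hA)
    exact ⟨G, Finset.mem_univ _, hG⟩
  · intro G _
    rw [colSmall_card, card_EN]
    change _ = _ * ind (Col (colSmall_phi G))
    by_cases h : G.Colorable 3
    · rw [if_pos h, ind_of ((colSmall_col G).2 h), mul_one]
    · rw [if_neg h, ind_of_not (fun h1 => h ((colSmall_col G).1 h1)), mul_zero]

theorem col_small : ∃ δ : ℝ, 0 < δ ∧ ∃ N : ℕ, ∀ m : ℕ, N ≤ m → ∀ t : ℝ, c0 / m ≤ t → t ≤ 1 →
    ex t (EN m) (fun A => ind (Col A)) ≤ Real.exp (-(δ * m)) := by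
  refine ⟨1 / 10000000, by norm_num, 500000, ?_⟩
  intro m hm t ht0 ht1
  have hm' : (500000 : ℝ) ≤ m := by exact_mod_cast hm
  have hm0 : (0 : ℝ) < m := by linarith
  have hc : (0 : ℝ) ≤ c0 / m := by
    unfold c0
    positivity
  have h1 : ex (c0 / m) (EN m) (fun A => -1 * ind (Col A)) ≤ ex t (EN m) (fun A => -1 * ind (Col A)) := by
    refine ex_mono_t hc ht0 ht1 (EN m) _ ?_
    intro A B hAB _
    have h2 : ind (Col B) ≤ ind (Col A) := ind_mono (Col.mono hAB)
    linarith
  rw [ex_mul_left, ex_mul_left] at h1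
  have h2 := Pool.Agent.Hhelper85.TC.PG_colorable_le (n := m) (by omega)
  have h3 : ex (c0 / m) (EN m) (fun A => ind (Col A)) ≤
      Real.exp (16 - m / 250) + Real.exp (1 - 49 / 10000000 * m) := by
    rw [PG_eq]
    exact h2
  have h4 : Real.exp (-(1 / 10000000 * (m : ℝ)) - 1) ≤ Real.exp (-(1 / 10000000 * (m : ℝ))) / 2 := by
    rw [Real.exp_sub]
    have h5 : (2 : ℝ) ≤ Real.exp 1 := by
      have := Real.add_one_le_exp (1 : ℝ)
      linarith
    exact div_le_div_of_nonneg_left (Real.exp_pos _).le (by norm_num) h5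
  have h6 : Real.exp (16 - (m : ℝ) / 250) ≤ Real.exp (-(1 / 10000000 * (m : ℝ)) - 1) :=
    Real.exp_le_exp.2 (by linarith)
  have h7 : Real.exp (1 - 49 / 10000000 * (m : ℝ)) ≤ Real.exp (-(1 / 10000000 * (m : ℝ)) - 1) :=
    Real.exp_le_exp.2 (by linarith)
  linarith

end Pool.Agent.LC3
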