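import Pool.Agent.LC3.Defs

/-!
# LC3.CountPl : the number of possible places of the planted structure

`nb M A v` = neighbours of `v` in `range M`. `ss j = 2+3j`, `vv j = 3+3j`, `yy j = 4+3j` (`j < 6`), so
`Fin 20 = {0, 1} ∪ {ss j} ∪ {vv j} ∪ {yy j}`. For `τ : Fin 20 → ℕ` with values in `range M` and `PlOK`:
`τ 0` and the six vertices `τ (vv j)` are arbitrary (`M^7` choices); then `τ 1` is one of the at most `D`
neighbours of `τ 0` and `τ (ss j)`, `τ (yy j)` are among the at most three neighbours of `τ (vv j)`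
(`9^6` choices). So the number is at most `M^7 * D * 9^6`.
Formally: fibers of `τ ↦ (τ 0, fun j => τ (vv j))` (`Finset.card_eq_sum_card_fiberwise` or
`Finset.card_le_mul_card_image_of_maps_to`), each fiber injects by
`τ ↦ (τ 1, fun j => τ (ss j), fun j => τ (yy j))` into
`nb (τ 0) ×ˢ piFinset (nb (τ (vv j))) ×ˢ piFinset (nb (τ (vv j)))`.
-/

set_option autoImplicit false

open Classical

namespace Pool.Agent.LC3

/-- the neighbours of `v` in `range M` -/
noncomputable def nb (M : ℕ) (A : Finset (Sym2 ℕ)) (v : ℕ) : Finset ℕ :=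
  (Finset.range M).filter (fun w => s(v, w) ∈ A)

def ss (j : Fin 6) : Fin 20 := ⟨2 + 3 * (j : ℕ), by omega⟩

def vv (j : Fin 6) : Fin 20 := ⟨3 + 3 * (j : ℕ), by omega⟩

def yy (j : Fin 6) : Fin 20 := ⟨4 + 3 * (j : ℕ), by omega⟩

/-- necessary conditions for a place `τ` of the planted structure -/
def PlOK (M D : ℕ) (A : Finset (Sym2 ℕ)) (τ : Fin 20 → ℕ) : Prop :=
  (nb M A (τ 0)).card ≤ D ∧ τ 1 ∈ nb M A (τ 0) ∧
    ∀ j : Fin 6, (nb M A (τ (vv j))).card ≤ 3 ∧ τ (ss j) ∈ nb M A (τ (vv j)) ∧
      τ (yy j) ∈ nb M A (τ (vv j))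

private theorem CountPl_cases (i : Fin 20) : i = 0 ∨ i = 1 ∨ ∃ j : Fin 6, i = ss j ∨ i = vv j ∨ i = yy j := by
  by_cases h0 : i.val = 0
  · exact Or.inl (Fin.ext h0)
  by_cases h1 : i.val = 1
  · exact Or.inr (Or.inl (Fin.ext h1))
  right
  right
  have hi := i.isLt
  refine ⟨⟨(i.val - 2) / 3, by omega⟩, ?_⟩
  have h2 : (i.val - 2) % 3 = 0 ∨ (i.val - 2) % 3 = 1 ∨ (i.val - 2) % 3 = 2 := by omega
  rcases h2 with h2 | h2 | h2
  · left
    apply Fin.ext
    show i.val = 2 + 3 * ((i.val - 2) / 3)
    omega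
  · right
    left
    apply Fin.ext
    show i.val = 3 + 3 * ((i.val - 2) / 3)
    omega
  · right
    right
    apply Fin.ext
    show i.val = 4 + 3 * ((i.val - 2) / 3)
    omega

theorem count_pl (M D : ℕ) (A : Finset (Sym2 ℕ)) :
    ((Fintype.piFinset (fun _ : Fin 20 => Finset.range M)).filter (fun τ => PlOK M D A τ)).card ≤
      D * 9 ^ 6 * M ^ 7 := by
  set s := (Fintype.piFinset (fun _ : Fin 20 => Finset.range M)).filter (fun τ => PlOK M D A τ) with hs
  set f : (Fin 20 → ℕ) → ℕ × (Fin 6 → ℕ) := fun τ => (τ 0, fun j => τ (vv j)) with hf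
  set t : Finset (ℕ × (Fin 6 → ℕ)) := Finset.range M ×ˢ Fintype.piFinset (fun _ : Fin 6 => Finset.range M) with ht
  have hmaps : ∀ τ ∈ s, f τ ∈ t := by
    intro τ hτ
    rw [hs, Finset.mem_filter, Fintype.mem_piFinset] at hτ
    rw [ht, Finset.mem_product, Fintype.mem_piFinset]
    exact ⟨hτ.1 0, fun j => hτ.1 (vv j)⟩
  have hcard : t.card = M ^ 7 := by
    rw [ht, Finset.card_product, Fintype.card_piFinset, Finset.card_range, Finset.prod_const,
      Finset.card_univ, Fintype.card_fin]
    ring
  have hfib : ∀ b ∈ t, (s.filter (fun τ => f τ = b)).card ≤ D * 9 ^ 6 := by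
    rintro ⟨a, w⟩ _
    by_cases hne : (s.filter (fun τ => f τ = (a, w))).Nonempty
    · obtain ⟨τ₀, hτ₀⟩ := hne
      rw [Finset.mem_filter, hs, Finset.mem_filter] at hτ₀
      obtain ⟨⟨_, hok⟩, hfa⟩ := hτ₀
      have ha : τ₀ 0 = a := congrArg Prod.fst hfa
      have hw : ∀ j, τ₀ (vv j) = w j := fun j => congrFun (congrArg Prod.snd hfa) j
      have hD : (nb M A a).card ≤ D := by
        rw [← ha]
        exact hok.1
      have h3 : ∀ j, (nb M A (w j)).card ≤ 3 := by
        intro j
        rw [← hw j]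
        exact (hok.2.2 j).1
      set U : Finset (ℕ × (Fin 6 → ℕ) × (Fin 6 → ℕ)) := nb M A a ×ˢ
        (Fintype.piFinset (fun j : Fin 6 => nb M A (w j)) ×ˢ
          Fintype.piFinset (fun j : Fin 6 => nb M A (w j))) with hU
      have hle : (s.filter (fun τ => f τ = (a, w))).card ≤ U.card := by
        apply Finset.card_le_card_of_injOn (fun τ => (τ 1, (fun j => τ (ss j)), fun j => τ (yy j)))
        · intro τ hτ
          rw [Finset.mem_coe, Finset.mem_filter, hs, Finset.mem_filter] at hτ
          obtain ⟨⟨_, hok'⟩, hfa'⟩ := hτ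
          have ha' : τ 0 = a := congrArg Prod.fst hfa'
          have hw' : ∀ j, τ (vv j) = w j := fun j => congrFun (congrArg Prod.snd hfa') j
          rw [Finset.mem_coe, hU, Finset.mem_product, Finset.mem_product, Fintype.mem_piFinset,
            Fintype.mem_piFinset]
          refine ⟨?_, ?_, ?_⟩
          · rw [← ha']
            exact hok'.2.1
          · intro j
            rw [← hw' j]
            exact (hok'.2.2 j).2.1
          · intro j
            rw [← hw' j]
            exact (hok'.2.2 j).2.2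
        · intro τ hτ τ' hτ' he
          rw [Finset.mem_coe, Finset.mem_filter] at hτ hτ'
          have e0 : f τ = f τ' := hτ.2.trans hτ'.2.symm
          have e00 : τ 0 = τ' 0 := congrArg Prod.fst e0
          have ev : ∀ j, τ (vv j) = τ' (vv j) := fun j => congrFun (congrArg Prod.snd e0) j
          have e1 : τ 1 = τ' 1 := congrArg Prod.fst he
          have es : ∀ j, τ (ss j) = τ' (ss j) := fun j =>
            congrFun (congrArg (fun x => Prod.fst (Prod.snd x)) he) j
          have ey : ∀ j, τ (yy j) = τ' (yy j) := fun j =>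
            congrFun (congrArg (fun x => Prod.snd (Prod.snd x)) he) j
          funext i
          rcases CountPl_cases i with rfl | rfl | ⟨j, rfl | rfl | rfl⟩
          · exact e00
          · exact e1
          · exact es j
          · exact ev j
          · exact ey j
      have hprod : ∏ j : Fin 6, (nb M A (w j)).card ≤ 3 ^ 6 := by
        calc ∏ j : Fin 6, (nb M A (w j)).card ≤ ∏ _j : Fin 6, 3 :=
              Finset.prod_le_prod' fun j _ => h3 j
          _ = 3 ^ 6 := by rw [Finset.prod_const, Finset.card_univ, Fintype.card_fin]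
      calc _ ≤ U.card := hle
        _ = (nb M A a).card * ((∏ j : Fin 6, (nb M A (w j)).card) * ∏ j : Fin 6, (nb M A (w j)).card) := by
            rw [hU, Finset.card_product, Finset.card_product, Fintype.card_piFinset]
        _ ≤ D * (3 ^ 6 * 3 ^ 6) := Nat.mul_le_mul hD (Nat.mul_le_mul hprod hprod)
        _ = D * 9 ^ 6 := by norm_num
    · rw [Finset.not_nonempty_iff_eq_empty] at hne
      rw [hne, Finset.card_empty]
      exact Nat.zero_le _
  have h := Finset.card_le_mul_card_image_of_maps_to hmaps (D * 9 ^ 6) hfib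
  rw [hcard] at h
  exact h

end Pool.Agent.LC3
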