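import Mathlib

/-!
# LC3: definitions (MP_76eee7, negation, k = 3)

All graphs are finite sets of edges `A : Finset (Sym2 ℕ)`; the vertex set is `Finset.range n`.
-/

set_option autoImplicit false

open Classical

namespace Pool.Agent.LC3

noncomputable section

/-- indicator of a proposition -/
def ind (p : Prop) : ℝ := if p then 1 else 0

/-- expectation of `f` under the random subset of `E` in which every element of `E` is present
independently with probability `t` -/
def ex {α : Type*} (t : ℝ) (E : Finset α) (f : Finset α → ℝ) : ℝ :=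
  ∑ A ∈ E.powerset, t ^ A.card * (1 - t) ^ (E.card - A.card) * f A

/-- all edges inside the vertex set `S` -/
def EE (S : Finset ℕ) : Finset (Sym2 ℕ) := S.sym2.filter (fun e => ¬ e.IsDiag)

/-- all edges of the complete graph on `{0, ..., n-1}` -/
def EN (n : ℕ) : Finset (Sym2 ℕ) := EE (Finset.range n)

/-- the edges from `v` to the elements of `W` -/
def st (v : ℕ) (W : Finset ℕ) : Finset (Sym2 ℕ) := W.image (fun w => s(v, w))

/-- proper 3-colourings of the graph with edge set `A` -/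
def Proper (A : Finset (Sym2 ℕ)) (σ : ℕ → Fin 3) : Prop := ∀ a b, s(a, b) ∈ A → σ a ≠ σ b

/-- 3-colourable -/
def Col (A : Finset (Sym2 ℕ)) : Prop := ∃ σ : ℕ → Fin 3, Proper A σ

/-- `W` is a net of `A`: every proper 3-colouring uses all three colours on `W`. -/
def Net (A : Finset (Sym2 ℕ)) (W : Finset ℕ) : Prop :=
  ∀ σ : ℕ → Fin 3, Proper A σ → ∀ c : Fin 3, ∃ w ∈ W, σ w = c

/-- `x` and `y` have the same colour in every proper 3-colouring -/
def Eqv (A : Finset (Sym2 ℕ)) (x y : ℕ) : Prop := ∀ σ : ℕ → Fin 3, Proper A σ → σ x = σ y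

/-- `x` and `y` have different colours in every proper 3-colouring -/
def Dif (A : Finset (Sym2 ℕ)) (x y : ℕ) : Prop := ∀ σ : ℕ → Fin 3, Proper A σ → σ x ≠ σ y

/-- 3-choosable (lists are finite sets of natural numbers) -/
def Choos (A : Finset (Sym2 ℕ)) : Prop :=
  ∀ L : ℕ → Finset ℕ, (∀ v, (L v).card = 3) →
    ∃ f : ℕ → ℕ, (∀ v, f v ∈ L v) ∧ ∀ a b, s(a, b) ∈ A → f a ≠ f b

/-- 3-colourable but not 3-choosable -/
def Bd (A : Finset (Sym2 ℕ)) : Prop := Col A ∧ ¬ Choos A

/-- the probability that `G(n,t)` is not 3-colourable -/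
def q (n : ℕ) (t : ℝ) : ℝ := ex t (EN n) (fun A => ind (¬ Col A))

/-- the derivative of `q n` (see `hasDerivAt_q`) -/
def dq (n : ℕ) (t : ℝ) : ℝ :=
  ∑ e ∈ EN n, ex t ((EN n).erase e) (fun A => ind (Col A ∧ ¬ Col (insert e A)))

/-- the expected number of pivotal edges -/
def kap (n : ℕ) (t : ℝ) : ℝ :=
  ex t (EN n) (fun A => ind (¬ Col A) * ((A.filter (fun e => Col (A.erase e))).card : ℝ))

/-- the pivotal vertices -/
def Dset (n : ℕ) (A : Finset (Sym2 ℕ)) : Finset ℕ :=
  (Finset.range n).filter (fun v => Col (A.filter (fun e => v ∉ e)))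

/-- the expected number of pivotal vertices -/
def Dn (n : ℕ) (t : ℝ) : ℝ :=
  ex t (EN n) (fun A => ind (¬ Col A) * ((Dset n A).card : ℝ))

/-- the fraction of the `i`-subsets of `range m` which are nets -/
def nu (m i : ℕ) (A : Finset (Sym2 ℕ)) : ℝ :=
  ((((Finset.range m).powersetCard i).filter (fun W => Net A W)).card : ℝ) / (m.choose i : ℝ)

/-- probability that a random `i`-set is not a net but becomes a net after adding a random vertex -/
def tt (m i : ℕ) (A : Finset (Sym2 ℕ)) : ℝ := nu m (i + 1) A - nu m i A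

/-- binomial weights -/
def bb (m i : ℕ) (t : ℝ) : ℝ := (m.choose i : ℝ) * t ^ i * (1 - t) ^ (m - i)

/-- `P(Bin(m,t) > i)` -/
def PB (m i : ℕ) (t : ℝ) : ℝ := ∑ j ∈ Finset.Ioc i m, bb m j t

/-- the expectation of `tt m i` over 3-colourable graphs -/
def tau (m i : ℕ) (t : ℝ) : ℝ := ex t (EN m) (fun A => ind (Col A) * tt m i A)

/-- fraction of the `i`-sets `Z` which are not nets and for which more than `θ (m-i)` vertices `x`
complete `Z` to a net -/
def bigf (m i : ℕ) (θ : ℝ) (A : Finset (Sym2 ℕ)) : ℝ :=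
  ((((Finset.range m).powersetCard i).filter (fun Z => ¬ Net A Z ∧
      θ * ((m : ℝ) - i) <
        (((Finset.range m).filter (fun x => x ∉ Z ∧ Net A (insert x Z))).card : ℝ))).card : ℝ)
    / (m.choose i : ℝ)

/-- expectation of `bigf` over 3-colourable graphs -/
def Bf (m i : ℕ) (θ t : ℝ) : ℝ := ex t (EN m) (fun A => ind (Col A) * bigf m i θ A)

/-- there is a class of the relation `Eqv` with at least `θ m` elements -/
def Big (m : ℕ) (θ : ℝ) (A : Finset (Sym2 ℕ)) : Prop :=
  ∃ v < m, θ * m ≤ (((Finset.range m).filter (fun x => Eqv A v x)).card : ℝ)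

/-- probability that `G(m,t)` is 3-colourable with a class of size at least `θ m` -/
def ell (m : ℕ) (θ t : ℝ) : ℝ := ex t (EN m) (fun A => ind (Col A ∧ Big m θ A))

/-- normalised number of pairs `(x,y)` with `Eqv A x y` -/
def pp (m : ℕ) (A : Finset (Sym2 ℕ)) : ℝ :=
  ((((Finset.range m) ×ˢ (Finset.range m)).filter (fun p => Eqv A p.1 p.2)).card : ℝ) / (m : ℝ) ^ 2

/-- the probability that a new vertex, joined to every old vertex with probability `t`,
destroys 3-colourability -/
def hh (l : ℕ) (t : ℝ) (A : Finset (Sym2 ℕ)) : ℝ := ex t (Finset.range l) (fun W => ind (Net A W))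

/-- probability that both of two fixed vertices of `G(l+2,t)` are pivotal -/
def K2 (l : ℕ) (t : ℝ) : ℝ :=
  ex t (EN (l + 2)) (fun A => ind (¬ Col A ∧ Col (A.filter (fun e => l ∉ e)) ∧
    Col (A.filter (fun e => (l + 1) ∉ e))))

/-- number of edges of `A` inside `S` -/
def eIn (A : Finset (Sym2 ℕ)) (S : Finset ℕ) : ℕ := (A.filter (fun e => ∀ v ∈ e, v ∈ S)).card

/-- rate at which 3-colourability is destroyed, with weight `g` -/
def Rr (m : ℕ) (t : ℝ) (g : Finset (Sym2 ℕ) → ℝ) : ℝ :=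
  ∑ e ∈ EN m, ex t ((EN m).erase e) (fun A => ind (Col A ∧ ¬ Col (insert e A)) * g A)

/-- average over `x` of the probability that a random set with `x` added is a net -/
def nbar (m : ℕ) (t : ℝ) (A : Finset (Sym2 ℕ)) : ℝ :=
  (1 / (m : ℝ)) * ∑ x ∈ Finset.range m, ex t (Finset.range m) (fun W => ind (Net A (insert x W)))

/-- left and right end of the window: `al / n ≤ t ≤ be / n` -/
def al : ℝ := 1 / 10

/-- right end of the window -/
def be : ℝ := 126 / 25

/-- relabelling of a graph by a permutation of the vertices -/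
def rel (π : Equiv.Perm ℕ) (A : Finset (Sym2 ℕ)) : Finset (Sym2 ℕ) := A.image (Sym2.map π)

/-! ### the planted structure -/

/-- gadget number `j` (vertices `s = m+2+3j`, `v = m+3+3j`, `y = m+4+3j`), attached to
`x 0, ..., x 4`. -/
def gad (m j : ℕ) (x : Fin 5 → ℕ) : Finset (Sym2 ℕ) :=
  {s(m + 2 + 3 * j, x 0), s(m + 2 + 3 * j, x 1), s(m + 2 + 3 * j, m + 3 + 3 * j),
   s(m + 3 + 3 * j, x 2), s(m + 3 + 3 * j, m + 4 + 3 * j),
   s(m + 4 + 3 * j, x 3), s(m + 4 + 3 * j, x 4)}

/-- the graph `A` with the two new vertices `m` (joined to `Z`) and `m+1` (joined to `m` and `T`) -/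
def base2 (m : ℕ) (Z T : Finset ℕ) (A : Finset (Sym2 ℕ)) : Finset (Sym2 ℕ) :=
  A ∪ st m Z ∪ st (m + 1) (insert m T)

/-- the edges of the planted structure on the vertices `m, ..., m+19` -/
def tmpl (m : ℕ) (Z T : Finset ℕ) (x : Fin 6 → Fin 5 → ℕ) : Finset (Sym2 ℕ) :=
  st m Z ∪ st (m + 1) (insert m T) ∪
    Finset.univ.biUnion (fun j : Fin 6 => gad m (j : ℕ) (x j))

/-- the planted structure is good for `A` -/
def Good (m : ℕ) (Z T : Finset ℕ) (x : Fin 6 → Fin 5 → ℕ) (A : Finset (Sym2 ℕ)) : Prop :=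
  Col (base2 m Z T A) ∧ ∀ j : Fin 6,
    Eqv (base2 m Z T A) m (x j 0) ∧ Eqv (base2 m Z T A) (m + 1) (x j 1) ∧
    Eqv (base2 m Z T A) m (x j 2) ∧ Eqv (base2 m Z T A) m (x j 3) ∧
    Eqv (base2 m Z T A) (m + 1) (x j 4)

/-- all attachments of the gadgets -/
def Ext (m : ℕ) : Finset (Fin 6 → Fin 5 → ℕ) :=
  Fintype.piFinset (fun _ : Fin 6 => Fintype.piFinset (fun _ : Fin 5 => Finset.range m))

/-- proportion of good attachments, `|Z| = i`, `|T| = l` -/
def gf (m i l : ℕ) (A : Finset (Sym2 ℕ)) : ℝ :=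
  (((((Finset.range m).powersetCard i) ×ˢ (((Finset.range m).powersetCard l) ×ˢ Ext m)).filter
      (fun p => Good m p.1 p.2.1 p.2.2 A)).card : ℝ) /
    ((m.choose i : ℝ) * (m.choose l : ℝ) * (m : ℝ) ^ 30)

/-- total rate of leaving the set of 3-colourable, not 3-choosable graphs -/
def nuX (M : ℕ) : ℝ :=
  ∫ t in (0 : ℝ)..1, ∑ e ∈ EN M, ex t ((EN M).erase e) (fun A => ind (Bd A ∧ ¬ Col (insert e A)))

end

end Pool.Agent.LC3
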