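import Pool.Agent.LC3.Defs

/-!
# LC3.ExA : elementary calculus of the Bernoulli expectation `ex`

`ex t E f = ∑_{A ⊆ E} t^|A| (1-t)^(|E|-|A|) f A`.
All statements are elementary manipulations of finite sums over the powerset.
Hints: `Finset.sum_powerset_insert`, `Finset.sum_pow_mul_eq_add_pow`,
`Finset.sum_powerset_apply_card`, `Finset.sum_powerset` (sum over cardinalities),
`Finset.powerset_insert`, `Finset.induction_on`.
-/

set_option autoImplicit false

open Classical

namespace Pool.Agent.LC3

variable {α : Type*}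

theorem ind_nonneg (p : Prop) : 0 ≤ ind p := by
  unfold ind
  split_ifs <;> norm_num

theorem ind_le_one (p : Prop) : ind p ≤ 1 := by
  unfold ind
  split_ifs <;> norm_num

theorem ind_of {p : Prop} (h : p) : ind p = 1 := by
  unfold ind
  rw [if_pos h]

theorem ind_of_not {p : Prop} (h : ¬ p) : ind p = 0 := by
  unfold ind
  rw [if_neg h]

theorem ind_mono {p r : Prop} (h : p → r) : ind p ≤ ind r := by
  by_cases hp : p
  · rw [ind_of hp, ind_of (h hp)]
  · rw [ind_of_not hp]
    exact ind_nonneg r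

theorem ind_and (p r : Prop) : ind (p ∧ r) = ind p * ind r := by
  by_cases hp : p
  · by_cases hr : r
    · rw [ind_of hp, ind_of hr, ind_of ⟨hp, hr⟩, one_mul]
    · rw [ind_of_not hr, ind_of_not (fun h => hr h.2), mul_zero]
  · rw [ind_of_not hp, ind_of_not (fun h => hp h.1), zero_mul]

theorem ind_not (p : Prop) : ind (¬ p) = 1 - ind p := by
  by_cases hp : p
  · rw [ind_of hp, ind_of_not (not_not.2 hp), sub_self]
  · rw [ind_of_not hp, ind_of hp, sub_zero]

theorem ex_congr {t : ℝ} {E : Finset α} {f g : Finset α → ℝ} (h : ∀ A, A ⊆ E → f A = g A) :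
    ex t E f = ex t E g := by
  unfold ex
  exact Finset.sum_congr rfl (fun A hA => by rw [h A (Finset.mem_powerset.1 hA)])

theorem ex_nonneg {t : ℝ} (h0 : 0 ≤ t) (h1 : t ≤ 1) {E : Finset α} {f : Finset α → ℝ}
    (h : ∀ A, A ⊆ E → 0 ≤ f A) : 0 ≤ ex t E f := by
  unfold ex
  exact Finset.sum_nonneg (fun A hA => mul_nonneg
    (mul_nonneg (pow_nonneg h0 _) (pow_nonneg (by linarith) _)) (h A (Finset.mem_powerset.1 hA)))

theorem ex_mono {t : ℝ} (h0 : 0 ≤ t) (h1 : t ≤ 1) {E : Finset α} {f g : Finset α → ℝ}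
    (h : ∀ A, A ⊆ E → f A ≤ g A) : ex t E f ≤ ex t E g := by
  unfold ex
  exact Finset.sum_le_sum (fun A hA => mul_le_mul_of_nonneg_left (h A (Finset.mem_powerset.1 hA))
    (mul_nonneg (pow_nonneg h0 _) (pow_nonneg (by linarith) _)))

theorem ex_add (t : ℝ) (E : Finset α) (f g : Finset α → ℝ) :
    ex t E (fun A => f A + g A) = ex t E f + ex t E g := by
  unfold ex
  rw [← Finset.sum_add_distrib]
  exact Finset.sum_congr rfl (fun A _ => by ring)

theorem ex_sub (t : ℝ) (E : Finset α) (f g : Finset α → ℝ) :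
    ex t E (fun A => f A - g A) = ex t E f - ex t E g := by
  unfold ex
  rw [← Finset.sum_sub_distrib]
  exact Finset.sum_congr rfl (fun A _ => by ring)

theorem ex_mul_left (t : ℝ) (E : Finset α) (c : ℝ) (f : Finset α → ℝ) :
    ex t E (fun A => c * f A) = c * ex t E f := by
  unfold ex
  rw [Finset.mul_sum]
  exact Finset.sum_congr rfl (fun A _ => by ring)

theorem ex_mul_right (t : ℝ) (E : Finset α) (c : ℝ) (f : Finset α → ℝ) :
    ex t E (fun A => f A * c) = ex t E f * c := by
  unfold ex
  rw [Finset.sum_mul]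
  exact Finset.sum_congr rfl (fun A _ => by ring)

theorem ex_sum {ι : Type*} (t : ℝ) (E : Finset α) (s : Finset ι) (f : ι → Finset α → ℝ) :
    ex t E (fun A => ∑ i ∈ s, f i A) = ∑ i ∈ s, ex t E (f i) := by
  unfold ex
  rw [Finset.sum_comm]
  exact Finset.sum_congr rfl (fun A _ => by rw [Finset.mul_sum])

theorem ex_const (t : ℝ) (E : Finset α) (c : ℝ) : ex t E (fun _ => c) = c := by
  unfold ex
  rw [← Finset.sum_mul, Finset.sum_pow_mul_eq_add_pow]
  norm_num

theorem ex_le_of_le {t : ℝ} (h0 : 0 ≤ t) (h1 : t ≤ 1) {E : Finset α} {f : Finset α → ℝ} {c : ℝ}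
    (h : ∀ A, A ⊆ E → f A ≤ c) : ex t E f ≤ c :=
  (ex_mono h0 h1 h).trans (ex_const t E c).le

theorem ex_zero_left (E : Finset α) (f : Finset α → ℝ) : ex 0 E f = f ∅ := by
  unfold ex
  rw [Finset.sum_eq_single ∅]
  · simp
  · intro A _ hA
    have : A.card ≠ 0 := fun h => hA (Finset.card_eq_zero.1 h)
    rw [zero_pow this]
    ring
  · intro h
    exact absurd (Finset.empty_mem_powerset E) h

theorem ex_one_left (E : Finset α) (f : Finset α → ℝ) : ex 1 E f = f E := by
  unfold ex
  rw [Finset.sum_eq_single E]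
  · simp
  · intro A hA hne
    have hlt : A.card < E.card :=
      Finset.card_lt_card (Finset.ssubset_iff_subset_ne.2 ⟨Finset.mem_powerset.1 hA, hne⟩)
    have : E.card - A.card ≠ 0 := by omega
    rw [sub_self, zero_pow this]
    ring
  · intro h
    exact absurd (Finset.mem_powerset_self E) h

/-- grouping by cardinality -/
theorem ex_by_card (t : ℝ) (E : Finset α) (f : Finset α → ℝ) :
    ex t E f = ∑ i ∈ Finset.range (E.card + 1),
      t ^ i * (1 - t) ^ (E.card - i) * ∑ A ∈ E.powersetCard i, f A := by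
  unfold ex
  rw [Finset.sum_powerset]
  refine Finset.sum_congr rfl (fun i _ => ?_)
  rw [Finset.mul_sum]
  refine Finset.sum_congr rfl (fun A hA => ?_)
  rw [(Finset.mem_powersetCard.1 hA).2]

/-- the random set has binomial size -/
theorem ex_card (t : ℝ) (E : Finset α) (φ : ℕ → ℝ) :
    ex t E (fun A => φ A.card) = ∑ i ∈ Finset.range (E.card + 1),
      (E.card.choose i : ℝ) * t ^ i * (1 - t) ^ (E.card - i) * φ i := by
  rw [ex_by_card]
  refine Finset.sum_congr rfl (fun i _ => ?_)
  have : ∑ A ∈ E.powersetCard i, φ A.card = (E.card.choose i : ℝ) * φ i := by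
    rw [Finset.sum_congr rfl (fun A hA => by rw [(Finset.mem_powersetCard.1 hA).2] :
      ∀ A ∈ E.powersetCard i, φ A.card = φ i), Finset.sum_const, Finset.card_powersetCard,
      nsmul_eq_mul]
  rw [this]
  ring

/-- `∑ A ⊆ E, ∏_{e ∈ A} (t y) ∏_{e ∉ A} (1-t)`: the generating function of the number of elements -/
theorem ex_pow_card (t y : ℝ) (E : Finset α) :
    ex t E (fun A => y ^ A.card) = (1 - t + t * y) ^ E.card := by
  unfold ex
  have h := Finset.sum_pow_mul_eq_add_pow (t * y) (1 - t) E
  rw [add_comm (t * y)] at h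
  rw [← h]
  refine Finset.sum_congr rfl (fun A _ => ?_)
  rw [mul_pow]
  ring

section
variable [DecidableEq α]

theorem ex_insert (t : ℝ) (E : Finset α) (a : α) (ha : a ∉ E) (f : Finset α → ℝ) :
    ex t (insert a E) f = t * ex t E (fun A => f (insert a A)) + (1 - t) * ex t E f := by
  unfold ex
  rw [Finset.sum_powerset_insert ha, Finset.mul_sum, Finset.mul_sum, add_comm]
  congr 1
  · refine Finset.sum_congr rfl (fun A hA => ?_)
    have hA' := Finset.mem_powerset.1 hA
    have haA : a ∉ A := fun h => ha (hA' h)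
    rw [Finset.card_insert_of_notMem haA, Finset.card_insert_of_notMem ha,
      Nat.add_sub_add_right, pow_succ]
    ring
  · refine Finset.sum_congr rfl (fun A hA => ?_)
    have hA' := Finset.mem_powerset.1 hA
    have hc := Finset.card_le_card hA'
    rw [Finset.card_insert_of_notMem ha]
    have : E.card + 1 - A.card = (E.card - A.card) + 1 := by omega
    rw [this, pow_succ]
    ring

theorem ex_union (t : ℝ) (E₁ E₂ : Finset α) (h : Disjoint E₁ E₂) (f : Finset α → ℝ) :
    ex t (E₁ ∪ E₂) f = ex t E₁ (fun A => ex t E₂ (fun B => f (A ∪ B))) := by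
  induction E₁ using Finset.induction_on generalizing f with
  | empty =>
    have h1 : ex t (∅ : Finset α) (fun A => ex t E₂ (fun B => f (A ∪ B)))
        = ex t E₂ (fun B => f (∅ ∪ B)) := by
      unfold ex
      simp
    rw [h1, Finset.empty_union]
    exact ex_congr (fun A _ => by rw [Finset.empty_union])
  | insert a s ha ih =>
    have hd : Disjoint s E₂ := Finset.disjoint_of_subset_left (Finset.subset_insert a s) h
    have ha2 : a ∉ E₂ := fun h' =>
      (Finset.disjoint_left.1 h) (Finset.mem_insert_self a s) h'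
    have ha3 : a ∉ s ∪ E₂ := by
      rw [Finset.mem_union]
      rintro (h' | h')
      · exact ha h'
      · exact ha2 h'
    rw [Finset.insert_union, ex_insert t _ a ha3, ex_insert t _ a ha, ih hd, ih hd]
    congr 2
    exact ex_congr (fun A _ => ex_congr (fun B _ => by rw [Finset.insert_union]))

theorem ex_image {β : Type*} [DecidableEq β] (t : ℝ) (E : Finset α) (φ : α → β)
    (hφ : Set.InjOn φ (E : Set α)) (f : Finset β → ℝ) :
    ex t (E.image φ) f = ex t E (fun A => f (A.image φ)) := by
  induction E using Finset.induction_on generalizing f with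
  | empty =>
    unfold ex
    simp
  | insert a s ha ih =>
    have hs : Set.InjOn φ (s : Set α) := hφ.mono (by
      intro x hx
      exact Finset.mem_coe.2 (Finset.mem_insert_of_mem (Finset.mem_coe.1 hx)))
    have ha' : φ a ∉ s.image φ := by
      intro h
      obtain ⟨b, hb, hba⟩ := Finset.mem_image.1 h
      have : b = a := hφ (Finset.mem_coe.2 (Finset.mem_insert_of_mem hb))
        (Finset.mem_coe.2 (Finset.mem_insert_self a s)) hba
      exact ha (this ▸ hb)
    rw [Finset.image_insert, ex_insert t _ _ ha', ex_insert t _ a ha, ih hs, ih hs]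
    congr 2
    exact ex_congr (fun A _ => by rw [Finset.image_insert])

/-- the probability that the random set is exactly `A₀` -/
theorem ex_eq_single (t : ℝ) (E A₀ : Finset α) (h : A₀ ⊆ E) (g : Finset α → ℝ) :
    ex t E (fun A => ind (A = A₀) * g A) = t ^ A₀.card * (1 - t) ^ (E.card - A₀.card) * g A₀ := by
  unfold ex
  rw [Finset.sum_eq_single A₀]
  · show t ^ A₀.card * (1 - t) ^ (E.card - A₀.card) * (ind (A₀ = A₀) * g A₀) = _
    rw [ind_of rfl, one_mul]
  · intro A _ hne
    show t ^ A.card * (1 - t) ^ (E.card - A.card) * (ind (A = A₀) * g A) = 0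
    rw [ind_of_not hne]
    ring
  · intro hn
    exact absurd (Finset.mem_powerset.2 h) hn

/-- if `f` only depends on the trace on `F ⊆ E` -/
theorem ex_inter (t : ℝ) (E F : Finset α) (h : F ⊆ E) (f : Finset α → ℝ) :
    ex t E (fun A => f (A ∩ F)) = ex t F f := by
  have hE : E = F ∪ (E \ F) := by
    rw [Finset.union_sdiff_of_subset h]
  conv_lhs => rw [hE]
  rw [ex_union t F (E \ F) Finset.disjoint_sdiff]
  refine ex_congr (fun A hA => ?_)
  have : ∀ B, B ⊆ E \ F → f ((A ∪ B) ∩ F) = f A := by
    intro B hB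
    congr 1
    ext x
    simp only [Finset.mem_inter, Finset.mem_union]
    constructor
    · rintro ⟨h1 | h1, h2⟩
      · exact h1
      · exact absurd h2 (Finset.mem_sdiff.1 (hB h1)).2
    · intro h1
      exact ⟨Or.inl h1, hA h1⟩
  rw [ex_congr this, ex_const]

theorem ex_sum_mem (t : ℝ) (E : Finset α) (g : α → Finset α → ℝ) :
    ex t E (fun A => ∑ e ∈ A, g e A) = t * ∑ e ∈ E, ex t (E.erase e) (fun A => g e (insert e A)) := by
  have h1 : ex t E (fun A => ∑ e ∈ A, g e A)
      = ex t E (fun A => ∑ e ∈ E, ind (e ∈ A) * g e A) := by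
    refine ex_congr (fun A hA => ?_)
    rw [← Finset.sum_subset hA]
    · exact Finset.sum_congr rfl (fun e he => by rw [ind_of he, one_mul])
    · intro e _ he
      rw [ind_of_not he, zero_mul]
  rw [h1, ex_sum, Finset.mul_sum]
  refine Finset.sum_congr rfl (fun e he => ?_)
  conv_lhs => rw [← Finset.insert_erase he]
  rw [ex_insert t (E.erase e) e (Finset.notMem_erase e E)]
  have h2 : ex t (E.erase e) (fun A => ind (e ∈ A) * g e A) = 0 := by
    rw [ex_congr (g := fun _ => 0), ex_const]
    intro A hA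
    have : e ∉ A := fun h => Finset.notMem_erase e E (hA h)
    rw [ind_of_not this, zero_mul]
  rw [h2, mul_zero, add_zero]
  congr 1
  refine ex_congr (fun A _ => ?_)
  rw [ind_of (Finset.mem_insert_self e A), one_mul]

theorem ex_sum_not_mem (t : ℝ) (E : Finset α) (g : α → Finset α → ℝ) :
    ex t E (fun A => ∑ e ∈ E \ A, g e A) = (1 - t) * ∑ e ∈ E, ex t (E.erase e) (fun A => g e A) := by
  have h1 : ex t E (fun A => ∑ e ∈ E \ A, g e A)
      = ex t E (fun A => ∑ e ∈ E, ind (e ∉ A) * g e A) := by
    refine ex_congr (fun A hA => ?_)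
    rw [← Finset.sum_subset (Finset.sdiff_subset : E \ A ⊆ E)]
    · exact Finset.sum_congr rfl (fun e he => by
        rw [ind_of (Finset.mem_sdiff.1 he).2, one_mul])
    · intro e heE he
      have : ¬ (e ∉ A) := fun h => he (Finset.mem_sdiff.2 ⟨heE, h⟩)
      rw [ind_of_not this, zero_mul]
  rw [h1, ex_sum, Finset.mul_sum]
  refine Finset.sum_congr rfl (fun e he => ?_)
  conv_lhs => rw [← Finset.insert_erase he]
  rw [ex_insert t (E.erase e) e (Finset.notMem_erase e E)]
  have h2 : ex t (E.erase e) (fun A => ind (e ∉ insert e A) * g e (insert e A)) = 0 := by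
    rw [ex_congr (g := fun _ => 0), ex_const]
    intro A _
    have : ¬ (e ∉ insert e A) := fun h => h (Finset.mem_insert_self e A)
    rw [ind_of_not this, zero_mul]
  rw [h2, mul_zero, zero_add]
  congr 1
  refine ex_congr (fun A hA => ?_)
  have : e ∉ A := fun h => Finset.notMem_erase e E (hA h)
  rw [ind_of this, one_mul]

/-- monotone functions have monotone expectation -/
theorem ex_mono_t {s t : ℝ} (h0 : 0 ≤ s) (hst : s ≤ t) (h1 : t ≤ 1) (E : Finset α)
    (f : Finset α → ℝ) (hf : ∀ A B, A ⊆ B → B ⊆ E → f A ≤ f B) : ex s E f ≤ ex t E f := by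
  induction E using Finset.induction_on generalizing f with
  | empty =>
    unfold ex
    simp
  | insert a E ha ih =>
    rw [ex_insert s _ a ha, ex_insert t _ a ha]
    have ih1 : ex s E (fun A => f (insert a A)) ≤ ex t E (fun A => f (insert a A)) :=
      ih _ (fun A B hAB hB => hf _ _ (Finset.insert_subset_insert a hAB)
        (Finset.insert_subset_insert a hB))
    have ih2 : ex s E f ≤ ex t E f :=
      ih _ (fun A B hAB hB => hf _ _ hAB (hB.trans (Finset.subset_insert a E)))
    have h3 : ex t E f ≤ ex t E (fun A => f (insert a A)) :=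
      ex_mono (h0.trans hst) h1 (fun A hA => hf _ _ (Finset.subset_insert a A)
        (Finset.insert_subset_insert a hA))
    have h4 : s * ex s E (fun A => f (insert a A)) ≤ s * ex t E (fun A => f (insert a A)) :=
      mul_le_mul_of_nonneg_left ih1 h0
    have h5 : (1 - s) * ex s E f ≤ (1 - s) * ex t E f :=
      mul_le_mul_of_nonneg_left ih2 (by linarith)
    have h6 : (t - s) * ex t E f ≤ (t - s) * ex t E (fun A => f (insert a A)) :=
      mul_le_mul_of_nonneg_left h3 (by linarith)
    nlinarith [h4, h5, h6]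

end

/-- Markov: `P(D ≤ |W|) ≤ |E| t / D` -/
theorem ex_card_ge {t : ℝ} (h0 : 0 ≤ t) (h1 : t ≤ 1) (E : Finset α) (D : ℕ) (hD : 0 < D) :
    ex t E (fun W => ind (D ≤ W.card)) ≤ (E.card : ℝ) * t / D := by
  have hD' : (0 : ℝ) < D := by exact_mod_cast hD
  rw [le_div_iff₀ hD', ← ex_mul_right]
  have h2 : ex t E (fun W => (W.card : ℝ)) = (E.card : ℝ) * t := by
    have h3 := ex_sum_mem t E (fun _ _ => (1 : ℝ))
    have h4 : ex t E (fun A => ∑ e ∈ A, (1 : ℝ)) = ex t E (fun W => (W.card : ℝ)) :=
      ex_congr (fun A _ => by simp)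
    rw [← h4, h3]
    simp only [ex_const]
    simp [mul_comm]
  rw [← h2]
  refine ex_mono h0 h1 (fun W _ => ?_)
  by_cases h : D ≤ W.card
  · rw [ind_of h, one_mul]
    exact_mod_cast h
  · rw [ind_of_not h, zero_mul]
    exact Nat.cast_nonneg _

end Pool.Agent.LC3
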