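import Pool.Agent.LC3.ExA

/-!
# LC3.ExB : the derivative of `ex` in `t`

`d/dt ex t E f = ∑_{e ∈ E} ex t (E \ e) (f(A ∪ e) - f(A))`.
Proof: induction on `E` with `ex_insert`:
`ex t (insert a E) f = t X(t) + (1-t) Y(t)` with `X = ex t E (f ∘ insert a)`, `Y = ex t E f`, so the
derivative is `X - Y + t X' + (1-t) Y'`, and by induction
`t X' + (1-t) Y' = ∑_{e ∈ E} [t ex (E\e) (f(a,e,A) - f(a,A)) + (1-t) ex (E\e)(f(e,A) - f(A))]
 = ∑_{e ∈ E} ex t ((insert a E)\e) (f(e,A) - f(A))`.
Then the fundamental theorem of calculus (`intervalIntegral.integral_eq_sub_of_hasDerivAt`).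
-/

set_option autoImplicit false

open Classical

namespace Pool.Agent.LC3

variable {α : Type*}

theorem continuous_ex (E : Finset α) (f : Finset α → ℝ) : Continuous (fun t : ℝ => ex t E f) := by
  unfold ex
  refine continuous_finset_sum _ fun A _ => ?_
  exact ((continuous_id.pow _).mul ((continuous_const.sub continuous_id).pow _)).mul
    continuous_const

theorem hasDerivAt_ex [DecidableEq α] (E : Finset α) (f : Finset α → ℝ) (t : ℝ) :
    HasDerivAt (fun t : ℝ => ex t E f)
      (∑ e ∈ E, ex t (E.erase e) (fun A => f (insert e A) - f A)) t := by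
  induction E using Finset.induction_on generalizing f with
  | empty =>
    have e1 : (fun t : ℝ => ex t ∅ f) = fun _ => f ∅ := by
      funext t
      simp [ex]
    rw [e1, Finset.sum_empty]
    exact hasDerivAt_const t _
  | insert a E ha ih =>
    have e1 : (fun t : ℝ => ex t (insert a E) f) =
        fun t => t * ex t E (fun A => f (insert a A)) + (1 - t) * ex t E f := by
      funext t
      exact ex_insert t E a ha f
    rw [e1]
    have h1 := (hasDerivAt_id t).mul (ih (fun A => f (insert a A)))
    have h2 := ((hasDerivAt_id t).const_sub 1).mul (ih f)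
    have h3 := h1.add h2
    refine h3.congr_deriv ?_
    rw [Finset.sum_insert ha, Finset.erase_insert ha, ex_sub]
    have e2 : ∑ e ∈ E, ex t ((insert a E).erase e) (fun A => f (insert e A) - f A) =
        t * (∑ e ∈ E, ex t (E.erase e) (fun A => f (insert a (insert e A)) - f (insert a A))) +
        (1 - t) * ∑ e ∈ E, ex t (E.erase e) (fun A => f (insert e A) - f A) := by
      rw [Finset.mul_sum, Finset.mul_sum, ← Finset.sum_add_distrib]
      refine Finset.sum_congr rfl fun e he => ?_
      have hne : a ≠ e := fun h => ha (h ▸ he)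
      have hae : a ∉ E.erase e := fun h => ha (Finset.mem_of_mem_erase h)
      rw [Finset.erase_insert_of_ne hne, ex_insert t (E.erase e) a hae]
      congr 2
      refine ex_congr fun A _ => ?_
      rw [Finset.insert_comm]
    rw [e2]
    simp only [id]
    ring

/-- the flow identity for an arbitrary event: total inflow minus total outflow on `[0,1]` -/
theorem flow_ex [DecidableEq α] (E : Finset α) (X : Finset α → Prop) (h0 : ¬ X ∅) (h1 : ¬ X E) :
    ∫ t in (0 : ℝ)..1, ∑ e ∈ E, ex t (E.erase e) (fun A => ind (¬ X A ∧ X (insert e A))) =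
    ∫ t in (0 : ℝ)..1, ∑ e ∈ E, ex t (E.erase e) (fun A => ind (X A ∧ ¬ X (insert e A))) := by
  have c1 : Continuous fun t : ℝ =>
      ∑ e ∈ E, ex t (E.erase e) (fun A => ind (¬ X A ∧ X (insert e A))) :=
    continuous_finset_sum _ fun e _ => continuous_ex _ _
  have c2 : Continuous fun t : ℝ =>
      ∑ e ∈ E, ex t (E.erase e) (fun A => ind (X A ∧ ¬ X (insert e A))) :=
    continuous_finset_sum _ fun e _ => continuous_ex _ _
  have e1 : ∀ t : ℝ, ∑ e ∈ E, ex t (E.erase e) (fun A => ind (X (insert e A)) - ind (X A)) =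
      (∑ e ∈ E, ex t (E.erase e) (fun A => ind (¬ X A ∧ X (insert e A)))) -
      ∑ e ∈ E, ex t (E.erase e) (fun A => ind (X A ∧ ¬ X (insert e A))) := by
    intro t
    rw [← Finset.sum_sub_distrib]
    refine Finset.sum_congr rfl fun e _ => ?_
    rw [← ex_sub]
    refine ex_congr fun A _ => ?_
    by_cases ha : X A <;> by_cases hb : X (insert e A) <;> simp [ind, ha, hb]
  have h2 : ∫ t in (0 : ℝ)..1,
      ∑ e ∈ E, ex t (E.erase e) (fun A => ind (X (insert e A)) - ind (X A)) = 0 := by
    have c3 : Continuous fun t : ℝ =>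
        ∑ e ∈ E, ex t (E.erase e) (fun A => ind (X (insert e A)) - ind (X A)) :=
      continuous_finset_sum _ fun e _ => continuous_ex _ _
    rw [intervalIntegral.integral_eq_sub_of_hasDerivAt
      (fun t _ => hasDerivAt_ex E (fun A => ind (X A)) t) (c3.intervalIntegrable _ _),
      ex_one_left, ex_zero_left, ind_of_not h0, ind_of_not h1, sub_zero]
  simp only [e1] at h2
  rw [intervalIntegral.integral_sub (c1.intervalIntegrable _ _) (c2.intervalIntegrable _ _)] at h2
  linarith

end Pool.Agent.LC3
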