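import Pool.Agent.LC3.Split

/-!
# LC3.FrB : translation between graphs on `Fin M` and edge sets in `EN M`

`S` a set of edges of the complete graph on `Fin M`, `G = SimpleGraph.fromEdgeSet S`,
`A = S.image (Sym2.map Fin.val)`.
* `s(a,b) ∈ A` iff `a = u.val`, `b = v.val` with `s(u,v) ∈ S`.
* `fr_col`: a 3-colouring of `G` is extended by `0` to `ℕ`; conversely restrict.
* `fr_choos`: lists `L : Fin M → Finset ℕ` are extended by `{0,1,2}`; a colouring from lists on `Fin M` is
  extended by arbitrary elements of the lists; conversely restrict.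
-/

set_option autoImplicit false

open Classical

namespace Pool.Agent.LC3

private theorem mem_img {M : ℕ} {S : Finset (Sym2 (Fin M))} {a b : ℕ} :
    s(a, b) ∈ S.image (Sym2.map Fin.val) ↔
      ∃ u v : Fin M, u.val = a ∧ v.val = b ∧ s(u, v) ∈ S := by
  rw [Finset.mem_image]
  constructor
  · rintro ⟨e, he, heq⟩
    induction e using Sym2.ind with
    | _ u v =>
      rw [Sym2.map_mk] at heq
      rcases Sym2.eq_iff.1 heq with ⟨h1, h2⟩ | ⟨h1, h2⟩
      · exact ⟨u, v, h1, h2, he⟩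
      · exact ⟨v, u, h2, h1, by rw [Sym2.eq_swap]; exact he⟩
  · rintro ⟨u, v, rfl, rfl, h⟩
    exact ⟨s(u, v), h, by rw [Sym2.map_mk]⟩

theorem fr_col {M : ℕ} (S : Finset (Sym2 (Fin M))) (hS : ∀ e ∈ S, ¬ e.IsDiag) :
    (SimpleGraph.fromEdgeSet (S : Set (Sym2 (Fin M)))).Colorable 3 ↔
      Col (S.image (Sym2.map Fin.val)) := by
  constructor
  · rintro ⟨C⟩
    refine ⟨fun a => if h : a < M then C ⟨a, h⟩ else 0, ?_⟩
    intro a b hab
    obtain ⟨u, v, rfl, rfl, h⟩ := mem_img.1 hab
    have hne : u ≠ v := fun h2 => hS _ h (by rw [Sym2.mk_isDiag_iff]; exact h2)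
    have hadj : (SimpleGraph.fromEdgeSet (S : Set (Sym2 (Fin M)))).Adj u v := by
      rw [SimpleGraph.fromEdgeSet_adj]
      exact ⟨Finset.mem_coe.2 h, hne⟩
    have hv := C.valid hadj
    simpa using hv
  · rintro ⟨σ, hσ⟩
    refine ⟨SimpleGraph.Coloring.mk (fun u : Fin M => σ u.val) ?_⟩
    intro u v huv
    rw [SimpleGraph.fromEdgeSet_adj] at huv
    exact hσ _ _ (mem_img.2 ⟨u, v, rfl, rfl, Finset.mem_coe.1 huv.1⟩)

theorem fr_choos {M : ℕ} (S : Finset (Sym2 (Fin M))) (hS : ∀ e ∈ S, ¬ e.IsDiag) :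
    (∀ L : Fin M → Finset ℕ, (∀ v, (L v).card = 3) →
      ∃ f : Fin M → ℕ, (∀ v, f v ∈ L v) ∧
        ∀ u v, (SimpleGraph.fromEdgeSet (S : Set (Sym2 (Fin M)))).Adj u v → f u ≠ f v) ↔
      Choos (S.image (Sym2.map Fin.val)) := by
  constructor
  · intro H L hL
    obtain ⟨f, hf1, hf2⟩ := H (fun u => L u.val) (fun u => hL u.val)
    have hne : ∀ a, ∃ c, c ∈ L a := fun a =>
      (Finset.card_pos.1 (by rw [hL a]; norm_num : 0 < (L a).card))
    choose g hg using hne
    refine ⟨fun a => if h : a < M then f ⟨a, h⟩ else g a, ?_, ?_⟩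
    · intro a
      by_cases h : a < M
      · simp only [h, dite_true]
        exact hf1 ⟨a, h⟩
      · simp only [h, dite_false]
        exact hg a
    · intro a b hab
      obtain ⟨u, v, rfl, rfl, h⟩ := mem_img.1 hab
      have hne : u ≠ v := fun h2 => hS _ h (by rw [Sym2.mk_isDiag_iff]; exact h2)
      have hadj : (SimpleGraph.fromEdgeSet (S : Set (Sym2 (Fin M)))).Adj u v := by
        rw [SimpleGraph.fromEdgeSet_adj]
        exact ⟨Finset.mem_coe.2 h, hne⟩
      have hv := hf2 u v hadj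
      simpa using hv
  · intro H L hL
    obtain ⟨f, hf1, hf2⟩ := H (fun a => if h : a < M then L ⟨a, h⟩ else {0, 1, 2}) (by
      intro a
      by_cases h : a < M
      · simp only [h, dite_true]
        exact hL _
      · simp only [h, dite_false]
        decide)
    refine ⟨fun u => f u.val, ?_, ?_⟩
    · intro u
      have := hf1 u.val
      simpa using this
    · intro u v huv
      rw [SimpleGraph.fromEdgeSet_adj] at huv
      exact hf2 _ _ (mem_img.2 ⟨u, v, rfl, rfl, Finset.mem_coe.1 huv.1⟩)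

/-- the edges of the complete graph on `Fin M` correspond to `EN M` -/
theorem fr_top {M : ℕ} :
    (Finset.univ.filter (fun e : Sym2 (Fin M) => ¬ e.IsDiag)).image (Sym2.map Fin.val) = EN M := by
  ext e
  induction e using Sym2.ind with
  | _ a b =>
    rw [mem_img]
    unfold EN EE
    rw [Finset.mem_filter, Finset.mk_mem_sym2_iff, Finset.mem_range, Finset.mem_range,
      Sym2.mk_isDiag_iff]
    constructor
    · rintro ⟨u, v, rfl, rfl, h⟩
      rw [Finset.mem_filter, Sym2.mk_isDiag_iff] at h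
      exact ⟨⟨u.2, v.2⟩, fun h2 => h.2 (Fin.ext h2)⟩
    · rintro ⟨⟨ha, hb⟩, hab⟩
      refine ⟨⟨a, ha⟩, ⟨b, hb⟩, rfl, rfl, ?_⟩
      rw [Finset.mem_filter, Sym2.mk_isDiag_iff]
      exact ⟨Finset.mem_univ _, fun h2 => hab (congrArg Fin.val h2)⟩

theorem map_val_inj {M : ℕ} : Function.Injective (Sym2.map (Fin.val : Fin M → ℕ)) :=
  Sym2.map.injective Fin.val_injective

end Pool.Agent.LC3
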