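import Pool.Agent.LC3.FrA
import Pool.Agent.LC3.FrB
import Pool.Agent.LC3.NetBasic

/-!
# LC3.Frozen : the probability of the frozen statement is at most `1 - nuX M`

Apply `order_ge` to `α = (⊤ : SimpleGraph (Fin M)).edgeSet`, `N = Nat.card α`,
`φ a = Sym2.map Fin.val a.val` (injective, image of `univ` is `EN M`: `fr_top`, `map_val_inj`),
`P A = Col (A.image φ)` (decreasing: `Col.mono`), `B A = ¬ Choos (A.image φ)`.
* `nuX M = ∫ ∑_{e : α} ex t (univ.erase e) (ind ((P A ∧ B A) ∧ ¬ P (insert e A)))`: by `ex_image`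
  (`(univ.erase e).image φ = (EN M).erase (φ e)`, `(insert e A).image φ = insert (φ e) (A.image φ)`).
* For an ordering `σ` and `m`, the set `{e | ∃ i, i < m ∧ (σ i).val = e}` is the coercion of
  `(fst σ m).image Subtype.val` (a finset of non-diagonal elements of `Sym2 (Fin M)`). By `fr_col`, `fr_choos`
  the condition of the frozen statement at `m` says: `P (fst σ m) → ¬ B (fst σ m)`.
* So the number of orderings satisfying the condition of the frozen statement is `N!` minus the number
  of orderings with `∃ m, P (fst σ m) ∧ B (fst σ m)`; the total number is `N!` (`Nat.card_eq_fintype_card`,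
  `Fintype.card_equiv`, `Fintype.card_fin`). Divide by `N!`.
-/

set_option autoImplicit false

open Classical

namespace Pool.Agent.LC3

private theorem fz_nuX {α : Type} [Fintype α] (n : ℕ) (φ : α → Sym2 ℕ) (hinj : Function.Injective φ)
    (huniv : (Finset.univ : Finset α).image φ = EN n) : nuX n =
    ∫ t in (0 : ℝ)..1, ∑ e : α, ex t (Finset.univ.erase e)
        (fun A => ind ((Col (A.image φ) ∧ ¬ Choos (A.image φ)) ∧ ¬ Col ((insert e A).image φ))) := by
  unfold nuX
  congr 1
  funext t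
  have h1 : ∑ e ∈ EN n, ex t ((EN n).erase e) (fun A => ind (Bd A ∧ ¬ Col (insert e A))) =
      ∑ e ∈ (Finset.univ : Finset α).image φ,
        ex t ((EN n).erase e) (fun A => ind (Bd A ∧ ¬ Col (insert e A))) := by
    rw [huniv]
  rw [h1, Finset.sum_image (fun a _ b _ h => hinj h)]
  refine Finset.sum_congr rfl fun a _ => ?_
  have h2 : (EN n).erase (φ a) = (Finset.univ.erase a).image φ := by
    rw [Finset.image_erase hinj, huniv]
  rw [h2, ex_image t _ _ (hinj.injOn)]
  refine ex_congr fun A _ => ?_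
  rw [Finset.image_insert]
  rfl

private theorem fz_core {α : Type} [Fintype α] {N : ℕ} (hN : Fintype.card α = N) (n : ℕ) (φ : α → Sym2 ℕ)
    (hinj : Function.Injective φ) (huniv : (Finset.univ : Finset α).image φ = EN n)
    (cond : (Fin N ≃ α) → Prop)
    (hdis : ∀ σ, cond σ → ∀ m : ℕ, Col ((fst σ m).image φ) → Choos ((fst σ m).image φ)) :
    (Nat.card {σ : Fin N ≃ α // cond σ} : ℝ) / (Nat.card (Fin N ≃ α) : ℝ) ≤ 1 - nuX n := by
  have hge := order_ge hN (fun A => Col (A.image φ)) (fun A => ¬ Choos (A.image φ))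
    (fun A A' h h' => Col.mono (Finset.image_subset_image h) h')
  rw [← fz_nuX n φ hinj huniv] at hge
  have htot : Nat.card (Fin N ≃ α) = N.factorial := by
    rw [Nat.card_eq_fintype_card, Fintype.card_equiv (Fintype.equivFinOfCardEq hN).symm, Fintype.card_fin]
  have hN0 : (0 : ℝ) < (N.factorial : ℝ) := by exact_mod_cast Nat.factorial_pos N
  have hle : Nat.card {σ : Fin N ≃ α // cond σ} +
      (Finset.univ.filter (fun σ : Fin N ≃ α => ∃ m : ℕ, Col ((fst σ m).image φ) ∧
        ¬ Choos ((fst σ m).image φ))).card ≤ N.factorial := by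
    rw [Nat.card_eq_fintype_card, Fintype.card_subtype, ← htot, Nat.card_eq_fintype_card, ← Finset.card_univ,
      ← Finset.card_union_of_disjoint]
    · exact Finset.card_le_card (Finset.subset_univ _)
    · rw [Finset.disjoint_left]
      intro σ h1 h2
      obtain ⟨m, h3, h4⟩ := (Finset.mem_filter.1 h2).2
      exact h4 (hdis σ (Finset.mem_filter.1 h1).2 m h3)
  have hle2 : (Nat.card {σ : Fin N ≃ α // cond σ} : ℝ) +
      ((Finset.univ.filter (fun σ : Fin N ≃ α => ∃ m : ℕ, Col ((fst σ m).image φ) ∧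
        ¬ Choos ((fst σ m).image φ))).card : ℝ) ≤ (N.factorial : ℝ) := by exact_mod_cast hle
  rw [htot, div_le_iff₀ hN0]
  rw [le_div_iff₀ hN0] at hge
  nlinarith [hge, hle2]

private theorem fz_univ (n : ℕ) :
    (Finset.univ : Finset ↑(⊤ : SimpleGraph (Fin n)).edgeSet).image
      (fun a => Sym2.map (Fin.val : Fin n → ℕ) a.val) = EN n := by
  rw [← fr_top]
  ext e
  rw [Finset.mem_image, Finset.mem_image]
  constructor
  · rintro ⟨a, _, rfl⟩
    refine ⟨a.val, ?_, rfl⟩
    rw [Finset.mem_filter]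
    refine ⟨Finset.mem_univ _, ?_⟩
    exact SimpleGraph.not_isDiag_of_mem_edgeSet _ a.2
  · rintro ⟨f, hf, rfl⟩
    rw [Finset.mem_filter] at hf
    have h1 : f ∈ (⊤ : SimpleGraph (Fin n)).edgeSet := by
      rw [SimpleGraph.edgeSet_top]
      exact fun h => hf.2 (Sym2.mem_diagSet.1 h)
    exact ⟨⟨f, h1⟩, Finset.mem_univ _, rfl⟩

private theorem fz_inj (n : ℕ) : Function.Injective
    (fun a : ↑(⊤ : SimpleGraph (Fin n)).edgeSet => Sym2.map (Fin.val : Fin n → ℕ) a.val) := by
  intro a b h
  exact Subtype.ext (map_val_inj h)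

theorem frozen_le (n : ℕ) :
    (Nat.card
        {σ : Fin (Nat.card (⊤ : SimpleGraph (Fin n)).edgeSet) ≃ (⊤ : SimpleGraph (Fin n)).edgeSet //
          ∀ m : ℕ, ∀ G : SimpleGraph (Fin n),
            G = SimpleGraph.fromEdgeSet
                {e : Sym2 (Fin n) |
                  ∃ i : Fin (Nat.card (⊤ : SimpleGraph (Fin n)).edgeSet),
                    (i : ℕ) < m ∧ (σ i).val = e} →
            G.Colorable 3 →
            ∀ L : Fin n → Finset ℕ, (∀ v, (L v).card = 3) →
              ∃ f : Fin n → ℕ, (∀ v, f v ∈ L v) ∧ ∀ u v, G.Adj u v → f u ≠ f v} : ℝ) /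
      (Nat.card
        (Fin (Nat.card (⊤ : SimpleGraph (Fin n)).edgeSet) ≃ (⊤ : SimpleGraph (Fin n)).edgeSet) : ℝ)
      ≤ 1 - nuX n := by
  have hcard : Fintype.card ↑(⊤ : SimpleGraph (Fin n)).edgeSet =
      Nat.card (⊤ : SimpleGraph (Fin n)).edgeSet := by
    rw [Nat.card_eq_fintype_card]
  refine fz_core hcard n (fun a => Sym2.map (Fin.val : Fin n → ℕ) a.val) (fz_inj n) (fz_univ n) _ ?_
  intro σ hσ m h1
  have hS : (((fst σ m).image Subtype.val : Finset (Sym2 (Fin n))) : Set (Sym2 (Fin n))) =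
      {e : Sym2 (Fin n) | ∃ i : Fin (Nat.card (⊤ : SimpleGraph (Fin n)).edgeSet),
        (i : ℕ) < m ∧ (σ i).val = e} := by
    ext e
    rw [Finset.mem_coe, Finset.mem_image, Set.mem_ofPred_eq]
    constructor
    · rintro ⟨a, ha, rfl⟩
      unfold fst at ha
      rw [Finset.mem_filter] at ha
      exact ⟨σ.symm a, ha.2, by rw [Equiv.apply_symm_apply]⟩
    · rintro ⟨i, hi, rfl⟩
      refine ⟨σ i, ?_, rfl⟩
      unfold fst
      rw [Finset.mem_filter, Equiv.symm_apply_apply]
      exact ⟨Finset.mem_univ _, hi⟩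
  have hd : ∀ e ∈ (fst σ m).image Subtype.val, ¬ e.IsDiag := by
    intro e he
    obtain ⟨a, _, rfl⟩ := Finset.mem_image.1 he
    exact SimpleGraph.not_isDiag_of_mem_edgeSet _ a.2
  have him : ((fst σ m).image Subtype.val).image (Sym2.map (Fin.val : Fin n → ℕ)) =
      (fst σ m).image (fun a => Sym2.map (Fin.val : Fin n → ℕ) a.val) := by
    rw [Finset.image_image]
    rfl
  have hc : (SimpleGraph.fromEdgeSet
      (((fst σ m).image Subtype.val : Finset (Sym2 (Fin n))) : Set (Sym2 (Fin n)))).Colorable 3 := by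
    rw [fr_col _ hd, him]
    exact h1
  rw [← him, ← fr_choos _ hd]
  exact hσ m _ (by rw [hS]) hc

end Pool.Agent.LC3
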