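import Pool.Agent.LC3.MainB
import Pool.Agent.LC3.Frozen

/-!
# LC3.Final : conclusion

If the ratio (for `k = 3`) tended to 1 it would eventually be `> 1 - c`, contradicting `frozen_le` for the
`M` of `mainB`.
-/

set_option autoImplicit false

open Classical

namespace Pool.Agent.LC3

theorem final :
    ¬ (∀ k : ℕ, 3 ≤ k →
      Filter.Tendsto
        (fun n : ℕ =>
          (Nat.card
              {σ : Fin (Nat.card (⊤ : SimpleGraph (Fin n)).edgeSet) ≃ (⊤ : SimpleGraph (Fin n)).edgeSet //
                ∀ m : ℕ, ∀ G : SimpleGraph (Fin n),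
                  G = SimpleGraph.fromEdgeSet
                      {e : Sym2 (Fin n) |
                        ∃ i : Fin (Nat.card (⊤ : SimpleGraph (Fin n)).edgeSet),
                          (i : ℕ) < m ∧ (σ i).val = e} →
                  G.Colorable k →
                  ∀ L : Fin n → Finset ℕ, (∀ v, (L v).card = k) →
                    ∃ f : Fin n → ℕ, (∀ v, f v ∈ L v) ∧ ∀ u v, G.Adj u v → f u ≠ f v} : ℝ) /
            (Nat.card
              (Fin (Nat.card (⊤ : SimpleGraph (Fin n)).edgeSet) ≃ (⊤ : SimpleGraph (Fin n)).edgeSet) : ℝ))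
        Filter.atTop (nhds 1)) := by
  intro h
  obtain ⟨c, hc, hN⟩ := mainB
  have h3 := h 3 le_rfl
  have h4 := (h3.eventually (lt_mem_nhds (show (1 - c : ℝ) < 1 by linarith)))
  obtain ⟨N, hN'⟩ := Filter.eventually_atTop.1 h4
  obtain ⟨M, hM, hcM⟩ := hN N
  have h5 := hN' M hM
  have h6 := frozen_le M
  linarith

end Pool.Agent.LC3
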