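import Pool.Agent.LC3.ExA

/-!
# LC3.Sym : relabelling of the vertices

`rel π A = A.image (Sym2.map π)`.
* `ex_rel`: `Sym2.map π` is injective and maps `EN n` onto `EN n` if `π` preserves `range n`;
  use `ex_image` with `E = EN n`.
* `col_rel`, `net_rel`, `eqv_rel`: replace a colouring `σ` by `σ ∘ π`, resp. `σ ∘ π⁻¹`.
-/

set_option autoImplicit false

open Classical

namespace Pool.Agent.LC3

theorem map_inj (π : Equiv.Perm ℕ) : Function.Injective (Sym2.map π) :=
  Sym2.map.injective π.injective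

theorem mem_rel {π : Equiv.Perm ℕ} {A : Finset (Sym2 ℕ)} {a b : ℕ} :
    s(π a, π b) ∈ rel π A ↔ s(a, b) ∈ A := by
  unfold rel
  constructor
  · intro h
    obtain ⟨e, he, heq⟩ := Finset.mem_image.1 h
    have : e = s(a, b) := map_inj π (by rw [heq]; rfl)
    rw [← this]
    exact he
  · intro h
    exact Finset.mem_image.2 ⟨s(a, b), h, rfl⟩

theorem mem_EN' {n a b : ℕ} : s(a, b) ∈ EN n ↔ (a < n ∧ b < n) ∧ a ≠ b := by
  unfold EN EE
  rw [Finset.mem_filter, Finset.mk_mem_sym2_iff, Finset.mem_range, Finset.mem_range,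
    Sym2.mk_isDiag_iff]

theorem rel_EN {n : ℕ} {π : Equiv.Perm ℕ} (h : ∀ i, π i < n ↔ i < n) : rel π (EN n) = EN n := by
  ext e
  induction e using Sym2.ind with
  | _ a b =>
    obtain ⟨a, rfl⟩ := π.surjective a
    obtain ⟨b, rfl⟩ := π.surjective b
    rw [mem_rel, mem_EN', mem_EN', h a, h b, π.injective.ne_iff]

theorem ex_rel {n : ℕ} {π : Equiv.Perm ℕ} (h : ∀ i, π i < n ↔ i < n) (t : ℝ)
    (f : Finset (Sym2 ℕ) → ℝ) : ex t (EN n) (fun A => f (rel π A)) = ex t (EN n) f := by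
  have h1 := ex_image t (EN n) (Sym2.map π) ((map_inj π).injOn) f
  have h2 : (EN n).image (Sym2.map π) = EN n := rel_EN h
  rw [h2] at h1
  exact h1.symm

theorem proper_rel {π : Equiv.Perm ℕ} {A : Finset (Sym2 ℕ)} {σ : ℕ → Fin 3} :
    Proper (rel π A) σ ↔ Proper A (fun v => σ (π v)) := by
  constructor
  · intro h a b hab
    exact h (π a) (π b) (mem_rel.2 hab)
  · intro h a b hab
    obtain ⟨a, rfl⟩ := π.surjective a
    obtain ⟨b, rfl⟩ := π.surjective b
    exact h a b (mem_rel.1 hab)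

theorem proper_rel' {π : Equiv.Perm ℕ} {A : Finset (Sym2 ℕ)} {σ : ℕ → Fin 3} :
    Proper (rel π A) (fun v => σ (π.symm v)) ↔ Proper A σ := by
  rw [proper_rel]
  simp

theorem col_rel {π : Equiv.Perm ℕ} {A : Finset (Sym2 ℕ)} : Col (rel π A) ↔ Col A := by
  constructor
  · rintro ⟨σ, h⟩
    exact ⟨_, proper_rel.1 h⟩
  · rintro ⟨σ, h⟩
    exact ⟨_, proper_rel'.2 h⟩

theorem net_rel {π : Equiv.Perm ℕ} {A : Finset (Sym2 ℕ)} {W : Finset ℕ} :
    Net (rel π A) (W.image π) ↔ Net A W := by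
  constructor
  · intro h σ hσ c
    obtain ⟨w, hw, hc⟩ := h _ (proper_rel'.2 hσ) c
    obtain ⟨w', hw', rfl⟩ := Finset.mem_image.1 hw
    exact ⟨w', hw', by simpa using hc⟩
  · intro h σ hσ c
    obtain ⟨w, hw, hc⟩ := h _ (proper_rel.1 hσ) c
    exact ⟨π w, Finset.mem_image.2 ⟨w, hw, rfl⟩, hc⟩

theorem eqv_rel {π : Equiv.Perm ℕ} {A : Finset (Sym2 ℕ)} {x y : ℕ} :
    Eqv (rel π A) (π x) (π y) ↔ Eqv A x y := by
  constructor
  · intro h σ hσ
    simpa using h _ (proper_rel'.2 hσ)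
  · intro h σ hσ
    exact h _ (proper_rel.1 hσ)

theorem choos_rel {π : Equiv.Perm ℕ} {A : Finset (Sym2 ℕ)} : Choos (rel π A) ↔ Choos A := by
  constructor
  · intro h L hL
    obtain ⟨f, hf, hp⟩ := h (fun v => L (π.symm v)) (fun v => hL _)
    refine ⟨fun v => f (π v), fun v => ?_, fun a b hab => ?_⟩
    · simpa using hf (π v)
    · exact hp (π a) (π b) (mem_rel.2 hab)
  · intro h L hL
    obtain ⟨f, hf, hp⟩ := h (fun v => L (π v)) (fun v => hL _)
    refine ⟨fun v => f (π.symm v), fun v => ?_, fun a b hab => ?_⟩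
    · simpa using hf (π.symm v)
    · obtain ⟨a, rfl⟩ := π.surjective a
      obtain ⟨b, rfl⟩ := π.surjective b
      simpa using hp a b (mem_rel.1 hab)

theorem rel_filter {π : Equiv.Perm ℕ} {A : Finset (Sym2 ℕ)} {v : ℕ} :
    (rel π A).filter (fun e => π v ∉ e) = rel π (A.filter (fun e => v ∉ e)) := by
  ext e
  induction e using Sym2.ind with
  | _ a b =>
    obtain ⟨a, rfl⟩ := π.surjective a
    obtain ⟨b, rfl⟩ := π.surjective b
    rw [Finset.mem_filter, mem_rel, mem_rel, Finset.mem_filter, Sym2.mem_iff, Sym2.mem_iff,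
      π.injective.eq_iff, π.injective.eq_iff]

theorem rel_erase {π : Equiv.Perm ℕ} {A : Finset (Sym2 ℕ)} {e : Sym2 ℕ} :
    (rel π A).erase (Sym2.map π e) = rel π (A.erase e) := by
  unfold rel
  rw [Finset.image_erase (map_inj π)]

theorem rel_insert {π : Equiv.Perm ℕ} {A : Finset (Sym2 ℕ)} {e : Sym2 ℕ} :
    insert (Sym2.map π e) (rel π A) = rel π (insert e A) := by
  unfold rel
  rw [Finset.image_insert]

/-- `rel` with an erased edge: -/
theorem ex_rel_erase {n : ℕ} {π : Equiv.Perm ℕ} (h : ∀ i, π i < n ↔ i < n) (t : ℝ) (e : Sym2 ℕ)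
    (f : Finset (Sym2 ℕ) → ℝ) :
    ex t ((EN n).erase e) (fun A => f (rel π A)) = ex t ((EN n).erase (Sym2.map π e)) f := by
  have h1 := ex_image t ((EN n).erase e) (Sym2.map π) ((map_inj π).injOn) f
  have h2 : ((EN n).erase e).image (Sym2.map π) = (EN n).erase (Sym2.map π e) := by
    have h3 := (rel_erase (π := π) (A := EN n) (e := e)).symm
    rw [rel_EN h] at h3
    exact h3
  rw [h2] at h1
  exact h1.symm

/-- for any two vertices `u, v < n` there is a permutation of `range n` exchanging them -/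
theorem exists_swap {n u v : ℕ} (hu : u < n) (hv : v < n) :
    ∃ π : Equiv.Perm ℕ, (∀ i, π i < n ↔ i < n) ∧ π u = v ∧ π v = u := by
  refine ⟨Equiv.swap u v, fun i => ?_, Equiv.swap_apply_left _ _, Equiv.swap_apply_right _ _⟩
  by_cases h1 : i = u
  · rw [h1, Equiv.swap_apply_left]
    exact ⟨fun _ => hu, fun _ => hv⟩
  · by_cases h2 : i = v
    · rw [h2, Equiv.swap_apply_right]
      exact ⟨fun _ => hv, fun _ => hu⟩
    · rw [Equiv.swap_apply_of_ne_of_ne h1 h2]

/-- every injective list of `k` vertices of `range n` can be moved to a given one -/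
theorem exists_perm {n k : ℕ} (τ τ' : Fin k → ℕ) (h1 : Function.Injective τ)
    (h2 : Function.Injective τ') (h3 : ∀ i, τ i < n) (h4 : ∀ i, τ' i < n) :
    ∃ π : Equiv.Perm ℕ, (∀ i, π i < n ↔ i < n) ∧ (∀ i, n ≤ i → π i = i) ∧ ∀ i, π (τ i) = τ' i := by
  set f : Fin k → Fin n := fun i => ⟨τ i, h3 i⟩ with hf
  set g : Fin k → Fin n := fun i => ⟨τ' i, h4 i⟩ with hg
  have fi : Function.Injective f := fun i j h => h1 (congrArg Fin.val h)
  have gi : Function.Injective g := fun i j h => h2 (congrArg Fin.val h)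
  set e : {x // x ∈ Set.range f} ≃ {x // x ∈ Set.range g} :=
    (Equiv.ofInjective f fi).symm.trans (Equiv.ofInjective g gi) with he
  set p : Equiv.Perm (Fin n) := e.extendSubtype with hp
  have hpf : ∀ i, p (f i) = g i := by
    intro i
    rw [hp, Equiv.extendSubtype_apply_of_mem e (f i) ⟨i, rfl⟩, he]
    have : (⟨f i, ⟨i, rfl⟩⟩ : {x // x ∈ Set.range f}) = Equiv.ofInjective f fi i := rfl
    rw [this, Equiv.trans_apply, Equiv.symm_apply_apply]
    rfl
  refine ⟨p.extendDomain (Fin.equivSubtype : Fin n ≃ {i // i < n}), ?_, ?_, ?_⟩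
  · intro i
    by_cases hi : i < n
    · have h5 := Equiv.Perm.extendDomain_apply_image p (Fin.equivSubtype : Fin n ≃ {i // i < n}) ⟨i, hi⟩
      have h6 : ((Fin.equivSubtype : Fin n ≃ {i // i < n}) ⟨i, hi⟩ : ℕ) = i := rfl
      rw [h6] at h5
      rw [h5]
      exact ⟨fun _ => hi, fun _ => ((Fin.equivSubtype : Fin n ≃ {i // i < n}) _).2⟩
    · rw [Equiv.Perm.extendDomain_apply_not_subtype p (Fin.equivSubtype : Fin n ≃ {i // i < n}) hi]
  · intro i hi
    exact Equiv.Perm.extendDomain_apply_not_subtype p (Fin.equivSubtype : Fin n ≃ {i // i < n})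
      (by omega)
  · intro i
    have h5 := Equiv.Perm.extendDomain_apply_image p (Fin.equivSubtype : Fin n ≃ {i // i < n}) (f i)
    have h6 : ((Fin.equivSubtype : Fin n ≃ {i // i < n}) (f i) : ℕ) = τ i := rfl
    rw [h6, hpf i] at h5
    rw [h5]
    rfl

end Pool.Agent.LC3
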