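import Pool.Agent.LC3.Split
import Pool.Agent.LC3.Sym
import Pool.Agent.LC3.NetBasic
import Pool.Agent.LC3.ExB

/-!
# LC3.Flow : large classes imply that random sets are nets when colourability dies

Vertices `0..m` (`E = EN (m+1)`), `m` is the new vertex. For `x < m` let
`V A := Col A ∧ Eqv A m x` and `U A := Col (A ∩ EN m) ∧ Net (A ∩ EN m) (insert x W_A)`, where `W_A` is the set
of neighbours of `m` in `A` (`A = A' ∪ st m W`). Write `in X (t) = ∑_{e∈E} ex t (E\e) (ind(¬X A ∧ X(A∪e)))`,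
`out X (t) = ∑_{e∈E} ex t (E\e) (ind(X A ∧ ¬X(A∪e)))`. By `flow_ex`, `∫_0^1 in X = ∫_0^1 out X` for
`X = V` and `X = U` (`V ∅`, `U ∅` are false: `eqv_iff`/`not_net_of_card`; `V E`, `U E` are false since the
complete graph on `m ≥ 4` vertices is not colourable).
* `in V ≤ in U` pointwise: if `V (A∪e)` and `¬ V A` then `Col A`, so `¬ Eqv A m x`, which by `eqv_st` means
  `¬ Net A' (insert x W)`, so `¬ U A`; and `V (A∪e) → U (A∪e)` (`eqv_st`, `Col.mono`).
* `out U (t) = ∑_{e ∈ EN m} ex t ((EN m)\e) (ind(Col A' ∧ ¬ Col (A'∪e)) * ex t (range m) (ind (Net A' (insert x W))))`: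
  adding an edge at `m` cannot destroy `U`, and if `U A`, `e ∈ EN m` then `Net` persists, so `¬ U (A∪e)` iff
  `¬ Col (A' ∪ e)` (use `EN_succ_erase`, `EN_succ_erase'`, `ex_union`).
* So `(1/m) ∑_{x<m} ∫_0^1 out V_x ≤ ∫_0^1 Rr m t (nbar m t) dt`.
* Lower bound: `V A ∧ ¬ V (A∪e)` iff `V A ∧ ¬ Col (A∪e)`, so for `0 ≤ t < 1` by `ex_sum_not_mem`
  `out V_x (t) = (1-t)^{-1} ex t E (ind(V_x A) * #{e ∈ E \ A : ¬ Col(A∪e)}) ≥ ex t E (...)`. For colourable
  `A`, `#{e ∈ E\A : ¬Col(A∪e)} = N2/2` with `N2 = #{(v,x) : v ≠ x, v,x ≤ m, Eqv A v x}` (`eqv_iff`).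
  By symmetry (`exists_swap`, `ex_rel_erase`) replace the vertex `m` by the average over all `v ≤ m`:
  `∑_{x<m} out V_x (t) ≥ (1/(m+1)) ex t E (ind(Col A) N2 * N2/2)`. If `Big (m+1) θ A` there is a class of
  `k ≥ θ(m+1) ≥ 10` elements, `N2 ≥ k(k-1) ≥ 0.9 k^2`, so `N2^2/2 ≥ 0.4 θ^4 (m+1)^4`. Hence
  `(1/m)∑_x out V_x (t) ≥ 0.4 θ^4 (m+1)^3/m * ell (m+1) θ t ≥ (θ^4/8) m^2 ell (m+1) θ t`.
-/

set_option autoImplicit false

open Classical

namespace Pool.Agent.LC3

/-! ### auxiliary lemmas -/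

namespace FlowAux

/-- continuity of an expectation of a function depending continuously on `t` -/
theorem flow_cont {α : Type*} (E : Finset α) (f : ℝ → Finset α → ℝ)
    (h : ∀ A, Continuous (fun t => f t A)) : Continuous (fun t : ℝ => ex t E (f t)) := by
  unfold ex
  refine continuous_finsetSum _ (fun A _ => ?_)
  exact ((continuous_pow _).mul ((continuous_const.sub continuous_id).pow _)).mul (h A)

/-- the neighbours of `m` in `A` -/
def Wn (m : ℕ) (A : Finset (Sym2 ℕ)) : Finset ℕ := (Finset.range m).filter (fun w => s(m, w) ∈ A)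

theorem mem_Wn {m w : ℕ} {A : Finset (Sym2 ℕ)} : w ∈ Wn m A ↔ w < m ∧ s(m, w) ∈ A := by
  unfold Wn
  rw [Finset.mem_filter, Finset.mem_range]

theorem not_mem_Wn {m : ℕ} {A : Finset (Sym2 ℕ)} : m ∉ Wn m A := fun h =>
  absurd (mem_Wn.1 h).1 (lt_irrefl m)

theorem decomp {m : ℕ} {A : Finset (Sym2 ℕ)} (hA : A ⊆ EN (m + 1)) :
    A = (A ∩ EN m) ∪ st m (Wn m A) := by
  ext e
  induction e using Sym2.ind with
  | _ a b =>
    rw [Finset.mem_union, Finset.mem_inter, mem_st, mem_Wn, mem_Wn]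
    constructor
    · intro h
      have h1 := hA h
      rw [EN_succ, Finset.mem_union, mem_st, Finset.mem_range, Finset.mem_range] at h1
      rcases h1 with h1 | ⟨h1, h2⟩ | ⟨h1, h2⟩
      · exact Or.inl ⟨h, h1⟩
      · subst h1
        exact Or.inr (Or.inl ⟨rfl, h2, h⟩)
      · subst h1
        refine Or.inr (Or.inr ⟨rfl, h2, ?_⟩)
        rw [Sym2.eq_swap]
        exact h
    · rintro (⟨h, _⟩ | ⟨h1, h2, h3⟩ | ⟨h1, h2, h3⟩)
      · exact h
      · subst h1
        exact h3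
      · subst h1
        rw [Sym2.eq_swap]
        exact h3

/-- the event `U` -/
def Uev (m x : ℕ) (A : Finset (Sym2 ℕ)) : Prop :=
  Col (A ∩ EN m) ∧ Net (A ∩ EN m) (insert x (Wn m A))

theorem eqv_iff_net {m x : ℕ} (hx : x < m) {A : Finset (Sym2 ℕ)} (hA : A ⊆ EN (m + 1)) :
    Eqv A m x ↔ Net (A ∩ EN m) (insert x (Wn m A)) := by
  have h1 := eqv_st (A := A ∩ EN m) (v := m) (x := x) (W := Wn m A)
    (not_mem_of_EN le_rfl Finset.inter_subset_right) not_mem_Wn hx.ne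
  rw [← h1, ← decomp hA]

theorem Uev_of {m x : ℕ} (hx : x < m) {A : Finset (Sym2 ℕ)} (hA : A ⊆ EN (m + 1)) :
    Uev m x A ↔ Col (A ∩ EN m) ∧ Eqv A m x := by
  unfold Uev
  rw [eqv_iff_net hx hA]

theorem in_le {m x : ℕ} (hx : x < m) {A : Finset (Sym2 ℕ)} {e : Sym2 ℕ} (hA : A ⊆ EN (m + 1))
    (he : e ∈ EN (m + 1))
    (h : ¬ (Col A ∧ Eqv A m x) ∧ (Col (insert e A) ∧ Eqv (insert e A) m x)) :
    ¬ Uev m x A ∧ Uev m x (insert e A) := by
  obtain ⟨h1, h2, h3⟩ := h
  have hcol : Col A := Col.mono (Finset.subset_insert _ _) h2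
  have hne : ¬ Eqv A m x := fun h => h1 ⟨hcol, h⟩
  constructor
  · rw [Uev_of hx hA]
    exact fun h => hne h.2
  · rw [Uev_of hx (Finset.insert_subset he hA)]
    exact ⟨Col.mono Finset.inter_subset_left h2, h3⟩

theorem out_edge_new {m x w : ℕ} (_hw : w < m) {A : Finset (Sym2 ℕ)} :
    ¬ (Uev m x A ∧ ¬ Uev m x (insert s(m, w) A)) := by
  rintro ⟨⟨h1, h2⟩, h3⟩
  apply h3
  have hne : s(m, w) ∉ EN m := by
    rw [mem_EN]
    exact fun h => absurd h.1 (lt_irrefl m)
  have h4 : (insert s(m, w) A) ∩ EN m = A ∩ EN m := by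
    rw [Finset.insert_inter_of_notMem hne]
  unfold Uev
  rw [h4]
  refine ⟨h1, Net.mono_right ?_ h2⟩
  apply Finset.insert_subset_insert
  intro y hy
  rw [mem_Wn] at hy ⊢
  exact ⟨hy.1, Finset.mem_insert_of_mem hy.2⟩

theorem Wn_union {m : ℕ} {A : Finset (Sym2 ℕ)} {W : Finset ℕ} (hA : A ⊆ EN m)
    (hW : W ⊆ Finset.range m) : Wn m (A ∪ st m W) = W := by
  ext w
  rw [mem_Wn, Finset.mem_union, mem_st]
  constructor
  · rintro ⟨h1, h2 | ⟨_, h2⟩ | ⟨h2, _⟩⟩
    · exact absurd (mem_EN.1 (hA h2)).1 (lt_irrefl m)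
    · exact h2
    · exact absurd h2 h1.ne
  · intro h
    exact ⟨Finset.mem_range.1 (hW h), Or.inr (Or.inl ⟨rfl, h⟩)⟩

theorem Uev_union {m x : ℕ} {A : Finset (Sym2 ℕ)} {W : Finset ℕ} (hA : A ⊆ EN m)
    (hW : W ⊆ Finset.range m) : Uev m x (A ∪ st m W) ↔ Col A ∧ Net A (insert x W) := by
  unfold Uev
  rw [inter_succ hA, Wn_union hA hW]

theorem ex_st (t : ℝ) (m : ℕ) (f : Finset (Sym2 ℕ) → ℝ) :
    ex t (st m (Finset.range m)) f = ex t (Finset.range m) (fun W => f (st m W)) := by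
  unfold st
  rw [ex_image]
  exact fun a _ b _ h => st_inj h

theorem out_edge_old {m x : ℕ} {e : Sym2 ℕ} (he : e ∈ EN m) (t : ℝ) :
    ex t ((EN (m + 1)).erase e) (fun A => ind (Uev m x A ∧ ¬ Uev m x (insert e A))) =
      ex t ((EN m).erase e) (fun A => ind (Col A ∧ ¬ Col (insert e A)) *
        ex t (Finset.range m) (fun W => ind (Net A (insert x W)))) := by
  rw [EN_succ_erase he, ex_union]
  · apply ex_congr
    intro A hA
    have hA' : A ⊆ EN m := hA.trans (Finset.erase_subset _ _)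
    rw [ex_st, ← ex_mul_left]
    apply ex_congr
    intro W hW
    rw [← ind_and]
    congr 1
    have h1 : insert e (A ∪ st m W) = insert e A ∪ st m W := by
      rw [Finset.insert_union]
    rw [h1, Uev_union hA' hW, Uev_union (Finset.insert_subset he hA') hW]
    apply propext
    constructor
    · rintro ⟨⟨h2, h3⟩, h4⟩
      exact ⟨⟨h2, fun h => h4 ⟨h, Net.mono_left (Finset.subset_insert _ _) h3⟩⟩, h3⟩
    · rintro ⟨⟨h2, h3⟩, h4⟩
      exact ⟨⟨h2, h4⟩, fun h => h3 h.1⟩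
  · exact (disjoint_EN_st m _).mono_left (Finset.erase_subset _ _)

theorem outU (m x : ℕ) (t : ℝ) :
    ∑ e ∈ EN (m + 1), ex t ((EN (m + 1)).erase e) (fun A => ind (Uev m x A ∧ ¬ Uev m x (insert e A))) =
      Rr m t (fun A => ex t (Finset.range m) (fun W => ind (Net A (insert x W)))) := by
  have h1 : EN (m + 1) = EN m ∪ st m (Finset.range m) := EN_succ m
  have h2 : ∑ e ∈ EN (m + 1), ex t ((EN (m + 1)).erase e)
      (fun A => ind (Uev m x A ∧ ¬ Uev m x (insert e A))) =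
      ∑ e ∈ EN m, ex t ((EN (m + 1)).erase e)
      (fun A => ind (Uev m x A ∧ ¬ Uev m x (insert e A))) := by
    symm
    apply Finset.sum_subset (EN_mono (Nat.le_succ m))
    intro e he hne
    rw [h1, Finset.mem_union] at he
    rcases he with he | he
    · exact absurd he hne
    · unfold st at he
      rw [Finset.mem_image] at he
      obtain ⟨w, hw, rfl⟩ := he
      have h3 : ∀ A : Finset (Sym2 ℕ), A ⊆ (EN (m + 1)).erase s(m, w) →
          ind (Uev m x A ∧ ¬ Uev m x (insert s(m, w) A)) = (fun _ => (0 : ℝ)) A := by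
        intro A _
        exact ind_of_not (out_edge_new (Finset.mem_range.1 hw))
      rw [ex_congr h3, ex_const]
  rw [h2]
  unfold Rr
  exact Finset.sum_congr rfl (fun e he => out_edge_old he t)

end FlowAux

open FlowAux

theorem flow_upper {m x : ℕ} (hm : 4 ≤ m) (hx : x < m) :
    ∫ t in (0 : ℝ)..1, ∑ e ∈ EN (m + 1), ex t ((EN (m + 1)).erase e)
        (fun A => ind ((Col A ∧ Eqv A m x) ∧ ¬ (Col (insert e A) ∧ Eqv (insert e A) m x))) ≤
      ∫ t in (0 : ℝ)..1, Rr m t (fun A =>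
        ex t (Finset.range m) (fun W => ind (Net A (insert x W)))) := by
  have hV0 : ¬ (Col ∅ ∧ Eqv ∅ m x) := by
    rintro ⟨_, h⟩
    have := h (fun v => if v = m then 0 else 1) (fun a b hab => absurd hab (Finset.notMem_empty _))
    simp [hx.ne] at this
  have hV1 : ¬ (Col (EN (m + 1)) ∧ Eqv (EN (m + 1)) m x) := fun h => not_col_EN (by omega) h.1
  have hU0 : ¬ Uev m x ∅ := by
    unfold Uev
    rintro ⟨_, h⟩
    rw [Finset.empty_inter] at h
    have h2 : Wn m ∅ = ∅ := by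
      ext w
      rw [mem_Wn]
      simp
    rw [h2] at h
    exact not_net_of_card col_empty (by simp) h
  have hU1 : ¬ Uev m x (EN (m + 1)) := by
    unfold Uev
    rintro ⟨h, _⟩
    rw [Finset.inter_eq_right.2 (EN_mono (Nat.le_succ m))] at h
    exact not_col_EN hm h
  rw [← flow_ex (EN (m + 1)) (fun A => Col A ∧ Eqv A m x) hV0 hV1]
  have h3 : ∀ t : ℝ, Rr m t (fun A =>
        ex t (Finset.range m) (fun W => ind (Net A (insert x W)))) =
      ∑ e ∈ EN (m + 1), ex t ((EN (m + 1)).erase e)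
        (fun A => ind (Uev m x A ∧ ¬ Uev m x (insert e A))) := fun t => (outU m x t).symm
  simp only [h3]
  rw [← flow_ex (EN (m + 1)) (fun A => Uev m x A) hU0 hU1]
  apply intervalIntegral.integral_mono_on zero_le_one
  · exact (continuous_finsetSum _ (fun e _ => continuous_ex _ _)).intervalIntegrable _ _
  · exact (continuous_finsetSum _ (fun e _ => continuous_ex _ _)).intervalIntegrable _ _
  · intro t ht
    apply Finset.sum_le_sum
    intro e he
    apply ex_mono ht.1 ht.2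
    intro A hA
    exact ind_mono (fun h => in_le hx (hA.trans (Finset.erase_subset _ _)) he h)
/-! ### lower bound -/

namespace FlowAux

theorem sum_range_perm {n : ℕ} {π : Equiv.Perm ℕ} (h : ∀ i, π i < n ↔ i < n) (f : ℕ → ℝ) :
    ∑ i ∈ Finset.range n, f (π i) = ∑ i ∈ Finset.range n, f i := by
  apply Finset.sum_equiv π
  · intro i
    rw [Finset.mem_range, Finset.mem_range, h]
  · intro i _
    rfl

/-- number of vertices forced to have the colour of `v` -/
noncomputable def Nv (n : ℕ) (v : ℕ) (A : Finset (Sym2 ℕ)) : ℝ :=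
  ∑ x ∈ Finset.range n, ind (x ≠ v ∧ Eqv A v x)

/-- number of forced ordered pairs -/
noncomputable def N2 (n : ℕ) (A : Finset (Sym2 ℕ)) : ℝ := ∑ v ∈ Finset.range n, Nv n v A

theorem Nv_nonneg (n v : ℕ) (A : Finset (Sym2 ℕ)) : 0 ≤ Nv n v A :=
  Finset.sum_nonneg (fun _ _ => ind_nonneg _)

theorem N2_nonneg (n : ℕ) (A : Finset (Sym2 ℕ)) : 0 ≤ N2 n A :=
  Finset.sum_nonneg (fun _ _ => Nv_nonneg _ _ _)

theorem Nv_rel {n v : ℕ} {π : Equiv.Perm ℕ} (h : ∀ i, π i < n ↔ i < n) (A : Finset (Sym2 ℕ)) :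
    Nv n (π v) (rel π A) = Nv n v A := by
  unfold Nv
  rw [← sum_range_perm h]
  refine Finset.sum_congr rfl (fun x _ => ?_)
  congr 1
  rw [eqv_rel, π.injective.ne_iff]

theorem N2_rel {n : ℕ} {π : Equiv.Perm ℕ} (h : ∀ i, π i < n ↔ i < n) (A : Finset (Sym2 ℕ)) :
    N2 n (rel π A) = N2 n A := by
  unfold N2
  rw [← sum_range_perm h]
  exact Finset.sum_congr rfl (fun x _ => Nv_rel h A)

theorem ex_Nv_symm {n u v : ℕ} (hu : u < n) (hv : v < n) (t : ℝ) :
    ex t (EN n) (fun A => ind (Col A) * (Nv n u A * N2 n A)) =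
      ex t (EN n) (fun A => ind (Col A) * (Nv n v A * N2 n A)) := by
  obtain ⟨π, hπ, h1, _⟩ := exists_swap hu hv
  rw [← ex_rel hπ t (fun A => ind (Col A) * (Nv n v A * N2 n A))]
  apply ex_congr
  intro A _
  rw [col_rel, N2_rel hπ, ← h1, Nv_rel hπ]

/-- the set of ordered pairs -/
noncomputable def Sp (n : ℕ) (A : Finset (Sym2 ℕ)) : Finset (ℕ × ℕ) :=
  ((Finset.range n) ×ˢ (Finset.range n)).filter (fun p => p.2 ≠ p.1 ∧ Eqv A p.1 p.2)

theorem N2_eq (n : ℕ) (A : Finset (Sym2 ℕ)) : N2 n A = ((Sp n A).card : ℝ) := by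
  unfold N2 Nv Sp ind
  rw [Finset.card_filter, Nat.cast_sum, Finset.sum_product]
  refine Finset.sum_congr rfl (fun v _ => Finset.sum_congr rfl (fun x _ => ?_))
  dsimp only
  split_ifs <;> simp

theorem N2_le_card {n : ℕ} {A : Finset (Sym2 ℕ)} (hA : Col A) :
    N2 n A ≤ 2 * (((EN n \ A).filter (fun e => ¬ Col (insert e A))).card : ℝ) := by
  rw [N2_eq]
  have h1 : (Sp n A).card ≤ 2 * ((Sp n A).image (fun p => s(p.1, p.2))).card := by
    apply Finset.card_le_mul_card_image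
    intro e _
    induction e using Sym2.ind with
    | _ a b =>
      have h2 : (Sp n A).filter (fun p => s(p.1, p.2) = s(a, b)) ⊆ {(a, b), (b, a)} := by
        intro p hp
        rw [Finset.mem_filter] at hp
        rw [Finset.mem_insert, Finset.mem_singleton]
        rcases Sym2.eq_iff.1 hp.2 with ⟨h, h'⟩ | ⟨h, h'⟩
        · exact Or.inl (Prod.ext h h')
        · exact Or.inr (Prod.ext h h')
      exact (Finset.card_le_card h2).trans Finset.card_le_two
  have h3 : (Sp n A).image (fun p => s(p.1, p.2)) ⊆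
      (EN n \ A).filter (fun e => ¬ Col (insert e A)) := by
    intro e he
    rw [Finset.mem_image] at he
    obtain ⟨⟨v, x⟩, hp, rfl⟩ := he
    unfold Sp at hp
    rw [Finset.mem_filter, Finset.mem_product, Finset.mem_range, Finset.mem_range] at hp
    obtain ⟨⟨hv, hx⟩, hne, heq⟩ := hp
    dsimp only at *
    rw [Finset.mem_filter, Finset.mem_sdiff]
    refine ⟨⟨mem_EN.2 ⟨hv, hx, hne.symm⟩, fun h => ?_⟩, eqv_iff.1 heq⟩
    exact not_dif_of_eqv hA heq (dif_of_mem h)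
  have h4 := h1.trans (Nat.mul_le_mul_left 2 (Finset.card_le_card h3))
  exact_mod_cast h4

theorem N2_big {n : ℕ} {θ : ℝ} (hn : 10 ≤ θ * (n : ℝ)) {A : Finset (Sym2 ℕ)}
    (hA : Big n θ A) : 9 / 10 * (θ * n) ^ 2 ≤ N2 n A := by
  obtain ⟨v, hv, hk⟩ := hA
  set C := (Finset.range n).filter (fun x => Eqv A v x) with hC
  have h1 : C.offDiag ⊆ Sp n A := by
    intro p hp
    rw [Finset.mem_offDiag, hC, Finset.mem_filter, Finset.mem_filter] at hp
    obtain ⟨⟨h2, h3⟩, ⟨h4, h5⟩, h6⟩ := hp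
    unfold Sp
    rw [Finset.mem_filter, Finset.mem_product]
    exact ⟨⟨h2, h4⟩, h6.symm, h3.symm.trans h5⟩
  have h2 := Finset.card_le_card h1
  rw [Finset.offDiag_card] at h2
  rw [N2_eq]
  have h3 : ((C.card : ℝ)) * C.card - C.card ≤ ((Sp n A).card : ℝ) := by
    have h4 : C.card ≤ C.card * C.card := Nat.le_mul_self _
    have h5 : ((C.card * C.card - C.card : ℕ) : ℝ) = (C.card : ℝ) * C.card - C.card := by
      rw [Nat.cast_sub h4, Nat.cast_mul]
    rw [← h5]
    exact_mod_cast h2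
  set k : ℝ := (C.card : ℝ)
  set a : ℝ := θ * n
  nlinarith

end FlowAux

theorem flow_lower {m : ℕ} (hm : 4 ≤ m) {θ : ℝ} (hθ : 0 < θ) (hm2 : 10 ≤ θ * ((m : ℝ) + 1))
    {t : ℝ} (h0 : 0 ≤ t) (h1 : t < 1) :
    θ ^ 4 / 8 * (m : ℝ) ^ 3 * ell (m + 1) θ t ≤
      ∑ x ∈ Finset.range m, ∑ e ∈ EN (m + 1), ex t ((EN (m + 1)).erase e)
        (fun A => ind ((Col A ∧ Eqv A m x) ∧ ¬ (Col (insert e A) ∧ Eqv (insert e A) m x))) := by
  have hmpos : (0 : ℝ) < (m : ℝ) + 1 := by positivity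
  have hcast : ((m + 1 : ℕ) : ℝ) = (m : ℝ) + 1 := by push_cast; ring
  -- step 1: for each x
  have hx1 : ∀ x ∈ Finset.range m,
      ex t (EN (m + 1)) (fun A => ind (Col A ∧ Eqv A m x) * (N2 (m + 1) A / 2)) ≤
      ∑ e ∈ EN (m + 1), ex t ((EN (m + 1)).erase e)
        (fun A => ind ((Col A ∧ Eqv A m x) ∧ ¬ (Col (insert e A) ∧ Eqv (insert e A) m x))) := by
    intro x _
    set S := ∑ e ∈ EN (m + 1), ex t ((EN (m + 1)).erase e)
        (fun A => ind ((Col A ∧ Eqv A m x) ∧ ¬ (Col (insert e A) ∧ Eqv (insert e A) m x))) with hS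
    have hS0 : 0 ≤ S := Finset.sum_nonneg (fun e _ => ex_nonneg h0 h1.le (fun A _ => ind_nonneg _))
    have h2 := ex_sum_not_mem t (EN (m + 1)) (fun e A =>
      ind ((Col A ∧ Eqv A m x) ∧ ¬ (Col (insert e A) ∧ Eqv (insert e A) m x)))
    have h3 : ex t (EN (m + 1)) (fun A => ind (Col A ∧ Eqv A m x) * (N2 (m + 1) A / 2)) ≤
        (1 - t) * S := by
      rw [hS, ← h2]
      apply ex_mono h0 h1.le
      intro A _
      by_cases hc : Col A ∧ Eqv A m x
      · rw [ind_of hc, one_mul]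
        have h4 := N2_le_card (n := m + 1) hc.1
        have h5 : (((EN (m + 1) \ A).filter (fun e => ¬ Col (insert e A))).card : ℝ) ≤
            ∑ e ∈ EN (m + 1) \ A, ind ((Col A ∧ Eqv A m x) ∧
              ¬ (Col (insert e A) ∧ Eqv (insert e A) m x)) := by
          rw [Finset.card_filter, Nat.cast_sum]
          apply Finset.sum_le_sum
          intro e _
          by_cases h6 : ¬ Col (insert e A)
          · rw [if_pos h6, ind_of ⟨hc, fun h => h6 h.1⟩]
            simp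
          · rw [if_neg h6]
            simpa using ind_nonneg _
        linarith
      · rw [ind_of_not hc, zero_mul]
        exact Finset.sum_nonneg (fun e _ => ind_nonneg _)
    nlinarith
  refine le_trans ?_ (Finset.sum_le_sum hx1)
  rw [← ex_sum]
  -- the sum over x
  have h2 : ex t (EN (m + 1)) (fun A => ∑ x ∈ Finset.range m,
      ind (Col A ∧ Eqv A m x) * (N2 (m + 1) A / 2)) =
      1 / 2 * ex t (EN (m + 1)) (fun A => ind (Col A) * (Nv (m + 1) m A * N2 (m + 1) A)) := by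
    rw [← ex_mul_left]
    apply ex_congr
    intro A _
    have h3 : Nv (m + 1) m A = ∑ x ∈ Finset.range m, ind (Eqv A m x) := by
      unfold Nv
      rw [Finset.sum_range_succ, ind_of_not (p := m ≠ m ∧ Eqv A m m) (fun h => h.1 rfl), add_zero]
      refine Finset.sum_congr rfl (fun x hx => ?_)
      have : x ≠ m := (Finset.mem_range.1 hx).ne
      congr 1
      exact propext ⟨fun h => h.2, fun h => ⟨this, h⟩⟩
    rw [h3, Finset.sum_mul, Finset.mul_sum, Finset.mul_sum]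
    refine Finset.sum_congr rfl (fun x _ => ?_)
    rw [ind_and]
    ring
  rw [h2]
  set F := ex t (EN (m + 1)) (fun A => ind (Col A) * (Nv (m + 1) m A * N2 (m + 1) A)) with hF
  have h3 : ((m : ℝ) + 1) * F = ex t (EN (m + 1)) (fun A => ind (Col A) * (N2 (m + 1) A * N2 (m + 1) A)) := by
    have h4 : ∑ v ∈ Finset.range (m + 1),
        ex t (EN (m + 1)) (fun A => ind (Col A) * (Nv (m + 1) v A * N2 (m + 1) A)) =
        ((m : ℝ) + 1) * F := by
      rw [Finset.sum_congr rfl (fun v hv => ex_Nv_symm (Finset.mem_range.1 hv) (Nat.lt_succ_self m) t),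
        Finset.sum_const, Finset.card_range, nsmul_eq_mul, hcast]
    rw [← h4, ← ex_sum]
    apply ex_congr
    intro A _
    rw [← Finset.mul_sum, ← Finset.sum_mul]
    rfl
  have h5 : (9 / 10 * (θ * ((m : ℝ) + 1)) ^ 2) ^ 2 * ell (m + 1) θ t ≤ ((m : ℝ) + 1) * F := by
    rw [h3]
    unfold ell
    rw [← ex_mul_left]
    apply ex_mono h0 h1.le
    intro A _
    by_cases hc : Col A ∧ Big (m + 1) θ A
    · rw [ind_of hc, ind_of hc.1, mul_one, one_mul]
      have h6 := N2_big (n := m + 1) (θ := θ) (by rw [hcast]; exact hm2) hc.2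
      rw [hcast] at h6
      have h7 : 0 ≤ 9 / 10 * (θ * ((m : ℝ) + 1)) ^ 2 := by positivity
      rw [sq (9 / 10 * (θ * ((m : ℝ) + 1)) ^ 2)]
      exact mul_le_mul h6 h6 h7 (h7.trans h6)
    · rw [ind_of_not hc, mul_zero]
      exact mul_nonneg (ind_nonneg _) (mul_nonneg (N2_nonneg _ _) (N2_nonneg _ _))
  have hell : 0 ≤ ell (m + 1) θ t := by
    unfold ell
    exact ex_nonneg h0 h1.le (fun A _ => ind_nonneg _)
  have h8 : (81 / 100) * θ ^ 4 * ((m : ℝ) + 1) ^ 3 * ell (m + 1) θ t ≤ F := by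
    have h9 : ((m : ℝ) + 1) * ((81 / 100) * θ ^ 4 * ((m : ℝ) + 1) ^ 3 * ell (m + 1) θ t) ≤
        ((m : ℝ) + 1) * F := by
      calc ((m : ℝ) + 1) * ((81 / 100) * θ ^ 4 * ((m : ℝ) + 1) ^ 3 * ell (m + 1) θ t)
          = (9 / 10 * (θ * ((m : ℝ) + 1)) ^ 2) ^ 2 * ell (m + 1) θ t := by ring
        _ ≤ _ := h5
    exact le_of_mul_le_mul_left h9 hmpos
  have h10 : (m : ℝ) ^ 3 ≤ ((m : ℝ) + 1) ^ 3 := by
    apply pow_le_pow_left₀ (by positivity)
    linarith
  have h11 : θ ^ 4 / 8 * (m : ℝ) ^ 3 * ell (m + 1) θ t ≤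
      1 / 2 * ((81 / 100) * θ ^ 4 * ((m : ℝ) + 1) ^ 3 * ell (m + 1) θ t) := by
    have h12 : 0 ≤ θ ^ 4 * ell (m + 1) θ t := by positivity
    have h13 : (m : ℝ) ^ 3 * (θ ^ 4 * ell (m + 1) θ t) ≤ ((m : ℝ) + 1) ^ 3 * (θ ^ 4 * ell (m + 1) θ t) :=
      mul_le_mul_of_nonneg_right h10 h12
    have h14 : 0 ≤ (m : ℝ) ^ 3 * (θ ^ 4 * ell (m + 1) θ t) := by positivity
    nlinarith
  linarith

theorem flow_big {m : ℕ} (hm : 4 ≤ m) {θ : ℝ} (hθ : 0 < θ) (hm2 : 10 ≤ θ * ((m : ℝ) + 1))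
    {a b : ℝ} (ha : 0 ≤ a) (hab : a ≤ b) (hb : b < 1) :
    θ ^ 4 / 8 * (m : ℝ) ^ 2 * ∫ t in a..b, ell (m + 1) θ t ≤
      ∫ t in (0 : ℝ)..1, Rr m t (nbar m t) := by
  have hm0 : (0 : ℝ) < m := by
    have : 0 < m := by omega
    exact_mod_cast this
  set G : ℕ → ℝ → ℝ := fun x t => ∑ e ∈ EN (m + 1), ex t ((EN (m + 1)).erase e)
        (fun A => ind ((Col A ∧ Eqv A m x) ∧ ¬ (Col (insert e A) ∧ Eqv (insert e A) m x))) with hG
  have hGc : ∀ x, Continuous (G x) := fun x =>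
    continuous_finsetSum _ (fun e _ => continuous_ex _ _)
  set H : ℕ → ℝ → ℝ := fun x t => Rr m t (fun A =>
        ex t (Finset.range m) (fun W => ind (Net A (insert x W)))) with hH
  have hHc : ∀ x, Continuous (H x) := by
    intro x
    rw [hH]
    unfold Rr
    refine continuous_finsetSum _ (fun e _ => ?_)
    refine flow_cont _ (fun t A => ind (Col A ∧ ¬ Col (insert e A)) *
      ex t (Finset.range m) (fun W => ind (Net A (insert x W)))) (fun A => ?_)
    exact continuous_const.mul (continuous_ex _ _)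
  have h1 : ∀ t, Rr m t (nbar m t) = (1 / (m : ℝ)) * ∑ x ∈ Finset.range m, H x t := by
    intro t
    rw [hH]
    unfold Rr nbar
    rw [Finset.sum_comm, Finset.mul_sum]
    refine Finset.sum_congr rfl (fun e _ => ?_)
    rw [← ex_sum, ← ex_mul_left]
    apply ex_congr
    intro A _
    rw [← Finset.mul_sum]
    ring
  have h2 : ∫ t in (0 : ℝ)..1, Rr m t (nbar m t) =
      (1 / (m : ℝ)) * ∑ x ∈ Finset.range m, ∫ t in (0 : ℝ)..1, H x t := by
    simp only [h1]
    rw [intervalIntegral.integral_const_mul, intervalIntegral.integral_finsetSum]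
    intro x _
    exact (hHc x).intervalIntegrable _ _
  have h3 : ∑ x ∈ Finset.range m, ∫ t in (0 : ℝ)..1, G x t ≤
      ∑ x ∈ Finset.range m, ∫ t in (0 : ℝ)..1, H x t :=
    Finset.sum_le_sum (fun x hx => flow_upper hm (Finset.mem_range.1 hx))
  have h4 : ∑ x ∈ Finset.range m, ∫ t in (0 : ℝ)..1, G x t =
      ∫ t in (0 : ℝ)..1, ∑ x ∈ Finset.range m, G x t := by
    rw [intervalIntegral.integral_finsetSum]
    intro x _
    exact (hGc x).intervalIntegrable _ _
  have hSc : Continuous (fun t => ∑ x ∈ Finset.range m, G x t) :=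
    continuous_finsetSum _ (fun x _ => hGc x)
  have h5 : ∫ t in a..b, ∑ x ∈ Finset.range m, G x t ≤
      ∫ t in (0 : ℝ)..1, ∑ x ∈ Finset.range m, G x t := by
    apply intervalIntegral.integral_mono_interval ha hab hb.le
    · rw [Filter.EventuallyLE]
      refine (MeasureTheory.ae_restrict_mem measurableSet_Ioc).mono ?_
      intro t ht
      exact Finset.sum_nonneg (fun x _ => Finset.sum_nonneg (fun e _ =>
        ex_nonneg ht.1.le ht.2 (fun A _ => ind_nonneg _)))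
    · exact hSc.intervalIntegrable _ _
  have h6 : ∫ t in a..b, θ ^ 4 / 8 * (m : ℝ) ^ 3 * ell (m + 1) θ t ≤
      ∫ t in a..b, ∑ x ∈ Finset.range m, G x t := by
    apply intervalIntegral.integral_mono_on hab
    · have hec : Continuous (fun t : ℝ => ell (m + 1) θ t) := by
        unfold ell
        exact continuous_ex _ _
      exact (continuous_const.mul hec).intervalIntegrable _ _
    · exact hSc.intervalIntegrable _ _
    · intro t ht
      exact flow_lower hm hθ hm2 (ha.trans ht.1) (lt_of_le_of_lt ht.2 hb)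
  rw [intervalIntegral.integral_const_mul] at h6
  rw [h2]
  have h7 : θ ^ 4 / 8 * (m : ℝ) ^ 3 * ∫ t in a..b, ell (m + 1) θ t ≤
      ∑ x ∈ Finset.range m, ∫ t in (0 : ℝ)..1, H x t := by
    linarith
  calc θ ^ 4 / 8 * (m : ℝ) ^ 2 * ∫ t in a..b, ell (m + 1) θ t
      = (1 / (m : ℝ)) * (θ ^ 4 / 8 * (m : ℝ) ^ 3 * ∫ t in a..b, ell (m + 1) θ t) := by
        field_simp
    _ ≤ _ := by
        apply mul_le_mul_of_nonneg_left h7
        positivity

end Pool.Agent.LC3
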