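import Pool.Agent.LC3.ExA

/-!
# LC3.FrA : uniformly random orderings and Bernoulli random sets

`α` is a finite type with `N` elements; `fst σ m` = the set of the first `m` elements of the ordering
`σ : Fin N ≃ α`.

* `card_order`: the number of orderings with `fst σ |A| = A` and `e` at position `|A|` is
  `|A|! (N-1-|A|)!`: colour the elements of `A`, the element `e` and the other ones with three
  different colours, and the positions accordingly; the orderings are exactly the bijections
  preserving the colours.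
* `beta_int`: Beta integral, by induction from
  `∫ t^a (1-t)^(b+1) = ∫ t^a (1-t)^b - ∫ t^(a+1) (1-t)^b`.
* `order_ge`: by `beta_int` the left-hand side is
  `∑_e ∑_{A ⊆ univ \ e} ind(...) |A|! (N-1-|A|)!/N!`, i.e. `1/N!` times the number of triples `(A,e,σ)`,
  with `fst σ |A| = A`, `σ |A| = e`, `P A`, `B A`, `¬ P (insert e A)`. Note `insert e A = fst σ (|A|+1)`.
  For a given `σ` there is at most one such `a = |A|` (`P` is decreasing, `P (fst σ a)` and
  `¬ P (fst σ (a+1))`), and then `(A,e)` is determined; and then `σ` belongs to the set on the right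
  (`m = a`).
-/

set_option autoImplicit false

open Classical

namespace Pool.Agent.LC3

/-- the first `m` elements of the ordering `σ` -/
noncomputable def fst {α : Type*} [Fintype α] {N : ℕ} (σ : Fin N ≃ α) (m : ℕ) : Finset α :=
  Finset.univ.filter (fun a => (σ.symm a : ℕ) < m)

theorem mem_fst {α : Type*} [Fintype α] {N : ℕ} (σ : Fin N ≃ α) (m : ℕ) (x : α) :
    x ∈ fst σ m ↔ (σ.symm x : ℕ) < m := by
  simp only [fst, Finset.mem_filter, Finset.mem_univ, true_and]

theorem fst_mono {α : Type*} [Fintype α] {N : ℕ} (σ : Fin N ≃ α) {m m' : ℕ} (h : m ≤ m') :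
    fst σ m ⊆ fst σ m' := by
  intro a ha
  rw [mem_fst] at ha ⊢
  omega

/-- colour of an element -/
noncomputable def cf {α : Type*} (A : Finset α) (e : α) (x : α) : Fin 3 :=
  if x ∈ A then 0 else if x = e then 1 else 2

/-- colour of a position -/
def hf {N : ℕ} (a : ℕ) (i : Fin N) : Fin 3 :=
  if (i : ℕ) < a then 0 else if (i : ℕ) = a then 1 else 2

theorem cf_zero {α : Type*} (A : Finset α) (e : α) (x : α) : cf A e x = 0 ↔ x ∈ A := by
  unfold cf
  split_ifs with h1 h2
  · simp [h1]
  · simp [h1]
  · simp [h1]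

theorem cf_one {α : Type*} (A : Finset α) (e : α) (he : e ∉ A) (x : α) :
    cf A e x = 1 ↔ x = e := by
  unfold cf
  split_ifs with h1 h2
  · have : x ≠ e := fun h => he (h ▸ h1)
    simp [this]
  · simp [h2]
  · simp [h2]

theorem hf_zero {N : ℕ} (a : ℕ) (i : Fin N) : hf a i = 0 ↔ (i : ℕ) < a := by
  unfold hf
  split_ifs with h1 h2
  · simp [h1]
  · simp [h1]
  · simp [h1]

theorem hf_one {N : ℕ} (a : ℕ) (i : Fin N) : hf a i = 1 ↔ (i : ℕ) = a := by
  unfold hf
  split_ifs with h1 h2
  · have : (i : ℕ) ≠ a := by omega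
    simp [this]
  · simp [h2]
  · simp [h2]

theorem fin3_ext (x y : Fin 3) (h0 : x = 0 ↔ y = 0) (h1 : x = 1 ↔ y = 1) : x = y := by
  revert x y
  decide

theorem cond_iff {α : Type*} [Fintype α] {N : ℕ} (A : Finset α) (a : ℕ) (e : α) (he : e ∉ A)
    (σ : Fin N ≃ α) :
    (fst σ a = A ∧ (σ.symm e : ℕ) = a) ↔ ∀ i, cf A e (σ i) = hf a i := by
  constructor
  · rintro ⟨h1, h2⟩ i
    apply fin3_ext
    · rw [cf_zero, hf_zero, ← h1, mem_fst, Equiv.symm_apply_apply]
    · rw [cf_one A e he, hf_one, ← h2]
      constructor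
      · intro h
        rw [← h, Equiv.symm_apply_apply]
      · intro h
        have : i = σ.symm e := Fin.ext h
        rw [this, Equiv.apply_symm_apply]
  · intro h
    constructor
    · ext x
      rw [mem_fst, ← hf_zero a (σ.symm x), ← h, Equiv.apply_symm_apply, cf_zero]
    · rw [← hf_one a (σ.symm e), ← h, Equiv.apply_symm_apply, cf_one A e he]

theorem card_fib {α β : Type*} [Fintype α] [Fintype β] (f : α → Fin 3) (h : β → Fin 3)
    (hc : ∀ c, (Finset.univ.filter (fun b => h b = c)).card =
      (Finset.univ.filter (fun x => f x = c)).card) :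
    (Finset.univ.filter (fun σ : β ≃ α => ∀ i, f (σ i) = h i)).card =
      ∏ c : Fin 3, ((Finset.univ.filter (fun x => f x = c)).card).factorial := by
  have e : ∀ c, {b // h b = c} ≃ {x // f x = c} := by
    intro c
    apply Fintype.equivOfCardEq
    rw [Fintype.card_subtype, Fintype.card_subtype]
    exact hc c
  let σ0 : β ≃ α := Equiv.ofFiberEquiv e
  have h0 : ∀ b, f (σ0 b) = h b := fun b => Equiv.ofFiberEquiv_map e b
  have h1 : (Finset.univ.filter (fun σ : β ≃ α => ∀ i, f (σ i) = h i)).card =
      Fintype.card {g : Equiv.Perm α // f ∘ g = f} := by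
    rw [← Fintype.card_subtype]
    apply Fintype.card_congr
    refine Equiv.subtypeEquiv (Equiv.equivCongr σ0 (Equiv.refl α)) ?_
    intro σ
    constructor
    · intro hσ
      funext x
      have h2 : f (σ (σ0.symm x)) = h (σ0.symm x) := hσ (σ0.symm x)
      have h3 : f (σ0 (σ0.symm x)) = h (σ0.symm x) := h0 (σ0.symm x)
      rw [Equiv.apply_symm_apply] at h3
      show f (σ (σ0.symm x)) = f x
      rw [h2, h3]
    · intro hσ i
      have h2 : f (σ (σ0.symm (σ0 i))) = f (σ0 i) := congrFun hσ (σ0 i)
      rw [Equiv.symm_apply_apply, h0] at h2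
      exact h2
  rw [h1, DomMulAct.stabilizer_card]
  refine Finset.prod_congr rfl (fun c _ => ?_)
  rw [Fintype.card_subtype]

theorem card_three {α : Type*} [Fintype α] (f : α → Fin 3) :
    (Finset.univ.filter (fun x => f x = 0)).card + (Finset.univ.filter (fun x => f x = 1)).card +
      (Finset.univ.filter (fun x => f x = 2)).card = Fintype.card α := by
  have h := Finset.card_eq_sum_card_fiberwise (f := f) (s := (Finset.univ : Finset α))
    (t := (Finset.univ : Finset (Fin 3))) (fun _ _ => Finset.mem_coe.2 (Finset.mem_univ _))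
  rw [Fin.sum_univ_three, Finset.card_univ] at h
  exact h.symm

theorem card_order {α : Type*} [Fintype α] {N : ℕ} (hN : Fintype.card α = N) (A : Finset α) (e : α)
    (he : e ∉ A) :
    (Finset.univ.filter (fun σ : Fin N ≃ α => fst σ A.card = A ∧ (σ.symm e : ℕ) = A.card)).card =
      A.card.factorial * (N - 1 - A.card).factorial := by
  have hlt : A.card < N := by
    rw [← hN, ← Finset.card_univ]
    exact Finset.card_lt_card (Finset.ssubset_univ_iff.2 (fun h => he (h ▸ Finset.mem_univ e)))
  have h1 : (Finset.univ.filter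
      (fun σ : Fin N ≃ α => fst σ A.card = A ∧ (σ.symm e : ℕ) = A.card)) =
      Finset.univ.filter (fun σ : Fin N ≃ α => ∀ i, cf A e (σ i) = hf A.card i) := by
    ext σ
    simp only [Finset.mem_filter, Finset.mem_univ, true_and]
    exact cond_iff A A.card e he σ
  have f0 : (Finset.univ.filter (fun x => cf A e x = 0)).card = A.card := by
    congr 1
    ext x
    simp only [Finset.mem_filter, Finset.mem_univ, true_and]
    exact cf_zero A e x
  have f1 : (Finset.univ.filter (fun x => cf A e x = 1)).card = 1 := by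
    rw [Finset.card_eq_one]
    refine ⟨e, ?_⟩
    ext x
    simp only [Finset.mem_filter, Finset.mem_univ, true_and, Finset.mem_singleton]
    exact cf_one A e he x
  have f2 := card_three (cf A e)
  have g0 : (Finset.univ.filter (fun x : Fin N => hf A.card x = 0)).card = A.card := by
    have : (Finset.univ.filter (fun x : Fin N => hf A.card x = 0)) =
        Finset.univ.filter (fun x : Fin N => (x : ℕ) < A.card) := by
      ext x
      simp only [Finset.mem_filter, Finset.mem_univ, true_and]
      exact hf_zero A.card x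
    rw [this, Fin.card_filter_val_lt]
    omega
  have g1 : (Finset.univ.filter (fun x : Fin N => hf A.card x = 1)).card = 1 := by
    rw [Finset.card_eq_one]
    refine ⟨⟨A.card, hlt⟩, ?_⟩
    ext x
    simp only [Finset.mem_filter, Finset.mem_univ, true_and, Finset.mem_singleton]
    rw [hf_one, Fin.ext_iff]
  have g2 := card_three (hf A.card : Fin N → Fin 3)
  rw [Fintype.card_fin] at g2
  rw [f0, f1, hN] at f2
  rw [g0, g1] at g2
  have hc : ∀ c, (Finset.univ.filter (fun b : Fin N => hf A.card b = c)).card =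
      (Finset.univ.filter (fun x => cf A e x = c)).card := by
    intro c
    fin_cases c
    · exact g0.trans f0.symm
    · exact g1.trans f1.symm
    · show (Finset.univ.filter (fun b : Fin N => hf A.card b = 2)).card =
        (Finset.univ.filter (fun x => cf A e x = 2)).card
      omega
  have h2 : (Finset.univ.filter (fun x => cf A e x = 2)).card = N - 1 - A.card := by omega
  have h3 := card_fib (cf A e) (hf A.card : Fin N → Fin 3) hc
  rw [Fin.prod_univ_three, f0, f1, h2, Nat.factorial_one, mul_one] at h3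
  rw [h1, ← h3]
  apply congrArg
  ext σ
  simp only [Finset.mem_filter, Finset.mem_univ, true_and]

theorem beta_int (a b : ℕ) : ∫ t in (0 : ℝ)..1, t ^ a * (1 - t) ^ b =
    ((a.factorial : ℝ) * (b.factorial : ℝ)) / ((a + b + 1).factorial : ℝ) := by
  induction b generalizing a with
  | zero =>
    simp only [pow_zero, mul_one, Nat.factorial_zero, Nat.cast_one, Nat.add_zero]
    rw [integral_pow, Nat.factorial_succ]
    have h1 : ((a : ℝ) + 1) ≠ 0 := by positivity
    have h2 : (a.factorial : ℝ) ≠ 0 := by positivity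
    push_cast
    field_simp
    simp
  | succ b ih =>
    have h1 : ∫ t in (0 : ℝ)..1, t ^ a * (1 - t) ^ (b + 1) =
        (∫ t in (0 : ℝ)..1, t ^ a * (1 - t) ^ b) - ∫ t in (0 : ℝ)..1, t ^ (a + 1) * (1 - t) ^ b := by
      rw [← intervalIntegral.integral_sub]
      · congr 1
        funext t
        ring
      · exact Continuous.intervalIntegrable (by fun_prop) _ _
      · exact Continuous.intervalIntegrable (by fun_prop) _ _
    rw [h1, ih, ih]
    have e1 : (a + 1 + b + 1).factorial = (a + b + 2) * (a + b + 1).factorial := by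
      have : a + 1 + b + 1 = (a + b + 1) + 1 := by ring
      rw [this, Nat.factorial_succ]
    have e2 : (a + (b + 1) + 1).factorial = (a + b + 2) * (a + b + 1).factorial := by
      have : a + (b + 1) + 1 = (a + b + 1) + 1 := by ring
      rw [this, Nat.factorial_succ]
    rw [e1, e2, Nat.factorial_succ a, Nat.factorial_succ b]
    have h2 : ((a + b + 1).factorial : ℝ) ≠ 0 := by positivity
    have h3 : ((a : ℝ) + b + 2) ≠ 0 := by positivity
    push_cast
    field_simp
    ring

/-- for a given ordering there is at most one admissible pair `(e, A)` -/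
theorem pair_unique {α : Type*} [Fintype α] {N : ℕ} (P : Finset α → Prop)
    (hP : ∀ A A' : Finset α, A ⊆ A' → P A' → P A) (σ : Fin N ≃ α) (e : α) (A A' : Finset α)
    (h1 : fst σ A.card = A) (h2 : (σ.symm e : ℕ) = A.card) (h4 : ¬ P (insert e A))
    (h1' : fst σ A'.card = A') (h3' : P A') :
    ¬ (A.card < A'.card) := by
  intro hlt
  apply h4
  refine hP _ A' ?_ h3'
  rw [← h1']
  intro x hx
  rcases Finset.mem_insert.1 hx with hx | hx
  · rw [hx, mem_fst, h2]
    exact hlt
  · rw [← h1] at hx
    exact fst_mono σ hlt.le hx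

theorem order_ge {α : Type*} [Fintype α] {N : ℕ} (hN : Fintype.card α = N) (P B : Finset α → Prop)
    (hP : ∀ A A' : Finset α, A ⊆ A' → P A' → P A) :
    ∫ t in (0 : ℝ)..1, ∑ e : α, ex t (Finset.univ.erase e)
        (fun A => ind ((P A ∧ B A) ∧ ¬ P (insert e A))) ≤
      ((Finset.univ.filter
        (fun σ : Fin N ≃ α => ∃ m : ℕ, P (fst σ m) ∧ B (fst σ m))).card : ℝ) / (N.factorial : ℝ) := by
  have hcard : ∀ e : α, (Finset.univ.erase e).card = N - 1 := by
    intro e
    rw [Finset.card_erase_of_mem (Finset.mem_univ e), Finset.card_univ, hN]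
  have hI : ∫ t in (0 : ℝ)..1, ∑ e : α, ex t (Finset.univ.erase e)
        (fun A => ind ((P A ∧ B A) ∧ ¬ P (insert e A))) =
      ∑ e : α, ∑ A ∈ (Finset.univ.erase e).powerset,
        ∫ t in (0 : ℝ)..1, t ^ A.card * (1 - t) ^ ((Finset.univ.erase e).card - A.card) *
          ind ((P A ∧ B A) ∧ ¬ P (insert e A)) := by
    unfold ex
    rw [intervalIntegral.integral_finsetSum]
    · refine Finset.sum_congr rfl (fun e _ => ?_)
      rw [intervalIntegral.integral_finsetSum]
      intro A _
      exact Continuous.intervalIntegrable (by fun_prop) _ _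
    · intro e _
      exact Continuous.intervalIntegrable (by fun_prop) _ _
  rw [hI]
  have hJ : ∀ e : α, ∀ A ∈ (Finset.univ.erase e).powerset,
      ∫ t in (0 : ℝ)..1, t ^ A.card * (1 - t) ^ ((Finset.univ.erase e).card - A.card) *
          ind ((P A ∧ B A) ∧ ¬ P (insert e A)) =
      (∑ σ : Fin N ≃ α, ind ((fst σ A.card = A ∧ (σ.symm e : ℕ) = A.card) ∧
        ((P A ∧ B A) ∧ ¬ P (insert e A)))) / (N.factorial : ℝ) := by
    intro e A hA
    have hA' := Finset.mem_powerset.1 hA
    have he : e ∉ A := fun h => Finset.notMem_erase e _ (hA' h)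
    have hle : A.card ≤ N - 1 := by
      rw [← hcard e]
      exact Finset.card_le_card hA'
    have hpos : 0 < N := by
      rw [← hN]
      exact Fintype.card_pos_iff.2 ⟨e⟩
    rw [intervalIntegral.integral_mul_const, hcard, beta_int]
    have e1 : A.card + (N - 1 - A.card) + 1 = N := by omega
    rw [e1]
    have h1 : (∑ σ : Fin N ≃ α, ind ((fst σ A.card = A ∧ (σ.symm e : ℕ) = A.card) ∧
        ((P A ∧ B A) ∧ ¬ P (insert e A)))) =
        ((A.card.factorial : ℝ) * ((N - 1 - A.card).factorial : ℝ)) *
          ind ((P A ∧ B A) ∧ ¬ P (insert e A)) := by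
      have h2 : ∀ σ : Fin N ≃ α, ind ((fst σ A.card = A ∧ (σ.symm e : ℕ) = A.card) ∧
          ((P A ∧ B A) ∧ ¬ P (insert e A))) =
          ind (fst σ A.card = A ∧ (σ.symm e : ℕ) = A.card) *
            ind ((P A ∧ B A) ∧ ¬ P (insert e A)) := fun σ => ind_and _ _
      rw [Finset.sum_congr rfl (fun σ _ => h2 σ), ← Finset.sum_mul]
      congr 1
      have h3 : (∑ σ : Fin N ≃ α, ind (fst σ A.card = A ∧ (σ.symm e : ℕ) = A.card)) =
          ((Finset.univ.filter
            (fun σ : Fin N ≃ α => fst σ A.card = A ∧ (σ.symm e : ℕ) = A.card)).card : ℝ) := by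
        rw [Finset.card_filter, Nat.cast_sum]
        refine Finset.sum_congr rfl (fun σ _ => ?_)
        by_cases h : fst σ A.card = A ∧ (σ.symm e : ℕ) = A.card
        · rw [ind_of h, if_pos h, Nat.cast_one]
        · rw [ind_of_not h, if_neg h, Nat.cast_zero]
      rw [h3, card_order hN A e he]
      push_cast
      ring
    rw [h1]
    ring
  rw [Finset.sum_congr rfl (fun e _ => Finset.sum_congr rfl (fun A hA => hJ e A hA))]
  simp only [← Finset.sum_div]
  apply div_le_div_of_nonneg_right _ (by positivity)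
  have hsub : ∀ e : α, (∑ A ∈ (Finset.univ.erase e).powerset, ∑ σ : Fin N ≃ α,
        ind ((fst σ A.card = A ∧ (σ.symm e : ℕ) = A.card) ∧
        ((P A ∧ B A) ∧ ¬ P (insert e A)))) ≤
      ∑ A : Finset α, ∑ σ : Fin N ≃ α,
        ind ((fst σ A.card = A ∧ (σ.symm e : ℕ) = A.card) ∧
        ((P A ∧ B A) ∧ ¬ P (insert e A))) := by
    intro e
    exact Finset.sum_le_sum_of_subset_of_nonneg (Finset.subset_univ _)
      (fun A _ _ => Finset.sum_nonneg (fun σ _ => ind_nonneg _))
  refine (Finset.sum_le_sum (fun e _ => hsub e)).trans ?_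
  have hswap : (∑ e : α, ∑ A : Finset α, ∑ σ : Fin N ≃ α,
        ind ((fst σ A.card = A ∧ (σ.symm e : ℕ) = A.card) ∧
        ((P A ∧ B A) ∧ ¬ P (insert e A)))) =
      ∑ σ : Fin N ≃ α, ∑ p : α × Finset α,
        ind ((fst σ p.2.card = p.2 ∧ (σ.symm p.1 : ℕ) = p.2.card) ∧
        ((P p.2 ∧ B p.2) ∧ ¬ P (insert p.1 p.2))) := by
    rw [Finset.sum_comm (s := (Finset.univ : Finset (Fin N ≃ α))), Fintype.sum_prod_type]
  rw [hswap, Finset.card_filter, Nat.cast_sum]
  refine Finset.sum_le_sum (fun σ _ => ?_)
  by_cases hex : ∃ p : α × Finset α, (fst σ p.2.card = p.2 ∧ (σ.symm p.1 : ℕ) = p.2.card) ∧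
        ((P p.2 ∧ B p.2) ∧ ¬ P (insert p.1 p.2))
  · obtain ⟨p0, hp0⟩ := hex
    rw [Finset.sum_eq_single p0]
    · have h1 : ∃ m : ℕ, P (fst σ m) ∧ B (fst σ m) :=
        ⟨p0.2.card, by rw [hp0.1.1]; exact hp0.2.1⟩
      rw [ind_of hp0, if_pos h1, Nat.cast_one]
    · intro p _ hne
      apply ind_of_not
      intro hp
      apply hne
      have hc : p.2.card = p0.2.card := by
        have a1 := pair_unique P hP σ p.1 p.2 p0.2 hp.1.1 hp.1.2 hp.2.2 hp0.1.1 hp0.2.1.1
        have a2 := pair_unique P hP σ p0.1 p0.2 p.2 hp0.1.1 hp0.1.2 hp0.2.2 hp.1.1 hp.2.1.1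
        omega
      have hA : p.2 = p0.2 := by rw [← hp.1.1, ← hp0.1.1, hc]
      have hE : p.1 = p0.1 := by
        apply σ.symm.injective
        apply Fin.ext
        rw [hp.1.2, hp0.1.2, hc]
      exact Prod.ext hE hA
    · intro h
      exact absurd (Finset.mem_univ _) h
  · rw [Finset.sum_eq_zero (fun p _ => ind_of_not (fun h => hex ⟨p, h⟩))]
    positivity

end Pool.Agent.LC3
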