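import Pool.Agent.LC3.SizeId

/-!
# LC3.MonoT : `tt m (i+1)` is almost at least `tt m i`

Fix `A`. Choose an ordered triple `(Z, z, x)`: `Z` a uniformly random `i`-subset of `V = range m`, `z, x`
two different random elements of `V \ Z`. Let `g(Z) = #{x ∈ V \ Z : Net (insert x Z)}`, `M = m - i`.
* `tt m i A = P(¬ Net Z, Net (Z ∪ x))`  (`nu m (i+1) A = P(Net (Z ∪ x))` because every `(i+1)`-set
  arises from exactly `i+1` pairs `(Z,x)`, `nu m i A = P(Net Z)`, and `Net Z → Net (Z ∪ x)`).
  In counting form: `tt m i A * C(m,i) * (m-i) = ∑_{Z not net} g(Z)`.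
* `tt m (i+1) A = P(¬ Net (Z ∪ z), Net (Z ∪ z ∪ x)) ≥ P(¬ Net (Z ∪ z), Net (Z ∪ x))
   = P(¬ Net Z, Net (Z ∪ x)) - P(¬ Net Z, Net (Z ∪ x), Net (Z ∪ z))`
  (if `Z ∪ z` is not a net then `Z` is not a net).
* `P(¬ Net Z, Net (Z ∪ x), Net (Z ∪ z)) = E[1(¬ Net Z) g(g-1)/(M(M-1))] ≤ E[1(¬ Net Z) (g/M)^2]
   ≤ θ E[1(¬ Net Z) g/M] + P(¬ Net Z, g > θ M) = θ tt m i A + bigf m i θ A`.
In counting form: `tt m (i+1) A * C(m,i) * (m-i) * (m-i-1)` is the number of triples
`(Z,z,x)` with `¬ Net (Z ∪ z)`, `Net (Z ∪ z ∪ x)` (each `(i+1)`-set `Z ∪ z` arises `i+1` times and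
`C(m,i+1) (i+1) = C(m,i) (m-i)`).
-/

set_option autoImplicit false

open Classical

namespace Pool.Agent.LC3

/-- vertices completing `Z` to a net -/
private noncomputable def cm (m : ℕ) (A : Finset (Sym2 ℕ)) (Z : Finset ℕ) : Finset ℕ :=
  (Finset.range m).filter (fun x => x ∉ Z ∧ Net A (insert x Z))

private theorem dc (m i : ℕ) (F : Finset ℕ → ℕ → ℝ) :
    ∑ Z ∈ (Finset.range m).powersetCard i, ∑ x ∈ Finset.range m \ Z, F (insert x Z) x =
      ∑ Y ∈ (Finset.range m).powersetCard (i + 1), ∑ x ∈ Y, F Y x := by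
  rw [Finset.sum_sigma', Finset.sum_sigma']
  refine Finset.sum_bij' (fun p _ => ⟨insert p.2 p.1, p.2⟩) (fun p _ => ⟨p.1.erase p.2, p.2⟩)
    ?_ ?_ ?_ ?_ ?_
  · rintro ⟨Z, x⟩ h
    simp only [Finset.mem_sigma, Finset.mem_powersetCard, Finset.mem_sdiff] at h ⊢
    obtain ⟨⟨h1, h2⟩, h3, h4⟩ := h
    refine ⟨⟨Finset.insert_subset h3 h1, ?_⟩, Finset.mem_insert_self _ _⟩
    rw [Finset.card_insert_of_notMem h4, h2]
  · rintro ⟨Y, x⟩ h
    simp only [Finset.mem_sigma, Finset.mem_powersetCard, Finset.mem_sdiff] at h ⊢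
    obtain ⟨⟨h1, h2⟩, h3⟩ := h
    refine ⟨⟨(Finset.erase_subset _ _).trans h1, ?_⟩, h1 h3, Finset.notMem_erase _ _⟩
    rw [Finset.card_erase_of_mem h3, h2]; rfl
  · rintro ⟨Z, x⟩ h
    simp only [Finset.mem_sigma, Finset.mem_powersetCard, Finset.mem_sdiff] at h
    simp [Finset.erase_insert h.2.2]
  · rintro ⟨Y, x⟩ h
    simp only [Finset.mem_sigma, Finset.mem_powersetCard] at h
    simp [Finset.insert_erase h.2]
  · rintro ⟨Z, x⟩ _
    rfl

private theorem cm_le (m : ℕ) (A : Finset (Sym2 ℕ)) {i : ℕ} {Z : Finset ℕ}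
    (hZ : Z ∈ (Finset.range m).powersetCard i) : ((cm m A Z).card : ℝ) ≤ (m : ℝ) - i := by
  rw [Finset.mem_powersetCard] at hZ
  have h1 : cm m A Z ⊆ Finset.range m \ Z := by
    intro x hx
    simp only [cm, Finset.mem_filter, Finset.mem_sdiff] at hx ⊢
    exact ⟨hx.1, hx.2.1⟩
  have h2 := Finset.card_le_card h1
  have h3 : (Finset.range m \ Z).card = m - i := by
    rw [Finset.card_sdiff_of_subset hZ.1, hZ.2, Finset.card_range]
  have h4 : i ≤ m := by
    have := Finset.card_le_card hZ.1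
    rwa [hZ.2, Finset.card_range] at this
  rw [h3] at h2
  have h5 : ((cm m A Z).card : ℝ) ≤ ((m - i : ℕ) : ℝ) := by exact_mod_cast h2
  rwa [Nat.cast_sub h4] at h5

private theorem choose_id {m i : ℕ} (hi : i ≤ m) :
    (m.choose (i + 1) : ℝ) * ((i : ℝ) + 1) = (m.choose i : ℝ) * ((m : ℝ) - i) := by
  have h := Nat.choose_succ_right_eq m i
  have h2 : ((m.choose (i + 1) * (i + 1) : ℕ) : ℝ) = ((m.choose i * (m - i) : ℕ) : ℝ) := by rw [h]
  push_cast [Nat.cast_sub hi] at h2
  exact h2

private theorem card_filt (s : Finset (Finset ℕ)) (p : Finset ℕ → Prop) [DecidablePred p] :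
    (((s.filter p).card : ℕ) : ℝ) = ∑ Z ∈ s, if p Z then (1 : ℝ) else 0 := by
  rw [Finset.card_filter]; push_cast; rfl

theorem tt_eq_sum {m i : ℕ} (hi : i + 1 ≤ m) (A : Finset (Sym2 ℕ)) :
    tt m i A * ((m.choose i : ℝ) * ((m : ℝ) - i)) =
      ∑ Z ∈ ((Finset.range m).powersetCard i).filter (fun Z => ¬ Net A Z),
        (((Finset.range m).filter (fun x => x ∉ Z ∧ Net A (insert x Z))).card : ℝ) := by
  have hC0 : (0 : ℝ) < m.choose i := by exact_mod_cast Nat.choose_pos (by omega)
  have hC1 : (0 : ℝ) < m.choose (i + 1) := by exact_mod_cast Nat.choose_pos hi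
  have hid := choose_id (m := m) (i := i) (by omega)
  have e1 : ∑ Z ∈ ((Finset.range m).powersetCard i).filter (fun Z => ¬ Net A Z),
        (((Finset.range m).filter (fun x => x ∉ Z ∧ Net A (insert x Z))).card : ℝ) =
      ∑ Z ∈ (Finset.range m).powersetCard i, ∑ x ∈ Finset.range m \ Z,
        ((if Net A (insert x Z) then (1 : ℝ) else 0) - (if Net A Z then (1 : ℝ) else 0)) := by
    rw [Finset.sum_filter]
    refine Finset.sum_congr rfl fun Z hZ => ?_
    by_cases h : Net A Z
    · simp only [h, not_true_eq_false, if_false, if_true]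
      symm
      refine Finset.sum_eq_zero fun x _ => ?_
      rw [if_pos (Net.mono_right (Finset.subset_insert _ _) h)]; ring
    · simp only [h, not_false_eq_true, if_true, if_false, sub_zero]
      rw [← Finset.sum_filter, Finset.sum_const, nsmul_eq_mul, mul_one]
      congr 2
      ext x
      simp only [Finset.mem_filter, Finset.mem_sdiff]
      tauto
  rw [e1]
  simp only [Finset.sum_sub_distrib]
  rw [dc m i (fun Y _ => if Net A Y then (1 : ℝ) else 0)]
  have e2 : ∑ Y ∈ (Finset.range m).powersetCard (i + 1), ∑ _x ∈ Y, (if Net A Y then (1 : ℝ) else 0) =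
      ((i : ℝ) + 1) * ((((Finset.range m).powersetCard (i + 1)).filter (fun W => Net A W)).card : ℝ) := by
    rw [card_filt, Finset.mul_sum]
    refine Finset.sum_congr rfl fun Y hY => ?_
    rw [Finset.mem_powersetCard] at hY
    rw [Finset.sum_const, hY.2, nsmul_eq_mul]; push_cast; ring
  have e3 : ∑ Z ∈ (Finset.range m).powersetCard i, ∑ _x ∈ Finset.range m \ Z,
        (if Net A Z then (1 : ℝ) else 0) =
      ((m : ℝ) - i) * ((((Finset.range m).powersetCard i).filter (fun W => Net A W)).card : ℝ) := by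
    rw [card_filt, Finset.mul_sum]
    refine Finset.sum_congr rfl fun Z hZ => ?_
    rw [Finset.mem_powersetCard] at hZ
    rw [Finset.sum_const, Finset.card_sdiff_of_subset hZ.1, hZ.2, Finset.card_range, nsmul_eq_mul,
      Nat.cast_sub (by omega)]
  rw [e2, e3]
  unfold tt nu
  generalize ((((Finset.range m).powersetCard (i + 1)).filter (fun W => Net A W)).card : ℝ) = a
  generalize ((((Finset.range m).powersetCard i).filter (fun W => Net A W)).card : ℝ) = b
  have h1 : a / (m.choose (i + 1) : ℝ) * ((m.choose i : ℝ) * ((m : ℝ) - i)) = ((i : ℝ) + 1) * a := by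
    rw [← hid]; field_simp
  have h2 : b / (m.choose i : ℝ) * ((m.choose i : ℝ) * ((m : ℝ) - i)) = ((m : ℝ) - i) * b := by
    field_simp
  rw [sub_mul, h1, h2]

private theorem tt_succ_sum {m i : ℕ} (hi : i + 2 ≤ m) (A : Finset (Sym2 ℕ)) :
    tt m (i + 1) A * ((m.choose i : ℝ) * ((m : ℝ) - i) * ((m : ℝ) - i - 1)) =
      ∑ Z ∈ (Finset.range m).powersetCard i, ∑ z ∈ Finset.range m \ Z,
        (if ¬ Net A (insert z Z) then ((cm m A (insert z Z)).card : ℝ) else 0) := by
  have h := tt_eq_sum (m := m) (i := i + 1) (by omega) A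
  have hid := choose_id (m := m) (i := i) (by omega)
  rw [dc m i (fun Y _ => if ¬ Net A Y then ((cm m A Y).card : ℝ) else 0)]
  have e2 : ∑ Y ∈ (Finset.range m).powersetCard (i + 1), ∑ _x ∈ Y,
        (if ¬ Net A Y then ((cm m A Y).card : ℝ) else 0) =
      ((i : ℝ) + 1) * ∑ Y ∈ ((Finset.range m).powersetCard (i + 1)).filter (fun Z => ¬ Net A Z),
        ((cm m A Y).card : ℝ) := by
    rw [Finset.sum_filter, Finset.mul_sum]
    refine Finset.sum_congr rfl fun Y hY => ?_
    rw [Finset.mem_powersetCard] at hY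
    rw [Finset.sum_const, hY.2, nsmul_eq_mul]; push_cast; ring
  rw [e2]
  change _ = ((i : ℝ) + 1) * ∑ Y ∈ ((Finset.range m).powersetCard (i + 1)).filter
    (fun Z => ¬ Net A Z), (((Finset.range m).filter (fun x => x ∉ Y ∧ Net A (insert x Y))).card : ℝ)
  rw [← h, ← hid]
  push_cast
  ring

private theorem cm_insert_ge (m : ℕ) (A : Finset (Sym2 ℕ)) {Z : Finset ℕ} {z : ℕ}
    (h : ¬ Net A (insert z Z)) : ((cm m A Z).card : ℝ) ≤ ((cm m A (insert z Z)).card : ℝ) := by
  have : cm m A Z ⊆ cm m A (insert z Z) := by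
    intro x hx
    simp only [cm, Finset.mem_filter, Finset.mem_insert, not_or] at hx ⊢
    refine ⟨hx.1, ⟨?_, hx.2.1⟩, ?_⟩
    · rintro rfl; exact h hx.2.2
    · exact Net.mono_right (Finset.insert_subset_insert _ (Finset.subset_insert _ _)) hx.2.2
  exact_mod_cast Finset.card_le_card this

private theorem inner_ge {m i : ℕ} (A : Finset (Sym2 ℕ)) {Z : Finset ℕ}
    (hZ : Z ∈ (Finset.range m).powersetCard i) :
    (((m : ℝ) - i) - ((cm m A Z).card : ℝ)) * ((cm m A Z).card : ℝ) ≤
      ∑ z ∈ Finset.range m \ Z,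
        (if ¬ Net A (insert z Z) then ((cm m A (insert z Z)).card : ℝ) else 0) := by
  rw [Finset.mem_powersetCard] at hZ
  have him : i ≤ m := by
    have := Finset.card_le_card hZ.1
    rwa [hZ.2, Finset.card_range] at this
  rw [← Finset.sum_filter]
  have h1 : ∑ z ∈ (Finset.range m \ Z).filter (fun z => ¬ Net A (insert z Z)),
      ((cm m A Z).card : ℝ) ≤ ∑ z ∈ (Finset.range m \ Z).filter (fun z => ¬ Net A (insert z Z)),
        ((cm m A (insert z Z)).card : ℝ) :=
    Finset.sum_le_sum fun z hz => cm_insert_ge m A (Finset.mem_filter.1 hz).2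
  refine le_trans (le_of_eq ?_) h1
  rw [Finset.sum_const, nsmul_eq_mul]
  congr 1
  have h2 : (Finset.range m \ Z).filter (fun z => Net A (insert z Z)) = cm m A Z := by
    ext x
    simp only [cm, Finset.mem_filter, Finset.mem_sdiff]
    tauto
  have h3 := Finset.card_filter_add_card_filter_not (s := Finset.range m \ Z)
    (fun z => Net A (insert z Z))
  rw [h2, Finset.card_sdiff_of_subset hZ.1, hZ.2, Finset.card_range] at h3
  have h4 : ((cm m A Z).card : ℝ) +
      (((Finset.range m \ Z).filter (fun z => ¬ Net A (insert z Z))).card : ℝ) = ((m - i : ℕ) : ℝ) := by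
    exact_mod_cast h3
  rw [Nat.cast_sub him] at h4
  linarith

theorem tt_succ_ge {m i : ℕ} (hi : i + 2 ≤ m) {θ : ℝ} (hθ : 0 ≤ θ) (A : Finset (Sym2 ℕ)) :
    (1 - θ) * tt m i A - bigf m i θ A ≤ tt m (i + 1) A := by
  have hC0 : (0 : ℝ) < m.choose i := by exact_mod_cast Nat.choose_pos (by omega)
  have hmi : (i : ℝ) + 2 ≤ m := by exact_mod_cast hi
  set M : ℝ := (m : ℝ) - i with hM
  have hM2 : 2 ≤ M := by rw [hM]; linarith
  have key : ((1 - θ) * tt m i A - bigf m i θ A) * ((m.choose i : ℝ) * M * (M - 1)) ≤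
      tt m (i + 1) A * ((m.choose i : ℝ) * M * (M - 1)) := by
    rw [hM, tt_succ_sum hi A, ← hM]
    have e1 : ((1 - θ) * tt m i A - bigf m i θ A) * ((m.choose i : ℝ) * M * (M - 1)) =
        (1 - θ) * (M - 1) * (tt m i A * ((m.choose i : ℝ) * M)) -
          M * (M - 1) * (bigf m i θ A * (m.choose i : ℝ)) := by ring
    have e2 : bigf m i θ A * (m.choose i : ℝ) =
        ∑ Z ∈ (Finset.range m).powersetCard i,
          if ¬ Net A Z ∧ θ * M < ((cm m A Z).card : ℝ) then (1 : ℝ) else 0 := by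
      unfold bigf
      rw [div_mul_cancel₀ _ hC0.ne']
      exact card_filt _ _
    have e3 : tt m i A * ((m.choose i : ℝ) * M) =
        ∑ Z ∈ (Finset.range m).powersetCard i, if ¬ Net A Z then ((cm m A Z).card : ℝ) else 0 := by
      rw [hM, tt_eq_sum (by omega) A, Finset.sum_filter]
      rfl
    rw [e1, e2, e3, Finset.mul_sum, Finset.mul_sum, ← Finset.sum_sub_distrib]
    refine Finset.sum_le_sum fun Z hZ => ?_
    by_cases hn : Net A Z
    · simp only [hn, not_true_eq_false, false_and, if_false, mul_zero, sub_zero]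
      refine Finset.sum_nonneg fun z _ => ?_
      split_ifs
      · exact le_refl _
      · exact Nat.cast_nonneg _
    · simp only [hn, not_false_eq_true, true_and, if_true]
      refine le_trans ?_ (inner_ge A hZ)
      rw [← hM]
      have hg0 : (0 : ℝ) ≤ ((cm m A Z).card : ℝ) := Nat.cast_nonneg _
      have hgM : ((cm m A Z).card : ℝ) ≤ M := cm_le m A hZ
      generalize ((cm m A Z).card : ℝ) = g at hg0 hgM ⊢
      split_ifs with hb
      · have h1 : 0 ≤ (M - g) * g := mul_nonneg (by linarith) hg0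
        have h2 : (1 - θ) * (M - 1) * g ≤ (M - 1) * g := by
          have : 0 ≤ θ * ((M - 1) * g) := mul_nonneg hθ (mul_nonneg (by linarith) hg0)
          nlinarith
        have h3 : (M - 1) * g ≤ (M - 1) * M := mul_le_mul_of_nonneg_left hgM (by linarith)
        nlinarith
      · rw [not_lt] at hb
        have h1 : (1 - θ) * (M - 1) * g ≤ (M - g) * g := by
          have h2 : (1 - θ) * (M - 1) ≤ M - g := by
            rcases le_total θ 1 with h | h
            · have : (1 - θ) * (M - 1) ≤ (1 - θ) * M :=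
                mul_le_mul_of_nonneg_left (by linarith) (by linarith)
              linarith
            · have : (1 - θ) * (M - 1) ≤ 0 :=
                mul_nonpos_of_nonpos_of_nonneg (by linarith) (by linarith)
              linarith
          exact mul_le_mul_of_nonneg_right h2 hg0
        linarith
  exact le_of_mul_le_mul_right key (by
    have : 0 < M - 1 := by linarith
    have : 0 < M := by linarith
    positivity)

/-- if `tt m i A` is large then many sets `Z` are completed by many vertices -/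
theorem bigf_ge {m i : ℕ} (hi : i + 1 ≤ m) {η : ℝ} (hη : 0 ≤ η) {A : Finset (Sym2 ℕ)}
    (h : η ≤ tt m i A) : η / 2 ≤ bigf m i (η / 2) A := by
  have hC0 : (0 : ℝ) < m.choose i := by exact_mod_cast Nat.choose_pos (by omega)
  have hmi : (i : ℝ) + 1 ≤ m := by exact_mod_cast hi
  set M : ℝ := (m : ℝ) - i with hM
  have hM1 : 1 ≤ M := by rw [hM]; linarith
  have e2 : bigf m i (η / 2) A * (m.choose i : ℝ) =
      ∑ Z ∈ (Finset.range m).powersetCard i,
        if ¬ Net A Z ∧ η / 2 * M < ((cm m A Z).card : ℝ) then (1 : ℝ) else 0 := by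
    unfold bigf
    rw [div_mul_cancel₀ _ hC0.ne']
    exact card_filt _ _
  have e3 : tt m i A * ((m.choose i : ℝ) * M) =
      ∑ Z ∈ (Finset.range m).powersetCard i, if ¬ Net A Z then ((cm m A Z).card : ℝ) else 0 := by
    rw [hM, tt_eq_sum (by omega) A, Finset.sum_filter]
    rfl
  have e4 : (∑ _Z ∈ (Finset.range m).powersetCard i, (1 : ℝ)) = m.choose i := by
    rw [Finset.sum_const, Finset.card_powersetCard, Finset.card_range, nsmul_eq_mul, mul_one]
  have key : tt m i A * ((m.choose i : ℝ) * M) ≤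
      M * (bigf m i (η / 2) A * (m.choose i : ℝ)) + η / 2 * M * (m.choose i : ℝ) := by
    rw [e2, e3, ← e4, Finset.mul_sum, Finset.mul_sum, ← Finset.sum_add_distrib]
    refine Finset.sum_le_sum fun Z hZ => ?_
    have hg0 : (0 : ℝ) ≤ ((cm m A Z).card : ℝ) := Nat.cast_nonneg _
    have hgM : ((cm m A Z).card : ℝ) ≤ M := cm_le m A hZ
    have hp : 0 ≤ η / 2 * M := by positivity
    by_cases hn : Net A Z
    · simp only [hn, not_true_eq_false, false_and, if_false, mul_zero]
      linarith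
    · simp only [hn, not_false_eq_true, true_and, if_true]
      split_ifs with hb
      · linarith
      · rw [not_lt] at hb
        linarith
  have hCM : 0 < (m.choose i : ℝ) * M := by positivity
  have key2 : tt m i A * ((m.choose i : ℝ) * M) ≤
      (bigf m i (η / 2) A + η / 2) * ((m.choose i : ℝ) * M) := by
    refine key.trans (le_of_eq ?_); ring
  have := le_of_mul_le_mul_right key2 hCM
  linarith

theorem bigf_nonneg (m i : ℕ) (θ : ℝ) (A : Finset (Sym2 ℕ)) : 0 ≤ bigf m i θ A := by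
  unfold bigf
  positivity

theorem bigf_le_one (m i : ℕ) (θ : ℝ) (A : Finset (Sym2 ℕ)) : bigf m i θ A ≤ 1 := by
  unfold bigf
  refine div_le_one_of_le₀ ?_ (Nat.cast_nonneg _)
  have h := Finset.card_filter_le ((Finset.range m).powersetCard i) (fun Z => ¬ Net A Z ∧
      θ * ((m : ℝ) - i) <
        (((Finset.range m).filter (fun x => x ∉ Z ∧ Net A (insert x Z))).card : ℝ))
  rw [Finset.card_powersetCard, Finset.card_range] at h
  exact_mod_cast h

/-- the same for the expectations -/
theorem tau_succ_ge {m i : ℕ} (hi : i + 2 ≤ m) {θ : ℝ} (hθ : 0 ≤ θ) {t : ℝ} (h0 : 0 ≤ t)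
    (h1 : t ≤ 1) : (1 - θ) * tau m i t - Bf m i θ t ≤ tau m (i + 1) t := by
  unfold tau Bf
  rw [← ex_mul_left, ← ex_sub]
  refine ex_mono h0 h1 fun A _ => ?_
  have h2 := mul_le_mul_of_nonneg_left (tt_succ_ge hi hθ A) (ind_nonneg (Col A))
  linarith

end Pool.Agent.LC3
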