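import Pool.Agent.LC3.BigT
import Pool.Agent.LC3.MonoT
import Pool.Agent.LC3.BBounds

/-!
# LC3.HBig : if a new vertex kills with probability more than `η` then large classes are likely

Let `A` be colourable, `η < hh l t A = ∑_{i<l} PB l i t * tt l i A` (`hh_eq`). With `B ~ Bin(l,t)`,
`∑_{i ≥ i0} PB l i t = ∑_j (j - i0)^+ bb l j t ≤ E[B^2]/i0 ≤ (be^2 + be)/i0 ≤ η/2` for
`i0 = ⌈2 (be^2+be)/η⌉` (`(j-i0)^+ ≤ j^2/i0`; `E[B^2] = l t (1-t) + (l t)^2`; a cheaper way:
`PB l i t ≤ exp(2 l t) bb l (i+1) t` and Markov). Since `tt ≤ 1` and `PB ≤ 1`, some `i < i0` has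
`tt l i A ≥ η' := η/(2 i0)`, so `bigf l i (η'/2) A ≥ η'/2` by `bigf_ge`. Hence
`ind (Col A ∧ η < hh l t A) ≤ ∑_{i<i0} (2/η') ind (Col A) bigf l i (η'/2) A`. Take expectations; by
`Bf_le'`, `Bf l i (η'/2) t ≤ ell (l+1) (η'/6) t / bb l i t` and `bb l i t ≥ c` by `bb_low i0`
(`n = l+2`, `m = l`).
-/

set_option autoImplicit false

open Classical

namespace Pool.Agent.LC3

/-- Markov for the binomial tail -/
theorem PB_markov (l i : ℕ) {t : ℝ} (h0 : 0 ≤ t) (h1 : t ≤ 1) :
    PB l i t ≤ (l : ℝ) * t / ((i : ℝ) + 1) := by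
  have h2 := ex_card_ge h0 h1 (Finset.range l) (i + 1) (Nat.succ_pos i)
  have h3 : ex t (Finset.range l) (fun W => ind (i + 1 ≤ W.card)) = PB l i t := by
    rw [ex_card t (Finset.range l) (fun j => ind (i + 1 ≤ j))]
    unfold PB
    rw [Finset.card_range]
    have h4 : Finset.Ioc i l ⊆ Finset.range (l + 1) := by
      intro j hj
      rw [Finset.mem_Ioc] at hj
      rw [Finset.mem_range]
      omega
    rw [← Finset.sum_subset h4]
    · refine Finset.sum_congr rfl fun j hj => ?_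
      rw [Finset.mem_Ioc] at hj
      rw [ind_of (p := i + 1 ≤ j) (by omega), mul_one]
      rfl
    · intro j hj hj2
      rw [Finset.mem_range] at hj
      rw [Finset.mem_Ioc] at hj2
      rw [ind_of_not (p := i + 1 ≤ j) (by omega), mul_zero]
  rw [h3, Finset.card_range] at h2
  push_cast at h2
  exact h2

/-- the tail of the sum of the `PB` -/
theorem sum_PB_tail (l i0 : ℕ) {t : ℝ} (h0 : 0 < t) (h1 : t ≤ 1 / 2) :
    ∑ i ∈ Finset.Ico i0 l, PB l i t ≤ Real.exp (2 * l * t) * ((l : ℝ) * t / ((i0 : ℝ) + 1)) := by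
  have e1 : ∑ i ∈ Finset.Ico i0 l, PB l i t ≤
      ∑ i ∈ Finset.Ico i0 l, Real.exp (2 * l * t) * bb l (i + 1) t := by
    refine Finset.sum_le_sum fun i hi => ?_
    rw [Finset.mem_Ico] at hi
    exact PB_le_exp (by omega) h0 h1
  rw [← Finset.mul_sum] at e1
  have e2 : ∑ i ∈ Finset.Ico i0 l, bb l (i + 1) t = PB l i0 t := by
    unfold PB
    rw [Finset.sum_Ico_add' (fun j => bb l j t) i0 l 1]
    refine Finset.sum_congr ?_ fun _ _ => rfl
    ext j
    rw [Finset.mem_Ico, Finset.mem_Ioc]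
    omega
  rw [e2] at e1
  exact e1.trans (mul_le_mul_of_nonneg_left (PB_markov l i0 h0.le (by linarith))
    (Real.exp_pos _).le)

theorem hbig_le (η : ℝ) (hη : 0 < η) : ∃ θ : ℝ, 0 < θ ∧ ∃ C : ℝ, 0 < C ∧ ∃ N : ℕ, ∀ l : ℕ, N ≤ l →
    ∀ t : ℝ, al / ((l : ℝ) + 2) ≤ t → t ≤ be / ((l : ℝ) + 2) →
    ex t (EN l) (fun A => ind (Col A ∧ η < hh l t A)) ≤ C * ell (l + 1) θ t := by
  obtain ⟨i1, hi1⟩ := exists_nat_ge (Real.exp (2 * be) * be * 2 / η)
  obtain ⟨i0, hi0d⟩ : ∃ i0 : ℕ, i0 = i1 + 1 := ⟨_, rfl⟩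
  have hi0R : (0 : ℝ) < i0 := by rw [hi0d]; positivity
  obtain ⟨c, hc, N, hN⟩ := bb_low i0
  obtain ⟨η', hη'd⟩ : ∃ η' : ℝ, η' = η / (2 * i0) := ⟨_, rfl⟩
  have hη' : 0 < η' := by rw [hη'd]; positivity
  refine ⟨η' / 2 / 3, by positivity, i0 * ((2 / η') * (1 / c)), by positivity,
    max (max N 20) (2 * i0 + 2), ?_⟩
  intro l hl t ht0 ht
  have hl1 : N ≤ l := (le_max_left _ _).trans ((le_max_left _ _).trans hl)
  have hl2 : 20 ≤ l := (le_max_right _ _).trans ((le_max_left _ _).trans hl)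
  have hl3 : 2 * i0 + 2 ≤ l := (le_max_right _ _).trans hl
  have hlR : (20 : ℝ) ≤ l := by exact_mod_cast hl2
  have hl0 : (0 : ℝ) < (l : ℝ) + 2 := by linarith
  have hbe : be = 126 / 25 := rfl
  have htpos : 0 < t := lt_of_lt_of_le (div_pos al_pos hl0) ht0
  have hthalf : t ≤ 1 / 2 := by
    refine ht.trans ?_
    rw [div_le_iff₀ hl0, hbe]
    linarith
  have ht1 : t ≤ 1 := by linarith
  have hlt : (l : ℝ) * t ≤ be := by
    have h1 : t * ((l : ℝ) + 2) ≤ be := by rwa [le_div_iff₀ hl0] at ht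
    nlinarith
  have hlt0 : 0 ≤ (l : ℝ) * t := by positivity
  -- the tail
  have htail : ∑ i ∈ Finset.Ico i0 l, PB l i t ≤ η / 2 := by
    refine (sum_PB_tail l i0 htpos hthalf).trans ?_
    have h1 : Real.exp (2 * l * t) ≤ Real.exp (2 * be) := by
      apply Real.exp_le_exp.2
      nlinarith
    have h2 : (l : ℝ) * t / ((i0 : ℝ) + 1) ≤ be / ((i0 : ℝ) + 1) :=
      div_le_div_of_nonneg_right hlt (by positivity)
    have h3 : Real.exp (2 * l * t) * ((l : ℝ) * t / ((i0 : ℝ) + 1)) ≤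
        Real.exp (2 * be) * (be / ((i0 : ℝ) + 1)) :=
      mul_le_mul h1 h2 (by positivity) (Real.exp_pos _).le
    refine h3.trans ?_
    have h4 : Real.exp (2 * be) * be * 2 / η ≤ (i0 : ℝ) + 1 := by
      refine hi1.trans ?_
      rw [hi0d]
      push_cast
      linarith
    rw [div_le_iff₀ hη] at h4
    rw [mul_div_assoc', div_le_iff₀ (by positivity)]
    linarith
  -- pointwise estimate
  have hpt : ∀ A, A ⊆ EN l → ind (Col A ∧ η < hh l t A) ≤
      ∑ i ∈ Finset.range i0, (2 / η') * (ind (Col A) * bigf l i (η' / 2) A) := by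
    intro A _
    have hterm : ∀ i ∈ Finset.range i0, 0 ≤ (2 / η') * (ind (Col A) * bigf l i (η' / 2) A) :=
      fun i _ => mul_nonneg (by positivity) (mul_nonneg (ind_nonneg _) (bigf_nonneg _ _ _ _))
    by_cases hA : Col A ∧ η < hh l t A
    · rw [ind_of hA]
      obtain ⟨hcol, hhh⟩ := hA
      rw [hh_eq t hcol] at hhh
      have hsplit : ∑ i ∈ Finset.range l, PB l i t * tt l i A =
          ∑ i ∈ Finset.range i0, PB l i t * tt l i A +
            ∑ i ∈ Finset.Ico i0 l, PB l i t * tt l i A :=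
        (Finset.sum_range_add_sum_Ico _ (by omega)).symm
      have hb1 : ∑ i ∈ Finset.range i0, PB l i t * tt l i A ≤
          ∑ i ∈ Finset.range i0, tt l i A := by
        refine Finset.sum_le_sum fun i hi => ?_
        rw [Finset.mem_range] at hi
        have := tt_nonneg (m := l) (i := i) (by omega) A
        have h2 := PB_le_one l i htpos.le ht1
        nlinarith
      have hb2 : ∑ i ∈ Finset.Ico i0 l, PB l i t * tt l i A ≤
          ∑ i ∈ Finset.Ico i0 l, PB l i t := by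
        refine Finset.sum_le_sum fun i hi => ?_
        have h1 := tt_le_one l i A
        have h2 := PB_nonneg l i htpos.le ht1
        nlinarith
      have hsum : η / 2 < ∑ i ∈ Finset.range i0, tt l i A := by
        rw [hsplit] at hhh
        linarith
      have hex : ∃ i ∈ Finset.range i0, η' ≤ tt l i A := by
        by_contra hcon
        push Not at hcon
        have h1 : ∑ i ∈ Finset.range i0, tt l i A ≤ ∑ _i ∈ Finset.range i0, η' :=
          Finset.sum_le_sum fun i hi => (hcon i hi).le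
        rw [Finset.sum_const, Finset.card_range, nsmul_eq_mul, hη'd] at h1
        have h2 : (i0 : ℝ) * (η / (2 * i0)) = η / 2 := by
          field_simp
        rw [h2] at h1
        linarith
      obtain ⟨i, hi, hti⟩ := hex
      have hi' : i < i0 := Finset.mem_range.1 hi
      have hbf := bigf_ge (m := l) (i := i) (by omega) hη'.le hti
      have hone : 1 ≤ (2 / η') * (ind (Col A) * bigf l i (η' / 2) A) := by
        rw [ind_of hcol, one_mul]
        have h1 := mul_le_mul_of_nonneg_left hbf (by positivity : (0 : ℝ) ≤ 2 / η')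
        have h2 : 2 / η' * (η' / 2) = 1 := by field_simp
        linarith
      exact hone.trans (Finset.single_le_sum hterm hi)
    · rw [ind_of_not hA]
      exact Finset.sum_nonneg hterm
  have hexp : ex t (EN l) (fun A => ind (Col A ∧ η < hh l t A)) ≤
      ∑ i ∈ Finset.range i0, (2 / η') * Bf l i (η' / 2) t := by
    refine (ex_mono htpos.le ht1 hpt).trans ?_
    rw [ex_sum]
    refine Finset.sum_le_sum fun i _ => ?_
    rw [ex_mul_left]
    exact le_rfl
  refine hexp.trans ?_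
  have hbound : ∀ i ∈ Finset.range i0, (2 / η') * Bf l i (η' / 2) t ≤
      (2 / η') * ((1 / c) * ell (l + 1) (η' / 2 / 3) t) := by
    intro i hi
    rw [Finset.mem_range] at hi
    refine mul_le_mul_of_nonneg_left ?_ (by positivity)
    have h1 := Bf_le' (m := l) (i := i) (by omega) (θ := η' / 2) (by positivity) htpos.le ht1
    have h2 : c ≤ bb l i t := by
      refine hN (l + 2) (by omega) l (by omega) (by omega) t ?_ ?_ i hi.le
      · push_cast; exact ht0
      · push_cast; exact ht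
    have h3 : 0 ≤ Bf l i (η' / 2) t :=
      ex_nonneg htpos.le ht1 fun A _ => mul_nonneg (ind_nonneg _) (bigf_nonneg _ _ _ _)
    have h4 : c * Bf l i (η' / 2) t ≤ ell (l + 1) (η' / 2 / 3) t :=
      (mul_le_mul_of_nonneg_right h2 h3).trans h1
    rw [one_div, ← div_eq_inv_mul, le_div_iff₀ hc]
    linarith
  refine (Finset.sum_le_sum hbound).trans ?_
  rw [Finset.sum_const, Finset.card_range, nsmul_eq_mul]
  apply le_of_eq
  ring

/-- `0 ≤ hh ≤ 1` -/
theorem hh_mem (l : ℕ) {t : ℝ} (h0 : 0 ≤ t) (h1 : t ≤ 1) (A : Finset (Sym2 ℕ)) :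
    0 ≤ hh l t A ∧ hh l t A ≤ 1 :=
  ⟨ex_nonneg h0 h1 fun _ _ => ind_nonneg _, ex_le_of_le h0 h1 fun _ _ => ind_le_one _⟩

/-- adding a vertex: `q (l+1) t = q l t + E[ind(Col) h]` -/
theorem q_succ_hh (l : ℕ) (t : ℝ) :
    q (l + 1) t = q l t + ex t (EN l) (fun A => ind (Col A) * hh l t A) := by
  unfold q
  rw [ex_EN_succ, ← ex_add]
  refine ex_congr fun A hA => ?_
  have h1 : ex t (Finset.range l) (fun W => ind (¬ Col (A ∪ st l W))) = hh l t A := by
    unfold hh
    refine ex_congr fun W hW => ?_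
    have hl : l ∉ W := fun h => by
      have := hW h
      rw [Finset.mem_range] at this
      omega
    have h2 := col_st (A := A) (v := l) (W := W) (not_mem_of_EN le_rfl hA) hl
    rw [h2, not_not]
  rw [h1]
  by_cases hc : Col A
  · rw [ind_of_not (not_not.2 hc), ind_of hc]
    ring
  · rw [ind_of (p := ¬ Col A) hc, ind_of_not hc, zero_mul, add_zero]
    unfold hh
    have h3 : ex t (Finset.range l) (fun W => ind (Net A W)) =
        ex t (Finset.range l) (fun _ => (1 : ℝ)) :=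
      ex_congr fun W _ => ind_of (net_of_not_col hc W)
    rw [h3, ex_const]

/-- consequence: `E[ind(Col) h^2] ≤ η (q (l+1) t - q l t) + C ell (l+1) θ t` -/
theorem hsq_le (η : ℝ) (hη : 0 < η) : ∃ θ : ℝ, 0 < θ ∧ ∃ C : ℝ, 0 < C ∧ ∃ N : ℕ, ∀ l : ℕ, N ≤ l →
    ∀ t : ℝ, al / ((l : ℝ) + 2) ≤ t → t ≤ be / ((l : ℝ) + 2) →
    ex t (EN l) (fun A => ind (Col A) * (hh l t A) ^ 2) ≤
      η * (q (l + 1) t - q l t) + C * ell (l + 1) θ t := by
  obtain ⟨θ, hθ, C, hC, N, hN⟩ := hbig_le η hη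
  refine ⟨θ, hθ, C, hC, max N 20, ?_⟩
  intro l hl t ht0 ht
  have hl1 : N ≤ l := (le_max_left _ _).trans hl
  have hl2 : 20 ≤ l := (le_max_right _ _).trans hl
  have hlR : (20 : ℝ) ≤ l := by exact_mod_cast hl2
  have hl0 : (0 : ℝ) < (l : ℝ) + 2 := by linarith
  have hbe : be = 126 / 25 := rfl
  have htpos : 0 < t := lt_of_lt_of_le (div_pos al_pos hl0) ht0
  have ht1 : t ≤ 1 := by
    refine ht.trans ?_
    rw [div_le_one hl0, hbe]
    linarith
  have h1 := hN l hl1 t ht0 ht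
  have h2 : ex t (EN l) (fun A => ind (Col A) * (hh l t A) ^ 2) ≤
      ex t (EN l) (fun A => η * (ind (Col A) * hh l t A) + ind (Col A ∧ η < hh l t A)) := by
    refine ex_mono htpos.le ht1 fun A _ => ?_
    obtain ⟨h3, h4⟩ := hh_mem l htpos.le ht1 A
    by_cases hc : Col A
    · rw [ind_of hc, one_mul, one_mul]
      by_cases h5 : η < hh l t A
      · rw [ind_of (p := Col A ∧ η < hh l t A) ⟨hc, h5⟩]
        have h6 : (hh l t A) ^ 2 ≤ 1 := by nlinarith
        have h7 : 0 ≤ η * hh l t A := mul_nonneg hη.le h3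
        linarith
      · rw [ind_of_not (p := Col A ∧ η < hh l t A) (fun h => h5 h.2)]
        have h6 : hh l t A ≤ η := not_lt.1 h5
        nlinarith
    · rw [ind_of_not hc, zero_mul, zero_mul, mul_zero, zero_add]
      exact ind_nonneg _
  rw [ex_add, ex_mul_left] at h2
  rw [q_succ_hh]
  have h3 : q l t + ex t (EN l) (fun A => ind (Col A) * hh l t A) - q l t =
      ex t (EN l) (fun A => ind (Col A) * hh l t A) := by ring
  rw [h3]
  linarith

end Pool.Agent.LC3
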