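import Pool.Agent.LC3.VertId

/-!
# LC3.K2Id : two pivotal vertices and the second difference in the number of vertices

`G(l+2,t)` is `A = G(l,t)`, two random sets `W₁, W₂ ⊆ range l` (neighbours of the vertices `l`, `l+1`) and
the edge `s(l,l+1)` (present with probability `t`): use `ex_EN_succ` twice (the random subset of
`range (l+1)` is `W₂` or `insert l W₂`, `ex_insert` with `range (l+1) = insert l (range l)`).
Write `B` for the full graph, `B₁ = B` without vertex `l+1` `= A ∪ st l W₁`, `B₂ = B` without vertex `l`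
`= A ∪ st (l+1) W₂`.

* `K2_eq`: `q (l+2) t - q (l+1) t = P(Col B₁, ¬Col B)` (as `¬Col B₁ → ¬Col B`)
  `= P(Col B₁, ¬Col B₂) + P(Col B₁, Col B₂, ¬Col B) = P(Col B₁, ¬Col B₂) + K2 l t`
  (as `¬Col B₂ → ¬Col B`). Given `A` colourable, `¬Col B₁` iff `Net A W₁`, `¬Col B₂` iff `Net A W₂`,
  independent with probability `h = hh l t A` each; if `A` is not colourable then `¬ Col B₁`. So
  `P(Col B₁, ¬Col B₂) = E[ind(Col A) (1-h) h] = (q (l+1) t - q l t) - E[ind(Col A) h^2]` by `H_hh`.
* `D2_le`: `E[ind(¬Col B) |D| (|D|-1)] = ∑_{(u,v), u ≠ v} P(¬Col B, Col(B-u), Col(B-v))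
  = (l+2)(l+1) K2 l t` by symmetry (for `u ≠ v` a permutation of `range (l+2)` moving `(u,v)` to
  `(l,l+1)`: `exists_perm` with `k = 2`; `ex_rel`, `col_rel`, `rel_filter`). If `|D| > δ (l+2)` and
  `δ (l+2) ≥ 2` then `|D|(|D|-1) ≥ δ^2 (l+2)^2/2`. (for `δ(l+2) ≥ 2`.)
-/

set_option autoImplicit false

open Classical

namespace Pool.Agent.LC3

private theorem k2_filter_st {l : ℕ} {W' : Finset ℕ} :
    (st (l + 1) W').filter (fun e => l ∉ e) = st (l + 1) (W'.erase l) := by
  ext e
  induction e using Sym2.ind with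
  | _ a b =>
    rw [Finset.mem_filter, mem_st, mem_st, Sym2.mem_iff, Finset.mem_erase, Finset.mem_erase]
    constructor
    · rintro ⟨h1 | h1, h2⟩
      · exact Or.inl ⟨h1.1, fun h => h2 (Or.inr h.symm), h1.2⟩
      · exact Or.inr ⟨h1.1, fun h => h2 (Or.inl h.symm), h1.2⟩
    · rintro (⟨h1, h2, h3⟩ | ⟨h1, h2, h3⟩)
      · refine ⟨Or.inl ⟨h1, h3⟩, ?_⟩
        rintro (h | h)
        · omega
        · exact h2 h.symm
      · refine ⟨Or.inr ⟨h1, h3⟩, ?_⟩
        rintro (h | h)
        · exact h2 h.symm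
        · omega

private theorem k2_range (l : ℕ) (t : ℝ) (g : Finset ℕ → ℝ) :
    ex t (Finset.range (l + 1)) (fun W => g (W.erase l)) = ex t (Finset.range l) g := by
  have h0 : l ∉ Finset.range l := by simp
  rw [Finset.range_add_one, ex_insert t _ _ h0]
  have hl : ∀ W : Finset ℕ, W ⊆ Finset.range l → l ∉ W := by
    intro W hW h
    exact h0 (hW h)
  have h1 : ex t (Finset.range l) (fun A => g ((insert l A).erase l)) =
      ex t (Finset.range l) g :=
    ex_congr fun A hA => by rw [Finset.erase_insert (hl A hA)]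
  have h2 : ex t (Finset.range l) (fun A => g (A.erase l)) = ex t (Finset.range l) g :=
    ex_congr fun A hA => by rw [Finset.erase_eq_of_notMem (hl A hA)]
  rw [h1, h2]
  ring

private theorem k2_point (A F1 F2 : Finset (Sym2 ℕ)) (h1 : F1 ⊆ A) (h2 : F2 ⊆ A) :
    ind (¬ Col A ∧ Col F2 ∧ Col F1) = ind (¬ Col A) - ind (¬ Col F1) - ind (Col F1 ∧ ¬ Col F2) := by
  by_cases hA : Col A
  · have c1 := Col.mono h1 hA
    have c2 := Col.mono h2 hA
    rw [ind_of_not (fun h => h.1 hA), ind_of_not (not_not.2 hA), ind_of_not (not_not.2 c1),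
      ind_of_not (fun h => h.2 c2)]
    ring
  · by_cases c1 : Col F1
    · by_cases c2 : Col F2
      · rw [ind_of ⟨hA, c2, c1⟩, ind_of hA, ind_of_not (not_not.2 c1),
          ind_of_not (fun h => h.2 c2)]
        ring
      · rw [ind_of_not (fun h => c2 h.2.1), ind_of hA, ind_of_not (not_not.2 c1),
          ind_of ⟨c1, c2⟩]
        ring
    · rw [ind_of_not (fun h => c1 h.2.2), ind_of hA, ind_of c1, ind_of_not (fun h => c1 h.1)]
      ring

theorem K2_eq (l : ℕ) (t : ℝ) :
    K2 l t = (q (l + 2) t - q (l + 1) t) - (q (l + 1) t - q l t) +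
      ex t (EN l) (fun A => ind (Col A) * (hh l t A) ^ 2) := by
  have h1 : K2 l t = q (l + 2) t -
      ex t (EN (l + 2)) (fun A => ind (¬ Col (A.filter (fun e => (l + 1) ∉ e)))) -
      ex t (EN (l + 2)) (fun A => ind (Col (A.filter (fun e => (l + 1) ∉ e)) ∧
        ¬ Col (A.filter (fun e => l ∉ e)))) := by
    unfold K2 q
    rw [← ex_sub, ← ex_sub]
    refine ex_congr fun A _ => ?_
    exact k2_point A _ _ (Finset.filter_subset _ _) (Finset.filter_subset _ _)
  have h2 : ex t (EN (l + 2)) (fun A => ind (¬ Col (A.filter (fun e => (l + 1) ∉ e)))) =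
      q (l + 1) t := by
    unfold q
    rw [ex_EN_succ]
    refine ex_congr fun A hA => ?_
    have : ex t (Finset.range (l + 1)) (fun W =>
        ind (¬ Col ((A ∪ st (l + 1) W).filter (fun e => (l + 1) ∉ e)))) =
        ex t (Finset.range (l + 1)) (fun _ => ind (¬ Col A)) :=
      ex_congr fun W _ => by rw [filter_succ hA]
    rw [this, ex_const]
  have h3 : ex t (EN (l + 2)) (fun A => ind (Col (A.filter (fun e => (l + 1) ∉ e)) ∧
        ¬ Col (A.filter (fun e => l ∉ e)))) =
      ex t (EN l) (fun A => ind (Col A) * hh l t A - ind (Col A) * hh l t A ^ 2) := by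
    rw [ex_EN_succ, ex_EN_succ]
    refine ex_congr fun A hA => ?_
    have k1 : ∀ W, W ⊆ Finset.range l →
        ex t (Finset.range (l + 1)) (fun W' =>
          ind (Col ((A ∪ st l W ∪ st (l + 1) W').filter (fun e => (l + 1) ∉ e)) ∧
            ¬ Col ((A ∪ st l W ∪ st (l + 1) W').filter (fun e => l ∉ e)))) =
        ind (¬ Net A W) * hh l t A := by
      intro W hW
      have hA1 : A ∪ st l W ⊆ EN (l + 1) := by
        rw [EN_succ]
        exact Finset.union_subset_union hA (Finset.image_subset_image hW)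
      have k2 : ∀ W', W' ⊆ Finset.range (l + 1) →
          ind (Col ((A ∪ st l W ∪ st (l + 1) W').filter (fun e => (l + 1) ∉ e)) ∧
            ¬ Col ((A ∪ st l W ∪ st (l + 1) W').filter (fun e => l ∉ e))) =
          ind (¬ Net A W) * ind (Net A (W'.erase l)) := by
        intro W' hW'
        rw [filter_succ hA1, Finset.filter_union, filter_succ hA, k2_filter_st, ind_and,
          col_st (not_mem_of_EN le_rfl hA) (fun h => by
            have := Finset.mem_range.1 (hW h)
            omega),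
          col_st (not_mem_of_EN (Nat.le_succ l) hA) (fun h => by
            have := Finset.mem_range.1 (hW' (Finset.mem_of_mem_erase h))
            omega), not_not]
      rw [ex_congr k2, ex_mul_left]
      congr 1
      exact k2_range l t (fun W => ind (Net A W))
    rw [ex_congr k1, ex_mul_right]
    have k3 : ex t (Finset.range l) (fun W => ind (¬ Net A W)) = 1 - hh l t A := by
      unfold hh
      have : (fun W : Finset ℕ => ind (¬ Net A W)) = fun W => 1 - ind (Net A W) := by
        funext W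
        exact ind_not _
      rw [this, ex_sub, ex_const]
    rw [k3]
    by_cases hc : Col A
    · rw [ind_of hc]
      ring
    · have k4 : hh l t A = 1 := by
        unfold hh
        have : (fun W : Finset ℕ => ind (Net A W)) = fun _ => (1 : ℝ) := by
          funext W
          exact ind_of (net_of_not_col hc W)
        rw [this, ex_const]
      rw [ind_of_not hc, k4]
      ring
  rw [h1, h2, h3, ex_sub, ← H_hh]
  ring

theorem K2_nonneg (l : ℕ) {t : ℝ} (h0 : 0 ≤ t) (h1 : t ≤ 1) : 0 ≤ K2 l t := by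
  unfold K2
  exact ex_nonneg h0 h1 fun A _ => ind_nonneg _

private theorem k2_pair (l u v : ℕ) (hu : u < l + 2) (hv : v < l + 2) (huv : u ≠ v) (t : ℝ) :
    ex t (EN (l + 2)) (fun A => ind (¬ Col A ∧ Col (A.filter (fun e => u ∉ e)) ∧
      Col (A.filter (fun e => v ∉ e)))) = K2 l t := by
  obtain ⟨π, h1, -, h3⟩ := exists_perm (n := l + 2) (k := 2) ![l, l + 1] ![u, v]
    (by
      intro i j hij
      fin_cases i <;> fin_cases j <;> simp_all)
    (by
      intro i j hij
      fin_cases i <;> fin_cases j <;> simp_all)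
    (by
      intro i
      fin_cases i <;> simp)
    (by
      intro i
      fin_cases i <;> simp [hu, hv])
  have e0 : π l = u := by simpa using h3 0
  have e1 : π (l + 1) = v := by simpa using h3 1
  rw [← ex_rel h1]
  unfold K2
  refine ex_congr fun A _ => ?_
  rw [col_rel, ← e0, ← e1, rel_filter, rel_filter, col_rel, col_rel]

private theorem k2_count (n : ℕ) (A : Finset (Sym2 ℕ)) :
    ∑ p ∈ (Finset.range n).offDiag, ind (¬ Col A ∧ Col (A.filter (fun e => p.1 ∉ e)) ∧
      Col (A.filter (fun e => p.2 ∉ e))) =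
    ind (¬ Col A) * (((Dset n A).card : ℝ) * (((Dset n A).card : ℝ) - 1)) := by
  by_cases hA : Col A
  · rw [ind_of_not (not_not.2 hA), zero_mul]
    exact Finset.sum_eq_zero fun p _ => ind_of_not fun h => h.1 hA
  · rw [ind_of hA, one_mul]
    have h1 : (Dset n A).offDiag = (Finset.range n).offDiag.filter
        (fun p => Col (A.filter (fun e => p.1 ∉ e)) ∧ Col (A.filter (fun e => p.2 ∉ e))) := by
      ext p
      unfold Dset
      rw [Finset.mem_offDiag, Finset.mem_filter, Finset.mem_filter, Finset.mem_filter,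
        Finset.mem_offDiag]
      tauto
    have h2 : (((Dset n A).offDiag.card : ℕ) : ℝ) =
        ((Dset n A).card : ℝ) * (((Dset n A).card : ℝ) - 1) := by
      rw [Finset.offDiag_card, Nat.cast_sub (Nat.le_mul_self _)]
      push_cast
      ring
    rw [← h2, h1, Finset.card_filter]
    push_cast
    refine Finset.sum_congr rfl fun p _ => ?_
    unfold ind
    simp only [hA, not_false_eq_true, true_and]

theorem D2_le (l : ℕ) {δ : ℝ} (hδ : 0 < δ) (hl : 2 ≤ δ * ((l : ℝ) + 2)) {t : ℝ} (h0 : 0 ≤ t)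
    (h1 : t ≤ 1) :
    ex t (EN (l + 2)) (fun A => ind (¬ Col A ∧
      δ * ((l : ℝ) + 2) < ((Dset (l + 2) A).card : ℝ))) ≤ 2 / δ ^ 2 * K2 l t := by
  have hl0 : (0 : ℝ) ≤ l := Nat.cast_nonneg _
  have hl2 : (0 : ℝ) < (l : ℝ) + 2 := by positivity
  have hE : ex t (EN (l + 2)) (fun A => ind (¬ Col A) *
      (((Dset (l + 2) A).card : ℝ) * (((Dset (l + 2) A).card : ℝ) - 1))) =
      ((l : ℝ) + 2) * ((l : ℝ) + 1) * K2 l t := by
    have e1 : (fun A : Finset (Sym2 ℕ) => ind (¬ Col A) *
        (((Dset (l + 2) A).card : ℝ) * (((Dset (l + 2) A).card : ℝ) - 1))) =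
        fun A => ∑ p ∈ (Finset.range (l + 2)).offDiag,
          ind (¬ Col A ∧ Col (A.filter (fun e => p.1 ∉ e)) ∧
            Col (A.filter (fun e => p.2 ∉ e))) := by
      funext A
      exact (k2_count (l + 2) A).symm
    rw [e1, ex_sum]
    have e2 : ∀ p ∈ (Finset.range (l + 2)).offDiag, ex t (EN (l + 2)) (fun A =>
        ind (¬ Col A ∧ Col (A.filter (fun e => p.1 ∉ e)) ∧
            Col (A.filter (fun e => p.2 ∉ e)))) = K2 l t := by
      intro p hp
      rw [Finset.mem_offDiag, Finset.mem_range, Finset.mem_range] at hp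
      exact k2_pair l p.1 p.2 hp.1 hp.2.1 hp.2.2 t
    rw [Finset.sum_congr rfl e2, Finset.sum_const, nsmul_eq_mul, Finset.offDiag_card,
      Finset.card_range, Nat.cast_sub (Nat.le_mul_self _)]
    push_cast
    ring
  have hK := K2_nonneg l h0 h1
  have hpt : ∀ A, A ⊆ EN (l + 2) → ind (¬ Col A ∧
      δ * ((l : ℝ) + 2) < ((Dset (l + 2) A).card : ℝ)) ≤
      2 / (δ ^ 2 * ((l : ℝ) + 2) ^ 2) * (ind (¬ Col A) *
        (((Dset (l + 2) A).card : ℝ) * (((Dset (l + 2) A).card : ℝ) - 1))) := by
    intro A _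
    set D : ℝ := ((Dset (l + 2) A).card : ℝ) with hD
    have hDn : 0 ≤ D * (D - 1) := by
      rcases Nat.eq_zero_or_pos (Dset (l + 2) A).card with h | h
      · have : D = 0 := by rw [hD, h]; simp
        rw [this]
        simp
      · have : (1 : ℝ) ≤ D := by rw [hD]; exact_mod_cast h
        exact mul_nonneg (by linarith) (by linarith)
    by_cases h : ¬ Col A ∧ δ * ((l : ℝ) + 2) < D
    · rw [ind_of h, ind_of h.1, one_mul]
      rw [div_mul_eq_mul_div, le_div_iff₀ (by positivity), one_mul]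
      have k1 : (δ * ((l : ℝ) + 2)) ^ 2 ≤ D ^ 2 :=
        pow_le_pow_left₀ (by positivity) h.2.le 2
      have k2 : 2 ≤ D := hl.trans h.2.le
      nlinarith
    · rw [ind_of_not h]
      exact mul_nonneg (by positivity) (mul_nonneg (ind_nonneg _) hDn)
  refine (ex_mono h0 h1 hpt).trans ?_
  rw [ex_mul_left, hE]
  have k1 : 2 / (δ ^ 2 * ((l : ℝ) + 2) ^ 2) * (((l : ℝ) + 2) * ((l : ℝ) + 1) * K2 l t) =
      2 / δ ^ 2 * K2 l t * (((l : ℝ) + 1) / ((l : ℝ) + 2)) := by
    field_simp
  rw [k1]
  apply mul_le_of_le_one_right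
  · positivity
  · rw [div_le_one hl2]
    linarith

end Pool.Agent.LC3
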