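import Pool.Agent.LC3.Sparse
import Pool.Agent.LC3.NetBasic

/-!
# LC3.KapLe : if there are few pivotal vertices there are at most `(1+ε)` times as many pivotal edges

Let `¬ Col A`, `K = {e ∈ A : Col (A.erase e)}`, `D = Dset n A`. Every `e = s(x,y) ∈ K` has both ends in `D`:
`A.filter (x ∉ ·) ⊆ A.erase e` (`Col.mono`). So `|K| ≤ eIn A D`. Cases (`s0, δ` from `sparse_mid ε`):
* `|D| > δ n`: `|K| ≤ |A| ≤ 30 n` or `|A| > 30 n` (`edges_tail`);
* `s0 ≤ |D| ≤ δ n`: `|K| ≤ (1+ε)|D|` unless the event of `sparse_mid` happens, in which case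
  `|K| ≤ |A| ≤ n^2`; this contributes `≤ n^2 C/n^3 = C/n`;
* `|D| < s0`: `|K| ≤ |D|` unless the event of `sparse_small s0` happens, in which case
  `|K| ≤ s0^2` (at most `|D|^2` edges inside `D`); this contributes `≤ s0^2 C/n`.
Hence `ind(¬Col A)|K| ≤ (1+ε) ind(¬Col A)|D| + 30 n ind(¬Col A ∧ δ n < |D|) + |A| ind(30n<|A|)
  + n^2 ind(event mid) + s0^2 ind(event small)`.
-/

set_option autoImplicit false

open Classical

namespace Pool.Agent.LC3

/-- pivotal edges have both ends in the set of pivotal vertices -/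
theorem piv_sub {n : ℕ} {A : Finset (Sym2 ℕ)} (hA : A ⊆ EN n) :
    A.filter (fun e => Col (A.erase e)) ⊆ A.filter (fun e => ∀ v ∈ e, v ∈ Dset n A) := by
  intro e he
  rw [Finset.mem_filter] at he ⊢
  refine ⟨he.1, ?_⟩
  intro v hv
  unfold Dset
  rw [Finset.mem_filter]
  constructor
  · have h1 := hA he.1
    unfold EN EE at h1
    rw [Finset.mem_filter, Finset.mem_sym2_iff] at h1
    exact h1.1 v hv
  · refine Col.mono ?_ he.2
    intro f hf
    rw [Finset.mem_filter] at hf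
    rw [Finset.mem_erase]
    exact ⟨fun h => hf.2 (h ▸ hv), hf.1⟩

/-- the number of edges inside `S` is at most `|S|^2` -/
theorem eIn_le_sq (A : Finset (Sym2 ℕ)) (S : Finset ℕ) :
    eIn A S ≤ S.card ^ 2 := by
  unfold eIn
  have h1 : A.filter (fun e => ∀ v ∈ e, v ∈ S) ⊆ S.sym2 := by
    intro e he
    rw [Finset.mem_filter] at he
    rw [Finset.mem_sym2_iff]
    exact he.2
  refine (Finset.card_le_card h1).trans ?_
  rw [Finset.card_sym2, Nat.choose_two_right]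
  rcases Nat.eq_zero_or_pos S.card with h0 | h0
  · rw [h0]; norm_num
  · refine Nat.div_le_of_le_mul ?_
    simp only [Nat.add_sub_cancel]
    nlinarith

/-- the pointwise estimate -/
theorem kap_pointwise {n s0 : ℕ} {ε δ : ℝ} (hε : 0 < ε) {A : Finset (Sym2 ℕ)} (hA : A ⊆ EN n) :
    ind (¬ Col A) * ((A.filter (fun e => Col (A.erase e))).card : ℝ) ≤
      (1 + ε) * (ind (¬ Col A) * ((Dset n A).card : ℝ)) +
      (30 * n) * ind (¬ Col A ∧ δ * n < ((Dset n A).card : ℝ)) +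
      (A.card : ℝ) * ind (30 * n < A.card) +
      (n : ℝ) ^ 2 * ind (∃ S ⊆ Finset.range n, s0 ≤ S.card ∧ (S.card : ℝ) ≤ δ * n ∧
        (1 + ε) * S.card < (eIn A S : ℝ)) +
      (s0 : ℝ) ^ 2 * ind (∃ S ⊆ Finset.range n, S.card < s0 ∧ S.card < eIn A S) := by
  have hn : (0 : ℝ) ≤ n := Nat.cast_nonneg n
  have hAc : (0 : ℝ) ≤ (A.card : ℝ) := Nat.cast_nonneg _
  have t1 : 0 ≤ (1 + ε) * (ind (¬ Col A) * ((Dset n A).card : ℝ)) :=
    mul_nonneg (by linarith) (mul_nonneg (ind_nonneg _) (Nat.cast_nonneg _))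
  have t2 : 0 ≤ (30 * (n : ℝ)) * ind (¬ Col A ∧ δ * n < ((Dset n A).card : ℝ)) :=
    mul_nonneg (by linarith) (ind_nonneg _)
  have t3 : 0 ≤ (A.card : ℝ) * ind (30 * n < A.card) := mul_nonneg hAc (ind_nonneg _)
  have t4 : 0 ≤ (n : ℝ) ^ 2 * ind (∃ S ⊆ Finset.range n, s0 ≤ S.card ∧ (S.card : ℝ) ≤ δ * n ∧
        (1 + ε) * S.card < (eIn A S : ℝ)) := mul_nonneg (by positivity) (ind_nonneg _)
  have t5 : 0 ≤ (s0 : ℝ) ^ 2 * ind (∃ S ⊆ Finset.range n, S.card < s0 ∧ S.card < eIn A S) :=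
    mul_nonneg (by positivity) (ind_nonneg _)
  by_cases hC : Col A
  · have h0 : ind (¬ Col A) * ((A.filter (fun e => Col (A.erase e))).card : ℝ) = 0 := by
      rw [ind_of_not (not_not.2 hC), zero_mul]
    rw [h0]
    linarith
  · have hDsub : Dset n A ⊆ Finset.range n := Finset.filter_subset _ _
    have hK1 : ((A.filter (fun e => Col (A.erase e))).card : ℝ) ≤ (eIn A (Dset n A) : ℝ) := by
      unfold eIn
      exact_mod_cast Finset.card_le_card (piv_sub hA)
    have hK2 : ((A.filter (fun e => Col (A.erase e))).card : ℝ) ≤ (A.card : ℝ) := by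
      exact_mod_cast Finset.card_le_card (Finset.filter_subset _ _)
    have hind : ind (¬ Col A) = 1 := ind_of hC
    rw [hind] at t1 ⊢
    rw [one_mul, one_mul] at *
    obtain ⟨K, hKd⟩ : ∃ K : ℝ, K = ((A.filter (fun e => Col (A.erase e))).card : ℝ) := ⟨_, rfl⟩
    rw [← hKd] at hK1 hK2 ⊢
    by_cases hbig : δ * n < ((Dset n A).card : ℝ)
    · rw [ind_of (p := ¬ Col A ∧ δ * n < ((Dset n A).card : ℝ)) ⟨hC, hbig⟩] at t2 ⊢
      by_cases hA30 : 30 * n < A.card
      · rw [ind_of hA30] at t3 ⊢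
        linarith
      · have h30 : (A.card : ℝ) ≤ 30 * (n : ℝ) := by
          have : A.card ≤ 30 * n := Nat.le_of_not_lt hA30
          exact_mod_cast this
        linarith
    · have hbig' : ((Dset n A).card : ℝ) ≤ δ * n := not_lt.1 hbig
      by_cases hs : s0 ≤ (Dset n A).card
      · by_cases hev : ∃ S ⊆ Finset.range n, s0 ≤ S.card ∧ (S.card : ℝ) ≤ δ * n ∧
          (1 + ε) * S.card < (eIn A S : ℝ)
        · rw [ind_of hev] at t4 ⊢
          have h2 : (A.card : ℝ) ≤ (n : ℝ) ^ 2 := by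
            have h3 : A.card ≤ n ^ 2 := by
              refine (Finset.card_le_card hA).trans ?_
              rw [card_EN, Nat.choose_two_right]
              refine (Nat.div_le_self _ _).trans ?_
              rw [sq]
              exact Nat.mul_le_mul_left n (Nat.sub_le n 1)
            exact_mod_cast h3
          linarith
        · have h4 : (eIn A (Dset n A) : ℝ) ≤ (1 + ε) * ((Dset n A).card : ℝ) := by
            by_contra hcon
            exact hev ⟨Dset n A, hDsub, hs, hbig', not_le.1 hcon⟩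
          linarith
      · have hs' : (Dset n A).card < s0 := not_le.1 hs
        by_cases hev : ∃ S ⊆ Finset.range n, S.card < s0 ∧ S.card < eIn A S
        · rw [ind_of hev] at t5 ⊢
          have h2 : (eIn A (Dset n A) : ℝ) ≤ (s0 : ℝ) ^ 2 := by
            have h3 : eIn A (Dset n A) ≤ s0 ^ 2 :=
              (eIn_le_sq A _).trans (Nat.pow_le_pow_left hs'.le 2)
            exact_mod_cast h3
          linarith
        · have h4 : (eIn A (Dset n A) : ℝ) ≤ ((Dset n A).card : ℝ) := by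
            have h5 : eIn A (Dset n A) ≤ (Dset n A).card := by
              by_contra hcon
              exact hev ⟨Dset n A, hDsub, hs', not_le.1 hcon⟩
            exact_mod_cast h5
          have h6 : 0 ≤ ε * ((Dset n A).card : ℝ) := mul_nonneg hε.le (Nat.cast_nonneg _)
          linarith

theorem kap_le (ε : ℝ) (hε : 0 < ε) : ∃ δ : ℝ, 0 < δ ∧ ∃ C : ℝ, 0 < C ∧ ∃ N : ℕ,
    ∀ n : ℕ, N ≤ n → ∀ t : ℝ, 0 ≤ t → t ≤ be / n →
    kap n t ≤ (1 + ε) * Dn n t +
      C * n * ex t (EN n) (fun A => ind (¬ Col A ∧ δ * n < ((Dset n A).card : ℝ))) + C / n := by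
  obtain ⟨s0, δ, hδ, C1, hC1, N1, h1⟩ := sparse_mid ε hε
  obtain ⟨C2, hC2, h2⟩ := sparse_small s0
  obtain ⟨N3, h3⟩ := edges_tail
  refine ⟨δ, hδ, 30 + 1 + C1 + (s0 : ℝ) ^ 2 * C2, by positivity, max 6 (max N1 N3), ?_⟩
  intro n hn t ht0 ht
  have hn6 : 6 ≤ n := (le_max_left _ _).trans hn
  have hn1 : N1 ≤ n := (le_max_left _ _).trans ((le_max_right _ _).trans hn)
  have hn3 : N3 ≤ n := (le_max_right _ _).trans ((le_max_right _ _).trans hn)
  have hnR : (6 : ℝ) ≤ n := by exact_mod_cast hn6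
  have hn0 : (0 : ℝ) < n := by linarith
  have ht1 : t ≤ 1 := by
    refine ht.trans ?_
    rw [div_le_one hn0]
    unfold be
    linarith
  have e1 := h1 n hn1 t ht0 ht
  have e2 := h2 n hn6 t ht0 ht
  have e3 := h3 n hn3 t ht0 ht
  have key : kap n t ≤ (1 + ε) * Dn n t +
      (30 * n) * ex t (EN n) (fun A => ind (¬ Col A ∧ δ * n < ((Dset n A).card : ℝ))) +
      ex t (EN n) (fun A => (A.card : ℝ) * ind (30 * n < A.card)) +
      (n : ℝ) ^ 2 * ex t (EN n) (fun A => ind (∃ S ⊆ Finset.range n, s0 ≤ S.card ∧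
        (S.card : ℝ) ≤ δ * n ∧ (1 + ε) * S.card < (eIn A S : ℝ))) +
      (s0 : ℝ) ^ 2 * ex t (EN n) (fun A => ind (∃ S ⊆ Finset.range n, S.card < s0 ∧
        S.card < eIn A S)) := by
    unfold kap Dn
    rw [← ex_mul_left, ← ex_mul_left, ← ex_mul_left, ← ex_mul_left, ← ex_add, ← ex_add, ← ex_add,
      ← ex_add]
    exact ex_mono ht0 ht1 (fun A hA => kap_pointwise hε hA)
  obtain ⟨X, hX⟩ : ∃ X : ℝ, X = ex t (EN n)
      (fun A => ind (¬ Col A ∧ δ * n < ((Dset n A).card : ℝ))) := ⟨_, rfl⟩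
  have hX0 : 0 ≤ X := by
    rw [hX]
    exact ex_nonneg ht0 ht1 (fun A _ => ind_nonneg _)
  rw [← hX] at key ⊢
  have e1' := mul_le_mul_of_nonneg_left e1 (by positivity : (0 : ℝ) ≤ (n : ℝ) ^ 2)
  have e2' := mul_le_mul_of_nonneg_left e2 (by positivity : (0 : ℝ) ≤ (s0 : ℝ) ^ 2)
  have e1'' : (n : ℝ) ^ 2 * (C1 / (n : ℝ) ^ 3) = C1 / n := by
    field_simp
  rw [e1''] at e1'
  have hfin : (30 + 1 + C1 + (s0 : ℝ) ^ 2 * C2) * n * X + (30 + 1 + C1 + (s0 : ℝ) ^ 2 * C2) / n =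
      30 * n * X + (1 / (n : ℝ)) + C1 / n + (s0 : ℝ) ^ 2 * (C2 / n) +
        ((1 + C1 + (s0 : ℝ) ^ 2 * C2) * n * X + 30 / n) := by
    field_simp
    ring
  have hpos : 0 ≤ (1 + C1 + (s0 : ℝ) ^ 2 * C2) * n * X + 30 / n := by positivity
  linarith

end Pool.Agent.LC3
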