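import Pool.Agent.LC3.ExB
import Pool.Agent.LC3.NetBasic

/-!
# LC3.QDeriv : Russo's formula

`q n t = P(G(n,t) not 3-colourable)`, `dq n t` its derivative, `kap n t = t * dq n t`.

* `hasDerivAt_q`: `hasDerivAt_ex` for `f A = ind (¬ Col A)`;
  `f (insert e A) - f A = ind (Col A ∧ ¬ Col (insert e A))` since `Col` is decreasing (`Col.mono`).
* `kap_eq`: `kap n t = ex t E (∑_{e ∈ A} ind(¬ Col A ∧ Col (A.erase e)))`, use `ex_sum_mem`; in the
  sum over `ex t (E.erase e)` one has `A ⊆ E.erase e`, so `(insert e A).erase e = A`.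
* `integral_dq`: fundamental theorem of calculus.
* `q_mono_t` : `ex_mono_t`.  `q_zero`: only the empty graph; `q_one`: only the complete graph.
* `q_mono_n`: adding a vertex (`EN m ⊆ EN n`; compare with `ex_inter` and `Col.mono`).
-/

set_option autoImplicit false

open Classical

namespace Pool.Agent.LC3

private theorem ind_sub_insert (A : Finset (Sym2 ℕ)) (e : Sym2 ℕ) :
    ind (¬ Col (insert e A)) - ind (¬ Col A) = ind (Col A ∧ ¬ Col (insert e A)) := by
  by_cases h : Col A
  · by_cases h' : Col (insert e A)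
    · rw [ind_of_not (not_not.2 h'), ind_of_not (not_not.2 h), ind_of_not (fun h'' => h''.2 h'),
        sub_zero]
    · rw [ind_of h', ind_of_not (not_not.2 h), ind_of ⟨h, h'⟩, sub_zero]
  · have h' : ¬ Col (insert e A) := fun h'' => h (Col.mono (Finset.subset_insert _ _) h'')
    rw [ind_of h', ind_of h, ind_of_not (fun h'' => h h''.1), sub_self]

theorem hasDerivAt_q (n : ℕ) (t : ℝ) : HasDerivAt (q n) (dq n t) t := by
  have h := hasDerivAt_ex (EN n) (fun A => ind (¬ Col A)) t
  have h2 : (∑ e ∈ EN n, ex t ((EN n).erase e) (fun A => ind (¬ Col (insert e A)) - ind (¬ Col A)))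
      = dq n t := by
    unfold dq
    refine Finset.sum_congr rfl fun e _ => ?_
    exact ex_congr fun A _ => ind_sub_insert A e
  rw [← h2]
  exact h

theorem continuous_dq (n : ℕ) : Continuous (dq n) := by
  unfold dq
  exact continuous_finsetSum _ fun e _ => continuous_ex _ _

theorem continuous_q (n : ℕ) : Continuous (q n) := continuous_ex _ _

theorem dq_nonneg {n : ℕ} {t : ℝ} (h0 : 0 ≤ t) (h1 : t ≤ 1) : 0 ≤ dq n t :=
  Finset.sum_nonneg fun _ _ => ex_nonneg h0 h1 fun _ _ => ind_nonneg _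

theorem kap_eq (n : ℕ) (t : ℝ) : kap n t = t * dq n t := by
  have h1 : kap n t = ex t (EN n) (fun A => ∑ e ∈ A, ind (Col (A.erase e) ∧ ¬ Col A)) := by
    unfold kap
    refine ex_congr fun A _ => ?_
    rw [Finset.card_filter]
    push_cast
    rw [Finset.mul_sum]
    refine Finset.sum_congr rfl fun e _ => ?_
    rw [ind_and, mul_comm]
    congr 1
  rw [h1, ex_sum_mem t (EN n) (fun e A => ind (Col (A.erase e) ∧ ¬ Col A))]
  unfold dq
  congr 1
  refine Finset.sum_congr rfl fun e _ => ?_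
  refine ex_congr fun A hA => ?_
  have he : e ∉ A := fun h => Finset.notMem_erase e (EN n) (hA h)
  rw [Finset.erase_insert he]

theorem integral_dq (n : ℕ) (a b : ℝ) : ∫ t in a..b, dq n t = q n b - q n a :=
  intervalIntegral.integral_eq_sub_of_hasDerivAt (fun x _ => hasDerivAt_q n x)
    ((continuous_dq n).intervalIntegrable _ _)

theorem q_nonneg {n : ℕ} {t : ℝ} (h0 : 0 ≤ t) (h1 : t ≤ 1) : 0 ≤ q n t :=
  ex_nonneg h0 h1 fun _ _ => ind_nonneg _

theorem q_le_one {n : ℕ} {t : ℝ} (h0 : 0 ≤ t) (h1 : t ≤ 1) : q n t ≤ 1 :=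
  ex_le_of_le h0 h1 fun _ _ => ind_le_one _

theorem q_mono_t {n : ℕ} {s t : ℝ} (h0 : 0 ≤ s) (hst : s ≤ t) (h1 : t ≤ 1) : q n s ≤ q n t :=
  ex_mono_t h0 hst h1 _ _ fun _ _ hAB _ => ind_mono fun h hB => h (Col.mono hAB hB)

theorem q_mono_n {m n : ℕ} (h : m ≤ n) {t : ℝ} (h0 : 0 ≤ t) (h1 : t ≤ 1) : q m t ≤ q n t := by
  have hsub : EN m ⊆ EN n := by
    intro e he
    unfold EN EE at he ⊢
    rw [Finset.mem_filter, Finset.mem_sym2_iff] at he ⊢
    exact ⟨fun a ha => Finset.mem_range.2 (lt_of_lt_of_le (Finset.mem_range.1 (he.1 a ha)) h),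
      he.2⟩
  have h2 := ex_inter t (EN n) (EN m) hsub (fun A => ind (¬ Col A))
  unfold q
  rw [← h2]
  exact ex_mono h0 h1 fun A _ => ind_mono fun h hB => h (Col.mono Finset.inter_subset_left hB)

theorem q_zero (n : ℕ) : q n 0 = 0 := by
  unfold q
  rw [ex_zero_left]
  exact ind_of_not (not_not.2 col_empty)

theorem q_one {n : ℕ} (hn : 4 ≤ n) : q n 1 = 1 := by
  unfold q
  rw [ex_one_left]
  exact ind_of (not_col_EN hn)

/-- the probability of being 3-colourable -/
theorem one_sub_q (n : ℕ) (t : ℝ) : ex t (EN n) (fun A => ind (Col A)) = 1 - q n t := by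
  have h : q n t = 1 - ex t (EN n) (fun A => ind (Col A)) := by
    unfold q
    rw [← ex_const t (EN n) 1, ← ex_sub]
    refine ex_congr fun A _ => ?_
    rw [ind_not]
  rw [h]
  ring

/-- `dq n t = Rr n t 1` and the total mass of the leaving measure is one -/
theorem Rr_one (n : ℕ) (t : ℝ) : Rr n t (fun _ => 1) = dq n t := by
  unfold Rr dq
  simp only [mul_one]

end Pool.Agent.LC3
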