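import Pool.Agent.LC3.TauId
import Pool.Agent.LC3.QDeriv
import Pool.Agent.LC3.BBounds
import Pool.Agent.LC3.BigT
import Pool.Agent.LC3.MonoT

/-!
# LC3.MA1 : bounds of all terms by the derivative

* `H_le`: `q (l+1) t - q l t = ∑_{i<l} PB l i t tau l i t ≤ exp(2 l t) ∑_{i<l} bb l (i+1) t tau l i t`
  (`H_tau`, `PB_le_exp`, `tau_nonneg`) `≤ exp(4 be) ∑_{i<l} (i+1) bb l (i+1) t tau l i t
  = exp(4 be) 2 kap (l+1) t/(l+1)` (`kap_tau`), and `kap (l+1) t = t dq (l+1) t` (`kap_eq`).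
* `tau_le`: one term of `kap_tau`: `(m+1) (i+1) bb m (i+1) t tau m i t ≤ 2 kap (m+1) t`, and
  `bb m (i+1) t ≥ c` by `bb_low 19` with `n = m+1`.
* `Bf_bd`: `Bf_le` and `bb m i t ≥ c` (`bb_low 19`), `Bf ≥ 0` (`bigf_nonneg`).
* `ell_anti`: `Big m θ' A → Big m θ A` for `θ ≤ θ'`.
-/

set_option autoImplicit false

open Classical

namespace Pool.Agent.LC3

private theorem win_half {x : ℝ} (hx : 21 ≤ x) {t : ℝ} (ht : t ≤ 2 * be / (x + 1)) :
    t ≤ 1 / 2 := by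
  refine ht.trans ?_
  have h1 : (0 : ℝ) < x + 1 := by linarith
  rw [div_le_iff₀ h1]
  unfold be
  linarith

theorem H_le : ∃ C : ℝ, 0 < C ∧ ∃ N : ℕ, ∀ l : ℕ, N ≤ l → ∀ t : ℝ, 0 < t →
    t ≤ 2 * be / ((l : ℝ) + 1) →
    q (l + 1) t - q l t ≤ C * (t * dq (l + 1) t) / ((l : ℝ) + 1) := by
  refine ⟨2 * Real.exp (4 * be), by positivity, 21, fun l hl t h0 ht => ?_⟩
  have hlR : (21 : ℝ) ≤ (l : ℝ) := by exact_mod_cast hl
  have h12 : t ≤ 1 / 2 := win_half hlR ht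
  have h1 : t ≤ 1 := by linarith
  have hl1 : (0 : ℝ) < (l : ℝ) + 1 := by linarith
  have hbe : 0 < be := al_pos.trans al_lt_be
  have hexp : Real.exp (2 * l * t) ≤ Real.exp (4 * be) := by
    refine Real.exp_le_exp.mpr ?_
    have h3 : t * ((l : ℝ) + 1) ≤ 2 * be := (le_div_iff₀ hl1).mp ht
    nlinarith
  have hS := kap_tau l t
  rw [kap_eq] at hS
  set S : ℝ := ∑ i ∈ Finset.range l, ((i : ℝ) + 1) * bb l (i + 1) t * tau l i t with hSdef
  have h4 : q (l + 1) t - q l t ≤ Real.exp (4 * be) * S := by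
    rw [H_tau, hSdef, Finset.mul_sum]
    refine Finset.sum_le_sum fun i hi => ?_
    have hi' : i + 1 ≤ l := Finset.mem_range.mp hi
    have ht0 : 0 ≤ tau l i t := tau_nonneg hi' h0.le h1
    have hb0 : 0 ≤ bb l (i + 1) t := bb_nonneg _ _ h0.le h1
    have h5 : PB l i t ≤ Real.exp (2 * l * t) * bb l (i + 1) t := PB_le_exp hi' h0 h12
    have h6 : PB l i t ≤ Real.exp (4 * be) * (((i : ℝ) + 1) * bb l (i + 1) t) := by
      refine h5.trans ?_
      have h7 : bb l (i + 1) t ≤ ((i : ℝ) + 1) * bb l (i + 1) t := by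
        have : (0 : ℝ) ≤ (i : ℝ) := Nat.cast_nonneg _
        nlinarith
      exact mul_le_mul hexp h7 hb0 (Real.exp_pos _).le
    calc PB l i t * tau l i t
        ≤ Real.exp (4 * be) * (((i : ℝ) + 1) * bb l (i + 1) t) * tau l i t :=
          mul_le_mul_of_nonneg_right h6 ht0
      _ = Real.exp (4 * be) * (((i : ℝ) + 1) * bb l (i + 1) t * tau l i t) := by ring
  refine h4.trans (le_of_eq ?_)
  rw [eq_div_iff hl1.ne']
  have h8 : Real.exp (4 * be) * S * ((l : ℝ) + 1) =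
      Real.exp (4 * be) * (((l : ℝ) + 1) * S) := by ring
  rw [h8, ← hS]
  ring

theorem tau_le : ∃ C : ℝ, 0 < C ∧ ∃ N : ℕ, ∀ m : ℕ, N ≤ m → ∀ t : ℝ, al / ((m : ℝ) + 1) ≤ t →
    t ≤ be / ((m : ℝ) + 1) → ∀ i : ℕ, i ≤ 18 →
    ((m : ℝ) + 1) * tau m i t ≤ C * (t * dq (m + 1) t) := by
  obtain ⟨c, hc, N, hN⟩ := bb_low 19
  refine ⟨2 / c, by positivity, max N 40, fun m hm t ht1 ht2 i hi => ?_⟩
  have hm40 : 40 ≤ m := le_trans (le_max_right _ _) hm
  have hmN : N ≤ m + 1 := le_trans (le_trans (le_max_left _ _) hm) (Nat.le_succ m)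
  have hmR : (40 : ℝ) ≤ (m : ℝ) := by exact_mod_cast hm40
  have hbe : 0 < be := al_pos.trans al_lt_be
  have hm1 : (0 : ℝ) < (m : ℝ) + 1 := by linarith
  have h0 : 0 < t := lt_of_lt_of_le (div_pos al_pos hm1) ht1
  have h12 : t ≤ 1 / 2 := by
    refine win_half (x := (m : ℝ)) (by linarith) (ht2.trans ?_)
    exact div_le_div_of_nonneg_right (by linarith) hm1.le
  have h1 : t ≤ 1 := by linarith
  have hb : c ≤ bb m (i + 1) t := by
    refine hN (m + 1) hmN m (by omega) (by omega) t ?_ ?_ (i + 1) (by omega)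
    · push_cast
      exact ht1
    · push_cast
      exact ht2
  have hi' : i + 1 ≤ m := by omega
  have ht0 : 0 ≤ tau m i t := tau_nonneg hi' h0.le h1
  have hS := kap_tau m t
  rw [kap_eq] at hS
  set S : ℝ := ∑ j ∈ Finset.range m, ((j : ℝ) + 1) * bb m (j + 1) t * tau m j t with hSdef
  have h2 : c * tau m i t ≤ S := by
    have h3 : ((i : ℝ) + 1) * bb m (i + 1) t * tau m i t ≤ S := by
      rw [hSdef]
      refine Finset.single_le_sum
        (f := fun j : ℕ => ((j : ℝ) + 1) * bb m (j + 1) t * tau m j t) ?_ ?_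
      · intro j hj
        have hj' : j + 1 ≤ m := Finset.mem_range.mp hj
        have := tau_nonneg hj' h0.le h1
        have := bb_nonneg m (j + 1) h0.le h1
        positivity
      · exact Finset.mem_range.mpr (by omega)
    refine le_trans ?_ h3
    refine mul_le_mul_of_nonneg_right ?_ ht0
    have : (0 : ℝ) ≤ (i : ℝ) := Nat.cast_nonneg _
    nlinarith
  have h4 : c * (((m : ℝ) + 1) * tau m i t) ≤ 2 * (t * dq (m + 1) t) := by
    rw [hS]
    calc c * (((m : ℝ) + 1) * tau m i t) = ((m : ℝ) + 1) * (c * tau m i t) := by ring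
      _ ≤ ((m : ℝ) + 1) * S := mul_le_mul_of_nonneg_left h2 hm1.le
  have h5 : 2 / c * (t * dq (m + 1) t) = (2 * (t * dq (m + 1) t)) / c := by ring
  rw [h5, le_div_iff₀ hc]
  linarith

theorem Bf_bd : ∃ C : ℝ, 0 < C ∧ ∃ N : ℕ, ∀ m : ℕ, N ≤ m → ∀ θ : ℝ, 0 < θ → ∀ t : ℝ,
    al / ((m : ℝ) + 1) ≤ t → t ≤ be / ((m : ℝ) + 1) → ∀ i : ℕ, i ≤ 18 →
    Bf m i θ t ≤ C * ell (m + 1) (θ / 2) t := by
  obtain ⟨c, hc, N, hN⟩ := bb_low 19
  refine ⟨1 / c, by positivity, max N 40, fun m hm θ hθ t ht1 ht2 i hi => ?_⟩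
  have hm40 : 40 ≤ m := le_trans (le_max_right _ _) hm
  have hmN : N ≤ m + 1 := le_trans (le_trans (le_max_left _ _) hm) (Nat.le_succ m)
  have hmR : (40 : ℝ) ≤ (m : ℝ) := by exact_mod_cast hm40
  have hbe : 0 < be := al_pos.trans al_lt_be
  have hm1 : (0 : ℝ) < (m : ℝ) + 1 := by linarith
  have h0 : 0 < t := lt_of_lt_of_le (div_pos al_pos hm1) ht1
  have h12 : t ≤ 1 / 2 := by
    refine win_half (x := (m : ℝ)) (by linarith) (ht2.trans ?_)
    exact div_le_div_of_nonneg_right (by linarith) hm1.le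
  have h1 : t ≤ 1 := by linarith
  have hb : c ≤ bb m i t := by
    refine hN (m + 1) hmN m (by omega) (by omega) t ?_ ?_ i (by omega)
    · push_cast
      exact ht1
    · push_cast
      exact ht2
  have hB0 : 0 ≤ Bf m i θ t := by
    unfold Bf
    exact ex_nonneg h0.le h1 fun A _ => mul_nonneg (ind_nonneg _) (bigf_nonneg m i θ A)
  have h3 : c * Bf m i θ t ≤ ell (m + 1) (θ / 2) t :=
    (mul_le_mul_of_nonneg_right hb hB0).trans (Bf_le hm40 hi hθ h0.le h1)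
  have h5 : 1 / c * ell (m + 1) (θ / 2) t = ell (m + 1) (θ / 2) t / c := by ring
  rw [h5, le_div_iff₀ hc]
  linarith

theorem ell_anti (m : ℕ) {θ θ' : ℝ} (h : θ ≤ θ') {t : ℝ} (h0 : 0 ≤ t) (h1 : t ≤ 1) :
    ell m θ' t ≤ ell m θ t := by
  unfold ell
  refine ex_mono h0 h1 fun A _ => ind_mono ?_
  rintro ⟨hA, v, hv, hB⟩
  refine ⟨hA, v, hv, le_trans ?_ hB⟩
  exact mul_le_mul_of_nonneg_right h (Nat.cast_nonneg _)

theorem ell_nonneg (m : ℕ) (θ : ℝ) {t : ℝ} (h0 : 0 ≤ t) (h1 : t ≤ 1) : 0 ≤ ell m θ t :=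
  ex_nonneg h0 h1 fun _ _ => ind_nonneg _

end Pool.Agent.LC3
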