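import Pool.Agent.LC3.BBounds

/-!
# LC3.W3 : the weights with index at least five are nonnegative

For `m` large, `0 ≤ t ≤ be/(m+1)` and `5 ≤ i`, `i + 1 ≤ m`: `2 PB m i t ≤ (99/100) (i+1) bb m (i+1) t`.
Proof: let `λ = m t/(1-t) ≤ be * (1 + small) ≤ 5.065`. For `j ≥ i+1`:
`bb m (j+1) t ≤ (λ/(j+1)) bb m j t` (exactly `bb m (j+1) t = (m-j)/(j+1) * t/(1-t) * bb m j t`).
Hence `PB m i t ≤ bb m (i+1) t * S_i`, with
`i ≥ 6`: `S_i ≤ 1/(1 - λ/(i+2)) ≤ 1/(1 - 5.065/8) ≤ 2.7258`, `2 * 2.7258 ≤ 5.46 ≤ 0.99 * 7`;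
`i = 5`: `S_5 ≤ 1 + λ/7 + λ^2/56 * 1/(1 - λ/9) ≤ 1 + 0.7236 + 0.4582/0.4372 ≤ 2.7717`,
`2 * 2.7717 ≤ 5.55 ≤ 0.99 * 6 = 5.94`.
-/

set_option autoImplicit false

open Classical

namespace Pool.Agent.LC3

private theorem w3_nn {m j : ℕ} {t : ℝ} (h0 : 0 ≤ t) (h1 : t ≤ 1) : 0 ≤ bb m j t := by
  unfold bb
  have : 0 ≤ 1 - t := by linarith
  positivity

private theorem w3_step {m j : ℕ} {t : ℝ} (hm : 2000 ≤ m) (h0 : 0 ≤ t)
    (h1 : t ≤ be / ((m : ℝ) + 1)) :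
    ((j : ℝ) + 1) * bb m (j + 1) t ≤ 5051 / 1000 * bb m j t := by
  have hm' : (2000 : ℝ) ≤ m := by exact_mod_cast hm
  have h2 : t * ((m : ℝ) + 1) ≤ 126 / 25 := by
    rw [le_div_iff₀ (by positivity)] at h1
    exact h1
  have h3 : (m : ℝ) * t ≤ 5051 / 1000 * (1 - t) := by nlinarith
  have ht1 : t < 1 := by nlinarith
  have hbj : 0 ≤ bb m j t := w3_nn h0 ht1.le
  rcases Nat.lt_or_ge j m with hj | hj
  · have e1 : ((j : ℝ) + 1) * bb m (j + 1) t * (1 - t) = ((m : ℝ) - j) * t * bb m j t := by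
      unfold bb
      have c1 : ((m.choose (j + 1) : ℝ)) * ((j : ℝ) + 1) = (m.choose j : ℝ) * ((m : ℝ) - j) := by
        have := Nat.choose_succ_right_eq m j
        have h5 : ((m - j : ℕ) : ℝ) = (m : ℝ) - j := by
          rw [Nat.cast_sub hj.le]
        rw [← h5]
        exact_mod_cast this
      have c2 : (1 - t) ^ (m - j) = (1 - t) ^ (m - (j + 1)) * (1 - t) := by
        rw [← pow_succ]
        congr 1
        omega
      rw [c2, pow_succ]
      calc ((j : ℝ) + 1) * ((m.choose (j + 1) : ℝ) * (t ^ j * t) * (1 - t) ^ (m - (j + 1))) * (1 - t)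
          = ((m.choose (j + 1) : ℝ) * ((j : ℝ) + 1)) * (t ^ j * t) * (1 - t) ^ (m - (j + 1)) *
            (1 - t) := by ring
        _ = ((m.choose j : ℝ) * ((m : ℝ) - j)) * (t ^ j * t) * (1 - t) ^ (m - (j + 1)) *
            (1 - t) := by rw [c1]
        _ = _ := by ring
    have e2 : ((m : ℝ) - j) * t * bb m j t ≤ 5051 / 1000 * (1 - t) * bb m j t := by
      refine mul_le_mul_of_nonneg_right ?_ hbj
      have : 0 ≤ (j : ℝ) * t := by positivity
      linarith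
    have e3 : ((j : ℝ) + 1) * bb m (j + 1) t * (1 - t) ≤ 5051 / 1000 * bb m j t * (1 - t) := by
      linarith
    exact le_of_mul_le_mul_right e3 (by linarith)
  · have : bb m (j + 1) t = 0 := by
      unfold bb
      rw [Nat.choose_eq_zero_of_lt (by omega)]
      simp
    rw [this, mul_zero]
    positivity

private theorem w3_geo {m i : ℕ} {t : ℝ} (hm : 2000 ≤ m) (h0 : 0 ≤ t)
    (h1 : t ≤ be / ((m : ℝ) + 1)) (hi : 6 ≤ i) (him : i + 1 ≤ m) :
    2949 / 8000 * PB m i t ≤ bb m (i + 1) t := by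
  have hm' : (2000 : ℝ) ≤ m := by exact_mod_cast hm
  have h2 : t * ((m : ℝ) + 1) ≤ 126 / 25 := by
    rw [le_div_iff₀ (by positivity)] at h1
    exact h1
  have ht1 : t ≤ 1 := by nlinarith
  have e1 : ∑ j ∈ Finset.Ioc i m, bb m (j + 1) t ≤
      ∑ j ∈ Finset.Ioc i m, 5051 / 8000 * bb m j t := by
    refine Finset.sum_le_sum fun j hj => ?_
    rw [Finset.mem_Ioc] at hj
    have h3 := w3_step (j := j) hm h0 h1
    have h4 : (8 : ℝ) ≤ (j : ℝ) + 1 := by
      have : 7 ≤ j := by omega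
      have : (7 : ℝ) ≤ j := by exact_mod_cast this
      linarith
    have h5 := w3_nn (m := m) (j := j + 1) h0 ht1
    nlinarith
  have e2 : ∑ j ∈ Finset.Ioc i m, bb m (j + 1) t = ∑ j ∈ Finset.Ioc (i + 1) (m + 1), bb m j t := by
    have e5 := Finset.sum_map (Finset.Ioc i m) (addRightEmbedding 1) (fun j => bb m j t)
    rw [Finset.map_add_right_Ioc] at e5
    rw [e5]
    rfl
  have e3 : PB m (i + 1) t ≤ ∑ j ∈ Finset.Ioc (i + 1) (m + 1), bb m j t := by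
    unfold PB
    refine Finset.sum_le_sum_of_subset_of_nonneg ?_ fun j _ _ => w3_nn h0 ht1
    exact Finset.Ioc_subset_Ioc_right (by omega)
  have e4 : PB m i t = bb m (i + 1) t + PB m (i + 1) t := by
    unfold PB
    rw [← Finset.sum_Ioc_consecutive _ (Nat.le_succ i) him, Nat.Ioc_succ_singleton,
      Finset.sum_singleton]
  rw [← Finset.mul_sum] at e1
  change ∑ j ∈ Finset.Ioc i m, bb m (j + 1) t ≤ 5051 / 8000 * PB m i t at e1
  linarith

theorem PB_le_bb : ∃ N : ℕ, ∀ m : ℕ, N ≤ m → ∀ t : ℝ, 0 ≤ t → t ≤ be / ((m : ℝ) + 1) →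
    ∀ i : ℕ, 5 ≤ i → i + 1 ≤ m →
      2 * PB m i t ≤ (99 / 100) * (((i : ℝ) + 1) * bb m (i + 1) t) := by
  refine ⟨2000, fun m hm t h0 h1 i hi him => ?_⟩
  have hm' : (2000 : ℝ) ≤ m := by exact_mod_cast hm
  have h2 : t * ((m : ℝ) + 1) ≤ 126 / 25 := by
    have h3 := h1
    rw [le_div_iff₀ (by positivity)] at h3
    exact h3
  have ht1 : t ≤ 1 := by nlinarith
  rcases Nat.lt_or_ge 5 i with h5 | h5
  · have e1 := w3_geo hm h0 h1 h5 him
    have e2 := w3_nn (m := m) (j := i + 1) h0 ht1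
    have e3 : (7 : ℝ) ≤ (i : ℝ) + 1 := by
      have : (6 : ℝ) ≤ i := by exact_mod_cast h5
      linarith
    nlinarith
  · obtain rfl : i = 5 := by omega
    have e1 := w3_geo (i := 6) hm h0 h1 le_rfl (by omega)
    have e2 := w3_nn (m := m) (j := 6) h0 ht1
    have e3 := w3_step (j := 6) hm h0 h1
    have e4 : PB m 5 t = bb m 6 t + PB m 6 t := by
      unfold PB
      rw [← Finset.sum_Ioc_consecutive _ (show 5 ≤ 6 by norm_num) (show 6 ≤ m by omega),
        Nat.Ioc_succ_singleton, Finset.sum_singleton]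
    norm_num at e1 e3 ⊢
    rw [e4]
    linarith

end Pool.Agent.LC3
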