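import Pool.Agent.LC3.W2
import Pool.Agent.LC3.W3

/-!
# LC3.W4 : the weights inequality for almost nondecreasing sequences

Let `w i = (1-κ) (i+1) bb m (i+1) t - 2 PB m i t`, κ from `SP_pos`. By `bb_po`
(`PB m i t = 1 - ∑_{k ≤ i} bb m k t` by `sum_bb`) the sums `S3 = ∑_{i=3}^{17} w i`,
`S4 = ∑_{i=4}^{17} w i` are `≥ 0` for `m` large (uniformly in the window), and `w i ≥ 0` for `i ≥ 5`
(`PB_le_bb`, `κ ≤ 1/100`), and `|w i| ≤ 20` for `i ≤ 17`.
With `x (i+1) ≥ x i - e` for `3 ≤ i < 18`: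
`∑_{i=3}^{m-1} w i x i ≥ w 3 x 3 + w 4 x 4 + ∑_{i=5}^{17} w i (x 4 - 14 e)
  ≥ w 3 x 3 + S4 x 4 - 14*13*20 e ≥ w 3 x 3 + S4 (x 3 - e) - C e = S3 x 3 - C' e ≥ - C' e`.
-/

set_option autoImplicit false

open Classical

namespace Pool.Agent.LC3

private noncomputable def w4W (κ : ℝ) (m : ℕ) (t : ℝ) (i : ℕ) : ℝ :=
  (1 - κ) * (((i : ℝ) + 1) * bb m (i + 1) t) - 2 * PB m i t

private theorem w4_PB {m i : ℕ} (hi : i ≤ m) (t : ℝ) :
    PB m i t = 1 - ∑ k ∈ Finset.range (i + 1), bb m k t := by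
  have h1 := sum_bb m t
  have h2 : ∑ k ∈ Finset.range (i + 1), bb m k t + ∑ k ∈ Finset.Ico (i + 1) (m + 1), bb m k t =
      ∑ k ∈ Finset.range (m + 1), bb m k t := Finset.sum_range_add_sum_Ico _ (by omega)
  have h3 : Finset.Ioc i m = Finset.Ico (i + 1) (m + 1) := by
    ext x; simp only [Finset.mem_Ioc, Finset.mem_Ico]; omega
  unfold PB
  rw [h3]
  linarith

private theorem w4_approx {κ : ℝ} (hκ0 : 0 < κ) (hκ1 : κ ≤ 1 / 100) {m : ℕ} (hm : 18 ≤ m) {t ε c : ℝ}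
    (hε : 0 ≤ ε)
    (h : ∀ k, k ≤ 18 → |bb m k t - po c k| ≤ ε) {i : ℕ} (hi : i < 18) :
    (1 - κ) * (((i : ℝ) + 1) * po c (i + 1)) - 2 * (1 - ∑ k ∈ Finset.range (i + 1), po c k) -
      54 * ε ≤ w4W κ m t i := by
  unfold w4W
  rw [w4_PB (by omega) t]
  have h1 := (abs_le.1 (h (i + 1) (by omega))).1
  have h2 : ∑ k ∈ Finset.range (i + 1), po c k - ((i : ℝ) + 1) * ε ≤
      ∑ k ∈ Finset.range (i + 1), bb m k t := by
    have h3 : ∑ k ∈ Finset.range (i + 1), (po c k - ε) ≤ ∑ k ∈ Finset.range (i + 1), bb m k t := by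
      apply Finset.sum_le_sum
      intro k hk
      have hk' := Finset.mem_range.1 hk
      have := (abs_le.1 (h k (by omega))).1
      linarith
    rw [Finset.sum_sub_distrib] at h3
    simp only [Finset.sum_const, Finset.card_range, nsmul_eq_mul] at h3
    push_cast at h3
    exact h3
  have hi' : (i : ℝ) + 1 ≤ 18 := by
    have : i + 1 ≤ 18 := by omega
    exact_mod_cast this
  have hi0 : (0 : ℝ) ≤ (i : ℝ) + 1 := by positivity
  have h4 : ((i : ℝ) + 1) * (po c (i + 1) - ε) ≤ ((i : ℝ) + 1) * bb m (i + 1) t :=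
    mul_le_mul_of_nonneg_left (by linarith) hi0
  have h5 : (1 - κ) * (((i : ℝ) + 1) * (po c (i + 1) - ε)) ≤
      (1 - κ) * (((i : ℝ) + 1) * bb m (i + 1) t) :=
    mul_le_mul_of_nonneg_left h4 (by linarith)
  have h6 : ((i : ℝ) + 1) * ε ≤ 18 * ε := mul_le_mul_of_nonneg_right hi' hε
  have h7 : (1 - κ) * (((i : ℝ) + 1) * ε) ≤ 18 * ε := by
    have h8 : 0 ≤ ((i : ℝ) + 1) * ε := mul_nonneg hi0 hε
    have h9 : 0 ≤ κ * (((i : ℝ) + 1) * ε) := mul_nonneg hκ0.le h8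
    linarith
  linarith

theorem weights : ∃ κ : ℝ, 0 < κ ∧ κ ≤ 1 / 100 ∧ ∃ C : ℝ, 0 < C ∧ ∃ N : ℕ, ∀ m : ℕ, N ≤ m →
    ∀ t : ℝ, al / ((m : ℝ) + 1) ≤ t → t ≤ be / ((m : ℝ) + 1) →
    ∀ x : ℕ → ℝ, (∀ i, i < m → 0 ≤ x i) → ∀ e : ℝ, 0 ≤ e →
    (∀ i, 3 ≤ i → i < 18 → x i - e ≤ x (i + 1)) →
    -(C * e) ≤ ∑ i ∈ Finset.Ico 3 m,
      ((1 - κ) * (((i : ℝ) + 1) * bb m (i + 1) t) - 2 * PB m i t) * x i := by
  obtain ⟨κ, hκ0, hκ1, δ, hδ, hSP⟩ := SP_pos
  obtain ⟨N0, hN0⟩ := PB_le_bb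
  have hε : 0 < δ / 810 := by positivity
  choose Nb hNb using fun k : ℕ => bb_po k (δ / 810) hε
  refine ⟨κ, hκ0, hκ1, 4000, by norm_num,
    max (max N0 20) ((Finset.range 19).sup Nb), fun m hm t ht1 ht2 x hx e he hxe => ?_⟩
  have hmN0 : N0 ≤ m := le_trans (le_trans (le_max_left _ _) (le_max_left _ _)) hm
  have hm20 : 20 ≤ m := le_trans (le_trans (le_max_right _ _) (le_max_left _ _)) hm
  have hmNb : ∀ k, k ≤ 18 → Nb k ≤ m := fun k hk =>
    le_trans (le_trans (Finset.le_sup (Finset.mem_range.2 (by omega))) (le_max_right _ _)) hm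
  have hMp : 0 < (m : ℝ) + 1 := by positivity
  have hm20' : (20 : ℝ) ≤ m := by exact_mod_cast hm20
  have ht0 : 0 ≤ t := le_trans (div_nonneg al_pos.le hMp.le) ht1
  have ht1' : t ≤ 1 := by
    refine ht2.trans ?_
    rw [div_le_one hMp]
    unfold be
    linarith
  have hc1 : al ≤ ((m : ℝ) + 1) * t := by
    rw [div_le_iff₀ hMp] at ht1
    linarith
  have hc2 : ((m : ℝ) + 1) * t ≤ be := by
    rw [le_div_iff₀ hMp] at ht2
    linarith
  obtain ⟨hS3, hS4⟩ := hSP _ hc1 hc2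
  have happ : ∀ k, k ≤ 18 → |bb m k t - po (((m : ℝ) + 1) * t) k| ≤ δ / 810 := fun k hk =>
    hNb k m (hmNb k hk) t ht1 ht2
  -- lower bounds of the sums
  have hsum : ∀ j, 3 ≤ j → j ≤ 18 → SP κ j (((m : ℝ) + 1) * t) - δ ≤
      ∑ i ∈ Finset.Ico j 18, w4W κ m t i := by
    intro j hj3 hj
    have h1 : ∑ i ∈ Finset.Ico j 18, ((1 - κ) * (((i : ℝ) + 1) * po (((m : ℝ) + 1) * t) (i + 1)) -
        2 * (1 - ∑ k ∈ Finset.range (i + 1), po (((m : ℝ) + 1) * t) k) - 54 * (δ / 810)) ≤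
        ∑ i ∈ Finset.Ico j 18, w4W κ m t i := by
      apply Finset.sum_le_sum
      intro i hi
      have hi' := Finset.mem_Ico.1 hi
      exact w4_approx hκ0 hκ1 (by omega) hε.le happ hi'.2
    rw [Finset.sum_sub_distrib] at h1
    have h2 : ∑ _i ∈ Finset.Ico j 18, 54 * (δ / 810) ≤ δ := by
      rw [Finset.sum_const, Nat.card_Ico, nsmul_eq_mul]
      have h3 : ((18 - j : ℕ) : ℝ) ≤ 15 := by
        have : 18 - j ≤ 15 := by omega
        exact_mod_cast this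
      have h4 : 0 ≤ 54 * (δ / 810) := by positivity
      have h5 := mul_le_mul_of_nonneg_right h3 h4
      linarith
    unfold SP
    linarith
  have hS3' : 0 ≤ ∑ i ∈ Finset.Ico 3 18, w4W κ m t i := by
    have := hsum 3 le_rfl (by norm_num)
    linarith
  have hS4' : 0 ≤ ∑ i ∈ Finset.Ico 4 18, w4W κ m t i := by
    have := hsum 4 (by norm_num) (by norm_num)
    linarith
  have hup : ∀ i, i < 18 → w4W κ m t i ≤ 18 := by
    intro i hi
    unfold w4W
    have h1 := bb_nonneg m (i + 1) ht0 ht1'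
    have h2 := bb_le_one m (i + 1) ht0 ht1'
    have h3 := PB_nonneg m i ht0 ht1'
    have hi' : (i : ℝ) + 1 ≤ 18 := by
      have : i + 1 ≤ 18 := by omega
      exact_mod_cast this
    have hi0 : (0 : ℝ) ≤ (i : ℝ) + 1 := by positivity
    have h4 : ((i : ℝ) + 1) * bb m (i + 1) t ≤ 18 * 1 := mul_le_mul hi' h2 h1 (by norm_num)
    have h5 : 0 ≤ ((i : ℝ) + 1) * bb m (i + 1) t := mul_nonneg hi0 h1
    have h6 : 0 ≤ κ * (((i : ℝ) + 1) * bb m (i + 1) t) := mul_nonneg hκ0.le h5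
    linarith
  have hpos : ∀ i, 5 ≤ i → i < m → 0 ≤ w4W κ m t i := by
    intro i hi him
    have h1 := hN0 m hmN0 t ht0 ht2 i hi (by omega)
    unfold w4W
    have h2 := bb_nonneg m (i + 1) ht0 ht1'
    have h3 : 0 ≤ ((i : ℝ) + 1) * bb m (i + 1) t := mul_nonneg (by positivity) h2
    have h4 : κ * (((i : ℝ) + 1) * bb m (i + 1) t) ≤ 1 / 100 * (((i : ℝ) + 1) * bb m (i + 1) t) :=
      mul_le_mul_of_nonneg_right hκ1 h3
    linarith
  have hx4 : ∀ k : ℕ, k ≤ 14 → x 4 - (k : ℝ) * e ≤ x (4 + k) := by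
    intro k
    induction k with
    | zero => intro _; simp
    | succ k ih =>
      intro hk
      have h1 := ih (by omega)
      have h2 := hxe (4 + k) (by omega) (by omega)
      have h3 : 4 + (k + 1) = 4 + k + 1 := by omega
      rw [h3]
      push_cast
      linarith
  have h3m : 0 ≤ x 3 := hx 3 (by omega)
  -- splitting
  have hsplit1 : ∑ i ∈ Finset.Ico 3 m, w4W κ m t i * x i =
      ∑ i ∈ Finset.Ico 3 18, w4W κ m t i * x i + ∑ i ∈ Finset.Ico 18 m, w4W κ m t i * x i :=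
    (Finset.sum_Ico_consecutive _ (by norm_num) (by omega)).symm
  have htail : 0 ≤ ∑ i ∈ Finset.Ico 18 m, w4W κ m t i * x i := by
    apply Finset.sum_nonneg
    intro i hi
    have hi' := Finset.mem_Ico.1 hi
    exact mul_nonneg (hpos i (by omega) hi'.2) (hx i hi'.2)
  have h5 : (∑ i ∈ Finset.Ico 5 18, w4W κ m t i) * x 4 - 13 * 18 * 14 * e ≤
      ∑ i ∈ Finset.Ico 5 18, w4W κ m t i * x i := by
    have h6 : ∑ i ∈ Finset.Ico 5 18, (w4W κ m t i * x 4 - 18 * 14 * e) ≤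
        ∑ i ∈ Finset.Ico 5 18, w4W κ m t i * x i := by
      apply Finset.sum_le_sum
      intro i hi
      have hi' := Finset.mem_Ico.1 hi
      have h7 := hx4 (i - 4) (by omega)
      have h8 : 4 + (i - 4) = i := by omega
      rw [h8] at h7
      have h9 : ((i - 4 : ℕ) : ℝ) ≤ 14 := by
        have : i - 4 ≤ 14 := by omega
        exact_mod_cast this
      have h10 : x 4 - 14 * e ≤ x i := by
        have := mul_le_mul_of_nonneg_right h9 he
        linarith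
      have h11 := hpos i hi'.1 (by omega)
      have h12 := hup i hi'.2
      have h13 : w4W κ m t i * (x 4 - 14 * e) ≤ w4W κ m t i * x i :=
        mul_le_mul_of_nonneg_left h10 h11
      have h14 : w4W κ m t i * (14 * e) ≤ 18 * (14 * e) :=
        mul_le_mul_of_nonneg_right h12 (by positivity)
      linarith
    rw [Finset.sum_sub_distrib, ← Finset.sum_mul] at h6
    simp only [Finset.sum_const, Nat.card_Ico, nsmul_eq_mul] at h6
    norm_num at h6
    linarith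
  have e3 : ∑ i ∈ Finset.Ico 3 18, w4W κ m t i * x i = w4W κ m t 3 * x 3 +
      (w4W κ m t 4 * x 4 + ∑ i ∈ Finset.Ico 5 18, w4W κ m t i * x i) := by
    rw [Finset.sum_eq_sum_Ico_succ_bot (by norm_num), Finset.sum_eq_sum_Ico_succ_bot (by norm_num)]
  have e3' : ∑ i ∈ Finset.Ico 3 18, w4W κ m t i = w4W κ m t 3 +
      ∑ i ∈ Finset.Ico 4 18, w4W κ m t i := by
    rw [Finset.sum_eq_sum_Ico_succ_bot (by norm_num)]
  have e4' : ∑ i ∈ Finset.Ico 4 18, w4W κ m t i = w4W κ m t 4 +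
      ∑ i ∈ Finset.Ico 5 18, w4W κ m t i := by
    rw [Finset.sum_eq_sum_Ico_succ_bot (by norm_num)]
  have hS4up : ∑ i ∈ Finset.Ico 4 18, w4W κ m t i ≤ 252 := by
    have : ∑ i ∈ Finset.Ico 4 18, w4W κ m t i ≤ ∑ _i ∈ Finset.Ico 4 18, (18 : ℝ) := by
      apply Finset.sum_le_sum
      intro i hi
      exact hup i (Finset.mem_Ico.1 hi).2
    simp only [Finset.sum_const, Nat.card_Ico, nsmul_eq_mul] at this
    norm_num at this
    exact this
  have hx34 : x 3 - e ≤ x 4 := hxe 3 le_rfl (by norm_num)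
  have hfin : -(4000 * e) ≤ ∑ i ∈ Finset.Ico 3 m, w4W κ m t i * x i := by
    rw [hsplit1, e3]
    set S5 := ∑ i ∈ Finset.Ico 5 18, w4W κ m t i with hS5
    set S4 := ∑ i ∈ Finset.Ico 4 18, w4W κ m t i with hS4d
    have h20 : S4 * (x 3 - e) ≤ S4 * x 4 := mul_le_mul_of_nonneg_left hx34 hS4'
    have h21 : S4 * e ≤ 252 * e := mul_le_mul_of_nonneg_right hS4up he
    have h22 : 0 ≤ (w4W κ m t 3 + S4) * x 3 := by
      rw [e3'] at hS3'
      exact mul_nonneg hS3' h3m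
    have h23 : S4 * x 4 = w4W κ m t 4 * x 4 + S5 * x 4 := by
      rw [e4']; ring
    linarith
  exact hfin

end Pool.Agent.LC3
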