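import Pool.Agent.LC3.MA1
import Pool.Agent.LC3.W4

/-!
# LC3.MA2 : the main inequality between pivotal vertices and edges

Let `n = m+1`, `κ, C1` from `weights`. By `Dn_eq`, `H_tau`, `kap_tau`, `kap_eq`:
`(1-κ) 2 kap n - 2 Dn n = n ∑_{i<m} w_i tau_i`, `w_i = (1-κ)(i+1) bb m (i+1) t - 2 PB m i t`,
`tau_i = tau m i t`. The terms `i = 0, 1` vanish (`tau_small`), the term `i = 2` is `≥ - 2 tau_2`
(`PB_le_one`). For `i ≥ 3` apply `weights` with `x i = tau m i t` and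
`e = ∑_{3 ≤ i < 18} (θ tau_i + Bf m i θ t)`; the hypothesis `x i - e ≤ x (i+1)` is `tau_succ_ge`. So
`2 Dn n ≤ (1-κ) 2 kap n + 2 n tau_2 + C1 n ∑_{3≤i<18} (θ tau_i + Bf m i θ t)`, and
`n tau_i ≤ C (t dq n t)` (`tau_le`), `Bf m i θ t ≤ C ell n (θ/2) t` (`Bf_bd`).
-/

set_option autoImplicit false

open Classical

namespace Pool.Agent.LC3

theorem Dn_le : ∃ κ : ℝ, 0 < κ ∧ κ ≤ 1 / 100 ∧ ∃ C : ℝ, 0 < C ∧ ∃ N : ℕ, ∀ m : ℕ, N ≤ m →
    ∀ θ : ℝ, 0 < θ → ∀ t : ℝ, al / ((m : ℝ) + 1) ≤ t → t ≤ be / ((m : ℝ) + 1) →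
    Dn (m + 1) t ≤ (1 - κ) * (t * dq (m + 1) t) + C * θ * (t * dq (m + 1) t) +
      C * (((m : ℝ) + 1) * ell (m + 1) (θ / 2) t) + ((m : ℝ) + 1) * tau m 2 t := by
  obtain ⟨κ, hκ0, hκ1, C1, hC1, N1, hW⟩ := weights
  obtain ⟨C2, hC2, N2, hT⟩ := tau_le
  obtain ⟨C3, hC3, N3, hB⟩ := Bf_bd
  refine ⟨κ, hκ0, hκ1, C1 * 15 * (C2 + C3), by positivity, N1 + N2 + N3 + 40,
    fun m hm θ hθ t ht1 ht2 => ?_⟩
  have hm40 : 40 ≤ m := by omega
  have hmR : (40 : ℝ) ≤ (m : ℝ) := by exact_mod_cast hm40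
  have hm1 : (0 : ℝ) < (m : ℝ) + 1 := by linarith
  have ht0 : 0 < t := lt_of_lt_of_le (div_pos al_pos hm1) ht1
  have ht1' : t ≤ 1 := by
    refine ht2.trans ?_
    rw [div_le_one hm1]
    unfold be
    linarith
  set D : ℝ := t * dq (m + 1) t with hD
  set x : ℕ → ℝ := fun i => tau m i t with hx
  have hx0 : ∀ i, i < m → 0 ≤ x i := fun i hi => tau_nonneg (by omega) ht0.le ht1'
  have hBf0 : ∀ i, 0 ≤ Bf m i θ t := fun i => by
    unfold Bf
    exact ex_nonneg ht0.le ht1' fun A _ => mul_nonneg (ind_nonneg _) (bigf_nonneg m i θ A)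
  have hD0 : 0 ≤ D := by
    have h1 := hT m (by omega) t ht1 ht2 2 (by omega)
    have h2 : 0 ≤ ((m : ℝ) + 1) * tau m 2 t := mul_nonneg hm1.le (hx0 2 (by omega))
    have h3 : 0 ≤ C2 * D := h2.trans h1
    by_contra hneg
    push Not at hneg
    have := mul_neg_of_pos_of_neg hC2 hneg
    linarith
  have hell0 : 0 ≤ ell (m + 1) (θ / 2) t := ell_nonneg (m + 1) (θ / 2) ht0.le ht1'
  set e : ℝ := ∑ i ∈ Finset.Ico (3 : ℕ) 18, (θ * tau m i t + Bf m i θ t) with he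
  have hterm0 : ∀ i ∈ Finset.Ico (3 : ℕ) 18, 0 ≤ θ * tau m i t + Bf m i θ t := by
    intro i hi
    have hi' := Finset.mem_Ico.1 hi
    exact add_nonneg (mul_nonneg hθ.le (hx0 i (by omega))) (hBf0 i)
  have he0 : 0 ≤ e := Finset.sum_nonneg hterm0
  have hxe : ∀ i, 3 ≤ i → i < 18 → x i - e ≤ x (i + 1) := by
    intro i h3 h18
    have h1 := tau_succ_ge (m := m) (i := i) (by omega) hθ.le ht0.le ht1'
    have h2 : θ * tau m i t + Bf m i θ t ≤ e :=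
      Finset.single_le_sum (f := fun i : ℕ => θ * tau m i t + Bf m i θ t) hterm0
        (Finset.mem_Ico.2 ⟨h3, h18⟩)
    show tau m i t - e ≤ tau m (i + 1) t
    linarith
  have hmain := hW m (by omega) t ht1 ht2 x hx0 e he0 hxe
  -- identities
  have hS := kap_tau m t
  rw [kap_eq, ← hD] at hS
  have hDn : Dn (m + 1) t = ((m : ℝ) + 1) * ∑ i ∈ Finset.range m, PB m i t * tau m i t := by
    rw [Dn_eq, H_tau]
  have hcomb : (1 - κ) * (2 * D) - 2 * Dn (m + 1) t = ((m : ℝ) + 1) *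
      ∑ i ∈ Finset.range m,
        ((1 - κ) * (((i : ℝ) + 1) * bb m (i + 1) t) - 2 * PB m i t) * x i := by
    rw [hS, hDn]
    have e1 : ∑ i ∈ Finset.range m,
        ((1 - κ) * (((i : ℝ) + 1) * bb m (i + 1) t) - 2 * PB m i t) * x i =
        (1 - κ) * ∑ i ∈ Finset.range m, ((i : ℝ) + 1) * bb m (i + 1) t * tau m i t -
        2 * ∑ i ∈ Finset.range m, PB m i t * tau m i t := by
      rw [Finset.mul_sum, Finset.mul_sum, ← Finset.sum_sub_distrib]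
      refine Finset.sum_congr rfl fun i _ => ?_
      show _ * tau m i t = _
      ring
    rw [e1]
    ring
  have hsplit : ∑ i ∈ Finset.range m,
      ((1 - κ) * (((i : ℝ) + 1) * bb m (i + 1) t) - 2 * PB m i t) * x i =
      ∑ i ∈ Finset.range 3, ((1 - κ) * (((i : ℝ) + 1) * bb m (i + 1) t) - 2 * PB m i t) * x i +
      ∑ i ∈ Finset.Ico 3 m, ((1 - κ) * (((i : ℝ) + 1) * bb m (i + 1) t) - 2 * PB m i t) * x i :=
    (Finset.sum_range_add_sum_Ico _ (by omega)).symm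
  have h3 : -(2 * tau m 2 t) ≤ ∑ i ∈ Finset.range 3,
      ((1 - κ) * (((i : ℝ) + 1) * bb m (i + 1) t) - 2 * PB m i t) * x i := by
    rw [Finset.sum_range_succ, Finset.sum_range_succ, Finset.sum_range_succ, Finset.sum_range_zero]
    have z0 : x 0 = 0 := tau_small (by norm_num) t
    have z1 : x 1 = 0 := tau_small (by norm_num) t
    rw [z0, z1, mul_zero, mul_zero, zero_add, zero_add, zero_add]
    have h2 : 0 ≤ tau m 2 t := hx0 2 (by omega)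
    have hb : 0 ≤ bb m (2 + 1) t := bb_nonneg m (2 + 1) ht0.le ht1'
    have hP : PB m 2 t ≤ 1 := PB_le_one m 2 ht0.le ht1'
    have hk : 0 ≤ (1 - κ) * ((((2 : ℕ) : ℝ) + 1) * bb m (2 + 1) t) := by
      refine mul_nonneg (by linarith) (mul_nonneg (by positivity) hb)
    have hw : -2 ≤ (1 - κ) * ((((2 : ℕ) : ℝ) + 1) * bb m (2 + 1) t) - 2 * PB m 2 t := by
      linarith
    have := mul_le_mul_of_nonneg_right hw h2
    show _ ≤ ((1 - κ) * ((((2 : ℕ) : ℝ) + 1) * bb m (2 + 1) t) - 2 * PB m 2 t) * tau m 2 t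
    linarith
  have hlow : ((m : ℝ) + 1) * (-(2 * tau m 2 t) - C1 * e) ≤
      (1 - κ) * (2 * D) - 2 * Dn (m + 1) t := by
    rw [hcomb, hsplit]
    refine mul_le_mul_of_nonneg_left ?_ hm1.le
    linarith
  have hne : ((m : ℝ) + 1) * e ≤ 15 * (θ * (C2 * D) +
      C3 * (((m : ℝ) + 1) * ell (m + 1) (θ / 2) t)) := by
    rw [he, Finset.mul_sum]
    have h1 : ∑ i ∈ Finset.Ico (3 : ℕ) 18, ((m : ℝ) + 1) * (θ * tau m i t + Bf m i θ t) ≤
        ∑ _i ∈ Finset.Ico (3 : ℕ) 18, (θ * (C2 * D) +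
          C3 * (((m : ℝ) + 1) * ell (m + 1) (θ / 2) t)) := by
      refine Finset.sum_le_sum fun i hi => ?_
      have hi' := Finset.mem_Ico.1 hi
      have h2 := hT m (by omega) t ht1 ht2 i (by omega)
      have h4 := hB m (by omega) θ hθ t ht1 ht2 i (by omega)
      have h5 := mul_le_mul_of_nonneg_left h2 hθ.le
      have h6 := mul_le_mul_of_nonneg_left h4 hm1.le
      calc ((m : ℝ) + 1) * (θ * tau m i t + Bf m i θ t)
          = θ * (((m : ℝ) + 1) * tau m i t) + ((m : ℝ) + 1) * Bf m i θ t := by ring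
        _ ≤ θ * (C2 * (t * dq (m + 1) t)) +
            ((m : ℝ) + 1) * (C3 * ell (m + 1) (θ / 2) t) := add_le_add h5 h6
        _ = _ := by rw [hD]; ring
    refine h1.trans (le_of_eq ?_)
    rw [Finset.sum_const, Nat.card_Ico, nsmul_eq_mul]
    norm_num
  have hL0 : 0 ≤ ((m : ℝ) + 1) * ell (m + 1) (θ / 2) t := mul_nonneg hm1.le hell0
  have hθD : 0 ≤ θ * D := mul_nonneg hθ.le hD0
  have hC1e : C1 * (((m : ℝ) + 1) * e) ≤ C1 * (15 * (θ * (C2 * D) +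
      C3 * (((m : ℝ) + 1) * ell (m + 1) (θ / 2) t))) := mul_le_mul_of_nonneg_left hne hC1.le
  have g1 : 0 ≤ C1 * C2 * (θ * D) := mul_nonneg (by positivity) hθD
  have g2 : 0 ≤ C1 * C3 * (θ * D) := mul_nonneg (by positivity) hθD
  have g3 : 0 ≤ C1 * C2 * (((m : ℝ) + 1) * ell (m + 1) (θ / 2) t) := mul_nonneg (by positivity) hL0
  have g4 : 0 ≤ C1 * C3 * (((m : ℝ) + 1) * ell (m + 1) (θ / 2) t) := mul_nonneg (by positivity) hL0
  have E1 : C1 * (15 * (θ * (C2 * D) + C3 * (((m : ℝ) + 1) * ell (m + 1) (θ / 2) t))) =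
      15 * (C1 * C2 * (θ * D)) + 15 * (C1 * C3 * (((m : ℝ) + 1) * ell (m + 1) (θ / 2) t)) := by ring
  have E2 : C1 * 15 * (C2 + C3) * θ * D = 15 * (C1 * C2 * (θ * D)) + 15 * (C1 * C3 * (θ * D)) := by
    ring
  have E3 : C1 * 15 * (C2 + C3) * (((m : ℝ) + 1) * ell (m + 1) (θ / 2) t) =
      15 * (C1 * C2 * (((m : ℝ) + 1) * ell (m + 1) (θ / 2) t)) +
      15 * (C1 * C3 * (((m : ℝ) + 1) * ell (m + 1) (θ / 2) t)) := by ring
  have E4 : ((m : ℝ) + 1) * (-(2 * tau m 2 t) - C1 * e) =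
      -(2 * (((m : ℝ) + 1) * tau m 2 t)) - C1 * (((m : ℝ) + 1) * e) := by ring
  have E5 : (1 - κ) * (2 * D) = 2 * ((1 - κ) * D) := by ring
  rw [E4, E5] at hlow
  rw [E1] at hC1e
  rw [E2, E3]
  linarith

end Pool.Agent.LC3
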