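import Pool.Agent.LC3.MinDeg

/-!
# LC3.QSmall : `G(m,t)` is 3-colourable with probability `1 - O(n^{-2})` for `t ≤ 0.1/n`, `m ≤ n`

By `exists_dense_of_not_col`, `prob_exists_dense` (with `r = ⌈3s/2⌉ = (3*s+1)/2`) and `dense_bound`
(`2r ≥ 3s`, `s^2/(2r) ≤ s/3`), and `m ≤ n` (use `C(m,s) ≤ C(n,s)`):
`q m t ≤ ∑_{s=4}^{m} (e n/s)^s (e s t/3)^r`, with `e s t/3 ≤ e s/(30 n) ≤ 0.1 < 1`, so we may replace the
exponent `r` by `3s/2`: the term is `≤ [e (n/s) (e s/(30 n))^{3/2}]^s = [e (e/30)^{3/2} (s/n)^{1/2}]^s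
≤ [0.08 (s/n)^{1/2}]^s`. To avoid half-integers square: `term^2 ≤ [0.0064 s/n]^s`.
For `s = 4, 5, 6, 7`: `≤ [0.08 (7/n)^{1/2}]^4 ≤ C n^{-2}` each. For `s ≥ 8`:
`[0.08 (s/n)^{1/2}]^s ≤ 0.08^{s-4} (s/n)^2 * 0.08^4 ≤ s^2 0.08^s n^{-2}` (as `s ≤ n`); this bound holds for
all `s ≥ 4`: `[0.08 (s/n)^{1/2}]^s ≤ 0.08^s (s/n)^2`. Sum over `s`: `≤ C n^{-2}` since
`∑ s^2 0.08^s < ∞`.
-/

set_option autoImplicit false

open Classical

namespace Pool.Agent.LC3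

theorem q_small_term {n s r : ℕ} (hn : 1 ≤ n) (hs : 4 ≤ s) (hsn : s ≤ n) (hr : 3 * s ≤ 2 * r) {t : ℝ} (h0 : 0 ≤ t)
    (ht : (n : ℝ) * t ≤ 1 / 10) :
    (Real.exp 1 * n / s) ^ s * (Real.exp 1 * (s : ℝ) ^ 2 * t / (2 * r)) ^ r ≤
      (8 / 25 : ℝ) ^ s * (1 / (n : ℝ) ^ 2) := by
  have hn' : (1 : ℝ) ≤ n := by exact_mod_cast hn
  have hnpos : (0 : ℝ) < n := by linarith
  have hs' : (4 : ℝ) ≤ s := by exact_mod_cast hs
  have hspos : (0 : ℝ) < s := by linarith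
  have hsn' : (s : ℝ) ≤ n := by exact_mod_cast hsn
  have hr' : 3 * (s : ℝ) ≤ 2 * r := by exact_mod_cast hr
  have hrpos : (0 : ℝ) < 2 * r := by linarith
  have hE : Real.exp 1 ≤ 2.72 := by
    have := Real.exp_one_lt_d9
    linarith
  have hE0 : 0 < Real.exp 1 := Real.exp_pos 1
  set E := Real.exp 1 with hEdef
  have hy0 : 0 ≤ E * s / (30 * n) := by positivity
  have hy1 : E * s / (30 * n) ≤ 1 := by
    rw [div_le_one (by positivity)]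
    nlinarith
  have hbase : E * (s : ℝ) ^ 2 * t / (2 * r) ≤ E * s / (30 * n) := by
    rw [div_le_div_iff₀ hrpos (by positivity)]
    have h1 : E * (s : ℝ) ^ 2 * t * (30 * n) = (30 * E * (s : ℝ) ^ 2) * (n * t) := by ring
    have h2 : (30 * E * (s : ℝ) ^ 2) * (n * t) ≤ (30 * E * (s : ℝ) ^ 2) * (1 / 10) :=
      mul_le_mul_of_nonneg_left ht (by positivity)
    have h3 : E * s * (3 * s) ≤ E * s * (2 * r) := mul_le_mul_of_nonneg_left hr' (by positivity)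
    nlinarith
  have hb0 : 0 ≤ E * (s : ℝ) ^ 2 * t / (2 * r) := by positivity
  have hb1 : (E * (s : ℝ) ^ 2 * t / (2 * r)) ^ r ≤ (E * s / (30 * n)) ^ r := pow_le_pow_left₀ hb0 hbase r
  have hA0 : 0 ≤ (E * n / s) ^ s := by positivity
  have hZ : (E * n / s) ^ s * (E * (s : ℝ) ^ 2 * t / (2 * r)) ^ r ≤ (E * n / s) ^ s * (E * s / (30 * n)) ^ r :=
    mul_le_mul_of_nonneg_left hb1 hA0
  refine hZ.trans ?_
  have hx0 : 0 ≤ (s : ℝ) / n := by positivity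
  have hx1 : (s : ℝ) / n ≤ 1 := by rw [div_le_one hnpos]; exact hsn'
  have hsq : ((E * n / s) ^ s * (E * s / (30 * n)) ^ r) ^ 2 ≤ ((2 / 25 : ℝ) ^ s * ((s : ℝ) / n) ^ 2) ^ 2 := by
    have e1 : ((E * n / s) ^ s * (E * s / (30 * n)) ^ r) ^ 2
        = ((E * n / s) ^ 2) ^ s * (E * s / (30 * n)) ^ (2 * r) := by
      rw [mul_pow, ← pow_mul, ← pow_mul, ← pow_mul, mul_comm s 2, mul_comm r 2]
    have e2 : (E * s / (30 * n)) ^ (2 * r) ≤ (E * s / (30 * n)) ^ (3 * s) :=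
      pow_le_pow_of_le_one hy0 hy1 hr
    have e3 : ((E * n / s) ^ 2) ^ s * (E * s / (30 * n)) ^ (3 * s)
        = (E ^ 5 * (s / n) / 27000) ^ s := by
      rw [pow_mul, ← mul_pow]
      congr 1
      field_simp
      norm_num
    have hE5 : E ^ 5 ≤ 172.8 := by
      calc E ^ 5 ≤ (2.72 : ℝ) ^ 5 := pow_le_pow_left₀ hE0.le hE 5
        _ ≤ 172.8 := by norm_num
    have e4 : (E ^ 5 * (s / n) / 27000 : ℝ) ^ s ≤ ((2 / 25 : ℝ) ^ 2 * (s / n)) ^ s := by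
      apply pow_le_pow_left₀ (by positivity)
      rw [div_le_iff₀ (by norm_num)]
      have := mul_le_mul_of_nonneg_right hE5 hx0
      nlinarith
    have e5 : ((2 / 25 : ℝ) ^ 2 * (s / n)) ^ s = ((2 / 25 : ℝ) ^ s) ^ 2 * ((s : ℝ) / n) ^ s := by
      rw [mul_pow, ← pow_mul, ← pow_mul, mul_comm 2 s]
    have e6 : ((s : ℝ) / n) ^ s ≤ ((s : ℝ) / n) ^ 4 := pow_le_pow_of_le_one hx0 hx1 hs
    calc ((E * n / s) ^ s * (E * s / (30 * n)) ^ r) ^ 2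
        = ((E * n / s) ^ 2) ^ s * (E * s / (30 * n)) ^ (2 * r) := e1
      _ ≤ ((E * n / s) ^ 2) ^ s * (E * s / (30 * n)) ^ (3 * s) :=
          mul_le_mul_of_nonneg_left e2 (by positivity)
      _ = (E ^ 5 * (s / n) / 27000) ^ s := e3
      _ ≤ ((2 / 25 : ℝ) ^ 2 * (s / n)) ^ s := e4
      _ = ((2 / 25 : ℝ) ^ s) ^ 2 * ((s : ℝ) / n) ^ s := e5
      _ ≤ ((2 / 25 : ℝ) ^ s) ^ 2 * ((s : ℝ) / n) ^ 4 := mul_le_mul_of_nonneg_left e6 (by positivity)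
      _ = ((2 / 25 : ℝ) ^ s * ((s : ℝ) / n) ^ 2) ^ 2 := by ring
  have hfin := (sq_le_sq₀ (by positivity) (by positivity)).mp hsq
  refine hfin.trans ?_
  have hs2 : (s : ℝ) ^ 2 ≤ 4 ^ s := by
    have h : (s : ℝ) ≤ 2 ^ s := by exact_mod_cast (Nat.lt_two_pow_self (n := s)).le
    calc (s : ℝ) ^ 2 ≤ ((2 : ℝ) ^ s) ^ 2 := pow_le_pow_left₀ hspos.le h 2
      _ = 4 ^ s := by rw [← pow_mul, mul_comm, pow_mul]; norm_num
  calc (2 / 25 : ℝ) ^ s * ((s : ℝ) / n) ^ 2 = (2 / 25 : ℝ) ^ s * (s : ℝ) ^ 2 * (1 / (n : ℝ) ^ 2) := by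
        rw [div_pow]; ring
    _ ≤ (2 / 25 : ℝ) ^ s * 4 ^ s * (1 / (n : ℝ) ^ 2) := by
        apply mul_le_mul_of_nonneg_right _ (by positivity)
        exact mul_le_mul_of_nonneg_left hs2 (by positivity)
    _ = (8 / 25 : ℝ) ^ s * (1 / (n : ℝ) ^ 2) := by
        rw [← mul_pow]; norm_num

theorem q_small : ∃ C : ℝ, 0 < C ∧ ∀ n : ℕ, 1 ≤ n → ∀ m : ℕ, m ≤ n → ∀ t : ℝ, 0 ≤ t → t ≤ al / n →
    q m t ≤ C / (n : ℝ) ^ 2 := by
  refine ⟨2, by norm_num, ?_⟩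
  intro n hn m hm t h0 ht
  have hn' : (1 : ℝ) ≤ n := by exact_mod_cast hn
  have hnpos : (0 : ℝ) < n := by linarith
  have hal : al = 1 / 10 := rfl
  have ht' : (n : ℝ) * t ≤ 1 / 10 := by
    rw [le_div_iff₀ hnpos, hal] at ht
    linarith [mul_comm t (n : ℝ)]
  have h1 : t ≤ 1 := by nlinarith
  have step1 : q m t ≤ ex t (EN m) (fun A => ind (∃ s ∈ Finset.Icc 4 m,
      ∃ S ⊆ Finset.range m, S.card = s ∧ (3 * s + 1) / 2 ≤ eIn A S)) := by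
    unfold q
    apply ex_mono h0 h1
    intro A hA
    apply ind_mono
    intro hc
    obtain ⟨S, hS, h4, h3⟩ := exists_dense_of_not_col hA hc
    refine ⟨S.card, ?_, S, hS, rfl, by omega⟩
    rw [Finset.mem_Icc]
    refine ⟨h4, ?_⟩
    have := Finset.card_le_card hS
    simpa using this
  have step2 := ex_exists_le h0 h1 (EN m) (Finset.Icc 4 m)
    (fun s A => ∃ S ⊆ Finset.range m, S.card = s ∧ (3 * s + 1) / 2 ≤ eIn A S)
  have term : ∀ s ∈ Finset.Icc 4 m, ex t (EN m) (fun A => ind (∃ S ⊆ Finset.range m, S.card = s ∧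
      (3 * s + 1) / 2 ≤ eIn A S)) ≤ (8 / 25 : ℝ) ^ s * (1 / (n : ℝ) ^ 2) := by
    intro s hs
    rw [Finset.mem_Icc] at hs
    have p1 := prob_exists_dense (n := m) h0 h1 s ((3 * s + 1) / 2)
    have p2 : (m.choose s : ℝ) * (((s.choose 2).choose ((3 * s + 1) / 2) : ℝ) * t ^ ((3 * s + 1) / 2)) ≤
        (n.choose s : ℝ) * (((s.choose 2).choose ((3 * s + 1) / 2) : ℝ) * t ^ ((3 * s + 1) / 2)) := by
      apply mul_le_mul_of_nonneg_right _ (by positivity)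
      exact_mod_cast Nat.choose_le_choose s hm
    have p3 := dense_bound (n := n) (s := s) (r := (3 * s + 1) / 2) hn (by omega) (by omega) h0
    have p4 := q_small_term (n := n) (s := s) (r := (3 * s + 1) / 2) hn hs.1 (hs.2.trans hm) (by omega) h0 ht'
    exact ((p1.trans p2).trans p3).trans p4
  have hsum : ∑ s ∈ Finset.Icc 4 m, (8 / 25 : ℝ) ^ s ≤ 2 := by
    calc ∑ s ∈ Finset.Icc 4 m, (8 / 25 : ℝ) ^ s ≤ ∑' s : ℕ, (8 / 25 : ℝ) ^ s :=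
          (summable_geometric_of_lt_one (by norm_num) (by norm_num)).sum_le_tsum _ (fun _ _ => by positivity)
      _ = (1 - 8 / 25)⁻¹ := tsum_geometric_of_lt_one (by norm_num) (by norm_num)
      _ ≤ 2 := by norm_num
  calc q m t ≤ _ := step1
    _ ≤ _ := step2
    _ ≤ ∑ s ∈ Finset.Icc 4 m, (8 / 25 : ℝ) ^ s * (1 / (n : ℝ) ^ 2) := Finset.sum_le_sum term
    _ = (∑ s ∈ Finset.Icc 4 m, (8 / 25 : ℝ) ^ s) * (1 / (n : ℝ) ^ 2) := by rw [Finset.sum_mul]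
    _ ≤ 2 * (1 / (n : ℝ) ^ 2) := mul_le_mul_of_nonneg_right hsum (by positivity)
    _ = 2 / (n : ℝ) ^ 2 := by ring

end Pool.Agent.LC3
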