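import Pool.Agent.LC3.QDeriv
import Pool.Agent.LC3.QSmall
import Pool.Agent.LC3.ColSmall
import Pool.Agent.LC3.BBounds

/-!
# LC3.MA5 : the derivative of `q m` is concentrated on the window

Here `m ∈ {n-2, n-1, n}`, `n` large.
* `q_left`: `q_small`.
* `q_right`: `be/n ≥ c0/m` since `be (n-2) ≥ c0 n` for `n ≥ 1008` (`be = 5.04`, `c0 = 5.03`), and
  `1 - q m t = ex t (EN m) (ind (Col A)) ≤ exp(-δ m) ≤ exp(-δ(n-2))` (`one_sub_q`, `col_small`), for all
  `be/n ≤ t ≤ 1`.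
* `int_dq_le`, `int_dq_ge`: `integral_dq`, `q_le_one`, `q_nonneg`.
-/

set_option autoImplicit false

open Classical

namespace Pool.Agent.LC3

theorem q_left (ε : ℝ) (hε : 0 < ε) : ∃ N : ℕ, ∀ n : ℕ, N ≤ n → ∀ m : ℕ, m ≤ n →
    q m (al / n) ≤ ε := by
  obtain ⟨C, hC, h⟩ := q_small
  obtain ⟨N, hN⟩ := exists_nat_ge (C / ε)
  refine ⟨N + 1, fun n hn m hm => ?_⟩
  have hn1 : 1 ≤ n := by omega
  have hn1' : (1 : ℝ) ≤ n := by exact_mod_cast hn1
  have hn0 : (0 : ℝ) < n := by linarith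
  have hal : 0 ≤ al / n := div_nonneg al_pos.le hn0.le
  refine (h n hn1 m hm (al / n) hal le_rfl).trans ?_
  have h1 : C / ε ≤ n := hN.trans (by exact_mod_cast (by omega : N ≤ n))
  rw [div_le_iff₀ (by positivity)]
  rw [div_le_iff₀ hε] at h1
  have h2 : (n : ℝ) * ε ≤ ε * (n : ℝ) ^ 2 := by
    have : (n : ℝ) ≤ (n : ℝ) ^ 2 := by nlinarith
    nlinarith
  linarith

theorem q_right : ∃ δ : ℝ, 0 < δ ∧ ∃ N : ℕ, ∀ n : ℕ, N ≤ n → ∀ m : ℕ, n ≤ m + 2 → m ≤ n →
    ∀ t : ℝ, be / n ≤ t → t ≤ 1 → 1 - Real.exp (-(δ * n)) ≤ q m t := by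
  obtain ⟨δ, hδ, N, h⟩ := col_small
  refine ⟨δ / 2, by positivity, N + 1008, fun n hn m hnm hmn t ht0 ht1 => ?_⟩
  have hn' : (1008 : ℝ) ≤ n := by exact_mod_cast (by omega : 1008 ≤ n)
  have hnm' : (n : ℝ) ≤ m + 2 := by exact_mod_cast hnm
  have hm0 : (0 : ℝ) < m := by linarith
  have hn0 : (0 : ℝ) < n := by linarith
  have hc : c0 / m ≤ t := by
    refine le_trans ?_ ht0
    rw [div_le_div_iff₀ hm0 hn0]
    unfold c0 be
    nlinarith
  have h1 := h m (by omega) t hc ht1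
  rw [one_sub_q] at h1
  have h2 : Real.exp (-(δ * m)) ≤ Real.exp (-(δ / 2 * n)) := by
    apply Real.exp_le_exp.2
    nlinarith
  linarith

theorem int_dq_ge (ε : ℝ) (hε : 0 < ε) : ∃ N : ℕ, ∀ n : ℕ, N ≤ n → ∀ m : ℕ, n ≤ m + 2 → m ≤ n →
    1 - ε ≤ ∫ t in (al / n)..(be / n), dq m t := by
  obtain ⟨N1, h1⟩ := q_left (ε / 2) (by positivity)
  obtain ⟨δ, hδ, N2, h2⟩ := q_right
  obtain ⟨N3, h3⟩ := exists_nat_ge (2 / (δ * ε))
  refine ⟨N1 + N2 + N3 + 6, fun n hn m hnm hmn => ?_⟩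
  rw [integral_dq]
  have hn' : (6 : ℝ) ≤ n := by exact_mod_cast (by omega : 6 ≤ n)
  have hn0 : (0 : ℝ) < n := by linarith
  have h4 := h1 n (by omega) m hmn
  have hbe : be / n ≤ 1 := by
    rw [div_le_one hn0]
    unfold be
    linarith
  have h5 := h2 n (by omega) m hnm hmn (be / n) le_rfl hbe
  have h6 : 2 / (δ * ε) ≤ n := h3.trans (by exact_mod_cast (by omega : N3 ≤ n))
  rw [div_le_iff₀ (by positivity)] at h6
  have h7 : Real.exp (-(δ * n)) ≤ ε / 2 := by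
    have h8 : δ * n ≤ Real.exp (δ * n) := by
      have := Real.add_one_le_exp (δ * n)
      linarith
    have h9 : Real.exp (-(δ * n)) * Real.exp (δ * n) = 1 := by
      rw [← Real.exp_add]
      simp
    have h10 : 0 < Real.exp (-(δ * n)) := Real.exp_pos _
    have h11 : Real.exp (-(δ * n)) * (δ * n) ≤ 1 := by
      rw [← h9]
      exact mul_le_mul_of_nonneg_left h8 h10.le
    have h12 : 0 < δ * n := by positivity
    by_contra h13
    push Not at h13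
    have h14 : ε / 2 * (δ * n) < Real.exp (-(δ * n)) * (δ * n) :=
      mul_lt_mul_of_pos_right h13 h12
    nlinarith
  linarith

theorem int_dq_le {n : ℕ} (hn : 6 ≤ n) (m : ℕ) : ∫ t in (al / n)..(be / n), dq m t ≤ 1 := by
  rw [integral_dq]
  have hn' : (6 : ℝ) ≤ n := by exact_mod_cast hn
  have hn0 : (0 : ℝ) < n := by linarith
  have hbe : be / n ≤ 1 := by
    rw [div_le_one hn0]
    unfold be
    linarith
  have hbe0 : 0 ≤ be / n := div_nonneg (by unfold be; norm_num) hn0.le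
  have hal0 : 0 ≤ al / n := div_nonneg al_pos.le hn0.le
  have hal : al / n ≤ 1 := by
    rw [div_le_one hn0]
    unfold al
    linarith
  have h1 := q_le_one (n := m) hbe0 hbe
  have h2 := q_nonneg (n := m) hal0 hal
  linarith

end Pool.Agent.LC3
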