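import Pool.Agent.LC3.Split
import Pool.Agent.LC3.NetBasic

/-!
# LC3.PPle : the expected number of equivalent pairs

For colourable `A ⊆ EN m` the pairs `(x,y)`, `x ≠ y`, `x,y < m`, with `Eqv A x y` are, by `eqv_iff`, the
pairs with `¬ Col (insert s(x,y) A)`; then `s(x,y) ∉ A`. So
`m^2 * pp m A = m + 2 * #{e ∈ EN m \ A : ¬ Col (insert e A)}`. By `ex_sum_not_mem`,
`ex t (EN m) (ind (Col A) * #{e ∈ EN m \ A : ¬ Col (insert e A)}) = (1-t) * dq m t ≤ dq m t`.
-/

set_option autoImplicit false

open Classical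

namespace Pool.Agent.LC3

private theorem ppl_card {m : ℕ} {A : Finset (Sym2 ℕ)} (hc : Col A) :
    (((Finset.range m) ×ˢ (Finset.range m)).filter (fun p => Eqv A p.1 p.2)).card ≤
      m + 2 * ((EN m \ A).filter (fun e => ¬ Col (insert e A))).card := by
  set P := ((Finset.range m) ×ˢ (Finset.range m)).filter (fun p => Eqv A p.1 p.2) with hP
  have h1 : P.card = (P.filter (fun p => p.1 = p.2)).card +
      (P.filter (fun p => ¬ p.1 = p.2)).card :=
    (Finset.card_filter_add_card_filter_not (s := P) (fun p => p.1 = p.2)).symm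
  have h2 : (P.filter (fun p => p.1 = p.2)).card ≤ m := by
    have h3 : P.filter (fun p => p.1 = p.2) ⊆ (Finset.range m).image (fun x => (x, x)) := by
      intro p hp
      rw [Finset.mem_filter, hP, Finset.mem_filter, Finset.mem_product] at hp
      rw [Finset.mem_image]
      exact ⟨p.1, hp.1.1.1, Prod.ext rfl hp.2⟩
    calc (P.filter (fun p => p.1 = p.2)).card ≤ ((Finset.range m).image (fun x => (x, x))).card :=
          Finset.card_le_card h3
      _ ≤ (Finset.range m).card := Finset.card_image_le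
      _ = m := Finset.card_range m
  have h3 : (P.filter (fun p => ¬ p.1 = p.2)).card ≤
      2 * ((EN m \ A).filter (fun e => ¬ Col (insert e A))).card := by
    refine Finset.card_le_mul_card_image_of_maps_to (f := fun p : ℕ × ℕ => s(p.1, p.2)) ?_ 2 ?_
    · intro p hp
      rw [Finset.mem_filter, hP, Finset.mem_filter, Finset.mem_product, Finset.mem_range,
        Finset.mem_range] at hp
      rw [Finset.mem_filter, Finset.mem_sdiff, mem_EN]
      refine ⟨⟨⟨hp.1.1.1, hp.1.1.2, hp.2⟩, ?_⟩, eqv_iff.1 hp.1.2⟩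
      intro h4
      exact not_dif_of_eqv hc hp.1.2 (dif_of_mem h4)
    · intro e _
      induction e using Sym2.ind with
      | _ a b =>
        have h4 : (P.filter (fun p => ¬ p.1 = p.2)).filter (fun p => s(p.1, p.2) = s(a, b)) ⊆
            {(a, b), (b, a)} := by
          intro p hp
          have h5 := (Finset.mem_filter.1 hp).2
          rw [Sym2.eq_iff] at h5
          rw [Finset.mem_insert, Finset.mem_singleton]
          rcases h5 with ⟨h5, h6⟩ | ⟨h5, h6⟩
          · exact Or.inl (Prod.ext h5 h6)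
          · exact Or.inr (Prod.ext h5 h6)
        exact (Finset.card_le_card h4).trans Finset.card_le_two
  omega

private theorem ppl_point {m : ℕ} (hm : 1 ≤ m) (A : Finset (Sym2 ℕ)) :
    ind (Col A) * pp m A ≤ 1 / (m : ℝ) + 2 / (m : ℝ) ^ 2 *
      ∑ e ∈ EN m \ A, ind (Col A ∧ ¬ Col (insert e A)) := by
  have hm0 : (0 : ℝ) < (m : ℝ) := by exact_mod_cast hm
  by_cases hc : Col A
  · rw [ind_of hc, one_mul]
    have h1 : ∑ e ∈ EN m \ A, ind (Col A ∧ ¬ Col (insert e A)) =
        (((EN m \ A).filter (fun e => ¬ Col (insert e A))).card : ℝ) := by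
      rw [Finset.card_filter, Nat.cast_sum]
      refine Finset.sum_congr rfl fun e _ => ?_
      by_cases h : Col (insert e A)
      · rw [ind_of_not (fun h' => h'.2 h), if_neg (not_not.2 h), Nat.cast_zero]
      · rw [ind_of ⟨hc, h⟩, if_pos h, Nat.cast_one]
    rw [h1]
    unfold pp
    have h2 : ((((Finset.range m) ×ˢ (Finset.range m)).filter
        (fun p => Eqv A p.1 p.2)).card : ℝ) ≤
        (m : ℝ) + 2 * (((EN m \ A).filter (fun e => ¬ Col (insert e A))).card : ℝ) := by
      exact_mod_cast ppl_card hc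
    rw [div_le_iff₀ (by positivity)]
    refine h2.trans (le_of_eq ?_)
    field_simp
  · rw [ind_of_not hc, zero_mul]
    refine add_nonneg (by positivity) (mul_nonneg (by positivity) ?_)
    exact Finset.sum_nonneg fun e _ => ind_nonneg _

theorem pp_le {m : ℕ} (hm : 1 ≤ m) {t : ℝ} (h0 : 0 ≤ t) (h1 : t ≤ 1) :
    ex t (EN m) (fun A => ind (Col A) * pp m A) ≤ 1 / (m : ℝ) + 2 / (m : ℝ) ^ 2 * dq m t := by
  have hdq : 0 ≤ dq m t := by
    unfold dq
    refine Finset.sum_nonneg fun e _ => ex_nonneg h0 h1 fun A _ => ind_nonneg _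
  have h2 : ex t (EN m) (fun A => ind (Col A) * pp m A) ≤
      ex t (EN m) (fun A => 1 / (m : ℝ) + 2 / (m : ℝ) ^ 2 *
        ∑ e ∈ EN m \ A, ind (Col A ∧ ¬ Col (insert e A))) :=
    ex_mono h0 h1 fun A _ => ppl_point hm A
  refine h2.trans ?_
  rw [ex_add, ex_const, ex_mul_left,
    ex_sum_not_mem t (EN m) (fun e A => ind (Col A ∧ ¬ Col (insert e A)))]
  have h3 : (1 - t) * ∑ e ∈ EN m, ex t ((EN m).erase e)
      (fun A => ind (Col A ∧ ¬ Col (insert e A))) ≤ dq m t := by
    change (1 - t) * dq m t ≤ dq m t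
    nlinarith
  have h4 : (0 : ℝ) ≤ 2 / (m : ℝ) ^ 2 := by positivity
  have h5 := mul_le_mul_of_nonneg_left h3 h4
  linarith

end Pool.Agent.LC3
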