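import Pool.Agent.LC3.ExA
import Pool.Agent.LC3.NetBasic

/-!
# LC3.SizeId : identities for a fixed graph, grouping the random set by its size

Let `c_i` be the number of `i`-subsets of `range m` which are nets, `nu m i A = c_i / C(m,i)`.

* `nu_mono`: double counting: every net of size `i` has `m - i` supersets of size `i+1`, all nets
  (`Net.mono_right`), and every set of size `i+1` contains `i+1` sets of size `i`; so
  `(m-i) c_i ≤ (i+1) c_{i+1}`, and `(i+1) C(m,i+1) = (m-i) C(m,i)`
  (the local LYM inequality; cf. `Finset.local_lubell_yamamoto_meshalkin_inequality_div`).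
* `hh_eq`: `hh m t A = ∑_{j ≤ m} bb m j t * nu m j A` (`ex_by_card`), and
  `nu m j A = ∑_{i < j} tt m i A` (as `nu m 0 A = 0` for colourable `A`); exchange the sums.
* `piv_eq`: the number of pairs `(W,w)` with `|W| = i`, `w ∈ W`, `W` a net, `W \ w` not a net is
  `i c_i - (m-i+1) c_{i-1}` (if `W \ w` is a net, so is `W`); with `i C(m,i) = (m-i+1) C(m,i-1)` this
  is `i C(m,i) (nu_i - nu_{i-1})`. Multiply by `t^i (1-t)^(m-i)` and sum over `i ≥ 1`; put `i = j+1`.
-/

set_option autoImplicit false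

open Classical

namespace Pool.Agent.LC3

/-- the number of nets with `i` elements -/
private noncomputable def szC (m i : ℕ) (A : Finset (Sym2 ℕ)) : ℝ :=
  ((((Finset.range m).powersetCard i).filter (fun W => Net A W)).card : ℝ)

private theorem szC_eq_sum (m i : ℕ) (A : Finset (Sym2 ℕ)) :
    szC m i A = ∑ W ∈ (Finset.range m).powersetCard i, ind (Net A W) := by
  unfold szC ind
  rw [Finset.card_filter]
  push_cast
  rfl

private theorem szC_le (m i : ℕ) (A : Finset (Sym2 ℕ)) : szC m i A ≤ (m.choose i : ℝ) := by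
  unfold szC
  have h := Finset.card_filter_le ((Finset.range m).powersetCard i) (fun W => Net A W)
  rw [Finset.card_powersetCard, Finset.card_range] at h
  exact_mod_cast h

private theorem szC_nonneg (m i : ℕ) (A : Finset (Sym2 ℕ)) : 0 ≤ szC m i A := Nat.cast_nonneg _

private theorem sz_nu (m i : ℕ) (A : Finset (Sym2 ℕ)) : nu m i A = szC m i A / (m.choose i : ℝ) := rfl

private theorem sz_mul {m i : ℕ} (hi : i ≤ m) (A : Finset (Sym2 ℕ)) :
    szC m i A = (m.choose i : ℝ) * nu m i A := by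
  have h : (m.choose i : ℝ) ≠ 0 := by exact_mod_cast (Nat.choose_pos hi).ne'
  rw [sz_nu]
  field_simp

/-- double counting -/
private theorem sz_double (R : Finset ℕ) (i : ℕ) (f : Finset ℕ → ℕ → ℝ) :
    ∑ W ∈ R.powersetCard (i + 1), ∑ w ∈ W, f (W.erase w) w =
      ∑ W ∈ R.powersetCard i, ∑ w ∈ R \ W, f W w := by
  rw [Finset.sum_sigma', Finset.sum_sigma']
  refine Finset.sum_bij' (fun p _ => ⟨p.1.erase p.2, p.2⟩) (fun p _ => ⟨insert p.2 p.1, p.2⟩) ?_ ?_ ?_ ?_ ?_
  · rintro ⟨W, w⟩ h
    simp only [Finset.mem_sigma, Finset.mem_powersetCard, Finset.mem_sdiff] at h ⊢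
    obtain ⟨⟨h1, h2⟩, h3⟩ := h
    refine ⟨⟨(Finset.erase_subset _ _).trans h1, ?_⟩, h1 h3, Finset.notMem_erase _ _⟩
    rw [Finset.card_erase_of_mem h3, h2]
    rfl
  · rintro ⟨W, w⟩ h
    simp only [Finset.mem_sigma, Finset.mem_powersetCard, Finset.mem_sdiff] at h ⊢
    obtain ⟨⟨h1, h2⟩, h3, h4⟩ := h
    refine ⟨⟨Finset.insert_subset h3 h1, ?_⟩, Finset.mem_insert_self _ _⟩
    rw [Finset.card_insert_of_notMem h4, h2]
  · rintro ⟨W, w⟩ h
    simp only [Finset.mem_sigma, Finset.mem_powersetCard] at h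
    simp only [Finset.insert_erase h.2]
  · rintro ⟨W, w⟩ h
    simp only [Finset.mem_sigma, Finset.mem_powersetCard, Finset.mem_sdiff] at h
    simp only [Finset.erase_insert h.2.2]
  · rintro ⟨W, w⟩ h
    rfl

/-- the number of pivotal pairs -/
private theorem sz_piv {m i : ℕ} (hi : i ≤ m) (A : Finset (Sym2 ℕ)) :
    ∑ W ∈ (Finset.range m).powersetCard (i + 1),
      ind (Net A W) * ((W.filter (fun w => ¬ Net A (W.erase w))).card : ℝ) =
      ((i : ℝ) + 1) * szC m (i + 1) A - ((m : ℝ) - i) * szC m i A := by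
  have h1 := sz_double (Finset.range m) i (fun W _ => ind (Net A W))
  have h2 : ∑ W ∈ (Finset.range m).powersetCard i, ∑ w ∈ Finset.range m \ W, ind (Net A W) =
      ((m : ℝ) - i) * szC m i A := by
    rw [szC_eq_sum, Finset.mul_sum]
    refine Finset.sum_congr rfl fun W hW => ?_
    rw [Finset.mem_powersetCard] at hW
    rw [Finset.sum_const, nsmul_eq_mul, Finset.card_sdiff_of_subset hW.1, Finset.card_range, hW.2,
      Nat.cast_sub hi]
  have h3 : ∀ W ∈ (Finset.range m).powersetCard (i + 1), ∑ w ∈ W, ind (Net A (W.erase w)) =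
      ((i : ℝ) + 1) * ind (Net A W) -
        ind (Net A W) * ((W.filter (fun w => ¬ Net A (W.erase w))).card : ℝ) := by
    intro W hW
    rw [Finset.mem_powersetCard] at hW
    by_cases hN : Net A W
    · rw [ind_of hN, mul_one, one_mul]
      have h4 : ∑ w ∈ W, ind (Net A (W.erase w)) = ((W.filter (fun w => Net A (W.erase w))).card : ℝ) := by
        unfold ind
        rw [Finset.card_filter]
        push_cast
        rfl
      have h5 := Finset.card_filter_add_card_filter_not (s := W) (fun w => Net A (W.erase w))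
      rw [hW.2] at h5
      rw [h4]
      have h6 : ((W.filter (fun w => Net A (W.erase w))).card : ℝ) +
          ((W.filter (fun w => ¬ Net A (W.erase w))).card : ℝ) = (i : ℝ) + 1 := by exact_mod_cast h5
      linarith
    · rw [ind_of_not hN, mul_zero, zero_mul, sub_zero]
      refine Finset.sum_eq_zero fun w _ => ?_
      rw [ind_of_not]
      exact fun h => hN (h.mono_right (Finset.erase_subset _ _))
  rw [Finset.sum_congr rfl h3, h2, Finset.sum_sub_distrib, ← Finset.mul_sum, ← szC_eq_sum] at h1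
  linarith

private theorem sz_choose {m i : ℕ} (hi : i ≤ m) :
    ((i : ℝ) + 1) * (m.choose (i + 1) : ℝ) = ((m : ℝ) - i) * (m.choose i : ℝ) := by
  have h := Nat.choose_succ_right_eq m i
  have h2 : ((m.choose (i + 1) : ℕ) : ℝ) * ((i + 1 : ℕ) : ℝ) = (m.choose i : ℝ) * ((m - i : ℕ) : ℝ) := by
    exact_mod_cast h
  rw [Nat.cast_sub hi] at h2
  push_cast at h2
  linarith

private theorem sz_piv' {m i : ℕ} (hi : i + 1 ≤ m) (A : Finset (Sym2 ℕ)) :
    ∑ W ∈ (Finset.range m).powersetCard (i + 1),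
      ind (Net A W) * ((W.filter (fun w => ¬ Net A (W.erase w))).card : ℝ) =
      ((i : ℝ) + 1) * (m.choose (i + 1) : ℝ) * tt m i A := by
  rw [sz_piv (by omega) A, sz_mul hi, sz_mul (by omega : i ≤ m)]
  unfold tt
  have h := sz_choose (by omega : i ≤ m)
  linear_combination (nu m i A) * h

theorem nu_nonneg (m i : ℕ) (A : Finset (Sym2 ℕ)) : 0 ≤ nu m i A := by
  rw [sz_nu]
  exact div_nonneg (szC_nonneg m i A) (Nat.cast_nonneg _)

theorem nu_le_one (m i : ℕ) (A : Finset (Sym2 ℕ)) : nu m i A ≤ 1 := by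
  rw [sz_nu]
  exact div_le_one_of_le₀ (szC_le m i A) (Nat.cast_nonneg _)

private theorem sz_tt_nonneg {m i : ℕ} (h : i + 1 ≤ m) (A : Finset (Sym2 ℕ)) : 0 ≤ tt m i A := by
  have h1 := sz_piv' h A
  have h2 : 0 ≤ ∑ W ∈ (Finset.range m).powersetCard (i + 1),
      ind (Net A W) * ((W.filter (fun w => ¬ Net A (W.erase w))).card : ℝ) :=
    Finset.sum_nonneg fun W _ => mul_nonneg (ind_nonneg _) (Nat.cast_nonneg _)
  rw [h1] at h2
  have h3 : 0 < ((i : ℝ) + 1) * (m.choose (i + 1) : ℝ) := by
    have : 0 < m.choose (i + 1) := Nat.choose_pos h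
    positivity
  by_contra hc
  push Not at hc
  have := mul_neg_of_pos_of_neg h3 hc
  linarith

theorem nu_mono {m i j : ℕ} (hij : i ≤ j) (hj : j ≤ m) (A : Finset (Sym2 ℕ)) :
    nu m i A ≤ nu m j A := by
  induction j, hij using Nat.le_induction with
  | base => exact le_rfl
  | succ j hij ih =>
    have h1 := ih (by omega)
    have h2 := sz_tt_nonneg hj A
    unfold tt at h2
    linarith

theorem tt_nonneg {m i : ℕ} (h : i + 1 ≤ m) (A : Finset (Sym2 ℕ)) : 0 ≤ tt m i A :=
  sz_tt_nonneg h A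

theorem tt_le_one (m i : ℕ) (A : Finset (Sym2 ℕ)) : tt m i A ≤ 1 := by
  unfold tt
  have := nu_le_one m (i + 1) A
  have := nu_nonneg m i A
  linarith

theorem nu_small {m i : ℕ} (hi : i ≤ 2) {A : Finset (Sym2 ℕ)} (hA : Col A) : nu m i A = 0 := by
  rw [sz_nu, szC_eq_sum, Finset.sum_eq_zero, zero_div]
  intro W hW
  rw [Finset.mem_powersetCard] at hW
  exact ind_of_not (not_net_of_card hA (by rw [hW.2]; exact hi))

theorem nu_eq_sum {m j : ℕ} {A : Finset (Sym2 ℕ)} (hA : Col A) :
    nu m j A = ∑ i ∈ Finset.range j, tt m i A := by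
  unfold tt
  rw [Finset.sum_range_sub (fun i => nu m i A), nu_small (i := 0) (by norm_num) hA, sub_zero]

theorem hh_eq {m : ℕ} (t : ℝ) {A : Finset (Sym2 ℕ)} (hA : Col A) :
    hh m t A = ∑ i ∈ Finset.range m, PB m i t * tt m i A := by
  unfold hh
  rw [ex_by_card, Finset.card_range]
  have h1 : ∀ j ∈ Finset.range (m + 1), t ^ j * (1 - t) ^ (m - j) *
      ∑ W ∈ (Finset.range m).powersetCard j, ind (Net A W) =
      ∑ i ∈ Finset.range j, bb m j t * tt m i A := by
    intro j hj
    rw [Finset.mem_range] at hj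
    rw [← szC_eq_sum, sz_mul (by omega : j ≤ m), nu_eq_sum hA, ← Finset.mul_sum]
    unfold bb
    ring
  rw [Finset.sum_congr rfl h1, Finset.sum_comm' (s' := fun i => Finset.Ioc i m) (t' := Finset.range m)]
  · refine Finset.sum_congr rfl fun i _ => ?_
    unfold PB
    rw [Finset.sum_mul]
  · intro x y
    simp only [Finset.mem_range, Finset.mem_Ioc]
    omega

theorem piv_eq {m : ℕ} (t : ℝ) (A : Finset (Sym2 ℕ)) :
    ex t (Finset.range m) (fun W => ind (Net A W) *
        ((W.filter (fun w => ¬ Net A (W.erase w))).card : ℝ)) =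
      ∑ i ∈ Finset.range m, ((i : ℝ) + 1) * bb m (i + 1) t * tt m i A := by
  rw [ex_by_card, Finset.card_range, Finset.sum_range_succ', Finset.powersetCard_zero, Finset.sum_singleton,
    Finset.filter_empty, Finset.card_empty, Nat.cast_zero, mul_zero, mul_zero, add_zero]
  refine Finset.sum_congr rfl fun i hi => ?_
  rw [Finset.mem_range] at hi
  rw [sz_piv' (by omega) A]
  unfold bb
  ring

end Pool.Agent.LC3
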