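import Pool.Agent.LC3.RSc
import Pool.Agent.LC3.SizeId

/-!
# LC3.Tau2 : forced rainbow triples are negligible

Fix a colourable `A` and `m ≥ 7`. Apply `rs_abs (ε/4)` to `V = Fin m`, `r x y = Eqv A x y`,
`d x y = Dif A x y` (`Eqv.refl/symm/trans`, `not_dif_of_eqv`, `dif_congr`, `eqv_of_dif`). If all classes have
at most `θ m` elements then the number of ordered triples `(x,y,z)` of `range m` which are pairwise in
`Dif A` is at most `(ε/4) m * m^2 * pp m A`. By `three_net` such triples (they have distinct entries) are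
exactly the orderings of the 3-subsets which are nets, so `6 * #(3-nets) ≤ (ε/4) m^3 pp m A` and
`nu m 3 A = #(3-nets)/C(m,3) ≤ (ε/4) m^3/(m(m-1)(m-2)) pp m A ≤ ε * pp m A`
(`m^2 ≤ 4 (m-1)(m-2)` for `m ≥ 4`). `tt m 2 A = nu m 3 A - nu m 2 A = nu m 3 A` (`nu_small`).
Otherwise some class has more than `θ m` elements, i.e. `Big m θ A`, and `tt m 2 A ≤ 1`.
So `ind (Col A) * tt m 2 A ≤ ε * ind (Col A) * pp m A + ind (Col A ∧ Big m θ A)`; take expectations.
-/

set_option autoImplicit false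

open Classical

namespace Pool.Agent.LC3

private theorem tau2_dif_symm {A : Finset (Sym2 ℕ)} {x y : ℕ} (h : Dif A x y) : Dif A y x :=
  fun σ hσ => (h σ hσ).symm

private theorem tau2_ne {A : Finset (Sym2 ℕ)} (hA : Col A) {x y : ℕ} (h : Dif A x y) : x ≠ y := by
  rintro rfl
  exact not_dif_of_eqv hA (Eqv.refl A x) h

private theorem tau2_set (x y z : ℕ) :
    ({x, z, y} : Finset ℕ) = {x, y, z} ∧ ({y, x, z} : Finset ℕ) = {x, y, z} ∧
    ({y, z, x} : Finset ℕ) = {x, y, z} ∧ ({z, x, y} : Finset ℕ) = {x, y, z} ∧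
    ({z, y, x} : Finset ℕ) = {x, y, z} := by
  have a : ∀ x y z : ℕ, ({x, z, y} : Finset ℕ) = {x, y, z} :=
    fun x y z => congrArg (insert x) (Finset.pair_comm z y)
  have b : ∀ x y z : ℕ, ({y, x, z} : Finset ℕ) = {x, y, z} :=
    fun x y z => Finset.insert_comm y x {z}
  exact ⟨a x y z, b x y z, (a y x z).trans (b x y z), (b x z y).trans (a x y z),
    ((a z x y).trans (b x z y)).trans (a x y z)⟩

/-- six orderings of every net of size three -/
private theorem tau2_count {m : ℕ} {A : Finset (Sym2 ℕ)} (hA : Col A) :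
    6 * (((Finset.range m).powersetCard 3).filter (fun W => Net A W)).card ≤
      ((Finset.univ : Finset (Fin m × Fin m × Fin m)).filter
        (fun p => Dif A p.1 p.2.1 ∧ Dif A p.2.1 p.2.2 ∧ Dif A p.1 p.2.2)).card := by
  apply Finset.mul_card_image_le_card_of_maps_to
    (f := fun p : Fin m × Fin m × Fin m => ({(p.1 : ℕ), (p.2.1 : ℕ), (p.2.2 : ℕ)} : Finset ℕ))
  · rintro ⟨x, y, z⟩ hp
    rw [Finset.mem_filter] at hp
    obtain ⟨-, h1, h2, h3⟩ := hp
    have n1 := tau2_ne hA h1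
    have n2 := tau2_ne hA h2
    have n3 := tau2_ne hA h3
    rw [Finset.mem_filter, Finset.mem_powersetCard]
    refine ⟨⟨?_, ?_⟩, three_net.2 ⟨h1, h2, h3⟩⟩
    · intro w hw
      simp only [Finset.mem_insert, Finset.mem_singleton] at hw
      rw [Finset.mem_range]
      rcases hw with rfl | rfl | rfl
      · exact x.2
      · exact y.2
      · exact z.2
    · rw [Finset.card_eq_three]
      exact ⟨_, _, _, n1, n3, n2, rfl⟩
  · intro b hb
    rw [Finset.mem_filter, Finset.mem_powersetCard] at hb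
    obtain ⟨⟨hsub, hcard⟩, hnet⟩ := hb
    obtain ⟨x, y, z, hxy, hxz, hyz, rfl⟩ := Finset.card_eq_three.1 hcard
    obtain ⟨h1, h2, h3⟩ := three_net.1 hnet
    have hx : x < m := Finset.mem_range.1 (hsub (by simp))
    have hy : y < m := Finset.mem_range.1 (hsub (by simp))
    have hz : z < m := Finset.mem_range.1 (hsub (by simp))
    obtain ⟨X, hX⟩ : ∃ X : Fin m, (X : ℕ) = x := ⟨⟨x, hx⟩, rfl⟩
    obtain ⟨Y, hY⟩ : ∃ Y : Fin m, (Y : ℕ) = y := ⟨⟨y, hy⟩, rfl⟩
    obtain ⟨Z, hZ⟩ : ∃ Z : Fin m, (Z : ℕ) = z := ⟨⟨z, hz⟩, rfl⟩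
    subst hX hY hZ
    have h1' := tau2_dif_symm h1
    have h2' := tau2_dif_symm h2
    have h3' := tau2_dif_symm h3
    have e1 : X ≠ Y := fun h => hxy (by rw [h])
    have e2 : X ≠ Z := fun h => hxz (by rw [h])
    have e3 : Y ≠ Z := fun h => hyz (by rw [h])
    have hsix : ({(X, Y, Z), (X, Z, Y), (Y, X, Z), (Y, Z, X), (Z, X, Y), (Z, Y, X)} :
        Finset (Fin m × Fin m × Fin m)).card = 6 := by
      rw [Finset.card_insert_of_notMem, Finset.card_insert_of_notMem, Finset.card_insert_of_notMem,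
        Finset.card_insert_of_notMem, Finset.card_insert_of_notMem, Finset.card_singleton]
      · simp [e1.symm]
      · simp [e1, e3, e2.symm]
      · simp [e1, e2, e3, e2.symm, e3.symm]
      · simp [e1, e2, e3, e1.symm, e2.symm, e3.symm]
      · simp [e1, e2, e3, e1.symm, e2.symm, e3.symm]
    rw [← hsix]
    apply Finset.card_le_card
    intro p hp
    simp only [Finset.mem_insert, Finset.mem_singleton] at hp
    rw [Finset.mem_filter, Finset.mem_filter]
    have hset := tau2_set (X : ℕ) Y Z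
    rcases hp with rfl | rfl | rfl | rfl | rfl | rfl
    · exact ⟨⟨Finset.mem_univ _, h1, h2, h3⟩, rfl⟩
    · refine ⟨⟨Finset.mem_univ _, h3, h2', h1⟩, ?_⟩
      exact hset.1
    · refine ⟨⟨Finset.mem_univ _, h1', h3, h2⟩, ?_⟩
      exact hset.2.1
    · refine ⟨⟨Finset.mem_univ _, h2, h3', h1'⟩, ?_⟩
      exact hset.2.2.1
    · refine ⟨⟨Finset.mem_univ _, h3', h1, h2'⟩, ?_⟩
      exact hset.2.2.2.1
    · refine ⟨⟨Finset.mem_univ _, h2', h1', h3'⟩, ?_⟩
      exact hset.2.2.2.2

private theorem tau2_nu {m : ℕ} (hm : 7 ≤ m) {A : Finset (Sym2 ℕ)} (hA : Col A) {ε θ : ℝ}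
    (hθ : ∀ (V : Type) [Fintype V] (r d : V → V → Prop), Equivalence r →
    (∀ x y, d x y → d y x) → (∀ x y, d x y → ¬ r x y) →
    (∀ x x' y, r x x' → d x y → d x' y) →
    (∀ x y z z', d x y → d x z → d y z → d x z' → d y z' → r z z') →
    (∀ x, (((Finset.univ : Finset V).filter (fun y => r x y)).card : ℝ) ≤ θ * Fintype.card V) →
    (((Finset.univ : Finset (V × V × V)).filter
      (fun p => d p.1 p.2.1 ∧ d p.2.1 p.2.2 ∧ d p.1 p.2.2)).card : ℝ) ≤
      ε / 4 * (Fintype.card V : ℝ) *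
        (((Finset.univ : Finset (V × V)).filter (fun p => r p.1 p.2)).card : ℝ))
    (hε : 0 < ε) (hB : ¬ Big m θ A) : nu m 3 A ≤ ε * pp m A := by
  have hmr : (7 : ℝ) ≤ m := by exact_mod_cast hm
  have h := hθ (Fin m) (fun x y => Eqv A x y) (fun x y => Dif A x y)
    ⟨fun x => Eqv.refl A x, fun h => h.symm, fun h h' => h.trans h'⟩
    (fun x y h => tau2_dif_symm h) (fun x y h h' => not_dif_of_eqv hA h' h)
    (fun x x' y h h' => dif_congr h h') (fun x y z z' h1 h2 h3 h4 h5 => eqv_of_dif h1 h2 h3 h4 h5)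
    (by
      intro x
      unfold Big at hB
      push Not at hB
      have h1 := hB x x.2
      have h2 : ((Finset.univ : Finset (Fin m)).filter (fun y : Fin m => Eqv A (x : ℕ) (y : ℕ))).card ≤
          ((Finset.range m).filter (fun y => Eqv A x y)).card := by
        apply Finset.card_le_card_of_injOn (fun y : Fin m => (y : ℕ))
        · intro y hy
          rw [Finset.mem_coe, Finset.mem_filter] at hy
          rw [Finset.mem_coe, Finset.mem_filter, Finset.mem_range]
          exact ⟨y.2, hy.2⟩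
        · intro y _ y' _ h
          exact Fin.ext h
      have h3 : (((Finset.univ : Finset (Fin m)).filter (fun y : Fin m => Eqv A (x : ℕ) (y : ℕ))).card : ℝ) ≤
          (((Finset.range m).filter (fun y => Eqv A x y)).card : ℝ) := by exact_mod_cast h2
      rw [Fintype.card_fin]
      exact h3.trans h1.le)
  rw [Fintype.card_fin] at h
  have hpairs : (((Finset.univ : Finset (Fin m × Fin m)).filter
      (fun p => Eqv A p.1 p.2)).card : ℝ) ≤ (m : ℝ) ^ 2 * pp m A := by
    have h2 : ((Finset.univ : Finset (Fin m × Fin m)).filter (fun p => Eqv A p.1 p.2)).card ≤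
        (((Finset.range m) ×ˢ (Finset.range m)).filter (fun p => Eqv A p.1 p.2)).card := by
      apply Finset.card_le_card_of_injOn (fun p : Fin m × Fin m => ((p.1 : ℕ), (p.2 : ℕ)))
      · intro y hy
        rw [Finset.mem_coe, Finset.mem_filter] at hy
        rw [Finset.mem_coe, Finset.mem_filter, Finset.mem_product, Finset.mem_range,
          Finset.mem_range]
        exact ⟨⟨y.1.2, y.2.2⟩, hy.2⟩
      · intro y _ y' _ h
        rw [Prod.mk.injEq] at h
        exact Prod.ext (Fin.ext h.1) (Fin.ext h.2)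
    have h3 : (((Finset.univ : Finset (Fin m × Fin m)).filter (fun p => Eqv A p.1 p.2)).card : ℝ) ≤
        ((((Finset.range m) ×ˢ (Finset.range m)).filter (fun p => Eqv A p.1 p.2)).card : ℝ) := by
      exact_mod_cast h2
    refine h3.trans (le_of_eq ?_)
    unfold pp
    field_simp
  have hsix : 6 * ((((Finset.range m).powersetCard 3).filter (fun W => Net A W)).card : ℝ) ≤
      (((Finset.univ : Finset (Fin m × Fin m × Fin m)).filter
        (fun p => Dif A p.1 p.2.1 ∧ Dif A p.2.1 p.2.2 ∧ Dif A p.1 p.2.2)).card : ℝ) := by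
    exact_mod_cast tau2_count hA
  have hpp : 0 ≤ pp m A := by
    unfold pp
    positivity
  have hch : (m.choose 3 : ℝ) = m * (m - 1) * (m - 2) / 6 := by
    have h1 := Nat.cast_choose_eq_ascPochhammer_div ℝ m 3
    rw [h1]
    have h4 : ((m - (3 - 1) : ℕ) : ℝ) = m - 2 := by
      rw [Nat.cast_sub (by omega)]
      norm_num
    rw [h4]
    simp [ascPochhammer_succ_right, Nat.factorial]
    ring
  unfold nu
  rw [div_le_iff₀ (by rw [hch]; apply div_pos _ (by norm_num); apply mul_pos (mul_pos _ _) <;>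
    linarith)]
  rw [hch]
  have h5 : ε / 4 * (m : ℝ) * (((Finset.univ : Finset (Fin m × Fin m)).filter
      (fun p => Eqv A p.1 p.2)).card : ℝ) ≤ ε / 4 * (m : ℝ) * ((m : ℝ) ^ 2 * pp m A) :=
    mul_le_mul_of_nonneg_left hpairs (by positivity)
  have h6 : 6 * ((((Finset.range m).powersetCard 3).filter (fun W => Net A W)).card : ℝ) ≤
      ε / 4 * (m : ℝ) * ((m : ℝ) ^ 2 * pp m A) := (hsix.trans h).trans h5
  have h7 : (m : ℝ) ^ 2 ≤ 4 * ((m - 1) * (m - 2)) := by nlinarith
  have h8 : ε / 4 * (m : ℝ) * ((m : ℝ) ^ 2 * pp m A) ≤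
      ε / 4 * (m : ℝ) * ((4 * ((m - 1) * (m - 2))) * pp m A) :=
    mul_le_mul_of_nonneg_left (mul_le_mul_of_nonneg_right h7 hpp) (by positivity)
  have h9 : ε / 4 * (m : ℝ) * ((4 * (((m : ℝ) - 1) * (m - 2))) * pp m A) =
      6 * (ε * pp m A * (m * (m - 1) * (m - 2) / 6)) := by ring
  linarith

theorem tau2_le (ε : ℝ) (hε : 0 < ε) : ∃ θ : ℝ, 0 < θ ∧ ∀ m : ℕ, 7 ≤ m → ∀ t : ℝ, 0 ≤ t → t ≤ 1 →
    tau m 2 t ≤ ε * ex t (EN m) (fun A => ind (Col A) * pp m A) + ell m θ t := by
  obtain ⟨θ, hθ0, hθ⟩ := rs_abs (ε / 4) (by positivity)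
  refine ⟨θ, hθ0, fun m hm t ht0 ht1 => ?_⟩
  unfold tau ell
  rw [← ex_mul_left, ← ex_add]
  apply ex_mono ht0 ht1
  intro A _
  have hpp : 0 ≤ pp m A := by
    unfold pp
    positivity
  by_cases hA : Col A
  · rw [ind_of hA, one_mul, one_mul]
    by_cases hB : Big m θ A
    · rw [ind_of ⟨hA, hB⟩]
      have h1 := tt_le_one m 2 A
      have h2 : 0 ≤ ε * pp m A := mul_nonneg hε.le hpp
      linarith
    · have h1 : tt m 2 A = nu m 3 A := by
        unfold tt
        rw [nu_small (m := m) (i := 2) le_rfl hA, sub_zero]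
      rw [h1]
      have h2 := tau2_nu hm hA hθ hε hB
      have h3 := ind_nonneg (Col A ∧ Big m θ A)
      linarith
  · rw [ind_of_not hA, zero_mul, zero_mul, mul_zero, zero_add]
    exact ind_nonneg _

end Pool.Agent.LC3
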