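import Pool.Agent.LC3.MA2
import Pool.Agent.LC3.MA5
import Pool.Agent.LC3.Tau2
import Pool.Agent.LC3.PPle
import Pool.Agent.LC3.HBig

/-!
# LC3.MA3 : the main inequality, integrated over the window `W_n = [al/n, be/n]`

`int_Dn_le`: let `n = m+1`. Take `θ0 = min (ε/2) (θ_ε)` with `θ_ε` from `tau2_le ε`. For `θ ≤ θ0` apply `Dn_le`
with `2θ` in place of `θ` and divide by `t > 0`:
`Dn n t / t ≤ (1-κ) dq n t + 2 C θ dq n t + C n ell n θ t / t + n tau m 2 t / t`, `2θ ≤ ε`, and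
`n tau m 2 t/t ≤ n [ε (1/m + 2/m^2 dq m t) + ell m θ t]/t` (`tau2_le`, `pp_le`, `ell_anti`).
Integrate over the window (all functions are continuous there: `continuous_dq`, `continuous_ell`, ...;
`intervalIntegral.integral_mono_on`): `∫ dq n ≤ 1`, `∫ dq m ≤ 1` (`int_dq_le`),
`∫ 1/t = log(be/al) ≤ 4` (or: `1/t ≤ n/al` on an interval of length `(be-al)/n`, total `≤ 50`),
`n/m ≤ 2`, `∫ (2 n/m^2) dq m t / t ≤ (2n/m^2) (n/al) ≤ 80`. So `C0 = C + 1000` is enough.

`int_hsq_le`: `hsq_le (η')`, `l = n-2`, divided by `t`, times `n`: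
`n (q (n-1) t - q (n-2) t)/t ≤ n C dq (n-1) t/(n-1) ≤ 2 C dq (n-1) t` (`H_le` with `l = n-2`), whose integral
is `≤ 2C`. Take `η' = η/(2C)`. For `θ ≤ θ0 = ` the `θ` of `hsq_le`: `ell_anti`.
-/

set_option autoImplicit false

open Classical

namespace Pool.Agent.LC3

private theorem ma3_al {n : ℕ} (hn : 6 ≤ n) : 0 < al / (n : ℝ) := by
  have h : (0 : ℝ) < (n : ℝ) := by exact_mod_cast (by omega : 0 < n)
  exact div_pos al_pos h

private theorem ma3_le {n : ℕ} (hn : 6 ≤ n) : al / (n : ℝ) ≤ be / (n : ℝ) := by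
  have h : (0 : ℝ) < (n : ℝ) := by exact_mod_cast (by omega : 0 < n)
  exact div_le_div_of_nonneg_right al_lt_be.le h.le

private theorem ma3_be {n : ℕ} (hn : 6 ≤ n) : be / (n : ℝ) ≤ 1 := by
  have h : (6 : ℝ) ≤ (n : ℝ) := by exact_mod_cast hn
  rw [div_le_one (by linarith)]
  unfold be
  linarith

private theorem ma3_int {n : ℕ} (hn : 6 ≤ n) {f : ℝ → ℝ} (hf : Continuous f) :
    IntervalIntegrable (fun t => f t / t) MeasureTheory.volume (al / (n : ℝ)) (be / (n : ℝ)) := by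
  apply ContinuousOn.intervalIntegrable
  refine hf.continuousOn.div continuousOn_id ?_
  intro t ht
  rw [Set.uIcc_of_le (ma3_le hn)] at ht
  exact (lt_of_lt_of_le (ma3_al hn) ht.1).ne'

private theorem ma3_ell_cont (m : ℕ) (θ : ℝ) : Continuous (ell m θ) := continuous_ex _ _

private theorem ma3_Dn_cont (m : ℕ) : Continuous (Dn m) := continuous_ex _ _

private theorem ma3_hsq_cont (l : ℕ) :
    Continuous (fun t : ℝ => ex t (EN l) (fun A => ind (Col A) * (hh l t A) ^ 2)) := by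
  unfold ex
  refine continuous_finsetSum _ fun A _ => ?_
  have h : Continuous (fun t : ℝ => hh l t A) := continuous_ex _ _
  exact ((continuous_id.pow _).mul ((continuous_const.sub continuous_id).pow _)).mul
    (continuous_const.mul (h.pow 2))

private theorem ma3_ell_int {n : ℕ} (hn : 6 ≤ n) (m : ℕ) (θ : ℝ) :
    0 ≤ (n : ℝ) * ∫ t in (al / (n : ℝ))..(be / (n : ℝ)), ell m θ t / t := by
  refine mul_nonneg (Nat.cast_nonneg n) ?_
  refine intervalIntegral.integral_nonneg (ma3_le hn) fun t ht => ?_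
  have h0 : 0 < t := lt_of_lt_of_le (ma3_al hn) ht.1
  exact div_nonneg (ell_nonneg m θ h0.le (ht.2.trans (ma3_be hn))) h0.le

theorem int_Dn_le : ∃ κ : ℝ, 0 < κ ∧ κ ≤ 1 / 100 ∧ ∃ C0 : ℝ, 0 < C0 ∧ ∀ ε : ℝ, 0 < ε →
    ∃ θ0 : ℝ, 0 < θ0 ∧ ∀ θ : ℝ, 0 < θ → θ ≤ θ0 → ∃ C : ℝ, 0 < C ∧ ∃ N : ℕ, ∀ n : ℕ, N ≤ n →
    ∫ t in (al / n)..(be / n), Dn n t / t ≤ (1 - κ) + C0 * ε +
      C * (n * ∫ t in (al / n)..(be / n), ell n θ t / t) +
      C * (n * ∫ t in (al / n)..(be / n), ell (n - 1) θ t / t) := by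
  obtain ⟨κ, hκ0, hκ1, C, hC, N, hN⟩ := Dn_le
  refine ⟨κ, hκ0, hκ1, C + 1000, by linarith, fun ε hε => ?_⟩
  obtain ⟨θe, hθe, htau⟩ := tau2_le ε hε
  refine ⟨min (ε / 2) θe, lt_min (by linarith) hθe, fun θ hθ hθ0 => ?_⟩
  have hθ1 : 2 * θ ≤ ε := by
    have := hθ0.trans (min_le_left _ _)
    linarith
  have hθ2 : θ ≤ θe := hθ0.trans (min_le_right _ _)
  refine ⟨C + 1, by linarith, max (N + 1) 9, fun n hn => ?_⟩
  have hn1 : N + 1 ≤ n := (le_max_left _ _).trans hn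
  have hn2 : 9 ≤ n := (le_max_right _ _).trans hn
  have hn6 : 6 ≤ n := by omega
  obtain ⟨m, rfl⟩ : ∃ m, n = m + 1 := ⟨n - 1, by omega⟩
  have hm7 : 7 ≤ m := by omega
  rw [Nat.add_sub_cancel]
  have hmR : (8 : ℝ) ≤ (m : ℝ) := by exact_mod_cast (by omega : 8 ≤ m)
  have hm0 : (0 : ℝ) < (m : ℝ) := by linarith
  have hcast : ((m + 1 : ℕ) : ℝ) = (m : ℝ) + 1 := by push_cast; ring
  have hpt : ∀ t ∈ Set.Icc (al / ((m + 1 : ℕ) : ℝ)) (be / ((m + 1 : ℕ) : ℝ)),
      Dn (m + 1) t / t ≤ (1 - κ + C * ε) * dq (m + 1) t + 80 * ε * dq m t +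
        20 * ε * ((m : ℝ) + 1) + C * (((m : ℝ) + 1) * (ell (m + 1) θ t / t)) +
        ((m : ℝ) + 1) * (ell m θ t / t) := by
    intro t ht
    have ht0 : 0 < t := lt_of_lt_of_le (ma3_al hn6) ht.1
    have ht1 : t ≤ 1 := ht.2.trans (ma3_be hn6)
    have ht2 : al ≤ t * ((m : ℝ) + 1) := by
      have := ht.1
      rw [hcast, div_le_iff₀ (by linarith)] at this
      exact this
    have hal : al = 1 / 10 := rfl
    rw [hal] at ht2
    rw [hcast] at ht
    have h1 := hN m (by omega) (2 * θ) (by linarith) t ht.1 ht.2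
    have e1 : 2 * θ / 2 = θ := by ring
    rw [e1] at h1
    have h2 := htau m hm7 t ht0.le ht1
    have h3 := pp_le (m := m) (by omega) ht0.le ht1
    have h4 := ell_anti m hθ2 ht0.le ht1
    have h5 : tau m 2 t ≤ ε * (1 / (m : ℝ) + 2 / (m : ℝ) ^ 2 * dq m t) + ell m θ t := by
      have := mul_le_mul_of_nonneg_left h3 hε.le
      linarith
    have hdq : 0 ≤ dq m t := dq_nonneg ht0.le ht1
    have hdq' : 0 ≤ dq (m + 1) t := dq_nonneg ht0.le ht1
    rw [div_le_iff₀ ht0]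
    have h6 : ((m : ℝ) + 1) * tau m 2 t ≤
        (80 * ε * dq m t) * t + (20 * ε * ((m : ℝ) + 1)) * t + ((m : ℝ) + 1) * ell m θ t := by
      have h7 : ((m : ℝ) + 1) * (1 / (m : ℝ)) ≤ 20 * ((m : ℝ) + 1) * t := by
        have h8 : ((m : ℝ) + 1) * (1 / (m : ℝ)) ≤ 2 := by
          rw [mul_one_div, div_le_iff₀ hm0]
          linarith
        nlinarith
      have h9 : ((m : ℝ) + 1) * (2 / (m : ℝ) ^ 2) ≤ 80 * t := by
        have h10 : ((m : ℝ) + 1) * (2 / (m : ℝ) ^ 2) ≤ 8 / ((m : ℝ) + 1) := by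
          rw [mul_div_assoc', div_le_div_iff₀ (by positivity) (by positivity)]
          nlinarith
        have h11 : 8 / ((m : ℝ) + 1) ≤ 80 * t := by
          rw [div_le_iff₀ (by linarith)]
          nlinarith
        linarith
      have h12 := mul_le_mul_of_nonneg_left h5 (by linarith : (0 : ℝ) ≤ (m : ℝ) + 1)
      have h13 := mul_le_mul_of_nonneg_left h7 hε.le
      have h14 := mul_le_mul_of_nonneg_right h9 (mul_nonneg hε.le hdq)
      nlinarith
    have h15 : C * (2 * θ) * (t * dq (m + 1) t) ≤ C * ε * (t * dq (m + 1) t) := by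
      have h16 : 0 ≤ t * dq (m + 1) t := mul_nonneg ht0.le hdq'
      have h17 : C * (2 * θ) ≤ C * ε := mul_le_mul_of_nonneg_left hθ1 hC.le
      exact mul_le_mul_of_nonneg_right h17 h16
    have e2 : ell (m + 1) θ t / t * t = ell (m + 1) θ t := div_mul_cancel₀ _ ht0.ne'
    have e3 : ell m θ t / t * t = ell m θ t := div_mul_cancel₀ _ ht0.ne'
    have e4 : ((1 - κ + C * ε) * dq (m + 1) t + 80 * ε * dq m t +
        20 * ε * ((m : ℝ) + 1) + C * (((m : ℝ) + 1) * (ell (m + 1) θ t / t)) +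
        ((m : ℝ) + 1) * (ell m θ t / t)) * t =
        (1 - κ) * (t * dq (m + 1) t) + C * ε * (t * dq (m + 1) t) + (80 * ε * dq m t) * t +
        (20 * ε * ((m : ℝ) + 1)) * t + C * (((m : ℝ) + 1) * ell (m + 1) θ t) +
        ((m : ℝ) + 1) * ell m θ t := by
      calc _ = (1 - κ) * (t * dq (m + 1) t) + C * ε * (t * dq (m + 1) t) +
        (80 * ε * dq m t) * t + (20 * ε * ((m : ℝ) + 1)) * t +
        C * (((m : ℝ) + 1) * (ell (m + 1) θ t / t * t)) +
        ((m : ℝ) + 1) * (ell m θ t / t * t) := by ring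
        _ = _ := by rw [e2, e3]
    rw [e4]
    linarith
  have hi1 : IntervalIntegrable (fun t => Dn (m + 1) t / t) MeasureTheory.volume
      (al / ((m + 1 : ℕ) : ℝ)) (be / ((m + 1 : ℕ) : ℝ)) := ma3_int hn6 (ma3_Dn_cont _)
  have ha : IntervalIntegrable (fun t => (1 - κ + C * ε) * dq (m + 1) t) MeasureTheory.volume
      (al / ((m + 1 : ℕ) : ℝ)) (be / ((m + 1 : ℕ) : ℝ)) :=
    (continuous_const.mul (continuous_dq _)).intervalIntegrable _ _
  have hb : IntervalIntegrable (fun t => 80 * ε * dq m t) MeasureTheory.volume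
      (al / ((m + 1 : ℕ) : ℝ)) (be / ((m + 1 : ℕ) : ℝ)) :=
    (continuous_const.mul (continuous_dq _)).intervalIntegrable _ _
  have hc : IntervalIntegrable (fun _ : ℝ => 20 * ε * ((m : ℝ) + 1)) MeasureTheory.volume
      (al / ((m + 1 : ℕ) : ℝ)) (be / ((m + 1 : ℕ) : ℝ)) :=
    continuous_const.intervalIntegrable _ _
  have hd : IntervalIntegrable (fun t => C * (((m : ℝ) + 1) * (ell (m + 1) θ t / t)))
      MeasureTheory.volume (al / ((m + 1 : ℕ) : ℝ)) (be / ((m + 1 : ℕ) : ℝ)) :=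
    ((ma3_int hn6 (ma3_ell_cont _ _)).const_mul _).const_mul _
  have he : IntervalIntegrable (fun t => ((m : ℝ) + 1) * (ell m θ t / t))
      MeasureTheory.volume (al / ((m + 1 : ℕ) : ℝ)) (be / ((m + 1 : ℕ) : ℝ)) :=
    (ma3_int hn6 (ma3_ell_cont _ _)).const_mul _
  have hI := intervalIntegral.integral_mono_on (ma3_le hn6) hi1
    ((((ha.add hb).add hc).add hd).add he) hpt
  refine hI.trans ?_
  rw [intervalIntegral.integral_add (((ha.add hb).add hc).add hd) he,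
    intervalIntegral.integral_add ((ha.add hb).add hc) hd,
    intervalIntegral.integral_add (ha.add hb) hc, intervalIntegral.integral_add ha hb]
  have r3 : ∫ _ in (al / ((m + 1 : ℕ) : ℝ))..(be / ((m + 1 : ℕ) : ℝ)), 20 * ε * ((m : ℝ) + 1) =
      (be / ((m + 1 : ℕ) : ℝ) - al / ((m + 1 : ℕ) : ℝ)) * (20 * ε * ((m : ℝ) + 1)) := by
    rw [intervalIntegral.integral_const, smul_eq_mul]
  rw [r3, intervalIntegral.integral_const_mul, intervalIntegral.integral_const_mul,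
    intervalIntegral.integral_const_mul, intervalIntegral.integral_const_mul,
    intervalIntegral.integral_const_mul]
  have g1 := int_dq_le hn6 (m + 1)
  have g2 := int_dq_le hn6 m
  have g3 := ma3_ell_int hn6 (m + 1) θ
  have g4 := ma3_ell_int hn6 m θ
  rw [hcast] at g1 g2 g3 g4 ⊢
  set X := ((m : ℝ) + 1) * ∫ t in (al / ((m : ℝ) + 1))..(be / ((m : ℝ) + 1)),
    ell (m + 1) θ t / t with hX
  set Y := ((m : ℝ) + 1) * ∫ t in (al / ((m : ℝ) + 1))..(be / ((m : ℝ) + 1)),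
    ell m θ t / t with hY
  have g5 : (be / ((m : ℝ) + 1) - al / ((m : ℝ) + 1)) * (20 * ε * ((m : ℝ) + 1)) =
      (be - al) * (20 * ε) := by
    field_simp
  rw [g5]
  have g6 : (be - al) * (20 * ε) ≤ 100 * ε := by
    unfold be al
    linarith
  have g7 : 0 ≤ 1 - κ + C * ε := by
    have := mul_pos hC hε
    linarith
  have g8 := mul_le_mul_of_nonneg_left g1 g7
  have g9 := mul_le_mul_of_nonneg_left g2 (by linarith : (0 : ℝ) ≤ 80 * ε)
  have g10 : 0 ≤ C * Y := mul_nonneg hC.le g4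
  linarith

theorem int_hsq_le (η : ℝ) (hη : 0 < η) : ∃ θ0 : ℝ, 0 < θ0 ∧ ∀ θ : ℝ, 0 < θ → θ ≤ θ0 →
    ∃ C : ℝ, 0 < C ∧ ∃ N : ℕ, ∀ n : ℕ, N ≤ n →
    n * ∫ t in (al / n)..(be / n),
        ex t (EN (n - 2)) (fun A => ind (Col A) * (hh (n - 2) t A) ^ 2) / t ≤
      η + C * (n * ∫ t in (al / n)..(be / n), ell (n - 1) θ t / t) := by
  obtain ⟨CH, hCH, NH, hH⟩ := H_le
  obtain ⟨θ0, hθ0, C, hC, N, hN⟩ := hsq_le (η / (2 * CH)) (by positivity)
  refine ⟨θ0, hθ0, fun θ hθ hθ1 => ⟨C, hC, max (max (N + 2) (NH + 2)) 9, fun n hn => ?_⟩⟩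
  have hn1 : N + 2 ≤ n := (le_max_left _ _).trans ((le_max_left _ _).trans hn)
  have hn2 : NH + 2 ≤ n := (le_max_right _ _).trans ((le_max_left _ _).trans hn)
  have hn3 : 9 ≤ n := (le_max_right _ _).trans hn
  have hn6 : 6 ≤ n := by omega
  obtain ⟨l, rfl⟩ : ∃ l, n = l + 2 := ⟨n - 2, by omega⟩
  have e0 : l + 2 - 2 = l := by omega
  have e1 : l + 2 - 1 = l + 1 := by omega
  rw [e0, e1]
  have hlR : (7 : ℝ) ≤ (l : ℝ) := by exact_mod_cast (by omega : 7 ≤ l)
  have hcast : ((l + 2 : ℕ) : ℝ) = (l : ℝ) + 2 := by push_cast; ring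
  have hbe : be = 126 / 25 := rfl
  rw [← intervalIntegral.integral_const_mul, ← intervalIntegral.integral_const_mul]
  have hpt : ∀ t ∈ Set.Icc (al / ((l + 2 : ℕ) : ℝ)) (be / ((l + 2 : ℕ) : ℝ)),
      ((l + 2 : ℕ) : ℝ) * (ex t (EN l) (fun A => ind (Col A) * (hh l t A) ^ 2) / t) ≤
        η * dq (l + 1) t + C * (((l + 2 : ℕ) : ℝ) * (ell (l + 1) θ t / t)) := by
    intro t ht
    have ht0 : 0 < t := lt_of_lt_of_le (ma3_al hn6) ht.1
    have ht1 : t ≤ 1 := ht.2.trans (ma3_be hn6)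
    rw [hcast] at ht ⊢
    have h1 := hN l (by omega) t ht.1 ht.2
    have h2 := hH l (by omega) t ht0 (by
      refine ht.2.trans ?_
      rw [div_le_div_iff₀ (by linarith) (by linarith), hbe]
      linarith)
    have h3 := ell_anti (l + 1) hθ1 ht0.le ht1
    have hdq : 0 ≤ dq (l + 1) t := dq_nonneg ht0.le ht1
    have h4 : ex t (EN l) (fun A => ind (Col A) * (hh l t A) ^ 2) ≤
        η / (2 * CH) * (CH * (t * dq (l + 1) t) / ((l : ℝ) + 1)) + C * ell (l + 1) θ t := by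
      have h5 := mul_le_mul_of_nonneg_left h2 (by positivity : 0 ≤ η / (2 * CH))
      have h6 := mul_le_mul_of_nonneg_left h3 hC.le
      linarith
    have h7 : η / (2 * CH) * (CH * (t * dq (l + 1) t) / ((l : ℝ) + 1)) =
        η * (t * dq (l + 1) t) / (2 * ((l : ℝ) + 1)) := by
      field_simp
    rw [h7] at h4
    have h8 : ((l : ℝ) + 2) * (η * (t * dq (l + 1) t) / (2 * ((l : ℝ) + 1))) ≤
        η * (t * dq (l + 1) t) := by
      rw [mul_div_assoc', div_le_iff₀ (by linarith)]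
      have h9 : 0 ≤ η * (t * dq (l + 1) t) := mul_nonneg hη.le (mul_nonneg ht0.le hdq)
      nlinarith
    have h10 := mul_le_mul_of_nonneg_left h4 (by linarith : (0 : ℝ) ≤ (l : ℝ) + 2)
    rw [mul_div_assoc', div_le_iff₀ ht0]
    have e2 : ell (l + 1) θ t / t * t = ell (l + 1) θ t := div_mul_cancel₀ _ ht0.ne'
    have e3 : (η * dq (l + 1) t + C * (((l : ℝ) + 2) * (ell (l + 1) θ t / t))) * t =
        η * (t * dq (l + 1) t) + C * (((l : ℝ) + 2) * ell (l + 1) θ t) := by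
      calc _ = η * (t * dq (l + 1) t) +
        C * (((l : ℝ) + 2) * (ell (l + 1) θ t / t * t)) := by ring
        _ = _ := by rw [e2]
    rw [e3]
    linarith
  have ha : IntervalIntegrable (fun t => η * dq (l + 1) t) MeasureTheory.volume
      (al / ((l + 2 : ℕ) : ℝ)) (be / ((l + 2 : ℕ) : ℝ)) :=
    (continuous_const.mul (continuous_dq _)).intervalIntegrable _ _
  have hb : IntervalIntegrable (fun t => C * (((l + 2 : ℕ) : ℝ) * (ell (l + 1) θ t / t)))
      MeasureTheory.volume (al / ((l + 2 : ℕ) : ℝ)) (be / ((l + 2 : ℕ) : ℝ)) :=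
    ((ma3_int hn6 (ma3_ell_cont _ _)).const_mul _).const_mul _
  have hi1 : IntervalIntegrable (fun t => ((l + 2 : ℕ) : ℝ) *
      (ex t (EN l) (fun A => ind (Col A) * (hh l t A) ^ 2) / t)) MeasureTheory.volume
      (al / ((l + 2 : ℕ) : ℝ)) (be / ((l + 2 : ℕ) : ℝ)) :=
    (ma3_int hn6 (ma3_hsq_cont l)).const_mul _
  have hI := intervalIntegral.integral_mono_on (ma3_le hn6) hi1 (ha.add hb) hpt
  refine hI.trans ?_
  rw [intervalIntegral.integral_add ha hb, intervalIntegral.integral_const_mul,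
    intervalIntegral.integral_const_mul]
  have g1 := int_dq_le hn6 (l + 1)
  have g2 := mul_le_mul_of_nonneg_left g1 hη.le
  linarith

end Pool.Agent.LC3
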