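import Pool.Agent.LC3.MA1
import Pool.Agent.LC3.MA5
import Pool.Agent.LC3.K2Id

/-!
# LC3.MA4 : choice of a good `n` for which two pivotal vertices are rare

`W_n = [al/n, be/n]`, `Δ_n(t) = q n t - q (n-1) t ≥ 0` (`q_mono_n`), `F_n = ∫_{W_n} Δ_n(t)/t dt`,
`G_n = ∫_{W_n} (Δ_n(t) - Δ_{n-1}(t))/t dt`. By `K2_eq` (`l = n-2`) the claim for `n` is `n G_n ≤ δ0`.
Suppose `n G_n > δ0` for all `n ∈ (N, 2N]`. Then `∑_{n ∈ (N,2N]} G_n > δ0 ∑ 1/n ≥ δ0/2`.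
On the other hand `G_n = F_n - F_{n-1} + (F_{n-1} - ∫_{W_n} Δ_{n-1}/t)` and
`F_{n-1} - ∫_{W_n} Δ_{n-1}/t = ∫_{be/n}^{be/(n-1)} Δ_{n-1}/t - ∫_{al/n}^{al/(n-1)} Δ_{n-1}/t
 ≤ ∫_{be/n}^{be/(n-1)} Δ_{n-1}/t ≤ exp(-δ n)` for `n` large, because there `Δ_{n-1}(t) ≤ 1 - q (n-2) t ≤
exp(-δ n)` (`q_right` with `m = n-2`), `1/t ≤ n/be` and the length is `be/(n(n-1))`.
The sum telescopes: `∑_{n ∈ (N,2N]} (F_n - F_{n-1}) = F_{2N} - F_N ≤ F_{2N}`, and by `H_le` (`l = n-1`)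
`Δ_n(t)/t ≤ C dq n t/n`, so `F_n ≤ C/n` (`int_dq_le`). So `∑ G_n ≤ C/(2N) + N exp(-δ N) < δ0/2` for `N`
large: contradiction.
-/

set_option autoImplicit false

open Classical

namespace Pool.Agent.LC3

noncomputable section

/-- `q (m+1) - q m` -/
def ma4D (m : ℕ) (t : ℝ) : ℝ := q (m + 1) t - q m t

/-- the integral of `ma4D m t / t` over the window of `m+1` -/
def ma4F (m : ℕ) : ℝ :=
  ∫ t in (al / ((m + 1 : ℕ) : ℝ))..(be / ((m + 1 : ℕ) : ℝ)), ma4D m t / t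

end

theorem ma4_cont (m : ℕ) : Continuous (ma4D m) := by
  unfold ma4D
  exact (continuous_q _).sub (continuous_q _)

theorem ma4_int {f : ℝ → ℝ} (hf : Continuous f) {a b : ℝ} (ha : 0 < a) (hb : 0 < b) :
    IntervalIntegrable (fun t => f t / t) MeasureTheory.volume a b := by
  refine ContinuousOn.intervalIntegrable ?_
  refine hf.continuousOn.div continuousOn_id (fun x hx => ?_)
  exact ne_of_gt (lt_of_lt_of_le (lt_min ha hb) hx.1)

theorem ma4_nonneg (m : ℕ) {t : ℝ} (h0 : 0 < t) (h1 : t ≤ 1) : 0 ≤ ma4D m t / t := by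
  unfold ma4D
  have := q_mono_n (Nat.le_succ m) h0.le h1
  exact div_nonneg (by linarith) h0.le

theorem be_pos' : (0 : ℝ) < be := by unfold be; norm_num

theorem ma4_be_le {n : ℕ} (hn : 6 ≤ n) : be / (n : ℝ) ≤ 1 := by
  have hn' : (6 : ℝ) ≤ n := by exact_mod_cast hn
  rw [div_le_one (by linarith)]
  unfold be
  linarith

theorem ma4_al_le {n : ℕ} (hn : 1 ≤ n) : al / (n : ℝ) ≤ be / (n : ℝ) := by
  have hn' : (0 : ℝ) < n := by exact_mod_cast hn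
  exact div_le_div_of_nonneg_right al_lt_be.le hn'.le

theorem ma4F_nonneg {m : ℕ} (hm : 6 ≤ m + 1) : 0 ≤ ma4F m := by
  unfold ma4F
  refine intervalIntegral.integral_nonneg (ma4_al_le (by omega)) (fun t ht => ?_)
  have hpos : (0 : ℝ) < al / ((m + 1 : ℕ) : ℝ) := by
    have := al_pos
    positivity
  exact ma4_nonneg m (lt_of_lt_of_le hpos ht.1) (ht.2.trans (ma4_be_le hm))

theorem ma4_step {δ : ℝ} {NR : ℕ}
    (hR : ∀ n : ℕ, NR ≤ n → ∀ m : ℕ, n ≤ m + 2 → m ≤ n →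
      ∀ t : ℝ, be / n ≤ t → t ≤ 1 → 1 - Real.exp (-(δ * n)) ≤ q m t)
    (l : ℕ) (hl : NR ≤ l + 2) (hl6 : 6 ≤ l) :
    ma4F l - ∫ t in (al / ((l + 2 : ℕ) : ℝ))..(be / ((l + 2 : ℕ) : ℝ)), ma4D l t / t ≤
      Real.exp (-(δ * ((l + 2 : ℕ) : ℝ))) := by
  have hal := al_pos
  have hbe := be_pos'
  have ha1 : (0 : ℝ) < al / ((l + 1 : ℕ) : ℝ) := by positivity
  have ha2 : (0 : ℝ) < al / ((l + 2 : ℕ) : ℝ) := by positivity
  have hb1 : (0 : ℝ) < be / ((l + 1 : ℕ) : ℝ) := by positivity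
  have hb2 : (0 : ℝ) < be / ((l + 2 : ℕ) : ℝ) := by positivity
  have hl12 : ((l + 1 : ℕ) : ℝ) ≤ ((l + 2 : ℕ) : ℝ) := by
    push_cast
    linarith
  have hlpos : (0 : ℝ) < ((l + 1 : ℕ) : ℝ) := by positivity
  have h1 := intervalIntegral.integral_interval_sub_interval_comm
    (ma4_int (ma4_cont l) ha1 hb1) (ma4_int (ma4_cont l) ha2 hb2) (ma4_int (ma4_cont l) ha1 ha2)
  unfold ma4F
  rw [h1, intervalIntegral.integral_symm (al / ((l + 2 : ℕ) : ℝ)),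
    intervalIntegral.integral_symm (be / ((l + 2 : ℕ) : ℝ)), sub_neg_eq_add]
  have h2 : 0 ≤ ∫ t in (al / ((l + 2 : ℕ) : ℝ))..(al / ((l + 1 : ℕ) : ℝ)), ma4D l t / t := by
    refine intervalIntegral.integral_nonneg (div_le_div_of_nonneg_left hal.le hlpos hl12)
      (fun t ht => ?_)
    refine ma4_nonneg l (lt_of_lt_of_le ha2 ht.1) (ht.2.trans ?_)
    exact (ma4_al_le (by omega)).trans (ma4_be_le (by omega))
  have h3 : ∫ t in (be / ((l + 2 : ℕ) : ℝ))..(be / ((l + 1 : ℕ) : ℝ)), ma4D l t / t ≤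
      ∫ t in (be / ((l + 2 : ℕ) : ℝ))..(be / ((l + 1 : ℕ) : ℝ)),
        Real.exp (-(δ * ((l + 2 : ℕ) : ℝ))) * (((l + 2 : ℕ) : ℝ) / be) := by
    refine intervalIntegral.integral_mono_on (div_le_div_of_nonneg_left hbe.le hlpos hl12)
      (ma4_int (ma4_cont l) hb2 hb1) intervalIntegrable_const (fun t ht => ?_)
    have ht0 : 0 < t := lt_of_lt_of_le hb2 ht.1
    have ht1 : t ≤ 1 := ht.2.trans (ma4_be_le (by omega))
    have h4 := hR (l + 2) hl l le_rfl (by omega) t ht.1 ht1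
    have h5 := q_le_one (n := l + 1) ht0.le ht1
    have h6 : ma4D l t ≤ Real.exp (-(δ * ((l + 2 : ℕ) : ℝ))) := by
      unfold ma4D
      linarith
    have h7 : 1 / t ≤ ((l + 2 : ℕ) : ℝ) / be := by
      rw [div_le_div_iff₀ ht0 hbe, one_mul]
      have h8 := ht.1
      rw [div_le_iff₀ (by positivity)] at h8
      linarith
    calc ma4D l t / t = ma4D l t * (1 / t) := by ring
      _ ≤ Real.exp (-(δ * ((l + 2 : ℕ) : ℝ))) * (1 / t) := by gcongr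
      _ ≤ Real.exp (-(δ * ((l + 2 : ℕ) : ℝ))) * (((l + 2 : ℕ) : ℝ) / be) := by gcongr
  rw [intervalIntegral.integral_const, smul_eq_mul] at h3
  have h9 : (be / ((l + 1 : ℕ) : ℝ) - be / ((l + 2 : ℕ) : ℝ)) *
      (Real.exp (-(δ * ((l + 2 : ℕ) : ℝ))) * (((l + 2 : ℕ) : ℝ) / be)) =
      Real.exp (-(δ * ((l + 2 : ℕ) : ℝ))) * (1 / ((l + 1 : ℕ) : ℝ)) := by
    push_cast
    have : (l : ℝ) + 1 ≠ 0 := by positivity
    have : (l : ℝ) + 2 ≠ 0 := by positivity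
    field_simp
    ring
  rw [h9] at h3
  have h10 : Real.exp (-(δ * ((l + 2 : ℕ) : ℝ))) * (1 / ((l + 1 : ℕ) : ℝ)) ≤
      Real.exp (-(δ * ((l + 2 : ℕ) : ℝ))) := by
    apply mul_le_of_le_one_right (Real.exp_pos _).le
    rw [div_le_one hlpos]
    push_cast
    linarith [(Nat.cast_nonneg l : (0 : ℝ) ≤ l)]
  linarith

theorem ma4_F_le {C : ℝ} (hC : 0 < C) {NH : ℕ}
    (hH : ∀ l : ℕ, NH ≤ l → ∀ t : ℝ, 0 < t → t ≤ 2 * be / ((l : ℝ) + 1) →
      q (l + 1) t - q l t ≤ C * (t * dq (l + 1) t) / ((l : ℝ) + 1))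
    (m : ℕ) (hm : NH ≤ m) (hm6 : 6 ≤ m) : ma4F m ≤ C / ((m : ℝ) + 1) := by
  have hal := al_pos
  have hbe := be_pos'
  have hmpos : (0 : ℝ) < (m : ℝ) + 1 := by positivity
  have ha1 : (0 : ℝ) < al / ((m + 1 : ℕ) : ℝ) := by positivity
  have hb1 : (0 : ℝ) < be / ((m + 1 : ℕ) : ℝ) := by positivity
  have h1 : ma4F m ≤ ∫ t in (al / ((m + 1 : ℕ) : ℝ))..(be / ((m + 1 : ℕ) : ℝ)),
      C / ((m : ℝ) + 1) * dq (m + 1) t := by
    unfold ma4F
    refine intervalIntegral.integral_mono_on (ma4_al_le (by omega))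
      (ma4_int (ma4_cont m) ha1 hb1)
      ((continuous_const.mul (continuous_dq _)).intervalIntegrable _ _) (fun t ht => ?_)
    have ht0 : 0 < t := lt_of_lt_of_le ha1 ht.1
    have ht2 : t ≤ 2 * be / ((m : ℝ) + 1) := by
      refine ht.2.trans ?_
      push_cast
      apply div_le_div_of_nonneg_right _ hmpos.le
      linarith
    have h2 := hH m hm t ht0 ht2
    rw [div_le_iff₀ ht0]
    unfold ma4D
    refine h2.trans (le_of_eq ?_)
    ring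
  refine h1.trans ?_
  rw [intervalIntegral.integral_const_mul]
  have h3 := int_dq_le (n := m + 1) (by omega) (m + 1)
  calc C / ((m : ℝ) + 1) * ∫ t in (al / ((m + 1 : ℕ) : ℝ))..(be / ((m + 1 : ℕ) : ℝ)), dq (m + 1) t
      ≤ C / ((m : ℝ) + 1) * 1 := by gcongr
    _ = C / ((m : ℝ) + 1) := mul_one _

theorem ma4_K2 (l : ℕ) :
    ∫ t in (al / ((l + 2 : ℕ) : ℝ))..(be / ((l + 2 : ℕ) : ℝ)), K2 l t / t =
      ma4F (l + 1) - (∫ t in (al / ((l + 2 : ℕ) : ℝ))..(be / ((l + 2 : ℕ) : ℝ)), ma4D l t / t) +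
      ∫ t in (al / ((l + 2 : ℕ) : ℝ))..(be / ((l + 2 : ℕ) : ℝ)),
        ex t (EN l) (fun A => ind (Col A) * (hh l t A) ^ 2) / t := by
  have hal := al_pos
  have hbe := be_pos'
  have ha2 : (0 : ℝ) < al / ((l + 2 : ℕ) : ℝ) := by positivity
  have hb2 : (0 : ℝ) < be / ((l + 2 : ℕ) : ℝ) := by positivity
  have hK2c : Continuous (K2 l) := by
    unfold K2
    exact continuous_ex _ _
  have hexc : Continuous (fun t : ℝ => ex t (EN l) (fun A => ind (Col A) * (hh l t A) ^ 2)) := by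
    have : (fun t : ℝ => ex t (EN l) (fun A => ind (Col A) * (hh l t A) ^ 2)) =
        fun t => K2 l t - (ma4D (l + 1) t - ma4D l t) := by
      funext t
      rw [K2_eq]
      unfold ma4D
      ring
    rw [this]
    exact hK2c.sub ((ma4_cont _).sub (ma4_cont _))
  have h1 : ∫ t in (al / ((l + 2 : ℕ) : ℝ))..(be / ((l + 2 : ℕ) : ℝ)), K2 l t / t =
      ∫ t in (al / ((l + 2 : ℕ) : ℝ))..(be / ((l + 2 : ℕ) : ℝ)), ((ma4D (l + 1) t / t -
        ma4D l t / t) + ex t (EN l) (fun A => ind (Col A) * (hh l t A) ^ 2) / t) := by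
    congr 1
    funext t
    rw [K2_eq]
    unfold ma4D
    ring
  rw [h1, intervalIntegral.integral_add
    ((ma4_int (ma4_cont (l + 1)) ha2 hb2).sub (ma4_int (ma4_cont l) ha2 hb2))
    (ma4_int hexc ha2 hb2),
    intervalIntegral.integral_sub (ma4_int (ma4_cont (l + 1)) ha2 hb2)
      (ma4_int (ma4_cont l) ha2 hb2)]
  rfl

theorem K2_select (δ0 : ℝ) (h : 0 < δ0) : ∃ N1 : ℕ, ∀ N : ℕ, N1 ≤ N → ∃ n : ℕ, N < n ∧ n ≤ 2 * N ∧
    n * ∫ t in (al / n)..(be / n), K2 (n - 2) t / t ≤ δ0 +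
      n * ∫ t in (al / n)..(be / n),
        ex t (EN (n - 2)) (fun A => ind (Col A) * (hh (n - 2) t A) ^ 2) / t := by
  obtain ⟨C, hC, NH, hH⟩ := H_le
  obtain ⟨δ, hδ, NR, hR⟩ := q_right
  refine ⟨NH + NR + 8 + (⌈(C + 4 / δ ^ 2) / δ0⌉₊ + 1), ?_⟩
  intro N hN
  by_contra hcon
  have hcon' : ∀ n : ℕ, N < n → n ≤ 2 * N → δ0 + n * ∫ t in (al / n)..(be / n),
        ex t (EN (n - 2)) (fun A => ind (Col A) * (hh (n - 2) t A) ^ 2) / t <
      n * ∫ t in (al / n)..(be / n), K2 (n - 2) t / t := by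
    intro n h1 h2
    by_contra h3
    exact hcon ⟨n, h1, h2, not_lt.1 h3⟩
  obtain ⟨M, rfl⟩ : ∃ M, N = M + 1 := ⟨N - 1, by omega⟩
  -- the lower bound for every `n`
  have hlow : ∀ k ∈ Finset.range (M + 1), δ0 / (2 * ((M : ℝ) + 1)) ≤
      (ma4F (M + (k + 1)) - ma4F (M + k)) + Real.exp (-(δ * ((M : ℝ) + 1))) := by
    intro k hk
    rw [Finset.mem_range] at hk
    have h1 := hcon' (M + k + 2) (by omega) (by omega)
    have e1 : M + k + 2 - 2 = M + k := by omega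
    rw [e1, ma4_K2 (M + k)] at h1
    have h2 := ma4_step hR (M + k) (by omega) (by omega)
    have hnpos : (0 : ℝ) < ((M + k + 2 : ℕ) : ℝ) := by positivity
    have h3 : δ0 < ((M + k + 2 : ℕ) : ℝ) * (ma4F (M + k + 1) - ∫ t in
        (al / ((M + k + 2 : ℕ) : ℝ))..(be / ((M + k + 2 : ℕ) : ℝ)), ma4D (M + k) t / t) := by
      rw [mul_add] at h1
      linarith
    have h4 : δ0 / ((M + k + 2 : ℕ) : ℝ) < ma4F (M + k + 1) - ∫ t in
        (al / ((M + k + 2 : ℕ) : ℝ))..(be / ((M + k + 2 : ℕ) : ℝ)), ma4D (M + k) t / t := by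
      rw [div_lt_iff₀ hnpos]
      linarith
    have h5 : δ0 / (2 * ((M : ℝ) + 1)) ≤ δ0 / ((M + k + 2 : ℕ) : ℝ) := by
      apply div_le_div_of_nonneg_left h.le hnpos
      have : M + k + 2 ≤ 2 * (M + 1) := by omega
      exact_mod_cast this
    have h6 : Real.exp (-(δ * ((M + k + 2 : ℕ) : ℝ))) ≤ Real.exp (-(δ * ((M : ℝ) + 1))) := by
      apply Real.exp_le_exp.2
      push_cast
      have : (0 : ℝ) ≤ k := Nat.cast_nonneg k
      nlinarith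
    have e2 : M + (k + 1) = M + k + 1 := by ring
    rw [e2]
    linarith
  have hsum := Finset.sum_le_sum hlow
  rw [Finset.sum_const, Finset.card_range, nsmul_eq_mul, Finset.sum_add_distrib, Finset.sum_const,
    Finset.card_range, nsmul_eq_mul, Finset.sum_range_sub (fun k => ma4F (M + k))] at hsum
  have hF0 : 0 ≤ ma4F (M + 0) := ma4F_nonneg (by omega)
  have hF1 : ma4F (M + (M + 1)) ≤ C / (((M + (M + 1) : ℕ) : ℝ) + 1) :=
    ma4_F_le hC hH _ (by omega) (by omega)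
  have hM1 : (0 : ℝ) < (M : ℝ) + 1 := by positivity
  have e3 : ((M + (M + 1) : ℕ) : ℝ) + 1 = 2 * ((M : ℝ) + 1) := by
    push_cast
    ring
  rw [e3] at hF1
  have e4 : ((M + 1 : ℕ) : ℝ) * (δ0 / (2 * ((M : ℝ) + 1))) = δ0 / 2 := by
    push_cast
    field_simp
  rw [e4] at hsum
  have hexp : ((M + 1 : ℕ) : ℝ) * Real.exp (-(δ * ((M : ℝ) + 1))) ≤ (2 / δ ^ 2) / ((M : ℝ) + 1) := by
    have h1 := Real.quadratic_le_exp_of_nonneg (x := δ * ((M : ℝ) + 1)) (by positivity)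
    have h2 : (δ * ((M : ℝ) + 1)) ^ 2 / 2 ≤ Real.exp (δ * ((M : ℝ) + 1)) := by
      have : 0 < δ * ((M : ℝ) + 1) := by positivity
      linarith
    rw [Real.exp_neg, ← div_eq_mul_inv, div_le_div_iff₀ (Real.exp_pos _) hM1]
    push_cast
    have h3 : 2 / δ ^ 2 * ((δ * ((M : ℝ) + 1)) ^ 2 / 2) = ((M : ℝ) + 1) * ((M : ℝ) + 1) := by
      field_simp
    rw [← h3]
    gcongr
  have hbig : (C + 4 / δ ^ 2) / δ0 < (M : ℝ) + 1 := by
    have h1 : (⌈(C + 4 / δ ^ 2) / δ0⌉₊ : ℝ) < ((M + 1 : ℕ) : ℝ) := by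
      have : ⌈(C + 4 / δ ^ 2) / δ0⌉₊ < M + 1 := by omega
      exact_mod_cast this
    push_cast at h1
    exact lt_of_le_of_lt (Nat.le_ceil _) h1
  rw [div_lt_iff₀ h] at hbig
  have h7 : C / (2 * ((M : ℝ) + 1)) + (2 / δ ^ 2) / ((M : ℝ) + 1) < δ0 / 2 := by
    have e5 : C / (2 * ((M : ℝ) + 1)) + (2 / δ ^ 2) / ((M : ℝ) + 1) =
        (C + 4 / δ ^ 2) / (2 * ((M : ℝ) + 1)) := by
      field_simp
      ring
    rw [e5, div_lt_div_iff₀ (by positivity) (by norm_num)]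
    linarith
  linarith

end Pool.Agent.LC3
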