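import Pool.Agent.LC3.VertId
import Pool.Agent.LC3.SizeId
import Pool.Agent.LC3.ExB

/-!
# LC3.TauId : the two basic identities

`q (m+1) t - q m t = ∑_{i<m} PB m i t * tau m i t`,
`2 kap (m+1) t = (m+1) ∑_{i<m} (i+1) bb m (i+1) t * tau m i t`.
Insert `hh_eq` in `H_hh` and `piv_eq` in `kap_vertex` and exchange the finite sum with `ex`
(`ex_sum`, `ex_mul_left`). (Both identities were checked numerically for m+1 = 5, 6.)
-/

set_option autoImplicit false

open Classical

namespace Pool.Agent.LC3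

theorem H_tau (m : ℕ) (t : ℝ) :
    q (m + 1) t - q m t = ∑ i ∈ Finset.range m, PB m i t * tau m i t := by
  rw [H_hh]
  have h : ∀ A, A ⊆ EN m → ind (Col A) * hh m t A =
      ∑ i ∈ Finset.range m, PB m i t * (ind (Col A) * tt m i A) := by
    intro A _
    by_cases hA : Col A
    · rw [hh_eq t hA, Finset.mul_sum]
      refine Finset.sum_congr rfl fun i _ => ?_
      ring
    · rw [ind_of_not hA, zero_mul]
      refine (Finset.sum_eq_zero fun i _ => ?_).symm
      rw [zero_mul, mul_zero]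
  rw [ex_congr h, ex_sum]
  refine Finset.sum_congr rfl fun i _ => ?_
  rw [ex_mul_left]
  rfl

theorem kap_tau (m : ℕ) (t : ℝ) :
    2 * kap (m + 1) t =
      ((m : ℝ) + 1) * ∑ i ∈ Finset.range m, ((i : ℝ) + 1) * bb m (i + 1) t * tau m i t := by
  rw [kap_vertex]
  congr 1
  have h : ∀ A, A ⊆ EN m → ind (Col A) * ex t (Finset.range m) (fun W => ind (Net A W) *
        ((W.filter (fun w => ¬ Net A (W.erase w))).card : ℝ)) =
      ∑ i ∈ Finset.range m, (((i : ℝ) + 1) * bb m (i + 1) t) * (ind (Col A) * tt m i A) := by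
    intro A _
    rw [piv_eq, Finset.mul_sum]
    refine Finset.sum_congr rfl fun i _ => ?_
    ring
  rw [ex_congr h, ex_sum]
  refine Finset.sum_congr rfl fun i _ => ?_
  rw [ex_mul_left]
  rfl

theorem tau_nonneg {m i : ℕ} (hi : i + 1 ≤ m) {t : ℝ} (h0 : 0 ≤ t) (h1 : t ≤ 1) :
    0 ≤ tau m i t := by
  unfold tau
  exact ex_nonneg h0 h1 (fun A _ => mul_nonneg (ind_nonneg _) (tt_nonneg hi A))

theorem tau_le_one (m i : ℕ) {t : ℝ} (h0 : 0 ≤ t) (h1 : t ≤ 1) : tau m i t ≤ 1 := by
  unfold tau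
  refine ex_le_of_le h0 h1 (fun A _ => ?_)
  by_cases hA : Col A
  · rw [ind_of hA, one_mul]
    exact tt_le_one m i A
  · rw [ind_of_not hA, zero_mul]
    exact zero_le_one

theorem tau_small {m i : ℕ} (hi : i ≤ 1) (t : ℝ) : tau m i t = 0 := by
  unfold tau
  have h : ∀ A, A ⊆ EN m → ind (Col A) * tt m i A = 0 := by
    intro A _
    by_cases hA : Col A
    · unfold tt
      rw [nu_small (by omega) hA, nu_small (by omega) hA, sub_zero, mul_zero]
    · rw [ind_of_not hA, zero_mul]
  rw [ex_congr h, ex_const]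

theorem continuous_tau (m i : ℕ) : Continuous (tau m i) :=
  continuous_ex (EN m) (fun A => ind (Col A) * tt m i A)

theorem continuous_Bf (m i : ℕ) (θ : ℝ) : Continuous (Bf m i θ) :=
  continuous_ex (EN m) (fun A => ind (Col A) * bigf m i θ A)

theorem continuous_ell (m : ℕ) (θ : ℝ) : Continuous (ell m θ) :=
  continuous_ex (EN m) (fun A => ind (Col A ∧ Big m θ A))

theorem continuous_Dn (m : ℕ) : Continuous (Dn m) :=
  continuous_ex (EN m) (fun A => ind (¬ Col A) * ((Dset m A).card : ℝ))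

theorem continuous_kap (m : ℕ) : Continuous (kap m) :=
  continuous_ex (EN m) (fun A => ind (¬ Col A) * ((A.filter (fun e => Col (A.erase e))).card : ℝ))

theorem continuous_K2 (l : ℕ) : Continuous (K2 l) :=
  continuous_ex (EN (l + 2)) (fun A => ind (¬ Col A ∧ Col (A.filter (fun e => l ∉ e)) ∧
    Col (A.filter (fun e => (l + 1) ∉ e))))

end Pool.Agent.LC3
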