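import Pool.Agent.LC3.KapLe
import Pool.Agent.LC3.K2Id
import Pool.Agent.LC3.MA5
import Pool.Agent.LC3.TauId

/-!
# LC3.MA6 : lower bound of the integral of the number of pivotal vertices

For `t` in the window `W_n = [al/n, be/n]`, by `kap_le ε` (constants `δ, C`) and `D2_le` (`l = n-2`, `δ n ≥ 2`):
`t dq n t = kap n t ≤ (1+ε) Dn n t + C n (2/δ^2) K2 (n-2) t + C/n`. Divide by `t` and integrate:
`∫ dq n ≤ (1+ε) ∫ Dn n t/t + (2C/δ^2) (n ∫ K2 (n-2) t/t) + (C/n) ∫ 1/t`, with `∫ dq n ≥ 1 - ε/2`
(`int_dq_ge`), `∫ 1/t ≤ n/al * (be-al)/n ≤ 50`, `(C/n) 50 ≤ ε/2` for `n` large.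
(Continuity: `continuous_dq`, `continuous_Dn`, `continuous_K2`.)
-/

set_option autoImplicit false

open Classical

namespace Pool.Agent.LC3

theorem int_kap (ε : ℝ) (hε : 0 < ε) : ∃ C : ℝ, 0 < C ∧ ∃ N : ℕ, ∀ n : ℕ, N ≤ n →
    1 - ε ≤ (1 + ε) * (∫ t in (al / n)..(be / n), Dn n t / t) +
      C * (n * ∫ t in (al / n)..(be / n), K2 (n - 2) t / t) := by
  obtain ⟨δ, hδ, C, hC, N1, h1⟩ := kap_le ε hε
  obtain ⟨N2, h2⟩ := int_dq_ge (ε / 2) (by positivity)
  refine ⟨C * (2 / δ ^ 2), by positivity,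
    max (max N1 N2) (max (max 6 ⌈2 / δ⌉₊) ⌈100 * C / ε⌉₊), fun n hn => ?_⟩
  have hnN1 : N1 ≤ n := le_trans (le_trans (le_max_left _ _) (le_max_left _ _)) hn
  have hnN2 : N2 ≤ n := le_trans (le_trans (le_max_right _ _) (le_max_left _ _)) hn
  have hn6 : 6 ≤ n := le_trans (le_trans (le_trans (le_max_left _ _) (le_max_left _ _))
    (le_max_right _ _)) hn
  have hnd : ⌈2 / δ⌉₊ ≤ n := le_trans (le_trans (le_trans (le_max_right _ _) (le_max_left _ _))
    (le_max_right _ _)) hn
  have hnc : ⌈100 * C / ε⌉₊ ≤ n := le_trans (le_trans (le_max_right _ _) (le_max_right _ _)) hn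
  have hnr : (6 : ℝ) ≤ n := by exact_mod_cast hn6
  have hn0 : (0 : ℝ) < n := by linarith
  have hal : (0 : ℝ) < al := by unfold al; norm_num
  have hδn : 2 ≤ δ * n := by
    have h3 : 2 / δ ≤ n := (Nat.le_ceil _).trans (by exact_mod_cast hnd)
    rw [div_le_iff₀ hδ] at h3
    linarith
  have hCn : 100 * C ≤ n * ε := by
    have h3 : 100 * C / ε ≤ n := (Nat.le_ceil _).trans (by exact_mod_cast hnc)
    rwa [div_le_iff₀ hε] at h3
  have ha : 0 < al / n := by positivity
  have hab : al / n ≤ be / n := by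
    apply div_le_div_of_nonneg_right _ hn0.le
    unfold al be
    norm_num
  have hb1 : be / n ≤ 1 := by
    rw [div_le_one hn0]
    unfold be
    linarith
  have hpt : ∀ t ∈ Set.Icc (al / (n : ℝ)) (be / n), dq n t ≤ (1 + ε) * (Dn n t / t) +
      C * (2 / δ ^ 2) * (n * (K2 (n - 2) t / t)) + C / al := by
    intro t ht
    have ht0 : 0 < t := lt_of_lt_of_le ha ht.1
    have ht1 : t ≤ 1 := ht.2.trans hb1
    have e1 := h1 n hnN1 t ht0.le ht.2
    have e3 : ((n - 2 : ℕ) : ℝ) + 2 = n := by
      rw [Nat.cast_sub (by omega)]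
      push_cast
      ring
    have e2 := D2_le (n - 2) hδ (by rw [e3]; exact hδn) ht0.le ht1
    rw [e3, show n - 2 + 2 = n by omega] at e2
    rw [kap_eq] at e1
    have e4 := mul_le_mul_of_nonneg_left e2 (by positivity : 0 ≤ C * n)
    have e5 : C / n ≤ C / al * t := by
      have e8 : C / n = C / al * (al / n) := by field_simp
      rw [e8]
      exact mul_le_mul_of_nonneg_left ht.1 (by positivity)
    have e7 : t * ((1 + ε) * (Dn n t / t) + C * (2 / δ ^ 2) * (n * (K2 (n - 2) t / t)) + C / al) =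
        (1 + ε) * Dn n t + C * n * (2 / δ ^ 2 * K2 (n - 2) t) + C / al * t := by
      have ht' := ht0.ne'
      have f1 : t * (Dn n t / t) = Dn n t := mul_div_cancel₀ _ ht'
      have f2 : t * (K2 (n - 2) t / t) = K2 (n - 2) t := mul_div_cancel₀ _ ht'
      calc t * ((1 + ε) * (Dn n t / t) + C * (2 / δ ^ 2) * (n * (K2 (n - 2) t / t)) + C / al)
          = (1 + ε) * (t * (Dn n t / t)) + C * (2 / δ ^ 2) * n * (t * (K2 (n - 2) t / t)) +
            C / al * t := by ring
        _ = _ := by rw [f1, f2]; ring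
    have e6 : t * dq n t ≤ t * ((1 + ε) * (Dn n t / t) +
        C * (2 / δ ^ 2) * (n * (K2 (n - 2) t / t)) + C / al) := by
      rw [e7]
      linarith
    exact le_of_mul_le_mul_left e6 ht0
  have hne : ∀ t ∈ Set.Icc (al / (n : ℝ)) (be / n), t ≠ 0 :=
    fun t ht => (lt_of_lt_of_le ha ht.1).ne'
  have i1 : IntervalIntegrable (fun t => Dn n t / t) MeasureTheory.volume (al / n) (be / n) := by
    apply ContinuousOn.intervalIntegrable_of_Icc hab
    exact (continuous_Dn n).continuousOn.div continuousOn_id hne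
  have i2 : IntervalIntegrable (fun t => K2 (n - 2) t / t) MeasureTheory.volume
      (al / n) (be / n) := by
    apply ContinuousOn.intervalIntegrable_of_Icc hab
    exact (continuous_K2 (n - 2)).continuousOn.div continuousOn_id hne
  have i3 : IntervalIntegrable (fun t => (1 + ε) * (Dn n t / t)) MeasureTheory.volume
      (al / n) (be / n) := i1.const_mul _
  have i4 : IntervalIntegrable (fun t => C * (2 / δ ^ 2) * (n * (K2 (n - 2) t / t)))
      MeasureTheory.volume (al / n) (be / n) := (i2.const_mul _).const_mul _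
  have i5 : IntervalIntegrable (fun _ : ℝ => C / al) MeasureTheory.volume (al / n) (be / n) :=
    intervalIntegrable_const
  have i6 : IntervalIntegrable (dq n) MeasureTheory.volume (al / n) (be / n) :=
    (continuous_dq n).intervalIntegrable _ _
  have hmono := intervalIntegral.integral_mono_on hab i6 ((i3.add i4).add i5) hpt
  have hint : ∫ t in (al / (n : ℝ))..(be / n), ((1 + ε) * (Dn n t / t) +
      C * (2 / δ ^ 2) * (n * (K2 (n - 2) t / t)) + C / al) =
      (1 + ε) * (∫ t in (al / n)..(be / n), Dn n t / t) +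
      C * (2 / δ ^ 2) * (n * ∫ t in (al / n)..(be / n), K2 (n - 2) t / t) +
      (be / n - al / n) * (C / al) := by
    rw [intervalIntegral.integral_add (i3.add i4) i5, intervalIntegral.integral_add i3 i4,
      intervalIntegral.integral_const_mul, intervalIntegral.integral_const_mul,
      intervalIntegral.integral_const_mul, intervalIntegral.integral_const, smul_eq_mul]
  have hge := h2 n hnN2 n (by omega) le_rfl
  have hlast : (be / n - al / n) * (C / al) ≤ ε / 2 := by
    have e9 : (be / n - al / n) * (C / al) = (be - al) / al * C / n := by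
      field_simp
    rw [e9, div_le_iff₀ hn0]
    have e10 : (be - al) / al ≤ 50 := by
      unfold be al
      norm_num
    nlinarith
  have hfin : 1 - ε / 2 ≤ (1 + ε) * (∫ t in (al / n)..(be / n), Dn n t / t) +
      C * (2 / δ ^ 2) * (n * ∫ t in (al / n)..(be / n), K2 (n - 2) t / t) +
      (be / n - al / n) * (C / al) := by
    rw [← hint]
    exact hge.trans hmono
  linarith

end Pool.Agent.LC3
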