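import Pool.Agent.LC3.SizeId

/-!
# LC3.NbarLe : comparison of `nbar` with the proportion of nets of size `D`

With `c_i` the number of nets of size `i`: for fixed `i ≤ D-1`, the number of pairs `(x,W)`, `x < m`,
`|W| = i`, with `insert x W` a net is `(i+1) c_{i+1} + i c_i`
(`x ∉ W`, resp. `x ∈ W`) `= C(m,i) ((m-i) nu_{i+1} + i nu_i) ≤ C(m,i) m nu_D` (`nu_mono`). So
`nbar m t A ≤ ∑_{i<D} t^i(1-t)^(m-i) C(m,i) nu m D A + P(|W| ≥ D) ≤ nu m D A + P(|W| ≥ D)`
(`ex_by_card`). `Rr_mono` etc.: `Rr` is a sum of expectations with nonnegative weights.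
-/

set_option autoImplicit false

open Classical

namespace Pool.Agent.LC3

private theorem dc (m i : ℕ) (f : Finset ℕ → ℝ) :
    ∑ W ∈ (Finset.range m).powersetCard i, ∑ x ∈ Finset.range m \ W, f (insert x W) =
      ∑ Z ∈ (Finset.range m).powersetCard (i + 1), ∑ _z ∈ Z, f Z := by
  rw [Finset.sum_sigma', Finset.sum_sigma']
  refine Finset.sum_nbij' (fun p => ⟨insert p.2 p.1, p.2⟩) (fun p => ⟨p.1.erase p.2, p.2⟩) ?_ ?_ ?_ ?_ ?_
  · rintro ⟨W, x⟩ h
    simp only [Finset.mem_sigma, Finset.mem_powersetCard, Finset.mem_sdiff] at h ⊢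
    obtain ⟨⟨h1, h2⟩, h3, h4⟩ := h
    exact ⟨⟨Finset.insert_subset h3 h1, by rw [Finset.card_insert_of_notMem h4, h2]⟩, Finset.mem_insert_self _ _⟩
  · rintro ⟨Z, z⟩ h
    simp only [Finset.mem_sigma, Finset.mem_powersetCard, Finset.mem_sdiff] at h ⊢
    obtain ⟨⟨h1, h2⟩, h3⟩ := h
    exact ⟨⟨(Finset.erase_subset _ _).trans h1, by rw [Finset.card_erase_of_mem h3, h2]; rfl⟩, h1 h3,
      Finset.notMem_erase _ _⟩
  · rintro ⟨W, x⟩ h
    simp only [Finset.mem_sigma, Finset.mem_powersetCard, Finset.mem_sdiff] at h ⊢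
    obtain ⟨⟨h1, h2⟩, h3, h4⟩ := h
    rw [Finset.erase_insert h4]
  · rintro ⟨Z, z⟩ h
    simp only [Finset.mem_sigma, Finset.mem_powersetCard] at h ⊢
    obtain ⟨⟨h1, h2⟩, h3⟩ := h
    rw [Finset.insert_erase h3]
  · rintro ⟨W, x⟩ _
    rfl

private theorem sum_ind_card {α : Type*} (s : Finset α) (p : α → Prop) :
    ∑ a ∈ s, ind (p a) = ((s.filter p).card : ℝ) := by
  rw [Finset.card_filter]
  push_cast
  rfl

private theorem cnt_eq {m i : ℕ} (hi : i ≤ m) (A : Finset (Sym2 ℕ)) :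
    ∑ W ∈ (Finset.range m).powersetCard i, ind (Net A W) = (m.choose i : ℝ) * nu m i A := by
  rw [sum_ind_card]
  unfold nu
  have : (m.choose i : ℝ) ≠ 0 := by
    have := Nat.choose_pos hi
    positivity
  field_simp

private theorem claim_sum {m D i : ℕ} (h2 : D ≤ m) (hi : i < D) (A : Finset (Sym2 ℕ)) :
    ∑ W ∈ (Finset.range m).powersetCard i, ∑ x ∈ Finset.range m, ind (Net A (insert x W)) ≤
      (m.choose i : ℝ) * (m * nu m D A) := by
  have hsplit : ∀ W ∈ (Finset.range m).powersetCard i, ∑ x ∈ Finset.range m, ind (Net A (insert x W)) =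
      ∑ x ∈ Finset.range m \ W, ind (Net A (insert x W)) + (i : ℝ) * ind (Net A W) := by
    intro W hW
    rw [Finset.mem_powersetCard] at hW
    rw [← Finset.sum_sdiff hW.1]
    congr 1
    rw [Finset.sum_congr rfl (g := fun _ => ind (Net A W))]
    · rw [Finset.sum_const, hW.2, nsmul_eq_mul]
    · intro x hx
      rw [Finset.insert_eq_of_mem hx]
  rw [Finset.sum_congr rfl hsplit, Finset.sum_add_distrib, ← Finset.mul_sum, dc m i (fun W => ind (Net A W)),
    cnt_eq (by omega)]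
  have h3 : ∑ Z ∈ (Finset.range m).powersetCard (i + 1), ∑ _z ∈ Z, ind (Net A Z) =
      ((i : ℝ) + 1) * ((m.choose (i + 1) : ℝ) * nu m (i + 1) A) := by
    rw [← cnt_eq (by omega), Finset.mul_sum]
    apply Finset.sum_congr rfl
    intro Z hZ
    rw [Finset.mem_powersetCard] at hZ
    rw [Finset.sum_const, hZ.2, nsmul_eq_mul]
    push_cast
    rfl
  rw [h3]
  have h4 : ((i : ℝ) + 1) * (m.choose (i + 1) : ℝ) = (m.choose i : ℝ) * ((m : ℝ) - i) := by
    have := Nat.choose_succ_right_eq m i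
    have h5 : ((m - i : ℕ) : ℝ) = (m : ℝ) - i := by
      rw [Nat.cast_sub (by omega)]
    rw [← h5]
    have h6 : ((m.choose (i + 1) * (i + 1) : ℕ) : ℝ) = ((m.choose i * (m - i) : ℕ) : ℝ) := by rw [this]
    push_cast at h6 ⊢
    linarith
  have h7 : nu m i A ≤ nu m D A := nu_mono (by omega) h2 A
  have h8 : nu m (i + 1) A ≤ nu m D A := nu_mono (by omega) h2 A
  have h9 : (0 : ℝ) ≤ (m : ℝ) - i := by
    have : (i : ℝ) ≤ m := by exact_mod_cast (by omega : i ≤ m)
    linarith
  have h10 : (0 : ℝ) ≤ (m.choose i : ℝ) := by positivity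
  calc ((i : ℝ) + 1) * ((m.choose (i + 1) : ℝ) * nu m (i + 1) A) + (i : ℝ) * ((m.choose i : ℝ) * nu m i A)
      = (m.choose i : ℝ) * (((m : ℝ) - i) * nu m (i + 1) A + i * nu m i A) := by
        rw [← mul_assoc, h4]; ring
    _ ≤ (m.choose i : ℝ) * (((m : ℝ) - i) * nu m D A + i * nu m D A) := by
        apply mul_le_mul_of_nonneg_left _ h10
        apply add_le_add
        · exact mul_le_mul_of_nonneg_left h8 h9
        · exact mul_le_mul_of_nonneg_left h7 (by positivity)
    _ = (m.choose i : ℝ) * (m * nu m D A) := by ring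

theorem nbar_le {m D : ℕ} (h1 : 1 ≤ D) (h2 : D ≤ m) {t : ℝ} (ht0 : 0 ≤ t) (ht1 : t ≤ 1)
    (A : Finset (Sym2 ℕ)) :
    nbar m t A ≤ nu m D A + ex t (Finset.range m) (fun W => ind (D ≤ W.card)) := by
  have hm : (0 : ℝ) < m := by exact_mod_cast (by omega : 0 < m)
  set F : Finset ℕ → ℝ := fun W => (1 / (m : ℝ)) * ∑ x ∈ Finset.range m, ind (Net A (insert x W)) with hF
  have hF0 : ∀ W, 0 ≤ F W := by
    intro W
    apply mul_nonneg (by positivity)
    exact Finset.sum_nonneg fun x _ => ind_nonneg _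
  have hF1 : ∀ W, F W ≤ 1 := by
    intro W
    have : ∑ x ∈ Finset.range m, ind (Net A (insert x W)) ≤ m := by
      refine (Finset.sum_le_sum (g := fun _ => (1 : ℝ)) fun x _ => ind_le_one _).trans ?_
      simp
    rw [hF]
    simp only
    rw [one_div, inv_mul_le_iff₀ hm, mul_one]
    exact this
  have e1 : nbar m t A = ex t (Finset.range m) F := by
    unfold nbar
    rw [← ex_sum, ← ex_mul_left]
  have e2 : ex t (Finset.range m) F ≤
      ex t (Finset.range m) (fun W => ind (W.card < D) * F W + ind (D ≤ W.card)) := by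
    apply ex_mono ht0 ht1
    intro W _
    by_cases hW : W.card < D
    · rw [ind_of hW, ind_of_not (by omega : ¬ D ≤ W.card)]
      linarith
    · rw [ind_of_not hW, ind_of (by omega : D ≤ W.card)]
      linarith [hF1 W]
  rw [ex_add] at e2
  have e3 : ex t (Finset.range m) (fun W => ind (W.card < D) * F W) ≤
      ex t (Finset.range m) (fun _ => nu m D A) := by
    rw [ex_by_card, ex_by_card]
    apply Finset.sum_le_sum
    intro i hi
    rw [Finset.card_range, Finset.mem_range] at hi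
    apply mul_le_mul_of_nonneg_left
    · rw [Finset.sum_const, Finset.card_powersetCard, Finset.card_range, nsmul_eq_mul]
      have e4 : ∑ W ∈ (Finset.range m).powersetCard i, ind (W.card < D) * F W =
          ind (i < D) * ∑ W ∈ (Finset.range m).powersetCard i, F W := by
        rw [Finset.mul_sum]
        apply Finset.sum_congr rfl
        intro W hW
        rw [(Finset.mem_powersetCard.1 hW).2]
      rw [e4]
      have hnn : 0 ≤ nu m D A := nu_nonneg m D A
      by_cases hiD : i < D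
      · rw [ind_of hiD, one_mul, hF, ← Finset.mul_sum, one_div, inv_mul_le_iff₀ hm]
        refine (claim_sum h2 hiD A).trans (le_of_eq (by ring))
      · rw [ind_of_not hiD, zero_mul]
        positivity
    · have : 0 ≤ 1 - t := by linarith
      positivity
  rw [ex_const] at e3
  rw [e1]
  linarith

theorem Rr_mono (m : ℕ) {t : ℝ} (h0 : 0 ≤ t) (h1 : t ≤ 1) {g g' : Finset (Sym2 ℕ) → ℝ}
    (h : ∀ A, A ⊆ EN m → Col A → g A ≤ g' A) : Rr m t g ≤ Rr m t g' := by
  unfold Rr
  apply Finset.sum_le_sum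
  intro e he
  apply ex_mono h0 h1
  intro A hA
  by_cases hc : Col A ∧ ¬ Col (insert e A)
  · rw [ind_of hc]
    simp only [one_mul]
    exact h A (hA.trans (Finset.erase_subset _ _)) hc.1
  · rw [ind_of_not hc]
    simp

theorem Rr_add (m : ℕ) (t : ℝ) (g g' : Finset (Sym2 ℕ) → ℝ) :
    Rr m t (fun A => g A + g' A) = Rr m t g + Rr m t g' := by
  unfold Rr
  rw [← Finset.sum_add_distrib]
  apply Finset.sum_congr rfl
  intro e _
  rw [← ex_add]
  apply ex_congr
  intro A _
  ring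

theorem Rr_mul_left (m : ℕ) (t c : ℝ) (g : Finset (Sym2 ℕ) → ℝ) :
    Rr m t (fun A => c * g A) = c * Rr m t g := by
  unfold Rr
  rw [Finset.mul_sum]
  apply Finset.sum_congr rfl
  intro e _
  rw [← ex_mul_left]
  apply ex_congr
  intro A _
  ring

theorem Rr_sum {ι : Type*} (m : ℕ) (t : ℝ) (s : Finset ι) (g : ι → Finset (Sym2 ℕ) → ℝ) :
    Rr m t (fun A => ∑ i ∈ s, g i A) = ∑ i ∈ s, Rr m t (g i) := by
  unfold Rr
  rw [Finset.sum_comm]
  apply Finset.sum_congr rfl
  intro e _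
  rw [← ex_sum]
  apply ex_congr
  intro A _
  rw [Finset.mul_sum]

/-- for weights `g` not depending on `t` -/
theorem continuous_Rr (m : ℕ) (g : Finset (Sym2 ℕ) → ℝ) : Continuous (fun t : ℝ => Rr m t g) := by
  unfold Rr ex
  fun_prop

theorem continuous_Rr_nbar (m : ℕ) : Continuous (fun t : ℝ => Rr m t (nbar m t)) := by
  unfold Rr nbar ex
  fun_prop

end Pool.Agent.LC3
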