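import Pool.Agent.LC3.Flow
import Pool.Agent.LC3.NbarLe
import Pool.Agent.LC3.MA5
import Pool.Agent.LC3.TauId

/-!
# LC3.MB1 : when colourability dies, many `D`-sets are nets

`n` large, `m+1 = n` or `m+2 = n`, `W_n = [al/n, be/n]`. Since `1/t ≤ n/al` on `W_n`,
`∫_{W_n} ell (m+1) θ t ≥ ρ al/n^2`, and `m^2 ≥ n^2/4`, so by `flow_big`
`ρ' := θ^4 ρ al/32 ≤ ∫_0^1 Rr m t (nbar m t) dt`. As `0 ≤ nbar ≤ 1`, `Rr m t (nbar m t) ≤ Rr m t 1 = dq m t`
(`Rr_mono`, `Rr_one`), and `∫_0^{al/n} dq m = q m (al/n) ≤ ρ'/4` (`q_left`), `∫_{be/n}^1 dq m ≤ 1 - q m (be/n)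
≤ ρ'/4` (`q_right`). So `ρ'/2 ≤ ∫_{W_n} Rr m t (nbar m t) dt`. Let `D = ⌈8 be/ρ'⌉ + 1`, `η = ρ'/8`. On `W_n`
(`nbar_le`, `ex_card_ge`, `m t ≤ be`): `nbar m t A ≤ nu m D A + be/D ≤ ind (η ≤ nu m D A) + η + ρ'/8`.
With `∫_{W_n} Rr m t 1 ≤ 1`: `ρ'/2 ≤ ∫_{W_n} Rr m t (ind (η ≤ nu m D A)) + ρ'/4`, and `η ≤ ρ'/4`.
-/

set_option autoImplicit false

open Classical

namespace Pool.Agent.LC3

private theorem nbar_le_one {m : ℕ} (hm : 0 < m) {t : ℝ} (h0 : 0 ≤ t) (h1 : t ≤ 1)
    (A : Finset (Sym2 ℕ)) : nbar m t A ≤ 1 := by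
  have hm' : (0 : ℝ) < m := by exact_mod_cast hm
  unfold nbar
  have h : ∑ x ∈ Finset.range m, ex t (Finset.range m) (fun W => ind (Net A (insert x W))) ≤ m := by
    refine (Finset.sum_le_sum (g := fun _ => (1 : ℝ)) fun x _ =>
      ex_le_of_le h0 h1 fun _ _ => ind_le_one _).trans ?_
    simp
  rw [one_div, inv_mul_le_iff₀ hm', mul_one]
  exact h

private theorem Rr_nbar_le_dq {m : ℕ} (hm : 0 < m) {t : ℝ} (h0 : 0 ≤ t) (h1 : t ≤ 1) :
    Rr m t (nbar m t) ≤ dq m t := by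
  rw [← Rr_one]
  exact Rr_mono m h0 h1 fun A _ _ => nbar_le_one hm h0 h1 A

private theorem ell_int {n m : ℕ} (hn : 0 < n) {θ ρ : ℝ}
    (h : ρ ≤ n * ∫ t in (al / n)..(be / n), ell (m + 1) θ t / t) (hbn : be / n < 1) :
    ρ * al / (n : ℝ) ^ 2 ≤ ∫ t in (al / n)..(be / n), ell (m + 1) θ t := by
  have hn' : (0 : ℝ) < n := by exact_mod_cast hn
  have hal := al_pos
  have hab : al / n ≤ be / n := by
    have := al_lt_be.le
    gcongr
  have ha0 : (0 : ℝ) < al / n := by positivity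
  have h2 : ∫ t in (al / n)..(be / n), ell (m + 1) θ t / t ≤
      ∫ t in (al / n)..(be / n), (n / al) * ell (m + 1) θ t := by
    apply intervalIntegral.integral_mono_on hab
    · apply ContinuousOn.intervalIntegrable
      rw [Set.uIcc_of_le hab]
      apply ContinuousOn.div (continuous_ell _ _).continuousOn continuousOn_id
      intro t ht
      exact (ha0.trans_le ht.1).ne'
    · exact (continuous_const.mul (continuous_ell _ _)).intervalIntegrable _ _
    · intro t ht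
      have ht0 : 0 < t := ha0.trans_le ht.1
      have hell : 0 ≤ ell (m + 1) θ t := by
        unfold ell
        exact ex_nonneg ht0.le (ht.2.trans hbn.le) (fun A _ => ind_nonneg _)
      rw [div_eq_mul_inv, mul_comm]
      apply mul_le_mul_of_nonneg_right _ hell
      rw [inv_le_comm₀ ht0 (by positivity), inv_div]
      exact ht.1
  rw [intervalIntegral.integral_const_mul] at h2
  have h3 : ρ ≤ n * ((n / al) * ∫ t in (al / n)..(be / n), ell (m + 1) θ t) :=
    h.trans (mul_le_mul_of_nonneg_left h2 hn'.le)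
  rw [div_le_iff₀ (by positivity)]
  have h4 : n * ((n / al) * ∫ t in (al / n)..(be / n), ell (m + 1) θ t) * al =
      (∫ t in (al / n)..(be / n), ell (m + 1) θ t) * (n : ℝ) ^ 2 := by
    field_simp
  rw [← h4]
  exact mul_le_mul_of_nonneg_right h3 hal.le

theorem mb1 (θ ρ : ℝ) (hθ : 0 < θ) (hρ : 0 < ρ) : ∃ D : ℕ, 1 ≤ D ∧ ∃ η : ℝ, 0 < η ∧ ∃ N : ℕ,
    ∀ n m : ℕ, N ≤ n → n ≤ m + 2 → m + 1 ≤ n →
    ρ ≤ n * ∫ t in (al / n)..(be / n), ell (m + 1) θ t / t →
    η ≤ ∫ t in (al / n)..(be / n), Rr m t (fun A => ind (η ≤ nu m D A)) := by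
  have hal := al_pos
  have hbe : 0 < be := hal.trans al_lt_be
  obtain ⟨r, hr⟩ : ∃ r : ℝ, r = θ ^ 4 * ρ * al / 32 := ⟨_, rfl⟩
  have hr0 : 0 < r := by rw [hr]; positivity
  obtain ⟨N1, hN1⟩ := q_left (r / 4) (by positivity)
  obtain ⟨δ, hδ, N2, hN2⟩ := q_right
  obtain ⟨D, hD⟩ : ∃ D : ℕ, D = ⌈8 * be / r⌉₊ + 1 := ⟨_, rfl⟩
  have hDpos : 0 < D := by omega
  have hDR : (0 : ℝ) < D := by exact_mod_cast hDpos
  have hDr : be / D ≤ r / 8 := by
    have h1 : 8 * be / r ≤ (⌈8 * be / r⌉₊ : ℝ) := Nat.le_ceil _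
    have h2 : (D : ℝ) = (⌈8 * be / r⌉₊ : ℝ) + 1 := by rw [hD]; push_cast; ring
    have h3 : 8 * be / r ≤ D := by rw [h2]; linarith
    rw [div_le_iff₀ hr0] at h3
    rw [div_le_iff₀ hDR]
    linarith
  refine ⟨D, hDpos, r / 8, by positivity,
    N1 + N2 + (⌈10 / θ⌉₊ + 1) + ⌈4 / (r * δ)⌉₊ + D + 8, ?_⟩
  intro n m hn hm1 hm2 hell
  have hn8 : 8 ≤ n := by omega
  have hm4 : 4 ≤ m := by omega
  have hmn : m ≤ n := by omega
  have hmpos : 0 < m := by omega
  have hDm : D ≤ m := by omega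
  have hnR : (0 : ℝ) < n := by exact_mod_cast (by omega : 0 < n)
  have hn8R : (8 : ℝ) ≤ n := by exact_mod_cast hn8
  have hbn : be / n < 1 := by
    rw [div_lt_one hnR]
    unfold be
    linarith
  have hab : al / n ≤ be / n := by
    have := al_lt_be.le
    gcongr
  have ha0 : (0 : ℝ) < al / n := by positivity
  have hm2R : 10 ≤ θ * ((m : ℝ) + 1) := by
    have h1 : 10 / θ ≤ (⌈10 / θ⌉₊ : ℝ) := Nat.le_ceil _
    have h2 : ((⌈10 / θ⌉₊ : ℕ) : ℝ) ≤ (m : ℝ) := by
      exact_mod_cast (by omega : ⌈10 / θ⌉₊ ≤ m)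
    rw [div_le_iff₀ hθ] at h1
    nlinarith
  have hexp : Real.exp (-(δ * n)) ≤ r / 4 := by
    have h1 : 4 / (r * δ) ≤ (⌈4 / (r * δ)⌉₊ : ℝ) := Nat.le_ceil _
    have h2 : ((⌈4 / (r * δ)⌉₊ : ℕ) : ℝ) ≤ (n : ℝ) := by
      exact_mod_cast (by omega : ⌈4 / (r * δ)⌉₊ ≤ n)
    have h3 : 4 / (r * δ) ≤ n := h1.trans h2
    rw [div_le_iff₀ (by positivity)] at h3
    have h4 := Real.add_one_le_exp (δ * n)
    have h5 : Real.exp (-(δ * n)) * Real.exp (δ * n) = 1 := by
      rw [← Real.exp_add]; simp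
    have h6 : Real.exp (-(δ * n)) * (4 / r) ≤ Real.exp (-(δ * n)) * Real.exp (δ * n) := by
      apply mul_le_mul_of_nonneg_left _ (Real.exp_pos _).le
      rw [div_le_iff₀ hr0]
      nlinarith
    rw [h5, ← mul_div_assoc, div_le_one hr0] at h6
    linarith
  -- lower bound for the whole integral
  have hwhole : r ≤ ∫ t in (0 : ℝ)..1, Rr m t (nbar m t) := by
    have h1 := ell_int (by omega : 0 < n) hell hbn
    have h2 := flow_big hm4 hθ hm2R ha0.le hab hbn
    refine le_trans ?_ h2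
    have h3 : (n : ℝ) / 2 ≤ m := by
      have : (n : ℝ) ≤ (m : ℝ) + 2 := by exact_mod_cast hm1
      linarith
    have h4 : (n : ℝ) ^ 2 / 4 ≤ (m : ℝ) ^ 2 := by nlinarith
    calc r = θ ^ 4 / 8 * ((n : ℝ) ^ 2 / 4) * (ρ * al / (n : ℝ) ^ 2) := by
          rw [hr]; field_simp; ring
      _ ≤ θ ^ 4 / 8 * (m : ℝ) ^ 2 * ∫ t in (al / n)..(be / n), ell (m + 1) θ t := by
          apply mul_le_mul _ h1 (by positivity) (by positivity)
          apply mul_le_mul_of_nonneg_left h4 (by positivity)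
  have hcN := continuous_Rr_nbar m
  have hcq := continuous_dq m
  -- the left part
  have hleft : ∫ t in (0 : ℝ)..(al / n), Rr m t (nbar m t) ≤ r / 4 := by
    have h1 : ∫ t in (0 : ℝ)..(al / n), Rr m t (nbar m t) ≤ ∫ t in (0 : ℝ)..(al / n), dq m t := by
      apply intervalIntegral.integral_mono_on ha0.le (hcN.intervalIntegrable _ _)
        (hcq.intervalIntegrable _ _)
      intro t ht
      exact Rr_nbar_le_dq hmpos ht.1 (ht.2.trans (hab.trans hbn.le))
    rw [integral_dq, q_zero, sub_zero] at h1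
    exact h1.trans (hN1 n (by omega) m hmn)
  -- the right part
  have hright : ∫ t in (be / n)..(1 : ℝ), Rr m t (nbar m t) ≤ r / 4 := by
    have h1 : ∫ t in (be / n)..(1 : ℝ), Rr m t (nbar m t) ≤ ∫ t in (be / n)..(1 : ℝ), dq m t := by
      apply intervalIntegral.integral_mono_on hbn.le (hcN.intervalIntegrable _ _)
        (hcq.intervalIntegrable _ _)
      intro t ht
      exact Rr_nbar_le_dq hmpos ((ha0.le.trans hab).trans ht.1) ht.2
    rw [integral_dq, q_one hm4] at h1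
    have h2 := hN2 n (by omega) m hm1 hmn (be / n) le_rfl hbn.le
    linarith
  have hsplit : ∫ t in (0 : ℝ)..1, Rr m t (nbar m t) =
      (∫ t in (0 : ℝ)..(al / n), Rr m t (nbar m t)) +
      (∫ t in (al / n)..(be / n), Rr m t (nbar m t)) +
      ∫ t in (be / n)..(1 : ℝ), Rr m t (nbar m t) := by
    rw [intervalIntegral.integral_add_adjacent_intervals (hcN.intervalIntegrable _ _)
      (hcN.intervalIntegrable _ _),
      intervalIntegral.integral_add_adjacent_intervals (hcN.intervalIntegrable _ _)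
      (hcN.intervalIntegrable _ _)]
  have hmid : r / 2 ≤ ∫ t in (al / n)..(be / n), Rr m t (nbar m t) := by linarith
  -- comparison with the indicator
  have hcomp : ∫ t in (al / n)..(be / n), Rr m t (nbar m t) ≤
      ∫ t in (al / n)..(be / n), (Rr m t (fun A => ind (r / 8 ≤ nu m D A)) + r / 4 * dq m t) := by
    apply intervalIntegral.integral_mono_on hab (hcN.intervalIntegrable _ _)
    · exact ((continuous_Rr m _).add (continuous_const.mul hcq)).intervalIntegrable _ _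
    · intro t ht
      have ht0 : 0 < t := ha0.trans_le ht.1
      have ht1 : t ≤ 1 := ht.2.trans hbn.le
      rw [← Rr_one, ← Rr_mul_left, ← Rr_add]
      apply Rr_mono m ht0.le ht1
      intro A _ _
      have h1 := nbar_le hDpos hDm ht0.le ht1 A
      have h2 := ex_card_ge ht0.le ht1 (Finset.range m) D hDpos
      rw [Finset.card_range] at h2
      have h3 : (m : ℝ) * t ≤ be := by
        have h4 : (m : ℝ) ≤ n := by exact_mod_cast hmn
        calc (m : ℝ) * t ≤ n * (be / n) := mul_le_mul h4 ht.2 ht0.le hnR.le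
          _ = be := by field_simp
      have h4 : (m : ℝ) * t / D ≤ be / D := by gcongr
      have h5 : nu m D A ≤ ind (r / 8 ≤ nu m D A) + r / 8 := by
        by_cases h : r / 8 ≤ nu m D A
        · rw [ind_of h]
          have := nu_le_one m D A
          linarith
        · rw [ind_of_not h]
          linarith
      linarith
  have hcm : Continuous (fun t : ℝ => r / 4 * dq m t) := continuous_const.mul hcq
  rw [intervalIntegral.integral_add ((continuous_Rr m _).intervalIntegrable _ _)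
    (hcm.intervalIntegrable _ _), intervalIntegral.integral_const_mul] at hcomp
  have h7 := int_dq_le (by omega : 6 ≤ n) m
  have h8 : r / 4 * ∫ t in (al / n)..(be / n), dq m t ≤ r / 4 * 1 :=
    mul_le_mul_of_nonneg_left h7 (by positivity)
  linarith

end Pool.Agent.LC3
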