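import Pool.Agent.LC3.MA3
import Pool.Agent.LC3.MA4
import Pool.Agent.LC3.MA6

/-!
# LC3.MainA : large classes occur before the death of 3-colourability

Let `κ, C0` be from `int_Dn_le`; `ε = κ/(4 (C0+1)) (≤ 1)`; `C6` from `int_kap ε`; `δ0 = η = κ/(16 C6)`;
`θ` the minimum of the `θ0` of `int_Dn_le` for `ε` and of `int_hsq_le η`; `C3, C3'` the constants `C` of these two.
`ρ = κ/(16 (4 C3 + C6 C3'))`. For large `N` take the `n ∈ (N,2N]` of `K2_select δ0`. With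
`L = n ∫ ell n θ t/t`, `L' = n ∫ ell (n-1) θ t/t`, suppose `L < ρ` and `L' < ρ`. Then
`1 - ε ≤ (1+ε)[(1-κ) + C0 ε + 2 C3 ρ] + C6 [δ0 + η + C3' ρ]
   ≤ (1-κ) + (2 C0+1) ε + 4 C3 ρ + κ/8 + C6 C3' ρ`, i.e.
`κ ≤ (2 C0 + 2) ε + κ/8 + (4 C3 + C6 C3') ρ = κ/2 + κ/8 + κ/16 < κ`: contradiction. So `L ≥ ρ` (`m = n`) or
`L' ≥ ρ` (`m = n-1`).
-/

set_option autoImplicit false

open Classical

namespace Pool.Agent.LC3

theorem mainA_arith (κ C0 ε C3 C3' C6 δ0 η ρ L L' D K H : ℝ) (hκ : 0 < κ) (hκ1 : κ ≤ 1 / 100)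
    (hC0 : 0 < C0) (hC3 : 0 < C3) (hC3' : 0 < C3') (hC6 : 0 < C6) (hε : 0 < ε)
    (hεe : ε * (C0 + 1) = κ / 4) (hδ : C6 * δ0 = κ / 16) (hη : C6 * η = κ / 16)
    (hρ : (4 * C3 + C6 * C3') * ρ = κ / 16)
    (h1 : D ≤ (1 - κ) + C0 * ε + C3 * L + C3 * L')
    (h2 : H ≤ η + C3' * L') (h3 : K ≤ δ0 + H)
    (h4 : 1 - ε ≤ (1 + ε) * D + C6 * K) (hρ0 : 0 < ρ) (hL : L < ρ) (hL' : L' < ρ) : False := by
  have hε1 : ε ≤ 1 := by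
    have : 0 ≤ ε * C0 := by positivity
    nlinarith
  have a1 : C3 * L ≤ C3 * ρ := mul_le_mul_of_nonneg_left hL.le hC3.le
  have a2 : C3 * L' ≤ C3 * ρ := mul_le_mul_of_nonneg_left hL'.le hC3.le
  have a3 : C3' * L' ≤ C3' * ρ := mul_le_mul_of_nonneg_left hL'.le hC3'.le
  have b1 : D ≤ (1 - κ) + C0 * ε + 2 * (C3 * ρ) := by linarith
  have b2 : K ≤ δ0 + η + C3' * ρ := by linarith
  have c1 : (1 + ε) * D ≤ (1 + ε) * ((1 - κ) + C0 * ε + 2 * (C3 * ρ)) :=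
    mul_le_mul_of_nonneg_left b1 (by linarith)
  have c2 : C6 * K ≤ C6 * (δ0 + η + C3' * ρ) := mul_le_mul_of_nonneg_left b2 hC6.le
  have d1 : ε * (C0 * ε) ≤ C0 * ε := by
    have : 0 ≤ C0 * ε := by positivity
    nlinarith
  have d2 : ε * (C3 * ρ) ≤ C3 * ρ := by
    have : 0 ≤ C3 * ρ := by positivity
    nlinarith
  have d3 : 0 ≤ ε * κ := by positivity
  nlinarith

theorem mainA : ∃ θ : ℝ, 0 < θ ∧ ∃ ρ : ℝ, 0 < ρ ∧ ∀ N : ℕ, ∃ n : ℕ, N ≤ n ∧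
    ∃ m : ℕ, (m = n ∨ m + 1 = n) ∧ ρ ≤ n * ∫ t in (al / n)..(be / n), ell m θ t / t := by
  obtain ⟨κ, hκ, hκ1, C0, hC0, hD⟩ := int_Dn_le
  have hε : 0 < κ / (4 * (C0 + 1)) := by positivity
  obtain ⟨θ1, hθ1, hD1⟩ := hD _ hε
  obtain ⟨C6, hC6, N6, h6⟩ := int_kap _ hε
  have hη : 0 < κ / (16 * C6) := by positivity
  obtain ⟨θ2, hθ2, hH⟩ := int_hsq_le _ hη
  obtain ⟨N1, h1⟩ := K2_select _ hη
  obtain ⟨C3, hC3, N3, h3⟩ := hD1 (min θ1 θ2) (lt_min hθ1 hθ2) (min_le_left _ _)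
  obtain ⟨C3', hC3', N3', h3'⟩ := hH (min θ1 θ2) (lt_min hθ1 hθ2) (min_le_right _ _)
  have hS : 0 < 4 * C3 + C6 * C3' := by positivity
  refine ⟨min θ1 θ2, lt_min hθ1 hθ2, κ / (16 * (4 * C3 + C6 * C3')), by positivity, fun N => ?_⟩
  obtain ⟨n, hn1, -, hn⟩ := h1 (N + N1 + N3 + N3' + N6 + 1) (by omega)
  refine ⟨n, by omega, ?_⟩
  have e3 := h3 n (by omega)
  have e3' := h3' n (by omega)
  have e6 := h6 n (by omega)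
  by_contra hcon
  push Not at hcon
  have hL := hcon n (Or.inl rfl)
  have hL' := hcon (n - 1) (Or.inr (by omega))
  refine mainA_arith κ C0 _ C3 C3' C6 _ _ _ _ _ _ _ _ hκ hκ1 hC0 hC3 hC3' hC6 hε ?_ ?_ ?_ ?_
    e3 e3' hn e6 (by positivity) hL hL'
  · field_simp
  · field_simp
  · field_simp
  · field_simp

end Pool.Agent.LC3
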