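import Pool.Agent.LC3.ExA

/-!
# LC3.Split : the edges of the complete graph on `m+1` vertices

`EN (m+1) = EN m ⊔ st m (range m)`; hence `G(m+1,t)` is `G(m,t)` together with a new vertex `m`
joined to a random `t`-subset `W` of `range m`.
For `ex_EN_succ` use `ex_union` and `ex_image` (the map `w ↦ s(m,w)` is injective).
-/

set_option autoImplicit false

open Classical

namespace Pool.Agent.LC3

theorem mem_EN {n a b : ℕ} : s(a, b) ∈ EN n ↔ a < n ∧ b < n ∧ a ≠ b := by
  unfold EN EE
  rw [Finset.mem_filter, Finset.mk_mem_sym2_iff, Sym2.mk_isDiag_iff, Finset.mem_range,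
    Finset.mem_range, and_assoc]

theorem EN_mono {m n : ℕ} (h : m ≤ n) : EN m ⊆ EN n := by
  intro e
  induction e using Sym2.ind with
  | _ a b =>
    rw [mem_EN, mem_EN]
    rintro ⟨h1, h2, h3⟩
    exact ⟨h1.trans_le h, h2.trans_le h, h3⟩

private theorem split_mem_st {v : ℕ} {W : Finset ℕ} {a b : ℕ} :
    s(a, b) ∈ st v W ↔ (a = v ∧ b ∈ W) ∨ (b = v ∧ a ∈ W) := by
  unfold st
  rw [Finset.mem_image]
  constructor
  · rintro ⟨w, hw, h⟩
    rw [Sym2.eq_iff] at h
    rcases h with ⟨rfl, rfl⟩ | ⟨rfl, rfl⟩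
    · exact Or.inl ⟨rfl, hw⟩
    · exact Or.inr ⟨rfl, hw⟩
  · rintro (⟨rfl, h⟩ | ⟨rfl, h⟩)
    · exact ⟨b, h, rfl⟩
    · exact ⟨a, h, Sym2.eq_swap⟩

private theorem split_st_inj {v : ℕ} : Function.Injective (fun w : ℕ => s(v, w)) := by
  intro a b h
  simp only [Sym2.eq_iff] at h
  rcases h with ⟨_, h⟩ | ⟨h1, h2⟩
  · exact h
  · exact h2.trans h1

private theorem split_card_st (v : ℕ) (W : Finset ℕ) : (st v W).card = W.card :=
  Finset.card_image_of_injective _ split_st_inj

private theorem split_EN_succ (m : ℕ) : EN (m + 1) = EN m ∪ st m (Finset.range m) := by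
  ext e
  induction e using Sym2.ind with
  | _ a b =>
    rw [Finset.mem_union, mem_EN, mem_EN, split_mem_st, Finset.mem_range, Finset.mem_range]
    omega

private theorem split_disjoint (m : ℕ) (W : Finset ℕ) : Disjoint (EN m) (st m W) := by
  rw [Finset.disjoint_left]
  intro e
  induction e using Sym2.ind with
  | _ a b =>
    rw [mem_EN, split_mem_st]
    rintro ⟨h1, h2, h3⟩ (⟨h4, _⟩ | ⟨h4, _⟩)
    · omega
    · omega

theorem card_EN (n : ℕ) : (EN n).card = n.choose 2 := by
  induction n with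
  | zero =>
    have h1 : EN 0 = ∅ := by
      refine Finset.eq_empty_of_forall_notMem fun e => ?_
      induction e using Sym2.ind with
      | _ a b =>
        rw [mem_EN]
        rintro ⟨h1, _⟩
        omega
    rw [h1]
    rfl
  | succ n ih =>
    rw [split_EN_succ, Finset.card_union_of_disjoint (split_disjoint n _), ih, split_card_st,
      Finset.card_range, Nat.choose_succ_succ' n 1, Nat.choose_one_right, add_comm]

theorem mem_st {v : ℕ} {W : Finset ℕ} {a b : ℕ} :
    s(a, b) ∈ st v W ↔ (a = v ∧ b ∈ W) ∨ (b = v ∧ a ∈ W) := by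
  exact split_mem_st

theorem st_inj {v : ℕ} : Function.Injective (fun w : ℕ => s(v, w)) := by
  exact split_st_inj

theorem card_st (v : ℕ) (W : Finset ℕ) : (st v W).card = W.card := by
  exact split_card_st v W

theorem EN_succ (m : ℕ) : EN (m + 1) = EN m ∪ st m (Finset.range m) := by
  exact split_EN_succ m

theorem disjoint_EN_st (m : ℕ) (W : Finset ℕ) : Disjoint (EN m) (st m W) := by
  exact split_disjoint m W

/-- vertex `v ≥ n` does not occur in `EN n` -/
theorem not_mem_of_EN {n v : ℕ} (h : n ≤ v) {A : Finset (Sym2 ℕ)} (hA : A ⊆ EN n) :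
    ∀ e ∈ A, v ∉ e := by
  intro e he
  have h1 := hA he
  induction e using Sym2.ind with
  | _ a b =>
    rw [mem_EN] at h1
    rw [Sym2.mem_iff]
    rintro (h2 | h2)
    · omega
    · omega

theorem ex_EN_succ (t : ℝ) (m : ℕ) (f : Finset (Sym2 ℕ) → ℝ) :
    ex t (EN (m + 1)) f =
      ex t (EN m) (fun A => ex t (Finset.range m) (fun W => f (A ∪ st m W))) := by
  rw [EN_succ, ex_union t _ _ (disjoint_EN_st m _) f]
  refine ex_congr fun A _ => ?_
  unfold st
  exact ex_image t (Finset.range m) (fun w => s(m, w)) (st_inj.injOn) (fun B => f (A ∪ B))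

/-- removing the new vertex -/
theorem filter_succ {m : ℕ} {A : Finset (Sym2 ℕ)} {W : Finset ℕ} (hA : A ⊆ EN m) :
    (A ∪ st m W).filter (fun e => m ∉ e) = A := by
  rw [Finset.filter_union]
  have h1 : A.filter (fun e => m ∉ e) = A :=
    Finset.filter_true_of_mem (not_mem_of_EN le_rfl hA)
  have h2 : (st m W).filter (fun e => m ∉ e) = ∅ := by
    refine Finset.filter_false_of_mem ?_
    intro e he
    unfold st at he
    obtain ⟨w, _, rfl⟩ := Finset.mem_image.1 he
    rw [not_not]
    exact Sym2.mem_mk_left _ _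
  rw [h1, h2, Finset.union_empty]

theorem inter_succ {m : ℕ} {A : Finset (Sym2 ℕ)} {W : Finset ℕ} (hA : A ⊆ EN m) :
    (A ∪ st m W) ∩ EN m = A := by
  rw [Finset.union_inter_distrib_right, Finset.inter_eq_left.2 hA,
    Finset.disjoint_iff_inter_eq_empty.1 (disjoint_EN_st m W).symm, Finset.union_empty]

/-- erasing an edge of `EN m` from `EN (m+1)` -/
theorem EN_succ_erase {m : ℕ} {e : Sym2 ℕ} (he : e ∈ EN m) :
    (EN (m + 1)).erase e = (EN m).erase e ∪ st m (Finset.range m) := by
  rw [EN_succ, Finset.erase_union_distrib]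
  congr 1
  refine Finset.erase_eq_of_notMem ?_
  exact Finset.disjoint_left.1 (disjoint_EN_st m _) he

/-- erasing an edge at the new vertex from `EN (m+1)` -/
theorem EN_succ_erase' {m w : ℕ} (hw : w < m) :
    (EN (m + 1)).erase s(m, w) = EN m ∪ st m ((Finset.range m).erase w) := by
  have h1 : s(m, w) ∉ EN m := by
    rw [mem_EN]
    rintro ⟨h2, _⟩
    omega
  rw [EN_succ, Finset.erase_union_distrib, Finset.erase_eq_of_notMem h1]
  congr 1
  unfold st
  exact (Finset.image_erase st_inj _ _).symm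

end Pool.Agent.LC3
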