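import Pool.Agent.LC3.SizeId
import Pool.Agent.LC3.Split

/-!
# LC3.ManyGood : if many `D`-sets are nets then a positive proportion of attachments is good

Fix `A ⊆ EN m`, `Col A`, `η ≤ nu m D A`.
(1) `nu m D A = ∑_{i<D} tt m i A` (`nu_eq_sum`), so some `i < D` has `tt m i A ≥ η/D`. The proportion of the
`i`-sets `Z` which are not nets and for which at least `(η/(2D)) (m-i)` vertices `x ∉ Z` satisfy
`Net A (insert x Z)` is at least `η/(2D)` (the average of `ind(¬Net Z) * #{x}/(m-i)` is `tt m i A`,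
cf. `bigf_ge` in `MonoT`). For such `Z`, `A1 = A ∪ st m Z` is colourable (`col_st`) and these `x`
satisfy `Eqv A1 m x` (`eqv_st`).
(2) Fix such `Z`. For `T ⊆ range m` let `f(T) = Net A1 (insert m T)`, monotone in `T`; `f(∅)` is false
(`not_net_of_card`), and `Net A T → f(T)` (`Net.mono_left/right`), so the proportion `g_D` of the
`D`-sets with `f` is at least `η`, `g_0 = 0`. With `g_l` the proportion of the `l`-sets with `f`,
`∑_{l<D} (g_{l+1} - g_l) ≥ η`, so some `l < D` has `g_{l+1} - g_l ≥ η/D`, and `g_{l+1} - g_l` is the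
probability that a random `l`-set `T` has `¬ f(T)` and `f(T ∪ z)` for a random `z ∉ T`. So the proportion
of the `l`-sets `T` with `¬ f(T)` and `#{z ∉ T : f(insert z T)} ≥ (η/(2D)) (m-l)` is at least `η/(2D)`.
For such `T`, `B = base2 m Z T A = A1 ∪ st (m+1) (insert m T)` is colourable and these `z` satisfy
`Eqv B (m+1) z` (`col_st`, `eqv_st` with `v = m+1`).
(3) For such `(Z,T)`, if `m ≥ 3 D` (so `m - i, m - l ≥ 2m/3`), at least `(η m/(3D))^{30}` of the `m^{30}`
elements `x ∈ Ext m` have `x j 0, x j 2, x j 3` in the class of `m` and `x j 1, x j 4` in the class of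
`m+1` (`Eqv.mono` for the class of `m`).
Altogether `∑_{l<D} gf m i l A ≥ (η/(2D))^2 (η/(3D))^{30}`.
-/

set_option autoImplicit false

open Classical

namespace Pool.Agent.LC3

private theorem mg_double (m l : ℕ) (P : Finset ℕ → Prop) :
    ∑ T ∈ (Finset.range m).powersetCard l,
      ((Finset.range m).filter (fun z => z ∉ T ∧ P (insert z T))).card =
    (l + 1) * (((Finset.range m).powersetCard (l + 1)).filter (fun W => P W)).card := by
  have h1 : (∑ W ∈ ((Finset.range m).powersetCard (l + 1)).filter (fun W => P W), W.card) =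
      (l + 1) * (((Finset.range m).powersetCard (l + 1)).filter (fun W => P W)).card := by
    have h2 : ∀ W ∈ ((Finset.range m).powersetCard (l + 1)).filter (fun W => P W), W.card = l + 1 := by
      intro W hW
      exact (Finset.mem_powersetCard.1 (Finset.mem_filter.1 hW).1).2
    rw [Finset.sum_congr rfl h2, Finset.sum_const, smul_eq_mul, mul_comm]
  rw [← h1, ← Finset.card_sigma, ← Finset.card_sigma]
  refine Finset.card_bij' (fun p _ => (⟨insert p.2 p.1, p.2⟩ : Σ _ : Finset ℕ, ℕ))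
    (fun p _ => (⟨p.1.erase p.2, p.2⟩ : Σ _ : Finset ℕ, ℕ)) ?_ ?_ ?_ ?_
  · rintro ⟨T, z⟩ hp
    rw [Finset.mem_sigma, Finset.mem_powersetCard, Finset.mem_filter] at hp
    obtain ⟨⟨h3, h4⟩, h5, h6, h7⟩ := hp
    rw [Finset.mem_sigma, Finset.mem_filter, Finset.mem_powersetCard]
    refine ⟨⟨⟨?_, ?_⟩, h7⟩, Finset.mem_insert_self _ _⟩
    · exact Finset.insert_subset h5 h3
    · show (insert z T).card = l + 1
      rw [Finset.card_insert_of_notMem h6]
      exact congrArg (· + 1) h4
  · rintro ⟨W, z⟩ hp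
    rw [Finset.mem_sigma, Finset.mem_filter, Finset.mem_powersetCard] at hp
    obtain ⟨⟨⟨h3, h4⟩, h5⟩, h6⟩ := hp
    rw [Finset.mem_sigma, Finset.mem_powersetCard, Finset.mem_filter]
    refine ⟨⟨?_, ?_⟩, ?_, ?_, ?_⟩
    · exact (Finset.erase_subset _ _).trans h3
    · show (W.erase z).card = l
      rw [Finset.card_erase_of_mem h6]
      have h4' : W.card = l + 1 := h4
      omega
    · exact h3 h6
    · exact Finset.notMem_erase _ _
    · show P (insert z (W.erase z))
      rw [Finset.insert_erase h6]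
      exact h5
  · rintro ⟨T, z⟩ hp
    rw [Finset.mem_sigma, Finset.mem_powersetCard, Finset.mem_filter] at hp
    obtain ⟨⟨h3, h4⟩, h5, h6, h7⟩ := hp
    show (⟨(insert z T).erase z, z⟩ : Σ _ : Finset ℕ, ℕ) = ⟨T, z⟩
    rw [Finset.erase_insert h6]
  · rintro ⟨W, z⟩ hp
    rw [Finset.mem_sigma, Finset.mem_filter, Finset.mem_powersetCard] at hp
    obtain ⟨⟨⟨h3, h4⟩, h5⟩, h6⟩ := hp
    show (⟨insert z (W.erase z), z⟩ : Σ _ : Finset ℕ, ℕ) = ⟨W, z⟩
    rw [Finset.insert_erase h6]

private theorem mg_pigeon (m D : ℕ) (hD : 1 ≤ D) (hDm : D ≤ m) (η : ℝ) (hη : 0 < η) (P : Finset ℕ → Prop)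
    (hmono : ∀ T T' : Finset ℕ, T ⊆ T' → P T → P T') (h0 : ¬ P ∅)
    (hP : η * (m.choose D : ℝ) ≤ ((((Finset.range m).powersetCard D).filter (fun T => P T)).card : ℝ)) :
    ∃ l, l < D ∧ η / (2 * D) * (m.choose l : ℝ) ≤
      ((((Finset.range m).powersetCard l).filter (fun T => ¬ P T ∧
        η / (2 * D) * ((m : ℝ) - l) ≤
          (((Finset.range m).filter (fun z => z ∉ T ∧ P (insert z T))).card : ℝ))).card : ℝ) := by
  have hDr : (0 : ℝ) < D := by exact_mod_cast hD
  set c : ℕ → ℝ := fun l => ((((Finset.range m).powersetCard l).filter (fun T => P T)).card : ℝ) with hc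
  set g : ℕ → ℝ := fun l => c l / (m.choose l : ℝ) with hg
  have hch : ∀ l, l ≤ D → (0 : ℝ) < (m.choose l : ℝ) := by
    intro l hl
    exact_mod_cast Nat.choose_pos (hl.trans hDm)
  have hg0 : g 0 = 0 := by
    have h1 : ((Finset.range m).powersetCard 0).filter (fun T => P T) = ∅ := by
      refine Finset.filter_false_of_mem ?_
      intro T hT
      rw [Finset.powersetCard_zero, Finset.mem_singleton] at hT
      rw [hT]
      exact h0
    simp only [hg, hc, h1, Finset.card_empty, Nat.cast_zero, zero_div]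
  have hgD : η ≤ g D := by
    simp only [hg]
    rw [le_div_iff₀ (hch D le_rfl)]
    exact hP
  have hex : ∃ l, l < D ∧ η / D ≤ g (l + 1) - g l := by
    by_contra hne
    have h1 : ∀ l ∈ Finset.range D, g (l + 1) - g l < η / D := by
      intro l hl
      by_contra h2
      exact hne ⟨l, Finset.mem_range.1 hl, not_lt.1 h2⟩
    have h2 : ∑ l ∈ Finset.range D, (g (l + 1) - g l) < ∑ _l ∈ Finset.range D, η / D :=
      Finset.sum_lt_sum_of_nonempty (Finset.nonempty_range_iff.2 (by omega)) h1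
    rw [Finset.sum_range_sub, Finset.sum_const, Finset.card_range, nsmul_eq_mul, hg0,
      mul_div_cancel₀ _ hDr.ne'] at h2
    linarith
  obtain ⟨l, hl, hgl⟩ := hex
  refine ⟨l, hl, ?_⟩
  have hml : (0 : ℝ) < (m : ℝ) - l := by
    have : l < m := lt_of_lt_of_le hl hDm
    have h2 : (l : ℝ) < m := by exact_mod_cast this
    linarith
  set cnt : Finset ℕ → ℝ := fun T =>
    (((Finset.range m).filter (fun z => z ∉ T ∧ P (insert z T))).card : ℝ) with hcnt
  have hsd : ∀ T ∈ (Finset.range m).powersetCard l, (((Finset.range m) \ T).card : ℝ) = (m : ℝ) - l := by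
    intro T hT
    obtain ⟨h1, h2⟩ := Finset.mem_powersetCard.1 hT
    rw [Finset.card_sdiff_of_subset h1, Finset.card_range, h2, Nat.cast_sub (by omega)]
  have hcle : ∀ T ∈ (Finset.range m).powersetCard l, cnt T ≤ (m : ℝ) - l := by
    intro T hT
    rw [← hsd T hT]
    simp only [hcnt]
    refine Nat.cast_le.2 (Finset.card_le_card ?_)
    intro z hz
    rw [Finset.mem_filter] at hz
    exact Finset.mem_sdiff.2 ⟨hz.1, hz.2.1⟩
  have hcP : ∀ T ∈ (Finset.range m).powersetCard l, P T → cnt T = (m : ℝ) - l := by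
    intro T hT hPT
    rw [← hsd T hT]
    simp only [hcnt]
    congr 2
    ext z
    rw [Finset.mem_filter, Finset.mem_sdiff]
    constructor
    · rintro ⟨h1, h2, _⟩
      exact ⟨h1, h2⟩
    · rintro ⟨h1, h2⟩
      exact ⟨h1, h2, hmono T _ (Finset.subset_insert _ _) hPT⟩
  have hdc : ∑ T ∈ (Finset.range m).powersetCard l, cnt T = ((l : ℝ) + 1) * c (l + 1) := by
    have h1 := mg_double m l P
    have h2 : ((∑ T ∈ (Finset.range m).powersetCard l,
      ((Finset.range m).filter (fun z => z ∉ T ∧ P (insert z T))).card : ℕ) : ℝ) =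
      (((l + 1) * (((Finset.range m).powersetCard (l + 1)).filter (fun W => P W)).card : ℕ) : ℝ) := by
      rw [h1]
    rw [Nat.cast_sum, Nat.cast_mul, Nat.cast_add, Nat.cast_one] at h2
    exact h2
  have hsplit : ∑ T ∈ (Finset.range m).powersetCard l, cnt T =
      ∑ T ∈ ((Finset.range m).powersetCard l).filter (fun T => P T), cnt T +
      ∑ T ∈ ((Finset.range m).powersetCard l).filter (fun T => ¬ P T), cnt T :=
    (Finset.sum_filter_add_sum_filter_not _ _ _).symm
  have hfirst : ∑ T ∈ ((Finset.range m).powersetCard l).filter (fun T => P T), cnt T = c l * ((m : ℝ) - l) := by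
    rw [Finset.sum_congr rfl (fun T hT => hcP T (Finset.mem_filter.1 hT).1 (Finset.mem_filter.1 hT).2),
      Finset.sum_const, nsmul_eq_mul]
  have hchoose : ((l : ℝ) + 1) * (m.choose (l + 1) : ℝ) = (m.choose l : ℝ) * ((m : ℝ) - l) := by
    have h1 := Nat.choose_succ_right_eq m l
    have h2 : ((m.choose (l + 1) * (l + 1) : ℕ) : ℝ) = ((m.choose l * (m - l) : ℕ) : ℝ) := by rw [h1]
    rw [Nat.cast_mul, Nat.cast_mul, Nat.cast_sub (by omega), Nat.cast_add, Nat.cast_one] at h2
    linarith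
  have hcl : c l = g l * (m.choose l : ℝ) := by
    simp only [hg]
    rw [div_mul_cancel₀ _ (hch l hl.le).ne']
  have hcl1 : c (l + 1) = g (l + 1) * (m.choose (l + 1) : ℝ) := by
    simp only [hg]
    rw [div_mul_cancel₀ _ (hch (l + 1) hl).ne']
  have hS : ∑ T ∈ ((Finset.range m).powersetCard l).filter (fun T => ¬ P T), cnt T =
      (m.choose l : ℝ) * ((m : ℝ) - l) * (g (l + 1) - g l) := by
    have h1 : ((l : ℝ) + 1) * c (l + 1) = (m.choose l : ℝ) * ((m : ℝ) - l) * g (l + 1) := by
      rw [hcl1, ← hchoose]; ring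
    have h2 : c l * ((m : ℝ) - l) = (m.choose l : ℝ) * ((m : ℝ) - l) * g l := by
      rw [hcl]; ring
    linarith [hdc, hsplit, hfirst]
  set θ : ℝ := η / (2 * D) with hθ
  have hθ0 : 0 < θ := by positivity
  set Sl := ((Finset.range m).powersetCard l).filter (fun T => ¬ P T ∧ θ * ((m : ℝ) - l) ≤ cnt T) with hSl
  have hub : ∑ T ∈ ((Finset.range m).powersetCard l).filter (fun T => ¬ P T), cnt T ≤
      (Sl.card : ℝ) * ((m : ℝ) - l) + (m.choose l : ℝ) * (θ * ((m : ℝ) - l)) := by
    have h1 : ∀ T ∈ ((Finset.range m).powersetCard l).filter (fun T => ¬ P T),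
        cnt T ≤ (if T ∈ Sl then ((m : ℝ) - l) else 0) + θ * ((m : ℝ) - l) := by
      intro T hT
      obtain ⟨h2, h3⟩ := Finset.mem_filter.1 hT
      by_cases h4 : T ∈ Sl
      · rw [if_pos h4]
        have := hcle T h2
        have h5 : 0 ≤ θ * ((m : ℝ) - l) := by positivity
        linarith
      · rw [if_neg h4, zero_add]
        by_contra h5
        refine h4 (Finset.mem_filter.2 ⟨h2, h3, ?_⟩)
        exact (not_le.1 h5).le
    refine (Finset.sum_le_sum h1).trans ?_
    rw [Finset.sum_add_distrib, Finset.sum_ite_mem, Finset.sum_const, Finset.sum_const, nsmul_eq_mul,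
      nsmul_eq_mul]
    refine add_le_add ?_ ?_
    · refine mul_le_mul_of_nonneg_right ?_ hml.le
      exact Nat.cast_le.2 (Finset.card_le_card Finset.inter_subset_right)
    · refine mul_le_mul_of_nonneg_right ?_ (by positivity)
      have h6 : (((Finset.range m).powersetCard l).filter (fun T => ¬ P T)).card ≤ m.choose l := by
        refine (Finset.card_filter_le _ _).trans ?_
        rw [Finset.card_powersetCard, Finset.card_range]
      exact_mod_cast h6
  have hfin : (m.choose l : ℝ) * ((m : ℝ) - l) * (η / D) ≤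
      (Sl.card : ℝ) * ((m : ℝ) - l) + (m.choose l : ℝ) * (θ * ((m : ℝ) - l)) := by
    refine le_trans ?_ hub
    rw [hS]
    exact mul_le_mul_of_nonneg_left hgl (mul_nonneg (hch l hl.le).le hml.le)
  have h2θ : η / D = 2 * θ := by
    rw [hθ]; field_simp
  have h3 : (θ * (m.choose l : ℝ)) * ((m : ℝ) - l) ≤ (Sl.card : ℝ) * ((m : ℝ) - l) := by
    rw [h2θ] at hfin
    nlinarith [hfin]
  exact le_of_mul_le_mul_right h3 hml

private theorem mg_card3 {α β γ : Type*} [DecidableEq α] [DecidableEq β] [DecidableEq γ] (s : Finset α) (t : Finset β)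
    (u : Finset γ) (p : α × β × γ → Prop) :
    (((s ×ˢ (t ×ˢ u)).filter p).card : ℝ) =
      ∑ a ∈ s, ∑ b ∈ t, ((u.filter (fun x => p (a, b, x))).card : ℝ) := by
  rw [Finset.card_filter, Finset.sum_product, Nat.cast_sum]
  refine Finset.sum_congr rfl fun a _ => ?_
  rw [Finset.sum_product, Nat.cast_sum]
  refine Finset.sum_congr rfl fun b _ => ?_
  rw [Finset.card_filter]

private theorem mg_ext (m i l : ℕ) (A : Finset (Sym2 ℕ)) (hA : A ⊆ EN m) (Z T : Finset ℕ)
    (hZ : Z ⊆ Finset.range m) (hT : T ⊆ Finset.range m) (hnZ : ¬ Net A Z)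
    (hnT : ¬ Net (A ∪ st m Z) (insert m T)) (r : ℝ) (hr : 0 ≤ r)
    (h1 : r ≤ (((Finset.range m).filter (fun x => x ∉ Z ∧ Net A (insert x Z))).card : ℝ))
    (h2 : r ≤ (((Finset.range m).filter (fun z => z ∉ T ∧ Net (A ∪ st m Z) (insert m (insert z T)))).card : ℝ)) :
    r ^ 30 ≤ (((Ext m).filter (fun x => Good m Z T x A)).card : ℝ) := by
  set X := (Finset.range m).filter (fun x => x ∉ Z ∧ Net A (insert x Z)) with hX
  set Y := (Finset.range m).filter (fun z => z ∉ T ∧ Net (A ∪ st m Z) (insert m (insert z T))) with hY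
  set W : Fin 5 → Finset ℕ := fun k => if k = 1 ∨ k = 4 then Y else X with hW
  have hmZ : m ∉ Z := fun h => by have := Finset.mem_range.1 (hZ h); omega
  have hmT : m + 1 ∉ insert m T := by
    rw [Finset.mem_insert]
    rintro (h | h)
    · omega
    · have := Finset.mem_range.1 (hT h); omega
  have hA1 : A ∪ st m Z ⊆ EN (m + 1) := by
    refine Finset.union_subset (hA.trans (EN_mono (Nat.le_succ m))) ?_
    intro e
    induction e using Sym2.ind with
    | _ a b =>
      rw [mem_st, mem_EN]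
      rintro (⟨rfl, h⟩ | ⟨rfl, h⟩)
      · have := Finset.mem_range.1 (hZ h); omega
      · have := Finset.mem_range.1 (hZ h); omega
  have hb : base2 m Z T A = (A ∪ st m Z) ∪ st (m + 1) (insert m T) := rfl
  have hcol : Col (base2 m Z T A) := by
    rw [hb]
    exact (col_st (not_mem_of_EN le_rfl hA1) hmT).2 hnT
  have heX : ∀ x ∈ X, Eqv (base2 m Z T A) m x := by
    intro x hx
    rw [hX, Finset.mem_filter, Finset.mem_range] at hx
    have h3 : Eqv (A ∪ st m Z) m x :=
      (eqv_st (not_mem_of_EN le_rfl hA) hmZ (by omega)).2 hx.2.2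
    rw [hb]
    exact h3.mono Finset.subset_union_left
  have heY : ∀ z ∈ Y, Eqv (base2 m Z T A) (m + 1) z := by
    intro z hz
    rw [hY, Finset.mem_filter, Finset.mem_range] at hz
    rw [hb]
    refine (eqv_st (not_mem_of_EN le_rfl hA1) hmT (by omega)).2 ?_
    rw [Finset.insert_comm]
    exact hz.2.2
  have hXr : X ⊆ Finset.range m := Finset.filter_subset _ _
  have hYr : Y ⊆ Finset.range m := Finset.filter_subset _ _
  have hWr : ∀ k, W k ⊆ Finset.range m := by
    intro k
    simp only [hW]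
    split_ifs
    · exact hYr
    · exact hXr
  have hWc : ∀ k, r ≤ ((W k).card : ℝ) := by
    intro k
    simp only [hW]
    split_ifs
    · exact h2
    · exact h1
  have hsub : Fintype.piFinset (fun _ : Fin 6 => Fintype.piFinset W) ⊆
      (Ext m).filter (fun x => Good m Z T x A) := by
    intro x hx
    rw [Fintype.mem_piFinset] at hx
    have hx2 : ∀ j k, x j k ∈ W k := fun j k => Fintype.mem_piFinset.1 (hx j) k
    rw [Finset.mem_filter]
    refine ⟨?_, hcol, ?_⟩
    · unfold Ext
      rw [Fintype.mem_piFinset]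
      intro j
      rw [Fintype.mem_piFinset]
      intro k
      exact hWr k (hx2 j k)
    · intro j
      have w0 : W 0 = X := by simp only [hW]; rw [if_neg (by decide)]
      have w1 : W 1 = Y := by simp only [hW]; rw [if_pos (by decide)]
      have w2 : W 2 = X := by simp only [hW]; rw [if_neg (by decide)]
      have w3 : W 3 = X := by simp only [hW]; rw [if_neg (by decide)]
      have w4 : W 4 = Y := by simp only [hW]; rw [if_pos (by decide)]
      refine ⟨heX _ (w0 ▸ hx2 j 0), heY _ (w1 ▸ hx2 j 1), heX _ (w2 ▸ hx2 j 2), heX _ (w3 ▸ hx2 j 3),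
        heY _ (w4 ▸ hx2 j 4)⟩
  have hcard : r ^ 30 ≤ ((Fintype.piFinset (fun _ : Fin 6 => Fintype.piFinset W)).card : ℝ) := by
    rw [Fintype.card_piFinset, Finset.prod_const, Finset.card_univ, Fintype.card_fin, Fintype.card_piFinset,
      Nat.cast_pow, Nat.cast_prod]
    have h5 : r ^ 5 ≤ ∏ k : Fin 5, ((W k).card : ℝ) := by
      have h6 : ∏ _k : Fin 5, r ≤ ∏ k : Fin 5, ((W k).card : ℝ) :=
        Finset.prod_le_prod (fun _ _ => hr) (fun k _ => hWc k)
      rw [Finset.prod_const, Finset.card_univ, Fintype.card_fin] at h6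
      exact h6
    calc r ^ 30 = (r ^ 5) ^ 6 := by ring
      _ ≤ _ := pow_le_pow_left₀ (by positivity) h5 6
  exact hcard.trans (Nat.cast_le.2 (Finset.card_le_card hsub))

theorem many_good (D : ℕ) (hD : 1 ≤ D) (η : ℝ) (hη : 0 < η) : ∃ c : ℝ, 0 < c ∧ ∃ N : ℕ,
    ∀ m : ℕ, N ≤ m → ∀ A : Finset (Sym2 ℕ), A ⊆ EN m → Col A → η ≤ nu m D A →
      c ≤ ∑ i ∈ Finset.range D, ∑ l ∈ Finset.range D, gf m i l A := by
  have hDr : (0 : ℝ) < D := by exact_mod_cast hD
  refine ⟨(η / (2 * D)) ^ 2 * (η / (3 * D)) ^ 30, by positivity, 3 * D, ?_⟩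
  intro m hm A hA hcolA hnu
  have hDm : D ≤ m := by omega
  have hmpos : (0 : ℝ) < m := by
    have : 0 < m := by omega
    exact_mod_cast this
  have hch : ∀ l, l ≤ D → (0 : ℝ) < (m.choose l : ℝ) := by
    intro l hl
    exact_mod_cast Nat.choose_pos (hl.trans hDm)
  set θ : ℝ := η / (2 * D) with hθ
  have hθ0 : 0 < θ := by positivity
  set c0 : ℝ := η / (3 * D) with hc0
  have hc00 : 0 < c0 := by positivity
  have hP : η * (m.choose D : ℝ) ≤
      ((((Finset.range m).powersetCard D).filter (fun T => Net A T)).card : ℝ) := by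
    have h1 := hnu
    unfold nu at h1
    rwa [le_div_iff₀ (hch D le_rfl)] at h1
  obtain ⟨i, hi, hZc⟩ := mg_pigeon m D hD hDm η hη (fun T => Net A T)
    (fun T T' h h' => h'.mono_right h) (not_net_of_card hcolA (by simp)) hP
  set ZZ := ((Finset.range m).powersetCard i).filter (fun T => ¬ Net A T ∧
        θ * ((m : ℝ) - i) ≤
          (((Finset.range m).filter (fun z => z ∉ T ∧ Net A (insert z T))).card : ℝ)) with hZZ
  have hrow : ∀ Z ∈ ZZ, ∃ l, l < D ∧ θ * (m.choose l : ℝ) ≤
      ((((Finset.range m).powersetCard l).filter (fun T => ¬ Net (A ∪ st m Z) (insert m T) ∧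
        θ * ((m : ℝ) - l) ≤
          (((Finset.range m).filter (fun z => z ∉ T ∧ Net (A ∪ st m Z) (insert m (insert z T)))).card : ℝ))).card : ℝ) := by
    intro Z hZ
    obtain ⟨hZ1, hZ2, hZ3⟩ := Finset.mem_filter.1 hZ
    obtain ⟨hZ4, hZ5⟩ := Finset.mem_powersetCard.1 hZ1
    have hmZ : m ∉ Z := fun h => by have := Finset.mem_range.1 (hZ4 h); omega
    have hcol1 : Col (A ∪ st m Z) := (col_st (not_mem_of_EN le_rfl hA) hmZ).2 hZ2
    refine mg_pigeon m D hD hDm η hη (fun T => Net (A ∪ st m Z) (insert m T))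
      (fun T T' h h' => h'.mono_right (Finset.insert_subset_insert _ h))
      (not_net_of_card hcol1 (by simp)) ?_
    refine hP.trans (Nat.cast_le.2 (Finset.card_le_card ?_))
    intro T hT
    obtain ⟨hT1, hT2⟩ := Finset.mem_filter.1 hT
    refine Finset.mem_filter.2 ⟨hT1, ?_⟩
    exact (hT2.mono_left Finset.subset_union_left).mono_right (Finset.subset_insert _ _)
  choose! lf hlf hlc using hrow
  have hgf : ∀ l ∈ Finset.range D,
      ((ZZ.filter (fun Z => lf Z = l)).card : ℝ) * (θ * c0 ^ 30) / (m.choose i : ℝ) ≤ gf m i l A := by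
    intro l hl
    have hlD : l < D := Finset.mem_range.1 hl
    have hCi := hch i hi.le
    have hCl := hch l hlD.le
    unfold gf
    rw [mg_card3, div_le_div_iff₀ hCi (by positivity)]
    have hin : ∀ Z ∈ ZZ.filter (fun Z => lf Z = l), θ * (m.choose l : ℝ) * (c0 * m) ^ 30 ≤
        ∑ T ∈ (Finset.range m).powersetCard l,
          (((Ext m).filter (fun x => Good m Z T x A)).card : ℝ) := by
      intro Z hZ
      obtain ⟨hZ0, hZl⟩ := Finset.mem_filter.1 hZ
      obtain ⟨hZ1, hZ2, hZ3⟩ := Finset.mem_filter.1 hZ0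
      obtain ⟨hZ4, hZ5⟩ := Finset.mem_powersetCard.1 hZ1
      have h7 := hlc Z hZ0
      rw [hZl] at h7
      set TT := ((Finset.range m).powersetCard l).filter (fun T => ¬ Net (A ∪ st m Z) (insert m T) ∧
        θ * ((m : ℝ) - l) ≤
          (((Finset.range m).filter (fun z => z ∉ T ∧ Net (A ∪ st m Z) (insert m (insert z T)))).card : ℝ)) with hTT
      have h8 : ∀ T ∈ TT, (c0 * m) ^ 30 ≤ (((Ext m).filter (fun x => Good m Z T x A)).card : ℝ) := by
        intro T hT
        obtain ⟨hT1, hT2, hT3⟩ := Finset.mem_filter.1 hT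
        obtain ⟨hT4, hT5⟩ := Finset.mem_powersetCard.1 hT1
        have hm3 : (3 : ℝ) * D ≤ m := by exact_mod_cast hm
        have hiD : (i : ℝ) ≤ D := by exact_mod_cast hi.le
        have hlD' : (l : ℝ) ≤ D := by exact_mod_cast hlD.le
        have hkey : ∀ a : ℝ, a ≤ D → c0 * m ≤ θ * ((m : ℝ) - a) := by
          intro a ha
          have h9 : c0 * m = θ * ((2 / 3) * m) := by
            rw [hc0, hθ]; field_simp
          rw [h9]
          refine mul_le_mul_of_nonneg_left ?_ hθ0.le
          linarith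
        exact mg_ext m i l A hA Z T hZ4 hT4 hZ2 hT2 (c0 * m) (by positivity)
          ((hkey i hiD).trans hZ3) ((hkey l hlD').trans hT3)
      calc θ * (m.choose l : ℝ) * (c0 * m) ^ 30 ≤ (TT.card : ℝ) * (c0 * m) ^ 30 :=
            mul_le_mul_of_nonneg_right h7 (by positivity)
        _ = ∑ _T ∈ TT, (c0 * m) ^ 30 := by rw [Finset.sum_const, nsmul_eq_mul]
        _ ≤ ∑ T ∈ TT, (((Ext m).filter (fun x => Good m Z T x A)).card : ℝ) := Finset.sum_le_sum h8
        _ ≤ _ := Finset.sum_le_sum_of_subset_of_nonneg (Finset.filter_subset _ _)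
            (fun _ _ _ => Nat.cast_nonneg _)
    have hall : ((ZZ.filter (fun Z => lf Z = l)).card : ℝ) * (θ * (m.choose l : ℝ) * (c0 * m) ^ 30) ≤
        ∑ Z ∈ (Finset.range m).powersetCard i, ∑ T ∈ (Finset.range m).powersetCard l,
          (((Ext m).filter (fun x => Good m Z T x A)).card : ℝ) := by
      calc ((ZZ.filter (fun Z => lf Z = l)).card : ℝ) * (θ * (m.choose l : ℝ) * (c0 * m) ^ 30)
          = ∑ _Z ∈ ZZ.filter (fun Z => lf Z = l), (θ * (m.choose l : ℝ) * (c0 * m) ^ 30) := by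
            rw [Finset.sum_const, nsmul_eq_mul]
        _ ≤ ∑ Z ∈ ZZ.filter (fun Z => lf Z = l), ∑ T ∈ (Finset.range m).powersetCard l,
          (((Ext m).filter (fun x => Good m Z T x A)).card : ℝ) := Finset.sum_le_sum hin
        _ ≤ _ := Finset.sum_le_sum_of_subset_of_nonneg
            ((Finset.filter_subset _ _).trans (Finset.filter_subset _ _))
            (fun _ _ _ => Finset.sum_nonneg fun _ _ => Nat.cast_nonneg _)
    calc ((ZZ.filter (fun Z => lf Z = l)).card : ℝ) * (θ * c0 ^ 30) *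
          ((m.choose i : ℝ) * (m.choose l : ℝ) * (m : ℝ) ^ 30)
        = ((ZZ.filter (fun Z => lf Z = l)).card : ℝ) * (θ * (m.choose l : ℝ) * (c0 * m) ^ 30) *
          (m.choose i : ℝ) := by rw [mul_pow]; ring
      _ ≤ _ := mul_le_mul_of_nonneg_right hall hCi.le
  have hgf0 : ∀ i l, 0 ≤ gf m i l A := by
    intro i l
    unfold gf
    positivity
  have hCi := hch i hi.le
  have hfib : (ZZ.card : ℝ) = ∑ l ∈ Finset.range D, ((ZZ.filter (fun Z => lf Z = l)).card : ℝ) := by
    have h1 : ZZ.card = ∑ l ∈ Finset.range D, (ZZ.filter (fun Z => lf Z = l)).card :=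
      Finset.card_eq_sum_card_fiberwise (fun Z hZ => Finset.mem_coe.2 (Finset.mem_range.2 (hlf Z hZ)))
    rw [h1, Nat.cast_sum]
  calc θ ^ 2 * c0 ^ 30 = (θ * (m.choose i : ℝ)) * (θ * c0 ^ 30) / (m.choose i : ℝ) := by
        field_simp
    _ ≤ (ZZ.card : ℝ) * (θ * c0 ^ 30) / (m.choose i : ℝ) := by
        refine div_le_div_of_nonneg_right (mul_le_mul_of_nonneg_right hZc (by positivity)) hCi.le
    _ = ∑ l ∈ Finset.range D, ((ZZ.filter (fun Z => lf Z = l)).card : ℝ) * (θ * c0 ^ 30) / (m.choose i : ℝ) := by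
        rw [hfib, Finset.sum_mul, Finset.sum_div]
    _ ≤ ∑ l ∈ Finset.range D, gf m i l A := Finset.sum_le_sum hgf
    _ ≤ _ := Finset.single_le_sum (f := fun i => ∑ l ∈ Finset.range D, gf m i l A)
        (fun j _ => Finset.sum_nonneg fun l _ => hgf0 j l) (Finset.mem_range.2 hi)

end Pool.Agent.LC3
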