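import Pool.Agent.LC3.PlantB
import Pool.Agent.LC3.BBounds

/-!
# LC3.Plant : lower bound of the rate at which 3-colourable, non-3-choosable graphs die

Combine `plantA` and `plantB`: with `M = m+20`, `R` = the sum on the right-hand side,
`M.descFactorial 20 * t^(i+l+43) (1-t)^(20m+190) C(m,i) C(m,l) m^30 Rr m t (gf m i l) ≤ D 9^6 M^7 R`.
* `M.descFactorial 20 ≥ m^20` (`Nat.pow_sub_le_descFactorial`: `(M+1-20)^20 ≤ M.descFactorial 20`);
* `t^i C(m,i) ≥ bb m i t ≥ c1`, `t^l C(m,l) ≥ c1` (`bb_low`, `0 ≤ 1-t ≤ 1`);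
* `(1-t)^(20m+190) ≥ (1 - be/n)^(21 n) ≥ exp(-42 be)` for `n` large (`1 - x ≥ exp(-2x)`, `0 ≤ x ≤ 1/2`);
* `t^43 m^50 / (m+20)^7 ≥ (al/n)^43 m^43 / 2^7 ≥ (al/2)^43/2^7` for `m ≥ 20`, `m ≥ n - 2 ≥ n/2`.
So `c = c1^2 exp(-42 be) (al/2)^43 / (2^7 D 9^6)` works.
-/

set_option autoImplicit false

open Classical

namespace Pool.Agent.LC3

private theorem plant_gf_nonneg (m i l : ℕ) (A : Finset (Sym2 ℕ)) : 0 ≤ gf m i l A := by
  unfold gf
  positivity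

private theorem plant_Rr_nonneg {m i l : ℕ} {t : ℝ} (h0 : 0 ≤ t) (h1 : t ≤ 1) :
    0 ≤ Rr m t (gf m i l) := by
  unfold Rr
  exact Finset.sum_nonneg fun e _ => ex_nonneg h0 h1 fun A _ =>
    mul_nonneg (ind_nonneg _) (plant_gf_nonneg m i l A)

private theorem plant_exp {x : ℝ} (h0 : 0 ≤ x) (h1 : x ≤ 1 / 2) : Real.exp (-2 * x) ≤ 1 - x := by
  have h3 : 1 ≤ Real.exp (2 * x) * (1 - x) := by
    have h4 : 2 * x + 1 ≤ Real.exp (2 * x) := Real.add_one_le_exp _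
    have h5 : (0 : ℝ) ≤ 1 - x := by linarith
    have h6 : (2 * x + 1) * (1 - x) ≤ Real.exp (2 * x) * (1 - x) :=
      mul_le_mul_of_nonneg_right h4 h5
    nlinarith
  have h7 : Real.exp (-2 * x) * (Real.exp (2 * x) * (1 - x)) = 1 - x := by
    rw [← mul_assoc, ← Real.exp_add]
    have : -2 * x + 2 * x = 0 := by ring
    rw [this, Real.exp_zero, one_mul]
  calc Real.exp (-2 * x) = Real.exp (-2 * x) * 1 := (mul_one _).symm
    _ ≤ Real.exp (-2 * x) * (Real.exp (2 * x) * (1 - x)) :=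
        mul_le_mul_of_nonneg_left h3 (Real.exp_pos _).le
    _ = 1 - x := h7

private theorem plant_real {c1 E0 a d Ci Cl t u x desc RR RHS FX : ℝ} {i l : ℕ}
    (hc1 : 0 < c1) (hE0 : 0 < E0) (ha : 0 < a) (hd : 0 < d) (ht : 0 < t) (hx : 20 ≤ x)
    (hCi : 0 ≤ Ci) (hCl : 0 ≤ Cl) (hu : E0 ≤ u) (hi : c1 ≤ t ^ i * Ci) (hl : c1 ≤ t ^ l * Cl)
    (hdesc : x ^ 20 ≤ desc) (htm : a ≤ t * x)
    (hA : t ^ (i + l + 43) * u * (Ci * Cl * x ^ 30) * RR ≤ FX)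
    (hB : desc * FX ≤ (d * 9 ^ 6 * (x + 20) ^ 7) * RHS) (hRR : 0 ≤ RR) :
    c1 * c1 * E0 * a ^ 43 / (2 ^ 7 * (d * 9 ^ 6)) * RR ≤ RHS := by
  have hx0 : 0 < x := by linarith
  have hu0 : 0 < u := lt_of_lt_of_le hE0 hu
  have hd0 : 0 ≤ desc := le_trans (by positivity) hdesc
  set K : ℝ := d * 9 ^ 6 * (x + 20) ^ 7 with hK
  have hKp : 0 < K := by positivity
  have hx7 : (x + 20) ^ 7 ≤ 2 ^ 7 * x ^ 7 := by
    rw [← mul_pow]
    exact pow_le_pow_left₀ (by positivity) (by linarith) 7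
  set Q : ℝ := t ^ (i + l + 43) * u * (Ci * Cl * x ^ 30) with hQ
  have hQ0 : 0 ≤ Q := by positivity
  have h1 : c1 * c1 ≤ (t ^ i * Ci) * (t ^ l * Cl) := mul_le_mul hi hl hc1.le (by positivity)
  have h2 : c1 * c1 * E0 ≤ (t ^ i * Ci) * (t ^ l * Cl) * u :=
    mul_le_mul h1 hu hE0.le (by positivity)
  have h3 : a ^ 43 ≤ (t * x) ^ 43 := pow_le_pow_left₀ ha.le htm 43
  have h4 : c1 * c1 * E0 * a ^ 43 ≤ (t ^ i * Ci) * (t ^ l * Cl) * u * (t * x) ^ 43 :=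
    mul_le_mul h2 h3 (by positivity) (by positivity)
  have h5 : c1 * c1 * E0 * a ^ 43 * x ^ 7 ≤
      (t ^ i * Ci) * (t ^ l * Cl) * u * (t * x) ^ 43 * x ^ 7 :=
    mul_le_mul_of_nonneg_right h4 (by positivity)
  have h6 : (t ^ i * Ci) * (t ^ l * Cl) * u * (t * x) ^ 43 * x ^ 7 = x ^ 20 * Q := by
    rw [hQ, pow_add t (i + l) 43, pow_add t i l, mul_pow]
    ring
  have h7 : x ^ 20 * Q ≤ desc * Q := mul_le_mul_of_nonneg_right hdesc hQ0
  have h8 : c1 * c1 * E0 * a ^ 43 / (2 ^ 7 * (d * 9 ^ 6)) * K ≤ desc * Q := by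
    have e : c1 * c1 * E0 * a ^ 43 / (2 ^ 7 * (d * 9 ^ 6)) * K =
        c1 * c1 * E0 * a ^ 43 / 2 ^ 7 * (x + 20) ^ 7 := by
      rw [hK]
      field_simp
    have e2 : c1 * c1 * E0 * a ^ 43 / 2 ^ 7 * (x + 20) ^ 7 ≤
        c1 * c1 * E0 * a ^ 43 / 2 ^ 7 * (2 ^ 7 * x ^ 7) :=
      mul_le_mul_of_nonneg_left hx7 (by positivity)
    have e3 : c1 * c1 * E0 * a ^ 43 / 2 ^ 7 * (2 ^ 7 * x ^ 7) =
        c1 * c1 * E0 * a ^ 43 * x ^ 7 := by
      field_simp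
    rw [e]
    rw [e3] at e2
    exact e2.trans (h5.trans (h6.le.trans h7))
  have h9 : K * (c1 * c1 * E0 * a ^ 43 / (2 ^ 7 * (d * 9 ^ 6)) * RR) ≤ K * RHS := by
    calc K * (c1 * c1 * E0 * a ^ 43 / (2 ^ 7 * (d * 9 ^ 6)) * RR)
        = c1 * c1 * E0 * a ^ 43 / (2 ^ 7 * (d * 9 ^ 6)) * K * RR := by ring
      _ ≤ desc * Q * RR := mul_le_mul_of_nonneg_right h8 hRR
      _ = desc * (Q * RR) := by ring
      _ ≤ desc * FX := mul_le_mul_of_nonneg_left hA hd0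
      _ ≤ K * RHS := hB
  exact le_of_mul_le_mul_left h9 hKp

theorem plant (D : ℕ) (hD : 1 ≤ D) : ∃ c : ℝ, 0 < c ∧ ∃ N : ℕ, ∀ n : ℕ, N ≤ n →
    ∀ m : ℕ, n ≤ m + 2 → m ≤ n → ∀ t : ℝ, al / n ≤ t → t ≤ be / n →
    ∀ i l : ℕ, i < D → l < D →
      c * Rr m t (gf m i l) ≤ ∑ e ∈ EN (m + 20), ex t ((EN (m + 20)).erase e)
        (fun A => ind (Bd A ∧ ¬ Col (insert e A))) := by
  obtain ⟨c1, hc1, N1, hN1⟩ := bb_low D
  have hal := al_pos
  have hbe : 0 < be := al_pos.trans al_lt_be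
  have hDR : (0 : ℝ) < (D : ℝ) := by exact_mod_cast hD
  set E0 : ℝ := Real.exp (-42 * be) with hE0
  have hE0p : 0 < E0 := Real.exp_pos _
  refine ⟨c1 * c1 * E0 * (al / 2) ^ 43 / (2 ^ 7 * ((D : ℝ) * 9 ^ 6)), by positivity,
    max N1 200, ?_⟩
  intro n hn m hm1 hm2 t ht1 ht2 i l hi hl
  have hnN1 : N1 ≤ n := (le_max_left _ _).trans hn
  have hn200 : 200 ≤ n := (le_max_right _ _).trans hn
  have hnR : (200 : ℝ) ≤ (n : ℝ) := by exact_mod_cast hn200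
  have hn0 : (0 : ℝ) < (n : ℝ) := by linarith
  have hm198 : 198 ≤ m := by omega
  have hmR : (198 : ℝ) ≤ (m : ℝ) := by exact_mod_cast hm198
  have hbn : be / n ≤ 1 / 2 := by
    rw [div_le_iff₀ hn0]
    unfold be
    linarith
  have hbn0 : (0 : ℝ) ≤ be / n := by positivity
  have ht0 : 0 < t := lt_of_lt_of_le (by positivity) ht1
  have ht12 : t ≤ 1 / 2 := ht2.trans hbn
  have htl1 : t ≤ 1 := by linarith
  have h1t : 0 ≤ 1 - t := by linarith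
  have h1t1 : 1 - t ≤ 1 := by linarith
  -- the power of `1 - t`
  have hE : E0 ≤ (1 - t) ^ (20 * m + 190) := by
    have h2 : Real.exp (-2 * (be / n)) ≤ 1 - t := (plant_exp hbn0 hbn).trans (by linarith)
    have h3 : E0 = Real.exp (-2 * (be / n)) ^ (21 * n) := by
      rw [← Real.exp_nat_mul, hE0]
      congr 1
      push_cast
      field_simp
      ring
    rw [h3]
    calc Real.exp (-2 * (be / n)) ^ (21 * n) ≤ (1 - t) ^ (21 * n) :=
          pow_le_pow_left₀ (Real.exp_pos _).le h2 _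
      _ ≤ (1 - t) ^ (20 * m + 190) := pow_le_pow_of_le_one h1t h1t1 (by omega)
  -- binomial coefficients
  have hbb : ∀ j : ℕ, j < D → c1 ≤ t ^ j * (m.choose j : ℝ) := by
    intro j hj
    have h := hN1 n hnN1 m hm1 hm2 t ht1 ht2 j hj.le
    unfold bb at h
    have h4 : (1 - t) ^ (m - j) ≤ 1 := pow_le_one₀ h1t h1t1
    calc c1 ≤ (m.choose j : ℝ) * t ^ j * (1 - t) ^ (m - j) := h
      _ ≤ (m.choose j : ℝ) * t ^ j * 1 := by gcongr
      _ = t ^ j * (m.choose j : ℝ) := by ring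
  have hi' := hbb i hi
  have hl' := hbb l hl
  -- descending factorial
  have hdesc : (m : ℝ) ^ 20 ≤ ((m + 20).descFactorial 20 : ℝ) := by
    have h := Nat.pow_sub_le_descFactorial (m + 20) 20
    have h5 : m ^ 20 ≤ (m + 20).descFactorial 20 :=
      le_trans (Nat.pow_le_pow_left (by omega) 20) h
    exact_mod_cast h5
  have htm : al / 2 ≤ t * m := by
    have h6 : (n : ℝ) / 2 ≤ (m : ℝ) := by
      have : (n : ℝ) ≤ (m : ℝ) + 2 := by exact_mod_cast hm1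
      linarith
    calc al / 2 = al / n * (n / 2) := by field_simp
      _ ≤ t * m := by gcongr
  have hA := plantA m i l ht0.le htl1
  have hB := plantB (m := m) (l := l) hi ht0.le htl1
  have hRR0 : 0 ≤ Rr m t (gf m i l) := plant_Rr_nonneg ht0.le htl1
  exact plant_real hc1 hE0p (by positivity) hDR ht0 (by linarith) (Nat.cast_nonneg _)
    (Nat.cast_nonneg _) hE hi' hl' hdesc htm hA hB hRR0

end Pool.Agent.LC3
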