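import Pool.Agent.LC3.MainA
import Pool.Agent.LC3.MB1
import Pool.Agent.LC3.ManyGood
import Pool.Agent.LC3.Plant

/-!
# LC3.MainB : 3-colourable but not 3-choosable graphs die with positive rate, for infinitely many `M`

`θ, ρ` from `mainA`; `D, η` from `mb1 θ ρ`; `c1` from `many_good D η`; `c2` from `plant D`. For large `n` from
`mainA` write the index `m` of `mainA` as `m'+1` (`n ≤ m'+2`, `m'+1 ≤ n`). Then
`η ≤ ∫_{W_n} Rr m' t (ind (η ≤ nu m' D A)) ≤ (1/c1) ∑_{i,l<D} ∫_{W_n} Rr m' t (gf m' i l)` (`many_good`,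
`Rr_mono`, `Rr_mul_left`, `Rr_sum`) `≤ (D^2/(c1 c2)) ∫_{W_n} R(t) dt` (`plant`), where `R(t) ≥ 0` is the
integrand of `nuX (m'+20)` (continuous), and `∫_{W_n} R ≤ ∫_0^1 R = nuX (m'+20)` as `W_n ⊆ [0,1]`.
So `c = η c1 c2/D^2`, `M = m'+20`.
-/

set_option autoImplicit false

open Classical

namespace Pool.Agent.LC3

/-- the integrand of `nuX` -/
noncomputable def mB_RX (M : ℕ) (t : ℝ) : ℝ :=
  ∑ e ∈ EN M, ex t ((EN M).erase e) (fun A => ind (Bd A ∧ ¬ Col (insert e A)))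

theorem mB_cont_RX (M : ℕ) : Continuous (mB_RX M) := by
  unfold mB_RX
  exact continuous_finset_sum _ fun e _ => continuous_ex _ _

theorem mB_RX_nonneg (M : ℕ) {t : ℝ} (h0 : 0 ≤ t) (h1 : t ≤ 1) : 0 ≤ mB_RX M t := by
  unfold mB_RX
  exact Finset.sum_nonneg fun e _ => ex_nonneg h0 h1 fun A _ => ind_nonneg _

theorem mB_cont_Rr (m : ℕ) (g : Finset (Sym2 ℕ) → ℝ) : Continuous (fun t => Rr m t g) := by
  unfold Rr
  exact continuous_finset_sum _ fun e _ => continuous_ex _ _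

theorem mB_gf_nonneg (m i l : ℕ) (A : Finset (Sym2 ℕ)) : 0 ≤ gf m i l A := by
  unfold gf
  positivity

theorem mB_int_RX_le (M : ℕ) {a b : ℝ} (ha : 0 ≤ a) (hab : a ≤ b) (hb : b ≤ 1) :
    ∫ t in a..b, mB_RX M t ≤ nuX M := by
  have h : nuX M = ∫ t in (0 : ℝ)..1, mB_RX M t := rfl
  rw [h]
  apply intervalIntegral.integral_mono_interval ha hab hb
  · rw [Filter.EventuallyLE, MeasureTheory.ae_restrict_iff' measurableSet_Ioc]
    exact Filter.Eventually.of_forall fun t ht => mB_RX_nonneg M ht.1.le ht.2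
  · exact (mB_cont_RX M).intervalIntegrable _ _

theorem mainB : ∃ c : ℝ, 0 < c ∧ ∀ N : ℕ, ∃ M : ℕ, N ≤ M ∧ c ≤ nuX M := by
  obtain ⟨θ, hθ, ρ, hρ, hA⟩ := mainA
  obtain ⟨D, hD, η, hη, N1, hB⟩ := mb1 θ ρ hθ hρ
  obtain ⟨c1, hc1, N2, hG⟩ := many_good D hD η hη
  obtain ⟨c2, hc2, N3, hP⟩ := plant D hD
  have hDr : (0 : ℝ) < D := by exact_mod_cast hD
  refine ⟨η * c1 * c2 / (D : ℝ) ^ 2, by positivity, ?_⟩
  intro N
  obtain ⟨n, hn, m0, hm0, hint⟩ := hA (N + N1 + N2 + N3 + 100)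
  obtain ⟨m, rfl⟩ : ∃ m, m0 = m + 1 := ⟨m0 - 1, by omega⟩
  have hn1 : n ≤ m + 2 := by omega
  have hn2 : m + 1 ≤ n := by omega
  refine ⟨m + 20, by omega, ?_⟩
  have h1 := hB n m (by omega) hn1 hn2 hint
  have hnr : (100 : ℝ) ≤ n := by
    have : 100 ≤ n := by omega
    exact_mod_cast this
  have hn0 : (0 : ℝ) < n := by linarith
  have ha0 : 0 ≤ al / (n : ℝ) := (div_pos al_pos hn0).le
  have hab : al / (n : ℝ) ≤ be / n := by
    apply div_le_div_of_nonneg_right al_lt_be.le hn0.le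
  have hb1 : be / (n : ℝ) ≤ 1 := by
    rw [div_le_one hn0]
    have : be ≤ 100 := by unfold be; norm_num
    linarith
  -- pointwise bound
  have hpt : ∀ t ∈ Set.Icc (al / (n : ℝ)) (be / n),
      Rr m t (fun A => ind (η ≤ nu m D A)) ≤ (D : ℝ) ^ 2 / (c1 * c2) * mB_RX (m + 20) t := by
    intro t ht
    have ht0 : 0 ≤ t := ha0.trans ht.1
    have ht1 : t ≤ 1 := ht.2.trans hb1
    have e1 : Rr m t (fun A => ind (η ≤ nu m D A)) ≤
        Rr m t (fun A => (1 / c1) * ∑ i ∈ Finset.range D, ∑ l ∈ Finset.range D, gf m i l A) := by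
      apply Rr_mono m ht0 ht1
      intro A hAs hcol
      have hnn : 0 ≤ ∑ i ∈ Finset.range D, ∑ l ∈ Finset.range D, gf m i l A :=
        Finset.sum_nonneg fun i _ => Finset.sum_nonneg fun l _ => mB_gf_nonneg m i l A
      by_cases hh : η ≤ nu m D A
      · rw [ind_of hh]
        have := hG m (by omega) A hAs hcol hh
        rw [one_div, ← div_eq_inv_mul, le_div_iff₀ hc1]
        linarith
      · rw [ind_of_not hh]
        positivity
    have e2 : Rr m t (fun A => (1 / c1) * ∑ i ∈ Finset.range D, ∑ l ∈ Finset.range D, gf m i l A) =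
        (1 / c1) * ∑ i ∈ Finset.range D, ∑ l ∈ Finset.range D, Rr m t (gf m i l) := by
      rw [Rr_mul_left, Rr_sum]
      congr 1
      apply Finset.sum_congr rfl
      intro i _
      rw [Rr_sum]
    have e3 : ∑ i ∈ Finset.range D, ∑ l ∈ Finset.range D, Rr m t (gf m i l) ≤
        ∑ i ∈ Finset.range D, ∑ l ∈ Finset.range D, mB_RX (m + 20) t / c2 := by
      apply Finset.sum_le_sum
      intro i hi
      apply Finset.sum_le_sum
      intro l hl
      rw [le_div_iff₀ hc2, mul_comm]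
      exact hP n (by omega) m hn1 (by omega) t ht.1 ht.2 i l (Finset.mem_range.1 hi)
        (Finset.mem_range.1 hl)
    have e4 : ∑ i ∈ Finset.range D, ∑ l ∈ Finset.range D, mB_RX (m + 20) t / c2 =
        (D : ℝ) * (D * (mB_RX (m + 20) t / c2)) := by
      rw [Finset.sum_const, Finset.sum_const, Finset.card_range, nsmul_eq_mul, nsmul_eq_mul]
    rw [e4] at e3
    rw [e2] at e1
    have e5 : (1 / c1) * ∑ i ∈ Finset.range D, ∑ l ∈ Finset.range D, Rr m t (gf m i l) ≤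
        (1 / c1) * ((D : ℝ) * (D * (mB_RX (m + 20) t / c2))) :=
      mul_le_mul_of_nonneg_left e3 (by positivity)
    have e6 : (1 / c1) * ((D : ℝ) * (D * (mB_RX (m + 20) t / c2))) =
        (D : ℝ) ^ 2 / (c1 * c2) * mB_RX (m + 20) t := by
      field_simp
    rw [← e6]
    exact e1.trans e5
  have h2 : ∫ t in (al / (n : ℝ))..(be / n), Rr m t (fun A => ind (η ≤ nu m D A)) ≤
      ∫ t in (al / (n : ℝ))..(be / n), (D : ℝ) ^ 2 / (c1 * c2) * mB_RX (m + 20) t := by
    apply intervalIntegral.integral_mono_on hab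
    · exact (mB_cont_Rr m _).intervalIntegrable _ _
    · exact (continuous_const.mul (mB_cont_RX (m + 20))).intervalIntegrable _ _
    · exact hpt
  rw [intervalIntegral.integral_const_mul] at h2
  have h3 := mB_int_RX_le (m + 20) ha0 hab hb1
  have h4 : η ≤ (D : ℝ) ^ 2 / (c1 * c2) * nuX (m + 20) := by
    refine (h1.trans h2).trans (mul_le_mul_of_nonneg_left h3 (by positivity))
  rw [div_mul_eq_mul_div, le_div_iff₀ (by positivity)] at h4
  rw [div_le_iff₀ (by positivity)]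
  linarith

end Pool.Agent.LC3
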