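import Pool.Agent.LC3.Union
import Pool.Agent.LC3.NetBasic

/-!
# LC3.MinDeg : a graph which is not 3-colourable has a subgraph of minimum degree 3

Let `A ⊆ EN m`, `¬ Col A`. Choose `S ⊆ range m` of minimal cardinality such that
`A.filter (∀ v ∈ e, v ∈ S)` is not colourable (`S = range m` is possible). Then every `v ∈ S` has at least 3
neighbours in `S`: otherwise remove `v`, colour the rest (minimality), and colour `v` differently from its at
most two neighbours (`Function.update`). Also `S ≠ ∅` (`col_empty`) and `|S| ≥ 4` (a vertex has three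
neighbours different from it). Summing degrees: `3 |S| ≤ 2 eIn A S`.
-/

set_option autoImplicit false

open Classical

namespace Pool.Agent.LC3

private theorem mem_restr {A : Finset (Sym2 ℕ)} {S : Finset ℕ} {a b : ℕ} :
    s(a, b) ∈ A.filter (fun e => ∀ v ∈ e, v ∈ S) ↔ s(a, b) ∈ A ∧ a ∈ S ∧ b ∈ S := by
  simp only [Finset.mem_filter, Sym2.mem_iff]
  constructor
  · rintro ⟨h1, h2⟩
    exact ⟨h1, h2 a (Or.inl rfl), h2 b (Or.inr rfl)⟩
  · rintro ⟨h1, h2, h3⟩
    refine ⟨h1, ?_⟩
    rintro v (rfl | rfl)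
    · exact h2
    · exact h3

private theorem extend_col {A : Finset (Sym2 ℕ)} (hd : ∀ a, s(a, a) ∉ A) {S : Finset ℕ} {v : ℕ}
    (hN : (S.filter (fun w => s(v, w) ∈ A)).card < 3)
    (hc : Col (A.filter (fun e => ∀ x ∈ e, x ∈ S.erase v))) :
    Col (A.filter (fun e => ∀ x ∈ e, x ∈ S)) := by
  obtain ⟨σ, hσ⟩ := hc
  obtain ⟨c, hcN⟩ : ∃ c : Fin 3, c ∉ (S.filter (fun w => s(v, w) ∈ A)).image σ := by
    by_contra hcon
    push Not at hcon
    have h1 : (Finset.univ : Finset (Fin 3)) ⊆ (S.filter (fun w => s(v, w) ∈ A)).image σ :=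
      fun c _ => hcon c
    have h2 := Finset.card_le_card h1
    have h3 := Finset.card_image_le (s := S.filter (fun w => s(v, w) ∈ A)) (f := σ)
    rw [Finset.card_univ, Fintype.card_fin] at h2
    omega
  have hout : ∀ w, w ∈ S → s(v, w) ∈ A → c ≠ σ w := by
    intro w hw hvw h
    apply hcN
    rw [Finset.mem_image]
    exact ⟨w, Finset.mem_filter.2 ⟨hw, hvw⟩, h.symm⟩
  refine ⟨Function.update σ v c, ?_⟩
  intro a b hab
  rw [mem_restr] at hab
  obtain ⟨hA, ha, hb⟩ := hab
  by_cases hav : a = v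
  · subst hav
    have hba : b ≠ a := by
      rintro rfl
      exact hd _ hA
    rw [Function.update_self, Function.update_of_ne hba]
    exact hout b hb hA
  · by_cases hbv : b = v
    · subst hbv
      rw [Function.update_self, Function.update_of_ne hav]
      have hA' : s(b, a) ∈ A := by rwa [Sym2.eq_swap]
      exact fun h => hout a ha hA' h.symm
    · rw [Function.update_of_ne hav, Function.update_of_ne hbv]
      apply hσ
      rw [mem_restr]
      exact ⟨hA, Finset.mem_erase.2 ⟨hav, ha⟩, Finset.mem_erase.2 ⟨hbv, hb⟩⟩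

private theorem deg_sum {A : Finset (Sym2 ℕ)} (S : Finset ℕ) :
    ∑ v ∈ S, (S.filter (fun w => s(v, w) ∈ A)).card ≤ 2 * eIn A S := by
  have h1 : ∑ v ∈ S, (S.filter (fun w => s(v, w) ∈ A)).card =
      ((S ×ˢ S).filter (fun p => s(p.1, p.2) ∈ A)).card := by
    rw [Finset.card_filter, Finset.sum_product]
    refine Finset.sum_congr rfl fun v _ => ?_
    rw [Finset.card_filter]
  rw [h1]
  have h2 := Finset.card_le_mul_card_image (f := fun p : ℕ × ℕ => s(p.1, p.2))
    ((S ×ˢ S).filter (fun p => s(p.1, p.2) ∈ A)) 2 (by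
      intro e _
      induction e using Sym2.ind with
      | _ a b =>
        have hsub : (((S ×ˢ S).filter (fun p => s(p.1, p.2) ∈ A)).filter
            (fun p : ℕ × ℕ => s(p.1, p.2) = s(a, b))) ⊆ {(a, b), (b, a)} := by
          rintro ⟨x, y⟩ hxy
          rw [Finset.mem_filter] at hxy
          have h3 := hxy.2
          simp only [Sym2.eq_iff] at h3
          rw [Finset.mem_insert, Finset.mem_singleton, Prod.mk.injEq, Prod.mk.injEq]
          exact h3
        exact (Finset.card_le_card hsub).trans (Finset.card_le_two))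
  refine h2.trans ?_
  have h3 : ((S ×ˢ S).filter (fun p => s(p.1, p.2) ∈ A)).image (fun p : ℕ × ℕ => s(p.1, p.2)) ⊆
      A.filter (fun e => ∀ v ∈ e, v ∈ S) := by
    intro e he
    rw [Finset.mem_image] at he
    obtain ⟨⟨x, y⟩, hxy, rfl⟩ := he
    rw [Finset.mem_filter, Finset.mem_product] at hxy
    rw [mem_restr]
    exact ⟨hxy.2, hxy.1.1, hxy.1.2⟩
  have h4 := Finset.card_le_card h3
  unfold eIn
  omega

theorem exists_dense_of_not_col {m : ℕ} {A : Finset (Sym2 ℕ)} (hA : A ⊆ EN m) (h : ¬ Col A) :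
    ∃ S ⊆ Finset.range m, 4 ≤ S.card ∧ 3 * S.card ≤ 2 * eIn A S := by
  have hd : ∀ a, s(a, a) ∉ A := by
    intro a ha
    have h1 := hA ha
    unfold EN EE at h1
    rw [Finset.mem_filter] at h1
    exact h1.2 (Sym2.mk_isDiag_iff.2 rfl)
  have hfull : A.filter (fun e => ∀ v ∈ e, v ∈ Finset.range m) = A := by
    apply Finset.filter_true_of_mem
    intro e he
    induction e using Sym2.ind with
    | _ a b =>
      have h1 := hA he
      unfold EN EE at h1
      rw [Finset.mem_filter, Finset.mk_mem_sym2_iff] at h1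
      intro v hv
      rw [Sym2.mem_iff] at hv
      rcases hv with rfl | rfl
      · exact h1.1.1
      · exact h1.1.2
  set F : Finset (Finset ℕ) := (Finset.range m).powerset.filter
    (fun S => ¬ Col (A.filter (fun e => ∀ v ∈ e, v ∈ S))) with hF
  have hFne : F.Nonempty := by
    refine ⟨Finset.range m, ?_⟩
    rw [hF, Finset.mem_filter, hfull]
    exact ⟨Finset.mem_powerset_self _, h⟩
  obtain ⟨S, hSF, hmin⟩ := Finset.exists_min_image F Finset.card hFne
  rw [hF, Finset.mem_filter, Finset.mem_powerset] at hSF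
  obtain ⟨hSm, hSc⟩ := hSF
  have hdeg : ∀ v ∈ S, 3 ≤ (S.filter (fun w => s(v, w) ∈ A)).card := by
    intro v hv
    by_contra hlt
    push Not at hlt
    apply hSc
    apply extend_col hd hlt
    by_contra hnc
    have h1 : S.erase v ∈ F := by
      rw [hF, Finset.mem_filter, Finset.mem_powerset]
      exact ⟨(Finset.erase_subset _ _).trans hSm, hnc⟩
    have h2 := hmin _ h1
    have h3 := Finset.card_erase_lt_of_mem hv
    omega
  have hne : S.Nonempty := by
    rw [Finset.nonempty_iff_ne_empty]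
    rintro rfl
    apply hSc
    refine ⟨fun _ => 0, ?_⟩
    intro a b hab
    rw [mem_restr] at hab
    exact absurd hab.2.1 (Finset.notMem_empty _)
  refine ⟨S, hSm, ?_, ?_⟩
  · obtain ⟨v, hv⟩ := hne
    have h1 := hdeg v hv
    have h2 : S.filter (fun w => s(v, w) ∈ A) ⊆ S.erase v := by
      intro w hw
      rw [Finset.mem_filter] at hw
      rw [Finset.mem_erase]
      refine ⟨?_, hw.1⟩
      rintro rfl
      exact hd _ hw.2
    have h3 := Finset.card_le_card h2
    have h4 := Finset.card_erase_of_mem hv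
    have h5 : 0 < S.card := Finset.card_pos.2 ⟨v, hv⟩
    omega
  · have h1 := deg_sum (A := A) S
    have h2 : S.card * 3 ≤ ∑ v ∈ S, (S.filter (fun w => s(v, w) ∈ A)).card := by
      have := Finset.card_nsmul_le_sum S (fun v => (S.filter (fun w => s(v, w) ∈ A)).card) 3 hdeg
      rwa [smul_eq_mul] at this
    omega

end Pool.Agent.LC3
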