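import Pool.Agent.LC3.Split
import Pool.Agent.LC3.NetBasic

/-!
# LC3.PlantA : lower bound for the rate with the structure planted on the last 20 vertices

`XX m i l A`: the graph `A` on `m+20` vertices is `A' = A ∩ EN m` together with a good planted structure
`tmpl m Z T x` with `|Z| = i`, `|T| = l`.

* `tmpl_sub`: all edges of `tmpl m Z T x` lie in `EN (m+20)` and none lies in `EN m`.
* `card_tmpl`, `tmpl_inj`: let `(Z,T,x)`, `Good m Z T x A'`, `A' ⊆ EN m`. Every gadget has 7 different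
  edges: `x j 0 ≠ x j 1` and `x j 3 ≠ x j 4` since the classes of `m` and `m+1` in the colourable graph
  `base2 m Z T A'` are disjoint (`s(m+1,m)` is an edge of it). The stars and the 6 gadgets are disjoint (they
  use different new vertices). So `|tmpl| = i + (l+1) + 42 = i + l + 43`. The set `tmpl m Z T x` determines
  `Z` (neighbours `< m` of `m`), `T` (neighbours `< m` of `m+1`), `x j 2` (the neighbour `< m` of `m+3+3j`),
  and the sets `{x j 0, x j 1}` (neighbours `< m` of `m+2+3j`), `{x j 3, x j 4}` (of `m+4+3j`); by goodness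
  `x j 0` is the element of the first set which is equivalent to `m` in `base2 m Z T A'`, etc.
* `plantA`: only keep the edges `e ∈ EN m`. For them
  `(EN (m+20)).erase e = (EN m).erase e ∪ (EN (m+20) \ EN m)` (disjoint), so by `ex_union` the expectation
  is `ex_{A'} ex_{B}` with `A' ⊆ (EN m).erase e`, `B ⊆ EN (m+20) \ EN m`. For every good triple for `A'`
  the set `B = tmpl m Z T x` has probability
  `t^(i+l+43) (1-t)^(20m+190-(i+l+43)) ≥ t^(i+l+43) (1-t)^(20m+190)` (`ex_eq_single`;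
  `|EN (m+20) \ EN m| = 20m+190`), and for it `XX m i l (A' ∪ B)` (`(A' ∪ B) ∩ EN m = A'`) and
  `¬ Col (insert e A') → ¬ Col (insert e (A' ∪ B))`. Different good triples give different `B`
  (`tmpl_inj`), so for fixed `A'`:
  `ex_B (ind (XX (A' ∪ B) ∧ ¬ Col (insert e (A' ∪ B)))) ≥ ind (Col A' ∧ ¬ Col (insert e A')) *
     t^(i+l+43) (1-t)^(20m+190) * (number of good triples)`, and the number of good triples is
  `C(m,i) C(m,l) m^30 gf m i l A'` (if the denominator of `gf` is zero the left side of the claim is 0).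
-/

set_option linter.all false

open Classical

namespace Pool.Agent.LC3

/-- the structure is planted on the vertices `m, ..., m+19` -/
def XX (m i l : ℕ) (A : Finset (Sym2 ℕ)) : Prop :=
  ∃ Z ∈ (Finset.range m).powersetCard i, ∃ T ∈ (Finset.range m).powersetCard l, ∃ x ∈ Ext m,
    Good m Z T x (A ∩ EN m) ∧ A = (A ∩ EN m) ∪ tmpl m Z T x

/-- rate of dying with the planted structure -/
noncomputable def FX (m i l : ℕ) (t : ℝ) : ℝ :=
  ∑ e ∈ EN (m + 20), ex t ((EN (m + 20)).erase e) (fun A => ind (XX m i l A ∧ ¬ Col (insert e A)))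

private theorem mem_Ext {m : ℕ} {x : Fin 6 → Fin 5 → ℕ} : x ∈ Ext m ↔ ∀ j k, x j k < m := by
  simp [Ext]

private theorem mem_gad {m j v y : ℕ} {x : Fin 5 → ℕ} (hy : y < m) :
    s(v, y) ∈ gad m j x ↔ (v = m + 2 + 3 * j ∧ (y = x 0 ∨ y = x 1)) ∨
      (v = m + 3 + 3 * j ∧ y = x 2) ∨ (v = m + 4 + 3 * j ∧ (y = x 3 ∨ y = x 4)) := by
  have key : ∀ p q : ℕ, m ≤ p → (s(v, y) = s(p, q) ↔ v = p ∧ y = q) := by
    intro p q hp
    rw [Sym2.eq_iff]
    constructor
    · rintro (h | h)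
      · exact h
      · omega
    · intro h
      exact Or.inl h
  have h1 := key (m + 2 + 3 * j) (x 0) (by omega)
  have h2 := key (m + 2 + 3 * j) (x 1) (by omega)
  have h3 : ¬ s(v, y) = s(m + 2 + 3 * j, m + 3 + 3 * j) := by
    rw [key _ _ (by omega)]
    omega
  have h4 := key (m + 3 + 3 * j) (x 2) (by omega)
  have h5 : ¬ s(v, y) = s(m + 3 + 3 * j, m + 4 + 3 * j) := by
    rw [key _ _ (by omega)]
    omega
  have h6 := key (m + 4 + 3 * j) (x 3) (by omega)
  have h7 := key (m + 4 + 3 * j) (x 4) (by omega)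
  unfold gad
  rw [Finset.mem_insert, Finset.mem_insert, Finset.mem_insert, Finset.mem_insert,
    Finset.mem_insert, Finset.mem_insert, Finset.mem_singleton, h1, h2, h4, h6, h7]
  constructor
  · rintro (h | h | h | h | h | h | h)
    · exact Or.inl ⟨h.1, Or.inl h.2⟩
    · exact Or.inl ⟨h.1, Or.inr h.2⟩
    · exact absurd h h3
    · exact Or.inr (Or.inl h)
    · exact absurd h h5
    · exact Or.inr (Or.inr ⟨h.1, Or.inl h.2⟩)
    · exact Or.inr (Or.inr ⟨h.1, Or.inr h.2⟩)
  · rintro (⟨h, h' | h'⟩ | h | ⟨h, h' | h'⟩)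
    · exact Or.inl ⟨h, h'⟩
    · exact Or.inr (Or.inl ⟨h, h'⟩)
    · exact Or.inr (Or.inr (Or.inr (Or.inl h)))
    · exact Or.inr (Or.inr (Or.inr (Or.inr (Or.inr (Or.inl ⟨h, h'⟩)))))
    · exact Or.inr (Or.inr (Or.inr (Or.inr (Or.inr (Or.inr ⟨h, h'⟩)))))

private theorem gad_vert {m j a b : ℕ} {x : Fin 5 → ℕ} (hx : ∀ k, x k < m)
    (h : s(a, b) ∈ gad m j x) :
    (a ≠ b ∧ a ≤ m + 4 + 3 * j ∧ b ≤ m + 4 + 3 * j) ∧
    ((m + 2 + 3 * j ≤ a ∧ a ≤ m + 4 + 3 * j) ∨ (m + 2 + 3 * j ≤ b ∧ b ≤ m + 4 + 3 * j)) ∧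
    (a < m ∨ m + 2 + 3 * j ≤ a) ∧ (b < m ∨ m + 2 + 3 * j ≤ b) := by
  have h0 := hx 0
  have h1 := hx 1
  have h2 := hx 2
  have h3 := hx 3
  have h4 := hx 4
  unfold gad at h
  simp only [Finset.mem_insert, Finset.mem_singleton, Sym2.eq_iff] at h
  omega

private theorem mem_tmpl {m v y : ℕ} {Z T : Finset ℕ} {x : Fin 6 → Fin 5 → ℕ}
    (hy : y < m) (hv : m ≤ v) :
    s(v, y) ∈ tmpl m Z T x ↔ (v = m ∧ y ∈ Z) ∨ (v = m + 1 ∧ y ∈ T) ∨
      ∃ j : Fin 6, (v = m + 2 + 3 * (j : ℕ) ∧ (y = x j 0 ∨ y = x j 1)) ∨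
      (v = m + 3 + 3 * (j : ℕ) ∧ y = x j 2) ∨ (v = m + 4 + 3 * (j : ℕ) ∧ (y = x j 3 ∨ y = x j 4)) := by
  unfold tmpl
  rw [Finset.mem_union, Finset.mem_union, mem_st, mem_st, Finset.mem_biUnion, or_assoc]
  refine or_congr ?_ (or_congr ?_ ?_)
  · constructor
    · rintro (h | h)
      · exact h
      · omega
    · intro h
      exact Or.inl h
  · rw [Finset.mem_insert]
    constructor
    · rintro (⟨h1, h2⟩ | ⟨h1, h2⟩)
      · refine ⟨h1, h2.resolve_left (by omega)⟩
      · omega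
    · rintro ⟨h1, h2⟩
      exact Or.inl ⟨h1, Or.inr h2⟩
  · simp only [Finset.mem_univ, true_and]
    exact exists_congr fun j => mem_gad hy

theorem tmpl_sub {m : ℕ} {Z T : Finset ℕ} {x : Fin 6 → Fin 5 → ℕ} (hZ : Z ⊆ Finset.range m)
    (hT : T ⊆ Finset.range m) (hx : x ∈ Ext m) :
    tmpl m Z T x ⊆ EN (m + 20) \ EN m := by
  intro e
  induction e using Sym2.ind with
  | _ a b =>
    intro h
    rw [Finset.mem_sdiff, mem_EN, mem_EN]
    unfold tmpl at h
    rw [Finset.mem_union, Finset.mem_union, mem_st, mem_st, Finset.mem_biUnion] at h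
    rcases h with (h | h) | ⟨j, _, h⟩
    · rcases h with ⟨h1, h2⟩ | ⟨h1, h2⟩
      · have := Finset.mem_range.1 (hZ h2)
        omega
      · have := Finset.mem_range.1 (hZ h2)
        omega
    · rcases h with ⟨h1, h2⟩ | ⟨h1, h2⟩
      · rcases Finset.mem_insert.1 h2 with h3 | h3
        · omega
        · have := Finset.mem_range.1 (hT h3)
          omega
      · rcases Finset.mem_insert.1 h2 with h3 | h3
        · omega
        · have := Finset.mem_range.1 (hT h3)
          omega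
    · have h1 := gad_vert (fun k => mem_Ext.1 hx j k) h
      have h2 := j.isLt
      omega

/-- the two new vertices have different colours -/
private theorem not_eqv_mm {m : ℕ} {Z T : Finset ℕ} {x : Fin 6 → Fin 5 → ℕ} {A : Finset (Sym2 ℕ)}
    (h : Good m Z T x A) : ¬ Eqv (base2 m Z T A) m (m + 1) := by
  intro h1
  refine not_dif_of_eqv h.1 h1 (dif_of_mem ?_)
  unfold base2
  rw [Finset.mem_union, mem_st]
  exact Or.inr (Or.inr ⟨rfl, Finset.mem_insert_self _ _⟩)

private theorem card_gad {m j : ℕ} {x : Fin 5 → ℕ} (hx : ∀ k, x k < m) (h01 : x 0 ≠ x 1)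
    (h34 : x 3 ≠ x 4) : (gad m j x).card = 7 := by
  have h0 := hx 0
  have h1 := hx 1
  have h2 := hx 2
  have h3 := hx 3
  have h4 := hx 4
  unfold gad
  rw [Finset.card_insert_of_notMem, Finset.card_insert_of_notMem, Finset.card_insert_of_notMem,
    Finset.card_insert_of_notMem, Finset.card_insert_of_notMem, Finset.card_insert_of_notMem,
    Finset.card_singleton]
  all_goals
    simp only [Finset.mem_insert, Finset.mem_singleton, Sym2.eq_iff]
    omega

theorem card_tmpl {m i l : ℕ} {Z T : Finset ℕ} {x : Fin 6 → Fin 5 → ℕ} {A : Finset (Sym2 ℕ)}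
    (hA : A ⊆ EN m) (hZ : Z ∈ (Finset.range m).powersetCard i)
    (hT : T ∈ (Finset.range m).powersetCard l) (hx : x ∈ Ext m) (h : Good m Z T x A) :
    (tmpl m Z T x).card = i + l + 43 := by
  obtain ⟨hZ1, hZ2⟩ := Finset.mem_powersetCard.1 hZ
  obtain ⟨hT1, hT2⟩ := Finset.mem_powersetCard.1 hT
  have hx' := mem_Ext.1 hx
  have hmT : m ∉ T := fun h => by
    have := Finset.mem_range.1 (hT1 h)
    omega
  have hd1 : Disjoint (st m Z) (st (m + 1) (insert m T)) := by
    rw [Finset.disjoint_left]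
    intro e
    induction e using Sym2.ind with
    | _ a b =>
      rw [mem_st, mem_st]
      rintro (⟨h1, h2⟩ | ⟨h1, h2⟩) (⟨h3, h4⟩ | ⟨h3, h4⟩)
      · omega
      · have := Finset.mem_range.1 (hZ1 h2)
        omega
      · have := Finset.mem_range.1 (hZ1 h2)
        omega
      · omega
  have hd2 : Disjoint (st m Z ∪ st (m + 1) (insert m T))
      (Finset.univ.biUnion (fun j : Fin 6 => gad m (j : ℕ) (x j))) := by
    rw [Finset.disjoint_left]
    intro e
    induction e using Sym2.ind with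
    | _ a b =>
      intro h1 h2
      rw [Finset.mem_biUnion] at h2
      obtain ⟨j, _, h2⟩ := h2
      have h3 := gad_vert (hx' j) h2
      rw [Finset.mem_union, mem_st, mem_st] at h1
      rcases h1 with (⟨h4, h5⟩ | ⟨h4, h5⟩) | (⟨h4, h5⟩ | ⟨h4, h5⟩)
      · have := Finset.mem_range.1 (hZ1 h5)
        omega
      · have := Finset.mem_range.1 (hZ1 h5)
        omega
      · rcases Finset.mem_insert.1 h5 with h6 | h6
        · omega
        · have := Finset.mem_range.1 (hT1 h6)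
          omega
      · rcases Finset.mem_insert.1 h5 with h6 | h6
        · omega
        · have := Finset.mem_range.1 (hT1 h6)
          omega
  have hc : (Finset.univ.biUnion (fun j : Fin 6 => gad m (j : ℕ) (x j))).card = 42 := by
    rw [Finset.card_biUnion]
    · have h7 : ∀ j : Fin 6, (gad m (j : ℕ) (x j)).card = 7 := by
        intro j
        obtain ⟨g0, g1, g2, g3, g4⟩ := h.2 j
        refine card_gad (hx' j) ?_ ?_
        · intro he
          rw [← he] at g1
          exact not_eqv_mm h (g0.trans g1.symm)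
        · intro he
          rw [← he] at g4
          exact not_eqv_mm h (g3.trans g4.symm)
      rw [Finset.sum_congr rfl fun j _ => h7 j]
      simp
    · intro j _ j' _ hjj
      show Disjoint (gad m (j : ℕ) (x j)) (gad m (j' : ℕ) (x j'))
      rw [Finset.disjoint_left]
      intro e
      induction e using Sym2.ind with
      | _ a b =>
        intro h1 h2
        have h3 := gad_vert (hx' j) h1
        have h4 := gad_vert (hx' j') h2
        have h5 : (j : ℕ) ≠ (j' : ℕ) := fun h => hjj (Fin.ext h)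
        omega
  unfold tmpl
  rw [Finset.card_union_of_disjoint hd2, Finset.card_union_of_disjoint hd1, card_st, card_st, hc,
    Finset.card_insert_of_notMem hmT, hZ2, hT2]
  omega

theorem tmpl_inj {m : ℕ} {Z T Z' T' : Finset ℕ} {x x' : Fin 6 → Fin 5 → ℕ}
    {A : Finset (Sym2 ℕ)} (hA : A ⊆ EN m) (hZ : Z ⊆ Finset.range m) (hT : T ⊆ Finset.range m)
    (hx : x ∈ Ext m) (hZ' : Z' ⊆ Finset.range m) (hT' : T' ⊆ Finset.range m) (hx' : x' ∈ Ext m)
    (h : Good m Z T x A) (h' : Good m Z' T' x' A) (heq : tmpl m Z T x = tmpl m Z' T' x') :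
    Z = Z' ∧ T = T' ∧ x = x' := by
  have e1 : Z = Z' := by
    have key : ∀ y, y < m → (y ∈ Z ↔ y ∈ Z') := by
      intro y hy
      have h1 : s(m, y) ∈ tmpl m Z T x ↔ s(m, y) ∈ tmpl m Z' T' x' := by rw [heq]
      rw [mem_tmpl hy le_rfl, mem_tmpl hy le_rfl] at h1
      constructor
      · intro h2
        rcases h1.1 (Or.inl ⟨rfl, h2⟩) with h3 | h3 | ⟨j, h3⟩
        · exact h3.2
        · omega
        · omega
      · intro h2
        rcases h1.2 (Or.inl ⟨rfl, h2⟩) with h3 | h3 | ⟨j, h3⟩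
        · exact h3.2
        · omega
        · omega
    ext y
    exact ⟨fun hy => (key y (Finset.mem_range.1 (hZ hy))).1 hy,
      fun hy => (key y (Finset.mem_range.1 (hZ' hy))).2 hy⟩
  have e2 : T = T' := by
    have key : ∀ y, y < m → (y ∈ T ↔ y ∈ T') := by
      intro y hy
      have h1 : s(m + 1, y) ∈ tmpl m Z T x ↔ s(m + 1, y) ∈ tmpl m Z' T' x' := by rw [heq]
      rw [mem_tmpl hy (Nat.le_succ m), mem_tmpl hy (Nat.le_succ m)] at h1
      constructor
      · intro h2
        rcases h1.1 (Or.inr (Or.inl ⟨rfl, h2⟩)) with h3 | h3 | ⟨j, h3⟩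
        · omega
        · exact h3.2
        · omega
      · intro h2
        rcases h1.2 (Or.inr (Or.inl ⟨rfl, h2⟩)) with h3 | h3 | ⟨j, h3⟩
        · omega
        · exact h3.2
        · omega
    ext y
    exact ⟨fun hy => (key y (Finset.mem_range.1 (hT hy))).1 hy,
      fun hy => (key y (Finset.mem_range.1 (hT' hy))).2 hy⟩
  refine ⟨e1, e2, ?_⟩
  subst e1 e2
  have hne := not_eqv_mm h
  have g := mem_Ext.1 hx
  have k0 : ∀ j, x j 0 = x' j 0 ∨ x j 0 = x' j 1 := by
    intro j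
    have h1 : s(m + 2 + 3 * (j : ℕ), x j 0) ∈ tmpl m Z T x' := by
      rw [← heq, mem_tmpl (g j 0) (by omega)]
      exact Or.inr (Or.inr ⟨j, Or.inl ⟨rfl, Or.inl rfl⟩⟩)
    rw [mem_tmpl (g j 0) (by omega)] at h1
    rcases h1 with h1 | h1 | ⟨j', h1⟩
    · omega
    · omega
    · rcases h1 with ⟨h2, h3⟩ | ⟨h2, h3⟩ | ⟨h2, h3⟩
      · have : j' = j := Fin.ext (by omega)
        rw [this] at h3
        exact h3
      · omega
      · omega
  have k1 : ∀ j, x j 1 = x' j 0 ∨ x j 1 = x' j 1 := by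
    intro j
    have h1 : s(m + 2 + 3 * (j : ℕ), x j 1) ∈ tmpl m Z T x' := by
      rw [← heq, mem_tmpl (g j 1) (by omega)]
      exact Or.inr (Or.inr ⟨j, Or.inl ⟨rfl, Or.inr rfl⟩⟩)
    rw [mem_tmpl (g j 1) (by omega)] at h1
    rcases h1 with h1 | h1 | ⟨j', h1⟩
    · omega
    · omega
    · rcases h1 with ⟨h2, h3⟩ | ⟨h2, h3⟩ | ⟨h2, h3⟩
      · have : j' = j := Fin.ext (by omega)
        rw [this] at h3
        exact h3
      · omega
      · omega
  have k2 : ∀ j, x j 2 = x' j 2 := by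
    intro j
    have h1 : s(m + 3 + 3 * (j : ℕ), x j 2) ∈ tmpl m Z T x' := by
      rw [← heq, mem_tmpl (g j 2) (by omega)]
      exact Or.inr (Or.inr ⟨j, Or.inr (Or.inl ⟨rfl, rfl⟩)⟩)
    rw [mem_tmpl (g j 2) (by omega)] at h1
    rcases h1 with h1 | h1 | ⟨j', h1⟩
    · omega
    · omega
    · rcases h1 with ⟨h2, h3⟩ | ⟨h2, h3⟩ | ⟨h2, h3⟩
      · omega
      · have : j' = j := Fin.ext (by omega)
        rw [this] at h3
        exact h3
      · omega
  have k3 : ∀ j, x j 3 = x' j 3 ∨ x j 3 = x' j 4 := by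
    intro j
    have h1 : s(m + 4 + 3 * (j : ℕ), x j 3) ∈ tmpl m Z T x' := by
      rw [← heq, mem_tmpl (g j 3) (by omega)]
      exact Or.inr (Or.inr ⟨j, Or.inr (Or.inr ⟨rfl, Or.inl rfl⟩)⟩)
    rw [mem_tmpl (g j 3) (by omega)] at h1
    rcases h1 with h1 | h1 | ⟨j', h1⟩
    · omega
    · omega
    · rcases h1 with ⟨h2, h3⟩ | ⟨h2, h3⟩ | ⟨h2, h3⟩
      · omega
      · omega
      · have : j' = j := Fin.ext (by omega)
        rw [this] at h3
        exact h3
  have k4 : ∀ j, x j 4 = x' j 3 ∨ x j 4 = x' j 4 := by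
    intro j
    have h1 : s(m + 4 + 3 * (j : ℕ), x j 4) ∈ tmpl m Z T x' := by
      rw [← heq, mem_tmpl (g j 4) (by omega)]
      exact Or.inr (Or.inr ⟨j, Or.inr (Or.inr ⟨rfl, Or.inr rfl⟩)⟩)
    rw [mem_tmpl (g j 4) (by omega)] at h1
    rcases h1 with h1 | h1 | ⟨j', h1⟩
    · omega
    · omega
    · rcases h1 with ⟨h2, h3⟩ | ⟨h2, h3⟩ | ⟨h2, h3⟩
      · omega
      · omega
      · have : j' = j := Fin.ext (by omega)
        rw [this] at h3
        exact h3
  have all : ∀ j, x j 0 = x' j 0 ∧ x j 1 = x' j 1 ∧ x j 2 = x' j 2 ∧ x j 3 = x' j 3 ∧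
      x j 4 = x' j 4 := by
    intro j
    obtain ⟨a0, a1, a2, a3, a4⟩ := h.2 j
    obtain ⟨b0, b1, b2, b3, b4⟩ := h'.2 j
    refine ⟨(k0 j).resolve_right ?_, (k1 j).resolve_left ?_, k2 j, (k3 j).resolve_right ?_,
      (k4 j).resolve_left ?_⟩
    · intro he
      rw [he] at a0
      exact hne (a0.trans b1.symm)
    · intro he
      rw [he] at a1
      exact hne (b0.trans a1.symm)
    · intro he
      rw [he] at a3
      exact hne (a3.trans b4.symm)
    · intro he
      rw [he] at a4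
      exact hne (b3.trans a4.symm)
  funext j k
  obtain ⟨c0, c1, c2, c3, c4⟩ := all j
  fin_cases k
  · exact c0
  · exact c1
  · exact c2
  · exact c3
  · exact c4

private theorem card_diff (m : ℕ) : (EN (m + 20) \ EN m).card = 20 * m + 190 := by
  rw [Finset.card_sdiff_of_subset (EN_mono (by omega)), card_EN, card_EN]
  have h1 : (m + 20).choose 2 = m.choose 2 + (20 * m + 190) := by
    have h : ∀ k : ℕ, (k + 1).choose 2 = k.choose 2 + k := fun k => by
      rw [Nat.choose_succ_succ' k 1, Nat.choose_one_right, add_comm]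
    simp only [h]
    omega
  omega

theorem plantA (m i l : ℕ) {t : ℝ} (h0 : 0 ≤ t) (h1 : t ≤ 1) :
    t ^ (i + l + 43) * (1 - t) ^ (20 * m + 190) *
        ((m.choose i : ℝ) * (m.choose l : ℝ) * (m : ℝ) ^ 30) * Rr m t (gf m i l) ≤ FX m i l t := by
  set c : ℝ := t ^ (i + l + 43) * (1 - t) ^ (20 * m + 190) with hc
  set b : ℝ := (m.choose i : ℝ) * (m.choose l : ℝ) * (m : ℝ) ^ 30 with hb
  have h1t : 0 ≤ 1 - t := by linarith
  have hc0 : 0 ≤ c := by positivity
  have hb0 : 0 ≤ b := by positivity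
  have hFX : ∑ e ∈ EN m, ex t ((EN (m + 20)).erase e)
      (fun A => ind (XX m i l A ∧ ¬ Col (insert e A))) ≤ FX m i l t := by
    unfold FX
    exact Finset.sum_le_sum_of_subset_of_nonneg (EN_mono (by omega)) fun e _ _ =>
      ex_nonneg h0 h1 fun A _ => ind_nonneg _
  refine le_trans ?_ hFX
  unfold Rr
  rw [Finset.mul_sum]
  refine Finset.sum_le_sum fun e he => ?_
  set D : Finset (Sym2 ℕ) := EN (m + 20) \ EN m with hD
  have hDc : D.card = 20 * m + 190 := card_diff m
  have hsplit : (EN (m + 20)).erase e = (EN m).erase e ∪ D := by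
    ext f
    rw [Finset.mem_erase, Finset.mem_union, Finset.mem_erase, hD, Finset.mem_sdiff]
    constructor
    · rintro ⟨h2, h3⟩
      by_cases h4 : f ∈ EN m
      · exact Or.inl ⟨h2, h4⟩
      · exact Or.inr ⟨h3, h4⟩
    · rintro (⟨h2, h3⟩ | ⟨h2, h3⟩)
      · exact ⟨h2, EN_mono (by omega) h3⟩
      · exact ⟨fun hfe => h3 (hfe ▸ he), h2⟩
  have hdis : Disjoint ((EN m).erase e) D := by
    rw [Finset.disjoint_left]
    intro f hf hf'
    exact (Finset.mem_sdiff.1 hf').2 (Finset.mem_of_mem_erase hf)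
  rw [hsplit, ex_union t _ _ hdis, ← ex_mul_left]
  refine ex_mono h0 h1 fun A' hA' => ?_
  have hA : A' ⊆ EN m := hA'.trans (Finset.erase_subset _ _)
  by_cases hcol : Col A' ∧ ¬ Col (insert e A')
  swap
  · rw [ind_of_not hcol, zero_mul, mul_zero]
    exact ex_nonneg h0 h1 fun B _ => ind_nonneg _
  rw [ind_of hcol, one_mul]
  set S := ((((Finset.range m).powersetCard i) ×ˢ (((Finset.range m).powersetCard l) ×ˢ
    Ext m)).filter (fun p => Good m p.1 p.2.1 p.2.2 A')) with hS
  have hgf : b * gf m i l A' ≤ (S.card : ℝ) := by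
    unfold gf
    rw [← hb, ← hS]
    rcases eq_or_ne b 0 with hb' | hb'
    · rw [hb', zero_mul]; positivity
    · rw [mul_div_cancel₀ _ hb']
  have hmemS : ∀ p ∈ S, p.1 ∈ (Finset.range m).powersetCard i ∧
      p.2.1 ∈ (Finset.range m).powersetCard l ∧ p.2.2 ∈ Ext m ∧ Good m p.1 p.2.1 p.2.2 A' := by
    intro p hp
    obtain ⟨h2, h3⟩ := Finset.mem_filter.1 hp
    rw [Finset.mem_product, Finset.mem_product] at h2
    exact ⟨h2.1, h2.2.1, h2.2.2, h3⟩
  have hsub : ∀ p ∈ S, tmpl m p.1 p.2.1 p.2.2 ⊆ D := by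
    intro p hp
    obtain ⟨h2, h3, h4, h5⟩ := hmemS p hp
    exact tmpl_sub (Finset.mem_powersetCard.1 h2).1 (Finset.mem_powersetCard.1 h3).1 h4
  have hlow : c * (S.card : ℝ) ≤
      ex t D (fun B => ∑ p ∈ S, ind (B = tmpl m p.1 p.2.1 p.2.2) * (1 : ℝ)) := by
    rw [ex_sum]
    have h2 : ∀ p ∈ S, c ≤ ex t D (fun B => ind (B = tmpl m p.1 p.2.1 p.2.2) * (1 : ℝ)) := by
      intro p hp
      obtain ⟨h3, h4, h5, h6⟩ := hmemS p hp
      rw [ex_eq_single t D _ (hsub p hp) (fun _ => (1 : ℝ)), mul_one,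
        card_tmpl hA h3 h4 h5 h6, hDc, hc]
      refine mul_le_mul_of_nonneg_left ?_ (by positivity)
      exact pow_le_pow_of_le_one h1t (by linarith) (by omega)
    calc c * (S.card : ℝ) = ∑ p ∈ S, c := by rw [Finset.sum_const, nsmul_eq_mul, mul_comm]
      _ ≤ _ := Finset.sum_le_sum h2
  have hup : ex t D (fun B => ∑ p ∈ S, ind (B = tmpl m p.1 p.2.1 p.2.2) * (1 : ℝ)) ≤
      ex t D (fun B => ind (XX m i l (A' ∪ B) ∧ ¬ Col (insert e (A' ∪ B)))) := by
    refine ex_mono h0 h1 fun B hB => ?_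
    by_cases hex : ∃ p ∈ S, B = tmpl m p.1 p.2.1 p.2.2
    · obtain ⟨p, hp, hBp⟩ := hex
      obtain ⟨h3, h4, h5, h6⟩ := hmemS p hp
      have hsum : ∑ q ∈ S, ind (B = tmpl m q.1 q.2.1 q.2.2) * (1 : ℝ) = 1 := by
        rw [Finset.sum_eq_single p]
        · rw [ind_of hBp, one_mul]
        · intro q hq hqp
          rw [ind_of_not, zero_mul]
          intro hBq
          apply hqp
          obtain ⟨g3, g4, g5, g6⟩ := hmemS q hq
          obtain ⟨r1, r2, r3⟩ := tmpl_inj hA (Finset.mem_powersetCard.1 g3).1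
            (Finset.mem_powersetCard.1 g4).1 g5 (Finset.mem_powersetCard.1 h3).1
            (Finset.mem_powersetCard.1 h4).1 h5 g6 h6 (hBq.symm.trans hBp)
          exact Prod.ext r1 (Prod.ext r2 r3)
        · intro h7
          exact absurd hp h7
      rw [hsum, ind_of]
      have hint : (A' ∪ B) ∩ EN m = A' := by
        rw [Finset.union_inter_distrib_right, Finset.inter_eq_left.2 hA]
        have : B ∩ EN m = ∅ := by
          rw [← Finset.disjoint_iff_inter_eq_empty, Finset.disjoint_left]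
          intro f hf hf'
          exact (Finset.mem_sdiff.1 (hB hf)).2 hf'
        rw [this, Finset.union_empty]
      refine ⟨⟨p.1, h3, p.2.1, h4, p.2.2, h5, ?_, ?_⟩, ?_⟩
      · rw [hint]; exact h6
      · rw [hint, ← hBp]
      · intro h7
        exact hcol.2 (h7.mono (Finset.insert_subset_insert _ Finset.subset_union_left))
    · rw [Finset.sum_eq_zero]
      · exact ind_nonneg _
      · intro q hq
        rw [ind_of_not (fun h => hex ⟨q, hq, h⟩), zero_mul]
  calc c * b * gf m i l A' = c * (b * gf m i l A') := by ring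
    _ ≤ c * (S.card : ℝ) := mul_le_mul_of_nonneg_left hgf hc0
    _ ≤ _ := hlow.trans hup

end Pool.Agent.LC3
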