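import Pool.Agent.LC3.Split
import Pool.Agent.LC3.NetBasic

/-!
# LC3.TmplBad : a good planted structure makes the graph 3-colourable but not 3-choosable

Let `B = base2 m Z T A`, `Col B`, and write `G = A ∪ tmpl m Z T x`. Gadget `j` has the vertices
`s = m+2+3j`, `v = m+3+3j`, `y = m+4+3j` and the edges `s-(x j 0)`, `s-(x j 1)`, `s-v`, `v-(x j 2)`, `v-y`,
`y-(x j 3)`, `y-(x j 4)`.

Colourable: let `σ` be a proper colouring of `B`, `α = σ m`, `β = σ (m+1)` (`α ≠ β` as `s(m+1,m) ∈ B`), `γ` the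
third colour. By `Good`, `σ (x j 0) = σ (x j 2) = σ (x j 3) = α`, `σ (x j 1) = σ (x j 4) = β`. Put
`σ' s = γ`, `σ' v = β`, `σ' y = γ` for all gadgets. This is proper for `G`.

Not choosable: lists `L = {1,2,3}` for all vertices except `L v = {0,1,2,3} \ {b}`, `L y = {0,1,2,3} \ {a}` in gadget
`j`, where `(a,b)` is the `j`-th of the six ordered pairs of different elements of `{1,2,3}`. Suppose `f` is
an `L`-colouring of `G`. On all vertices except the `v`'s and `y`'s, `f` has values in `{1,2,3}`, so it gives a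
proper 3-colouring of `B` (compose with a bijection `{1,2,3} → Fin 3`, arbitrary on the other vertices not
occurring in `B`). Let `α = f m`, `β = f (m+1)`, `γ` the third element of `{1,2,3}`. Then `f s = γ` in every gadget.
Take the gadget with `(a,b) = (γ,β)`: `f y ∈ {0,α,β}` and `y` is adjacent to `x j 3` (colour `α`) and
`x j 4` (colour `β`), so `f y = 0`; `f v ∈ {0,α,γ}` and `v` is adjacent to `x j 2` (colour `α`) and to `s`
(colour `γ`), so `f v = 0`; but `v`, `y` are adjacent: contradiction.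
-/

set_option autoImplicit false

open Classical

namespace Pool.Agent.LC3

/-- being proper, edge by edge -/
private theorem tb_proper {A : Finset (Sym2 ℕ)} {σ : ℕ → Fin 3}
    (h : ∀ e ∈ A, ¬ (Sym2.map σ e).IsDiag) : Proper A σ := by
  intro a b hab hne
  have h1 := h _ hab
  rw [Sym2.map_mk, Sym2.mk_isDiag_iff] at h1
  exact h1 hne

private theorem tb_edge {A : Finset (Sym2 ℕ)} {σ : ℕ → Fin 3} (h : Proper A σ) {e : Sym2 ℕ}
    (he : e ∈ A) : ¬ (Sym2.map σ e).IsDiag := by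
  induction e using Sym2.ind with
  | _ a b =>
    rw [Sym2.map_mk, Sym2.mk_isDiag_iff]
    exact h a b he

/-- the vertices of `base2` are smaller than `m + 2` -/
private theorem tb_lt {m : ℕ} {Z T : Finset ℕ} {A : Finset (Sym2 ℕ)}
    (hA : A ⊆ EN m) (hZ : Z ⊆ Finset.range m) (hT : T ⊆ Finset.range m) {e : Sym2 ℕ}
    (he : e ∈ base2 m Z T A) : ∀ v ∈ e, v < m + 2 := by
  intro v hv
  simp only [base2, st, Finset.mem_union, Finset.mem_image] at he
  rcases he with (he | ⟨w, hw, rfl⟩) | ⟨w, hw, rfl⟩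
  · have h1 := hA he
    simp only [EN, EE, Finset.mem_filter, Finset.mem_sym2_iff] at h1
    have h2 := Finset.mem_range.1 (h1.1 v hv)
    omega
  · have h1 := Finset.mem_range.1 (hZ hw)
    rcases Sym2.mem_iff.1 hv with h | h
    · omega
    · omega
  · have h1 : w < m + 1 := by
      rcases Finset.mem_insert.1 hw with h | h
      · omega
      · have := Finset.mem_range.1 (hT h)
        omega
    rcases Sym2.mem_iff.1 hv with h | h
    · omega
    · omega

private theorem tb_sub {m : ℕ} {Z T : Finset ℕ} {x : Fin 6 → Fin 5 → ℕ} {A : Finset (Sym2 ℕ)} :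
    base2 m Z T A ⊆ A ∪ tmpl m Z T x := by
  intro e he
  simp only [base2, tmpl, Finset.mem_union] at he ⊢
  rcases he with (he | he) | he
  · exact Or.inl he
  · exact Or.inr (Or.inl (Or.inl he))
  · exact Or.inr (Or.inl (Or.inr he))

private theorem tb_m {m : ℕ} {Z T : Finset ℕ} {A : Finset (Sym2 ℕ)} :
    s(m + 1, m) ∈ base2 m Z T A := by
  simp only [base2, st, Finset.mem_union, Finset.mem_image]
  exact Or.inr ⟨m, Finset.mem_insert_self _ _, rfl⟩

private theorem tb_third : ∀ a b : Fin 3, ∃ c : Fin 3, c ≠ a ∧ c ≠ b := by decide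

private theorem tb_col {m : ℕ} {Z T : Finset ℕ} {x : Fin 6 → Fin 5 → ℕ} {A : Finset (Sym2 ℕ)}
    (hA : A ⊆ EN m) (hZ : Z ⊆ Finset.range m) (hT : T ⊆ Finset.range m) (hx : ∀ j i, x j i < m)
    (h : Good m Z T x A) : Col (A ∪ tmpl m Z T x) := by
  obtain ⟨⟨σ, hσ⟩, hg⟩ := h
  have hab : σ (m + 1) ≠ σ m := hσ _ _ tb_m
  obtain ⟨γ, hγ1, hγ2⟩ := tb_third (σ m) (σ (m + 1))
  let σ' : ℕ → Fin 3 := fun u =>
    if u < m + 2 then σ u else if (u - (m + 2)) % 3 = 1 then σ (m + 1) else γ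
  have e0 : ∀ u, u < m + 2 → σ' u = σ u := fun u hu => if_pos hu
  have e1 : ∀ j, σ' (m + 2 + 3 * j) = γ := by
    intro j
    have h1 : ¬ (m + 2 + 3 * j < m + 2) := by omega
    have h2 : ¬ ((m + 2 + 3 * j - (m + 2)) % 3 = 1) := by omega
    change (if m + 2 + 3 * j < m + 2 then _ else if (m + 2 + 3 * j - (m + 2)) % 3 = 1 then _ else γ) = γ
    rw [if_neg h1, if_neg h2]
  have e2 : ∀ j, σ' (m + 3 + 3 * j) = σ (m + 1) := by
    intro j
    have h1 : ¬ (m + 3 + 3 * j < m + 2) := by omega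
    have h2 : (m + 3 + 3 * j - (m + 2)) % 3 = 1 := by omega
    change (if m + 3 + 3 * j < m + 2 then _ else if (m + 3 + 3 * j - (m + 2)) % 3 = 1 then _ else γ) = _
    rw [if_neg h1, if_pos h2]
  have e3 : ∀ j, σ' (m + 4 + 3 * j) = γ := by
    intro j
    have h1 : ¬ (m + 4 + 3 * j < m + 2) := by omega
    have h2 : ¬ ((m + 4 + 3 * j - (m + 2)) % 3 = 1) := by omega
    change (if m + 4 + 3 * j < m + 2 then _ else if (m + 4 + 3 * j - (m + 2)) % 3 = 1 then _ else γ) = γ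
    rw [if_neg h1, if_neg h2]
  have e4 : ∀ j i, σ' (x j i) = σ (x j i) := fun j i => e0 _ (by have := hx j i; omega)
  refine ⟨σ', tb_proper ?_⟩
  have hB : ∀ e ∈ base2 m Z T A, ¬ (Sym2.map σ' e).IsDiag := by
    intro e he
    have h1 : Sym2.map σ' e = Sym2.map σ e :=
      Sym2.map_congr fun v hv => e0 v (tb_lt hA hZ hT he v hv)
    rw [h1]
    exact tb_edge hσ he
  intro e he
  simp only [tmpl, Finset.mem_union, Finset.mem_biUnion, Finset.mem_univ, true_and] at he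
  rcases he with he | (he | he) | ⟨j, he⟩
  · exact hB e (by simp only [base2, Finset.mem_union]; exact Or.inl (Or.inl he))
  · exact hB e (by simp only [base2, Finset.mem_union]; exact Or.inl (Or.inr he))
  · exact hB e (by simp only [base2, Finset.mem_union]; exact Or.inr he)
  · obtain ⟨g0, g1, g2, g3, g4⟩ := hg j
    have h0 := g0 σ hσ
    have h1 := g1 σ hσ
    have h2 := g2 σ hσ
    have h3 := g3 σ hσ
    have h4 := g4 σ hσ
    simp only [gad, Finset.mem_insert, Finset.mem_singleton] at he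
    rcases he with rfl | rfl | rfl | rfl | rfl | rfl | rfl
    · rw [Sym2.map_mk, Sym2.mk_isDiag_iff, e1, e4, ← h0]
      exact hγ1
    · rw [Sym2.map_mk, Sym2.mk_isDiag_iff, e1, e4, ← h1]
      exact hγ2
    · rw [Sym2.map_mk, Sym2.mk_isDiag_iff, e1, e2]
      exact hγ2
    · rw [Sym2.map_mk, Sym2.mk_isDiag_iff, e2, e4, ← h2]
      exact hab
    · rw [Sym2.map_mk, Sym2.mk_isDiag_iff, e2, e3]
      exact hγ2.symm
    · rw [Sym2.map_mk, Sym2.mk_isDiag_iff, e3, e4, ← h3]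
      exact hγ1
    · rw [Sym2.map_mk, Sym2.mk_isDiag_iff, e3, e4, ← h4]
      exact hγ2

/-- the element missing in the list of `y` in gadget `j` -/
private def tbA (j : ℕ) : ℕ := (j / 2) % 3 + 1

/-- the element missing in the list of `v` in gadget `j` -/
private def tbB (j : ℕ) : ℕ := (tbA j + j % 2) % 3 + 1

private theorem tb_pair : ∀ a b : ℕ, 1 ≤ a → a < 4 → 1 ≤ b → b < 4 → a ≠ b →
    ∃ j : Fin 6, tbA j = a ∧ tbB j = b := by
  intro a b ha1 ha2 hb1 hb2 hab
  have h : ∀ a' b' : Fin 4, 1 ≤ (a' : ℕ) → 1 ≤ (b' : ℕ) → a' ≠ b' →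
      ∃ j : Fin 6, tbA j = (a' : ℕ) ∧ tbB j = (b' : ℕ) := by
    unfold tbB tbA
    decide
  obtain ⟨j, h1, h2⟩ := h ⟨a, ha2⟩ ⟨b, hb2⟩ ha1 hb1 (fun h => hab (congrArg Fin.val h))
  exact ⟨j, h1, h2⟩

/-- the element of `{0, 1, 2, 3}` missing in the list of the vertex `u` -/
private def tbc (m u : ℕ) : ℕ :=
  if u < m + 2 then 0 else if (u - (m + 2)) % 3 = 1 then tbB ((u - (m + 2)) / 3)
    else if (u - (m + 2)) % 3 = 2 then tbA ((u - (m + 2)) / 3) else 0

private theorem tbc_lt (m u : ℕ) : tbc m u < 4 := by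
  unfold tbc tbB tbA
  split_ifs <;> omega

private theorem tb_not {m : ℕ} {Z T : Finset ℕ} {x : Fin 6 → Fin 5 → ℕ} {A : Finset (Sym2 ℕ)}
    (hA : A ⊆ EN m) (hZ : Z ⊆ Finset.range m) (hT : T ⊆ Finset.range m) (hx : ∀ j i, x j i < m)
    (h : Good m Z T x A) : ¬ Choos (A ∪ tmpl m Z T x) := by
  intro hch
  obtain ⟨-, hg⟩ := h
  obtain ⟨f, hf, hfe⟩ := hch (fun u => (Finset.range 4).erase (tbc m u)) (fun u => by
    rw [Finset.card_erase_of_mem (Finset.mem_range.2 (tbc_lt m u)), Finset.card_range])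
  have hf1 : ∀ u, f u < 4 ∧ f u ≠ tbc m u := by
    intro u
    have h1 := hf u
    simp only [Finset.mem_erase, Finset.mem_range] at h1
    exact ⟨h1.2, h1.1⟩
  have c0 : ∀ u, u < m + 2 → tbc m u = 0 := fun u hu => if_pos hu
  have c1 : ∀ j, tbc m (m + 2 + 3 * j) = 0 := by
    intro j
    unfold tbc
    rw [if_neg (by omega), if_neg (by omega), if_neg (by omega)]
  have c2 : ∀ j, tbc m (m + 3 + 3 * j) = tbB j := by
    intro j
    unfold tbc
    rw [if_neg (by omega), if_pos (by omega)]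
    congr 1
    omega
  have c3 : ∀ j, tbc m (m + 4 + 3 * j) = tbA j := by
    intro j
    unfold tbc
    rw [if_neg (by omega), if_neg (by omega), if_pos (by omega)]
    congr 1
    omega
  have f0 : ∀ u, u < m + 2 → 1 ≤ f u ∧ f u < 4 := by
    intro u hu
    have h1 := hf1 u
    rw [c0 u hu] at h1
    omega
  -- the colouring of `base2`
  let τ : ℕ → Fin 3 := fun u => ⟨(f u - 1) % 3, Nat.mod_lt _ (by norm_num)⟩
  have hτ : ∀ u w, u < m + 2 → w < m + 2 → (τ u = τ w ↔ f u = f w) := by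
    intro u w hu hw
    have h1 := f0 u hu
    have h2 := f0 w hw
    constructor
    · intro h3
      have h4 : (f u - 1) % 3 = (f w - 1) % 3 := congrArg Fin.val h3
      omega
    · intro h3
      apply Fin.ext
      change (f u - 1) % 3 = (f w - 1) % 3
      rw [h3]
  have hp : Proper (base2 m Z T A) τ := by
    intro a b hab
    have h1 := tb_lt hA hZ hT hab
    have ha : a < m + 2 := h1 a (Sym2.mem_mk_left a b)
    have hb : b < m + 2 := h1 b (Sym2.mem_mk_right a b)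
    intro h2
    exact hfe a b (tb_sub hab) ((hτ a b ha hb).1 h2)
  have hab : f (m + 1) ≠ f m := hfe _ _ (tb_sub tb_m)
  have hm := f0 m (by omega)
  have hm1 := f0 (m + 1) (by omega)
  obtain ⟨γ, hγ1, hγ2, hγ3, hγ4⟩ : ∃ γ : ℕ, 1 ≤ γ ∧ γ < 4 ∧ γ ≠ f m ∧ γ ≠ f (m + 1) := by
    by_contra hcon
    push Not at hcon
    have h1 := hcon 1
    have h2 := hcon 2
    have h3 := hcon 3
    omega
  obtain ⟨j, hjA, hjB⟩ := tb_pair γ (f (m + 1)) hγ1 hγ2 hm1.1 hm1.2 hγ4
  obtain ⟨g0, g1, g2, g3, g4⟩ := hg j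
  have k0 : f m = f (x j 0) := (hτ _ _ (by omega) (by have := hx j 0; omega)).1 (g0 τ hp)
  have k1 : f (m + 1) = f (x j 1) := (hτ _ _ (by omega) (by have := hx j 1; omega)).1 (g1 τ hp)
  have k2 : f m = f (x j 2) := (hτ _ _ (by omega) (by have := hx j 2; omega)).1 (g2 τ hp)
  have k3 : f m = f (x j 3) := (hτ _ _ (by omega) (by have := hx j 3; omega)).1 (g3 τ hp)
  have k4 : f (m + 1) = f (x j 4) := (hτ _ _ (by omega) (by have := hx j 4; omega)).1 (g4 τ hp)
  have hmem : ∀ a b, s(a, b) ∈ gad m (j : ℕ) (x j) → f a ≠ f b := by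
    intro a b hab'
    apply hfe a b
    simp only [tmpl, Finset.mem_union, Finset.mem_biUnion, Finset.mem_univ, true_and]
    exact Or.inr (Or.inr ⟨j, hab'⟩)
  have n0 : f (m + 2 + 3 * (j : ℕ)) ≠ f (x j 0) := hmem _ _ (by simp [gad])
  have n1 : f (m + 2 + 3 * (j : ℕ)) ≠ f (x j 1) := hmem _ _ (by simp [gad])
  have n2 : f (m + 2 + 3 * (j : ℕ)) ≠ f (m + 3 + 3 * (j : ℕ)) := hmem _ _ (by simp [gad])
  have n3 : f (m + 3 + 3 * (j : ℕ)) ≠ f (x j 2) := hmem _ _ (by simp [gad])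
  have n4 : f (m + 3 + 3 * (j : ℕ)) ≠ f (m + 4 + 3 * (j : ℕ)) := hmem _ _ (by simp [gad])
  have n5 : f (m + 4 + 3 * (j : ℕ)) ≠ f (x j 3) := hmem _ _ (by simp [gad])
  have n6 : f (m + 4 + 3 * (j : ℕ)) ≠ f (x j 4) := hmem _ _ (by simp [gad])
  have l1 := hf1 (m + 2 + 3 * (j : ℕ))
  have l2 := hf1 (m + 3 + 3 * (j : ℕ))
  have l3 := hf1 (m + 4 + 3 * (j : ℕ))
  rw [c1] at l1
  rw [c2, hjB] at l2
  rw [c3, hjA] at l3
  omega

theorem good_bad {m : ℕ} {Z T : Finset ℕ} {x : Fin 6 → Fin 5 → ℕ} {A : Finset (Sym2 ℕ)}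
    (hA : A ⊆ EN m) (hZ : Z ⊆ Finset.range m) (hT : T ⊆ Finset.range m) (hx : x ∈ Ext m)
    (h : Good m Z T x A) : Bd (A ∪ tmpl m Z T x) := by
  have hx' : ∀ j i, x j i < m := by
    intro j i
    simp only [Ext, Fintype.mem_piFinset, Finset.mem_range] at hx
    exact hx j i
  exact ⟨tb_col hA hZ hT hx' h, tb_not hA hZ hT hx' h⟩

end Pool.Agent.LC3
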