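import Pool.Agent.LC3.PlantA
import Pool.Agent.LC3.CountPl
import Pool.Agent.LC3.Sym
import Pool.Agent.LC3.TmplBad

/-!
# LC3.PlantB : averaging over all places of the planted structure

`M = m+20`. For every injective `τ : Fin 20 → ℕ` with values `< M` choose (`exists_perm`) a permutation
`π_τ` of `ℕ` preserving `range M` with `π_τ (τ i) = m + i`. By `ex_rel_erase`, `rel_insert`, `col_rel` and the
bijection `e ↦ Sym2.map π e` of `EN M`:
`FX m i l t = ∑_{e ∈ EN M} ex t ((EN M).erase e) (ind (XX m i l (rel π_τ A) ∧ ¬ Col (insert e A)))`.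
Sum over all the `M (M-1) ... (M-19)` injective `τ`
(the number of injective maps `Fin 20 → range M`: `Fintype.card_embedding_eq`, `Nat.descFactorial`).
For `A ⊆ EN M`:
* if `XX m i l (rel π_τ A)` for some `τ`, then `Bd (rel π_τ A)` by `good_bad`, so `Bd A` by `col_rel`,
  `choos_rel`;
* if `XX m i l (rel π_τ A)` then `PlOK M D A τ` (`place_ok`): in `rel π_τ A` the vertex `m = π_τ (τ 0)` has the
  neighbours `Z ∪ {m+1}`, so at most `i + 1 ≤ D`, among them `m+1`; the vertex `m+3+3j = π_τ (τ (vv j))` has the three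
  neighbours `m+2+3j`, `x j 2`, `m+4+3j`. (`s(π a, π b) ∈ rel π A ↔ s(a,b) ∈ A`, and `π` preserves `range M`, so
  `nb M A (τ 0)` is in bijection with `nb M (rel π A) m`.)
So by `count_pl` the sum over `τ` of `ind (XX m i l (rel π_τ A))` is at most `ind (Bd A) * (D * 9^6 * M^7)`.
-/

set_option autoImplicit false

open Classical

namespace Pool.Agent.LC3

private theorem pb_nb_mem {M : ℕ} {A : Finset (Sym2 ℕ)} {π : Equiv.Perm ℕ}
    (hπ : ∀ a, π a < M ↔ a < M) {v w : ℕ} : π w ∈ nb M (rel π A) (π v) ↔ w ∈ nb M A v := by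
  unfold nb
  rw [Finset.mem_filter, Finset.mem_filter, Finset.mem_range, Finset.mem_range, mem_rel, hπ]

private theorem pb_nb_card {M : ℕ} {A : Finset (Sym2 ℕ)} {π : Equiv.Perm ℕ}
    (hπ : ∀ a, π a < M ↔ a < M) {v : ℕ} :
    (nb M A v).card ≤ (nb M (rel π A) (π v)).card := by
  apply Finset.card_le_card_of_injOn π
  · intro w hw
    exact (pb_nb_mem hπ).2 hw
  · exact π.injective.injOn

/-- edges at a new vertex -/
private theorem pb_new {m : ℕ} {Z T : Finset ℕ} {x : Fin 6 → Fin 5 → ℕ} {G : Finset (Sym2 ℕ)}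
    (heq : G = (G ∩ EN m) ∪ tmpl m Z T x) {a b : ℕ} (ha : m ≤ a) :
    s(a, b) ∈ G ↔ s(a, b) ∈ st m Z ∨ s(a, b) ∈ st (m + 1) (insert m T) ∨
      ∃ j : Fin 6, s(a, b) ∈ gad m (j : ℕ) (x j) := by
  have h1 : s(a, b) ∈ G ↔ s(a, b) ∈ (G ∩ EN m) ∪ tmpl m Z T x := by rw [← heq]
  have h2 : s(a, b) ∉ G ∩ EN m := by
    intro h
    have h3 := (mem_EN.1 (Finset.mem_inter.1 h).2).1
    omega
  rw [h1, Finset.mem_union, or_iff_right h2]
  unfold tmpl
  rw [Finset.mem_union, Finset.mem_union, Finset.mem_biUnion]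
  simp only [Finset.mem_univ, true_and]
  rw [or_assoc]

/-- edges of a gadget -/
private theorem pb_gad {m j : ℕ} {x : Fin 5 → ℕ} (hx : ∀ i, x i < m) {a b : ℕ} (ha : m ≤ a)
    (h : s(a, b) ∈ gad m j x) :
    (a = m + 2 + 3 * j) ∨ (a = m + 3 + 3 * j ∧ (b = m + 2 + 3 * j ∨ b = x 2 ∨ b = m + 4 + 3 * j)) ∨
      (a = m + 4 + 3 * j) := by
  unfold gad at h
  simp only [Finset.mem_insert, Finset.mem_singleton, Sym2.eq_iff] at h
  have h0 := hx 0
  have h1 := hx 1
  have h2 := hx 2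
  have h3 := hx 3
  have h4 := hx 4
  rcases h with h | h | h | h | h | h | h <;> rcases h with ⟨h, h'⟩ | ⟨h, h'⟩ <;> omega

private theorem pb_nb0 {m : ℕ} {Z T : Finset ℕ} {x : Fin 6 → Fin 5 → ℕ} {G : Finset (Sym2 ℕ)}
    (hZ : Z ⊆ Finset.range m) (hx : ∀ j i, x j i < m)
    (heq : G = (G ∩ EN m) ∪ tmpl m Z T x) : nb (m + 20) G m ⊆ insert (m + 1) Z := by
  intro w hw
  have h1 := (Finset.mem_filter.1 hw).2
  rw [pb_new heq le_rfl, mem_st, mem_st] at h1
  rcases h1 with (h | h) | (h | h) | ⟨j, h⟩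
  · exact Finset.mem_insert_of_mem h.2
  · have := Finset.mem_range.1 (hZ h.2)
    omega
  · omega
  · rw [h.1]
    exact Finset.mem_insert_self _ _
  · have h2 := pb_gad (hx j) le_rfl h
    omega

private theorem pb_nbv {m : ℕ} {Z T : Finset ℕ} {x : Fin 6 → Fin 5 → ℕ} {G : Finset (Sym2 ℕ)}
    (hZ : Z ⊆ Finset.range m) (hT : T ⊆ Finset.range m) (hx : ∀ j i, x j i < m)
    (heq : G = (G ∩ EN m) ∪ tmpl m Z T x) (j : Fin 6) :
    nb (m + 20) G (m + 3 + 3 * (j : ℕ)) ⊆
      {m + 2 + 3 * (j : ℕ), x j 2, m + 4 + 3 * (j : ℕ)} := by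
  intro w hw
  have h1 := (Finset.mem_filter.1 hw).2
  rw [pb_new heq (by omega), mem_st, mem_st] at h1
  rw [Finset.mem_insert, Finset.mem_insert, Finset.mem_singleton]
  rcases h1 with (h | h) | (h | h) | ⟨j', h⟩
  · omega
  · have := Finset.mem_range.1 (hZ h.2)
    omega
  · omega
  · rcases Finset.mem_insert.1 h.2 with h' | h'
    · omega
    · have := Finset.mem_range.1 (hT h')
      omega
  · have h2 := pb_gad (hx j') (by omega) h
    have h3 : (j : ℕ) = j' := by omega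
    have h4 : j = j' := Fin.ext h3
    subst h4
    omega

private theorem pb_bd {m i l : ℕ} {G : Finset (Sym2 ℕ)} (h : XX m i l G) : Bd G := by
  obtain ⟨Z, hZ, T, hT, x, hx, hg, heq⟩ := h
  rw [heq]
  exact good_bad Finset.inter_subset_right (Finset.mem_powersetCard.1 hZ).1
    (Finset.mem_powersetCard.1 hT).1 hx hg

private theorem pb_bd_rel {π : Equiv.Perm ℕ} {A : Finset (Sym2 ℕ)} (h : Bd (rel π A)) : Bd A :=
  ⟨col_rel.1 h.1, fun hc => h.2 (choos_rel.2 hc)⟩

private theorem pb_FX {m i l : ℕ} {π : Equiv.Perm ℕ} (hπ : ∀ a, π a < m + 20 ↔ a < m + 20)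
    (t : ℝ) : FX m i l t = ∑ e ∈ EN (m + 20), ex t ((EN (m + 20)).erase e)
      (fun A => ind (XX m i l (rel π A) ∧ ¬ Col (insert e A))) := by
  have h1 : ∀ e ∈ EN (m + 20), ex t ((EN (m + 20)).erase e)
      (fun A => ind (XX m i l (rel π A) ∧ ¬ Col (insert e A))) =
      ex t ((EN (m + 20)).erase (Sym2.map π e))
        (fun A => ind (XX m i l A ∧ ¬ Col (insert (Sym2.map π e) A))) := by
    intro e _
    rw [← ex_rel_erase hπ]
    apply ex_congr
    intro A _
    rw [rel_insert, col_rel]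
  rw [Finset.sum_congr rfl h1]
  unfold FX
  symm
  apply Finset.sum_bij (fun e _ => Sym2.map π e)
  · intro e he
    rw [← rel_EN hπ]
    exact Finset.mem_image_of_mem _ he
  · intro a _ b _ h
    exact map_inj π h
  · intro b hb
    have h2 : b ∈ rel π (EN (m + 20)) := by
      rw [rel_EN hπ]
      exact hb
    obtain ⟨a, ha, hab⟩ := Finset.mem_image.1 h2
    exact ⟨a, ha, hab⟩
  · intro e _
    rfl

theorem place_ok {m i l D : ℕ} (hi : i < D) {A : Finset (Sym2 ℕ)} {π : Equiv.Perm ℕ}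
    {τ : Fin 20 → ℕ} (hπ : ∀ a, π a < m + 20 ↔ a < m + 20) (hτ : ∀ a, π (τ a) = m + (a : ℕ))
    (h : XX m i l (rel π A)) : PlOK (m + 20) D A τ := by
  obtain ⟨Z, hZ, T, hT, x, hx, hg, heq⟩ := h
  obtain ⟨hZ, hZc⟩ := Finset.mem_powersetCard.1 hZ
  obtain ⟨hT, -⟩ := Finset.mem_powersetCard.1 hT
  have hx' : ∀ j i, x j i < m := by
    intro j i
    have h1 := Fintype.mem_piFinset.1 hx j
    exact Finset.mem_range.1 (Fintype.mem_piFinset.1 h1 i)
  have hlt : ∀ a, τ a < m + 20 := by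
    intro a
    rw [← hπ, hτ]
    omega
  have e0 : π (τ 0) = m := by
    rw [hτ]
    rfl
  have e1 : π (τ 1) = m + 1 := by
    rw [hτ]
    rfl
  refine ⟨?_, ?_, fun j => ⟨?_, ?_, ?_⟩⟩
  · refine (pb_nb_card hπ).trans ?_
    rw [e0]
    refine (Finset.card_le_card (pb_nb0 hZ hx' heq)).trans ?_
    refine (Finset.card_insert_le _ _).trans ?_
    omega
  · rw [← pb_nb_mem hπ, e0, e1]
    refine Finset.mem_filter.2 ⟨Finset.mem_range.2 (by omega), ?_⟩
    rw [pb_new heq le_rfl, mem_st, mem_st]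
    exact Or.inr (Or.inl (Or.inr ⟨rfl, Finset.mem_insert_self _ _⟩))
  · refine (pb_nb_card hπ).trans ?_
    have e2 : π (τ (vv j)) = m + 3 + 3 * (j : ℕ) := by
      rw [hτ]
      unfold vv
      simp only
      omega
    rw [e2]
    refine (Finset.card_le_card (pb_nbv hZ hT hx' heq j)).trans ?_
    exact Finset.card_le_three
  · have e2 : π (τ (vv j)) = m + 3 + 3 * (j : ℕ) := by
      rw [hτ]
      unfold vv
      simp only
      omega
    have e3 : π (τ (ss j)) = m + 2 + 3 * (j : ℕ) := by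
      rw [hτ]
      unfold ss
      simp only
      omega
    rw [← pb_nb_mem hπ, e2, e3]
    refine Finset.mem_filter.2 ⟨Finset.mem_range.2 (by omega), ?_⟩
    rw [pb_new heq (by omega)]
    refine Or.inr (Or.inr ⟨j, ?_⟩)
    unfold gad
    rw [Sym2.eq_swap]
    simp
  · have e2 : π (τ (vv j)) = m + 3 + 3 * (j : ℕ) := by
      rw [hτ]
      unfold vv
      simp only
      omega
    have e3 : π (τ (yy j)) = m + 4 + 3 * (j : ℕ) := by
      rw [hτ]
      unfold yy
      simp only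
      omega
    rw [← pb_nb_mem hπ, e2, e3]
    refine Finset.mem_filter.2 ⟨Finset.mem_range.2 (by omega), ?_⟩
    rw [pb_new heq (by omega)]
    refine Or.inr (Or.inr ⟨j, ?_⟩)
    unfold gad
    simp

theorem plantB {m i l D : ℕ} (hi : i < D) {t : ℝ} (h0 : 0 ≤ t) (h1 : t ≤ 1) :
    ((m + 20).descFactorial 20 : ℝ) * FX m i l t ≤
      ((D : ℝ) * 9 ^ 6 * ((m : ℝ) + 20) ^ 7) *
        ∑ e ∈ EN (m + 20), ex t ((EN (m + 20)).erase e)
          (fun A => ind (Bd A ∧ ¬ Col (insert e A))) := by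
  have hcard : ((m + 20).descFactorial 20 : ℝ) =
      ((Finset.univ : Finset (Fin 20 ↪ Fin (m + 20))).card : ℝ) := by
    rw [Finset.card_univ, Fintype.card_embedding_eq, Fintype.card_fin, Fintype.card_fin]
  have hperm : ∀ τ : Fin 20 ↪ Fin (m + 20), ∃ π : Equiv.Perm ℕ,
      (∀ a, π a < m + 20 ↔ a < m + 20) ∧ ∀ a, π (τ a : ℕ) = m + (a : ℕ) := by
    intro τ
    obtain ⟨π, h1, -, h2⟩ := exists_perm (n := m + 20) (fun a : Fin 20 => (τ a : ℕ))
      (fun a => m + (a : ℕ)) (fun a b h => τ.injective (Fin.ext h))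
      (fun a b h => Fin.ext (Nat.add_left_cancel h)) (fun a => (τ a).2)
      (fun a => by have := a.2; omega)
    exact ⟨π, h1, h2⟩
  choose π hπ1 hπ2 using hperm
  rw [hcard, ← nsmul_eq_mul, ← Finset.sum_const]
  have h2 : ∑ _τ : Fin 20 ↪ Fin (m + 20), FX m i l t = ∑ e ∈ EN (m + 20),
      ex t ((EN (m + 20)).erase e) (fun A => ∑ τ : Fin 20 ↪ Fin (m + 20),
        ind (XX m i l (rel (π τ) A) ∧ ¬ Col (insert e A))) := by
    rw [Finset.sum_congr rfl (fun τ _ => pb_FX (hπ1 τ) t), Finset.sum_comm]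
    apply Finset.sum_congr rfl
    intro e _
    rw [ex_sum]
  rw [h2, Finset.mul_sum]
  apply Finset.sum_le_sum
  intro e _
  rw [← ex_mul_left]
  apply ex_mono h0 h1
  intro A hA
  by_cases hc : Bd A ∧ ¬ Col (insert e A)
  · rw [ind_of hc, mul_one]
    have h3 : ∑ τ : Fin 20 ↪ Fin (m + 20), ind (XX m i l (rel (π τ) A) ∧ ¬ Col (insert e A)) ≤
        (((Finset.univ : Finset (Fin 20 ↪ Fin (m + 20))).filter
          (fun τ => PlOK (m + 20) D A (fun a => (τ a : ℕ)))).card : ℝ) := by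
      rw [Finset.card_filter]
      push_cast
      apply Finset.sum_le_sum
      intro τ _
      by_cases h4 : XX m i l (rel (π τ) A) ∧ ¬ Col (insert e A)
      · rw [ind_of h4, if_pos (place_ok hi (hπ1 τ) (τ := fun a => (τ a : ℕ)) (hπ2 τ) h4.1)]
      · rw [ind_of_not h4]
        split_ifs
        · exact zero_le_one
        · exact le_rfl
    have h5 : ((Finset.univ : Finset (Fin 20 ↪ Fin (m + 20))).filter
        (fun τ => PlOK (m + 20) D A (fun a => (τ a : ℕ)))).card ≤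
        ((Fintype.piFinset (fun _ : Fin 20 => Finset.range (m + 20))).filter
          (fun τ => PlOK (m + 20) D A τ)).card := by
      apply Finset.card_le_card_of_injOn (fun τ => fun a => (τ a : ℕ))
      · intro τ hτ
        rw [Finset.mem_coe, Finset.mem_filter] at hτ
        rw [Finset.mem_coe, Finset.mem_filter, Fintype.mem_piFinset]
        exact ⟨fun a => Finset.mem_range.2 (τ a).2, hτ.2⟩
      · intro τ _ τ' _ h
        apply DFunLike.ext
        intro a
        exact Fin.ext (congrFun h a)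
    have h6 : ((((Finset.univ : Finset (Fin 20 ↪ Fin (m + 20))).filter
        (fun τ => PlOK (m + 20) D A (fun a => (τ a : ℕ)))).card : ℕ) : ℝ) ≤
        ((D * 9 ^ 6 * (m + 20) ^ 7 : ℕ) : ℝ) :=
      Nat.cast_le.2 (h5.trans (count_pl (m + 20) D A))
    refine h3.trans (h6.trans (le_of_eq ?_))
    rw [Nat.cast_mul, Nat.cast_mul, Nat.cast_pow, Nat.cast_pow, Nat.cast_add, Nat.cast_ofNat,
      Nat.cast_ofNat]
  · rw [ind_of_not hc, mul_zero]
    apply le_of_eq
    apply Finset.sum_eq_zero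
    intro τ _
    apply ind_of_not
    rintro ⟨h3, h4⟩
    exact hc ⟨pb_bd_rel (pb_bd h3), h4⟩

end Pool.Agent.LC3
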