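import Mathlib

/-!
# LC3.RSa : Ruzsa-Szemeredi from the triangle removal lemma of Mathlib

Let `G` be a graph on a finite type `V` in which every edge lies in at most one triangle
(`Adj a b, Adj a c, Adj b c, Adj a d, Adj b d → c = d`). For every `ε > 0`, if `|V| ≥ N(ε)`, the number of
ordered triangles is at most `ε |V|^2`.

Proof. `G.EdgeDisjointTriangles` (see `SimpleGraph.EdgeDisjointTriangles` and
`edgeDisjointTriangles_iff_mem_sym2_subsingleton` in `Mathlib.Combinatorics.SimpleGraph.Triangle.Basic`).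
Let `T = #(G.cliqueFinset 3)`; the number of ordered triangles is `6 T`. Suppose `6 T > ε |V|^2`. With
`δ = ε/6`, `EdgeDisjointTriangles.farFromTriangleFree` gives `G.FarFromTriangleFree δ`, and
`FarFromTriangleFree.le_card_cliqueFinset` gives `triangleRemovalBound δ * |V|^3 ≤ T`. But
`3 T ≤ #edges ≤ |V|^2` (`EdgeDisjointTriangles.card_edgeFinset_le`), so
`|V| ≤ 1 / triangleRemovalBound δ`. Take `N(ε) > 1 / triangleRemovalBound (ε/6)` (positive by
`triangleRemovalBound_pos`; if `ε/6 > 1` the claim is trivial since `6T ≤ 2 |V|^2`).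
-/

set_option autoImplicit false

open Classical

namespace Pool.Agent.LC3

theorem rs_graph (ε : ℝ) (hε : 0 < ε) : ∃ N : ℕ, ∀ (V : Type) [Fintype V] (G : SimpleGraph V),
    (∀ a b c d : V, G.Adj a b → G.Adj a c → G.Adj b c → G.Adj a d → G.Adj b d → c = d) →
    N ≤ Fintype.card V →
    (((Finset.univ : Finset (V × V × V)).filter
      (fun p => G.Adj p.1 p.2.1 ∧ G.Adj p.2.1 p.2.2 ∧ G.Adj p.1 p.2.2)).card : ℝ) ≤
      ε * (Fintype.card V : ℝ) ^ 2 := by
  set δ : ℝ := ε / 27 with hδ
  have hδ0 : 0 < δ := by positivity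
  have hb := SimpleGraph.triangleRemovalBound_pos hδ0
  obtain ⟨N, hN⟩ := exists_nat_gt (1 / SimpleGraph.triangleRemovalBound δ)
  refine ⟨N + 1, fun V _ G hG hV => ?_⟩
  by_contra hcon
  have hcon' := not_le.1 hcon
  -- edge disjoint triangles
  have hdis : G.EdgeDisjointTriangles := by
    intro s hs t ht hst
    have hs' : G.IsNClique 3 s := hs
    have ht' : G.IsNClique 3 t := ht
    by_contra hc
    rw [Set.not_subsingleton_iff] at hc
    obtain ⟨x, hx, y, hy, hxy⟩ := hc
    have hx1 : x ∈ s := hx.1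
    have hx2 : x ∈ t := hx.2
    have hy1 : y ∈ s := hy.1
    have hy2 : y ∈ t := hy.2
    have hcard : ({x, y} : Finset V).card = 2 := Finset.card_pair hxy
    obtain ⟨c, hc1, hc2⟩ := Finset.exists_mem_notMem_of_card_lt_card
      (show ({x, y} : Finset V).card < s.card by rw [hcard, hs'.card_eq]; norm_num)
    obtain ⟨d, hd1, hd2⟩ := Finset.exists_mem_notMem_of_card_lt_card
      (show ({x, y} : Finset V).card < t.card by rw [hcard, ht'.card_eq]; norm_num)
    rw [Finset.mem_insert, Finset.mem_singleton, not_or] at hc2 hd2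
    have hcd : c = d := hG x y c d (hs'.isClique hx1 hy1 hxy) (hs'.isClique hx1 hc1 (Ne.symm hc2.1))
      (hs'.isClique hy1 hc1 (Ne.symm hc2.2)) (ht'.isClique hx2 hd1 (Ne.symm hd2.1))
      (ht'.isClique hy2 hd1 (Ne.symm hd2.2))
    have h3 : ({x, y, c} : Finset V).card = 3 := Finset.card_eq_three.2
      ⟨x, y, c, hxy, Ne.symm hc2.1, Ne.symm hc2.2, rfl⟩
    have hs3 : ({x, y, c} : Finset V) = s := by
      apply Finset.eq_of_subset_of_card_le
      · intro z hz
        rw [Finset.mem_insert, Finset.mem_insert, Finset.mem_singleton] at hz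
        rcases hz with rfl | rfl | rfl
        · exact hx1
        · exact hy1
        · exact hc1
      · rw [h3, hs'.card_eq]
    have ht3 : ({x, y, c} : Finset V) = t := by
      apply Finset.eq_of_subset_of_card_le
      · intro z hz
        rw [Finset.mem_insert, Finset.mem_insert, Finset.mem_singleton] at hz
        rcases hz with rfl | rfl | rfl
        · exact hx2
        · exact hy2
        · rw [hcd]
          exact hd1
      · rw [h3, ht'.card_eq]
    exact hst (hs3.symm.trans ht3)
  -- number of ordered triangles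
  have hmaps : ∀ p ∈ (Finset.univ : Finset (V × V × V)).filter
      (fun p => G.Adj p.1 p.2.1 ∧ G.Adj p.2.1 p.2.2 ∧ G.Adj p.1 p.2.2),
      ({p.1, p.2.1, p.2.2} : Finset V) ∈ G.cliqueFinset 3 := by
    intro p hp
    rw [Finset.mem_filter] at hp
    rw [SimpleGraph.mem_cliqueFinset_iff, SimpleGraph.is3Clique_triple_iff]
    exact ⟨hp.2.1, hp.2.2.2, hp.2.2.1⟩
  have hfib : ∀ s ∈ G.cliqueFinset 3, (((Finset.univ : Finset (V × V × V)).filter
      (fun p => G.Adj p.1 p.2.1 ∧ G.Adj p.2.1 p.2.2 ∧ G.Adj p.1 p.2.2)).filter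
      (fun p => ({p.1, p.2.1, p.2.2} : Finset V) = s)).card ≤ 27 := by
    intro s hs
    rw [SimpleGraph.mem_cliqueFinset_iff] at hs
    calc _ ≤ (s ×ˢ s ×ˢ s).card := by
          refine Finset.card_le_card fun p hp => ?_
          rw [Finset.mem_filter] at hp
          obtain ⟨_, rfl⟩ := hp
          simp
      _ = 27 := by
          rw [Finset.card_product, Finset.card_product, hs.card_eq]
  have hT := Finset.card_le_mul_card_image_of_maps_to hmaps 27 hfib
  have hT' : ((((Finset.univ : Finset (V × V × V)).filter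
      (fun p => G.Adj p.1 p.2.1 ∧ G.Adj p.2.1 p.2.2 ∧ G.Adj p.1 p.2.2)).card : ℕ) : ℝ) ≤
      27 * ((G.cliqueFinset 3).card : ℝ) := by exact_mod_cast hT
  have hbig : δ * ((Fintype.card V ^ 2 : ℕ) : ℝ) ≤ ((G.cliqueFinset 3).card : ℝ) := by
    rw [hδ]
    push_cast
    linarith
  have hfar := hdis.farFromTriangleFree hbig
  have h1 := hfar.le_card_cliqueFinset
  have h2 := hdis.card_edgeFinset_le
  have h3 : G.edgeFinset.card ≤ (Fintype.card V).choose 2 := G.card_edgeFinset_le_card_choose_two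
  have h4 : (Fintype.card V).choose 2 ≤ Fintype.card V ^ 2 := Nat.choose_le_pow _ _
  have h5 : (G.cliqueFinset 3).card ≤ Fintype.card V ^ 2 := by omega
  have h6 : ((G.cliqueFinset 3).card : ℝ) ≤ (Fintype.card V : ℝ) ^ 2 := by exact_mod_cast h5
  have hn : (N : ℝ) < (Fintype.card V : ℝ) := by exact_mod_cast hV
  have h7 : 1 / SimpleGraph.triangleRemovalBound δ < (Fintype.card V : ℝ) := hN.trans hn
  rw [div_lt_iff₀ hb] at h7
  have hpos : 0 < (Fintype.card V : ℝ) := lt_of_le_of_lt (Nat.cast_nonneg N) hn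
  have h8 : (Fintype.card V : ℝ) ^ 2 * 1 < (Fintype.card V : ℝ) ^ 2 *
      ((Fintype.card V : ℝ) * SimpleGraph.triangleRemovalBound δ) :=
    mul_lt_mul_of_pos_left h7 (by positivity)
  nlinarith

end Pool.Agent.LC3
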