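import Pool.Agent.LC3.RSa

/-!
# LC3.RSb : weighted Ruzsa-Szemeredi

`ι` a finite type (the classes) with sizes `w i ≥ 1` (natural numbers), `m = ∑ w i`, `G` a graph on `ι` in
which every edge lies in at most one triangle. Let `P = ∑ (w i)^2` and
`T = ∑_{(a,b,c) ordered triangle} w a * w b * w c`. Claim: for every `ε > 0` there is `θ0 > 0` such that
`w i ≤ θ0 m` for all `i` implies `T ≤ ε m P`.

Proof. Let `K ≥ 2` be an integer (`K = ⌈C/ε⌉`), `B = K^2`. A triangle can be ordered so that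
`w a ≥ w b ≥ w c`; it is enough to bound the sum `T'` over the ordered triangles `(a,b,c)` with
`w a ≥ w b ≥ w c`, because `T ≤ 6 T'` (every triangle has such an ordering). Split `T'`:

(1) triangles with `K w c ≤ w b`: for every pair `(a,b)` there is at most one `c`, so the sum is
`≤ ∑_{(a,b)} w a * w b * (w b / K) ≤ m P / K`.

(2) triangles with `K w b ≤ w a` (and `w c ≤ w b`): for every pair `(a,b)` at most one `c`, so the sum is
`≤ ∑_b (w b)^2 ∑_{a : w a ≥ K w b} w a`, and `∑_{a : w a ≥ s} w a ≤ P / s`. So it is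
`≤ ∑_b (w b)^2 * P/(K w b) = m P / K`.

(3) triangles with `w b < K w c` and `w a < K w b`. For `j ≥ 0` let
`U_j = {i : B^j ≤ w i < B^(j+2)}`; every class lies in at most two of the `U_j`. If the largest weight
satisfies `B^(j+1) ≤ w a < B^(j+2)` then `w c > w a / B ≥ B^j`, so the triangle lies in `U_j`; if
`w a < B` then it lies in `U_0`. So the sum (3) is at most `∑_j S_j`, `S_j = ∑` over the ordered triangles
contained in `U_j` (for `j ≥ 1` containing moreover a class with `w ≥ B^(j+1)`).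
Let `N_j = |U_j|`, `W_j = ∑_{U_j} w`, `P_j = ∑_{U_j} w^2`; `N_j B^j ≤ W_j ≤ m`, `N_j B^(2j) ≤ P_j`,
`∑_j P_j ≤ 2 P`. Let `N0` be the number from `rs_graph ε'` for the graph induced on `U_j`.
 * If `N_j ≥ N0`: the number of ordered triangles is `≤ ε' N_j^2`, each has weight `≤ B^(3(j+2))`, so
   `S_j ≤ ε' B^6 N_j^2 B^(3j) ≤ ε' B^6 W_j P_j ≤ ε' B^6 m P_j`.
 * If `N_j < N0` (and there is a triangle): the number of ordered triangles is `≤ N_j^2` (every pair is in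
   at most one), so `S_j ≤ N_j^2 B^(3j+6) ≤ N0 B^6 (N_j B^(2j)) B^j ≤ N0 B^6 B^j P_j`, and `U_j` is nonempty,
   so `B^j ≤ w i ≤ θ0 m` for some `i`: `S_j ≤ N0 B^6 θ0 m P_j`.
Altogether `T ≤ 6 (2/K + 2 ε' B^6 + 2 N0 B^6 θ0) m P`. Choose `K ≥ 48/ε`, then `ε' = ε/(48 B^6)`, `N0`, then
`θ0 = ε/(48 N0' B^6)` with `N0' = N0 + 1`. (The sum over `j` is finite: `j ≤ m`, or use
`j = Nat.log B (w i)`.)
-/

set_option linter.all false

open Classical

namespace Pool.Agent.LC3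

section RSb

variable {ι : Type} [Fintype ι]

private noncomputable def triS (G : SimpleGraph ι) : Finset (ι × ι × ι) :=
  (Finset.univ : Finset (ι × ι × ι)).filter
      (fun p => G.Adj p.1 p.2.1 ∧ G.Adj p.2.1 p.2.2 ∧ G.Adj p.1 p.2.2)

private theorem mem_triS (G : SimpleGraph ι) (a b c : ι) :
    (a, b, c) ∈ triS G ↔ G.Adj a b ∧ G.Adj b c ∧ G.Adj a c := by
  simp [triS]

/-- the first two coordinates determine the triangle -/
private theorem triS_inj (G : SimpleGraph ι)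
    (hG : ∀ a b c d : ι, G.Adj a b → G.Adj a c → G.Adj b c → G.Adj a d → G.Adj b d → c = d) :
    Set.InjOn (fun p : ι × ι × ι => (p.1, p.2.1)) (triS G : Set (ι × ι × ι)) := by
  rintro ⟨a, b, c⟩ hp ⟨a', b', c'⟩ hq h
  simp only [Prod.mk.injEq] at h
  obtain ⟨rfl, rfl⟩ := h
  have h1 := (mem_triS G a b c).1 hp
  have h2 := (mem_triS G a b c').1 hq
  rw [hG a b c c' h1.1 h1.2.2 h1.2.1 h2.2.2 h2.2.1]

private theorem sum_pair_le (G : SimpleGraph ι)
    (hG : ∀ a b c d : ι, G.Adj a b → G.Adj a c → G.Adj b c → G.Adj a d → G.Adj b d → c = d)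
    (g : ι → ι → ℝ) (hg : ∀ a b, 0 ≤ g a b) :
    ∑ p ∈ triS G, g p.1 p.2.1 ≤ ∑ a, ∑ b, g a b := by
  have h1 : ∑ p ∈ triS G, g p.1 p.2.1 =
      ∑ q ∈ (triS G).image (fun p : ι × ι × ι => (p.1, p.2.1)), g q.1 q.2 := by
    rw [Finset.sum_image (fun x hx y hy h => triS_inj G hG hx hy h)]
  rw [h1, ← Finset.sum_product' (s := Finset.univ) (t := Finset.univ) (f := fun a b => g a b)]
  exact Finset.sum_le_sum_of_subset_of_nonneg (fun q _ => by simp) (fun q _ _ => hg _ _)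

/-- symmetrisation -/
private theorem sym_bound (G : SimpleGraph ι) (w : ι → ℕ) :
    ∑ p ∈ triS G, (w p.1 : ℝ) * (w p.2.1 : ℝ) * (w p.2.2 : ℝ) ≤
      6 * ∑ p ∈ (triS G).filter (fun p => w p.2.2 ≤ w p.2.1 ∧ w p.2.1 ≤ w p.1),
        (w p.1 : ℝ) * (w p.2.1 : ℝ) * (w p.2.2 : ℝ) := by
  set F : ι → ι → ι → ℝ := fun a b c => (w a : ℝ) * w b * w c with hF
  set g : ι → ι → ι → ℝ := fun a b c =>
    if (G.Adj a b ∧ G.Adj b c ∧ G.Adj a c) ∧ (w c ≤ w b ∧ w b ≤ w a) then F a b c else 0 with hg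
  have hFn : ∀ a b c, 0 ≤ F a b c := fun a b c => by simp only [hF]; positivity
  have hgn : ∀ a b c, 0 ≤ g a b c := fun a b c => by
    simp only [hg]
    split_ifs
    · exact hFn a b c
    · exact le_rfl
  have h1 : ∑ p ∈ triS G, (w p.1 : ℝ) * (w p.2.1 : ℝ) * (w p.2.2 : ℝ) =
      ∑ a, ∑ b, ∑ c, (if (G.Adj a b ∧ G.Adj b c ∧ G.Adj a c) then F a b c else 0) := by
    rw [triS, Finset.sum_filter, Fintype.sum_prod_type]
    refine Finset.sum_congr rfl fun a _ => ?_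
    rw [Fintype.sum_prod_type]
  have h2 : ∑ p ∈ (triS G).filter (fun p => w p.2.2 ≤ w p.2.1 ∧ w p.2.1 ≤ w p.1),
        (w p.1 : ℝ) * (w p.2.1 : ℝ) * (w p.2.2 : ℝ) = ∑ a, ∑ b, ∑ c, g a b c := by
    rw [triS, Finset.filter_filter, Finset.sum_filter, Fintype.sum_prod_type]
    refine Finset.sum_congr rfl fun a _ => ?_
    rw [Fintype.sum_prod_type]
  rw [h1, h2]
  have key : ∀ a b c, (if (G.Adj a b ∧ G.Adj b c ∧ G.Adj a c) then F a b c else 0) ≤
      g a b c + g a c b + g b a c + g b c a + g c a b + g c b a := by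
    intro a b c
    have n1 := hgn a b c
    have n2 := hgn a c b
    have n3 := hgn b a c
    have n4 := hgn b c a
    have n5 := hgn c a b
    have n6 := hgn c b a
    by_cases h : G.Adj a b ∧ G.Adj b c ∧ G.Adj a c
    · rw [if_pos h]
      obtain ⟨hab, hbc, hac⟩ := h
      rcases le_total (w a) (w b) with h1 | h1 <;> rcases le_total (w b) (w c) with h2 | h2 <;>
        rcases le_total (w a) (w c) with h3 | h3
      · have : g c b a = F a b c := by
          simp only [hg]; rw [if_pos ⟨⟨hbc.symm, hab.symm, hac.symm⟩, h1, h2⟩]; simp only [hF]; ring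
        linarith
      · have : g c b a = F a b c := by
          simp only [hg]; rw [if_pos ⟨⟨hbc.symm, hab.symm, hac.symm⟩, h1, h2⟩]; simp only [hF]; ring
        linarith
      · have : g b c a = F a b c := by
          simp only [hg]; rw [if_pos ⟨⟨hbc, hac.symm, hab.symm⟩, h3, h2⟩]; simp only [hF]; ring
        linarith
      · have : g b a c = F a b c := by
          simp only [hg]; rw [if_pos ⟨⟨hab.symm, hac, hbc⟩, h3, h1⟩]; simp only [hF]; ring
        linarith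
      · have : g c a b = F a b c := by
          simp only [hg]; rw [if_pos ⟨⟨hac.symm, hab, hbc.symm⟩, h1, h3⟩]; simp only [hF]; ring
        linarith
      · have : g a c b = F a b c := by
          simp only [hg]; rw [if_pos ⟨⟨hac, hbc.symm, hab⟩, h2, h3⟩]; simp only [hF]; ring
        linarith
      · have : g a b c = F a b c := by
          simp only [hg]; rw [if_pos ⟨⟨hab, hbc, hac⟩, h2, h1⟩]
        linarith
      · have : g a b c = F a b c := by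
          simp only [hg]; rw [if_pos ⟨⟨hab, hbc, hac⟩, h2, h1⟩]
        linarith
    · rw [if_neg h]
      positivity
  have e1 : ∑ a, ∑ b, ∑ c, g a c b = ∑ a, ∑ b, ∑ c, g a b c :=
    Finset.sum_congr rfl fun a _ => Finset.sum_comm
  have e2 : ∑ a, ∑ b, ∑ c, g b a c = ∑ a, ∑ b, ∑ c, g a b c := Finset.sum_comm
  have e3 : ∑ a, ∑ b, ∑ c, g b c a = ∑ a, ∑ b, ∑ c, g a b c := by
    rw [Finset.sum_comm]
    exact Finset.sum_congr rfl fun a _ => Finset.sum_comm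
  have e4 : ∑ a, ∑ b, ∑ c, g c a b = ∑ a, ∑ b, ∑ c, g a b c := by
    have : ∀ a, ∑ b, ∑ c, g c a b = ∑ c, ∑ b, g c a b := fun a => Finset.sum_comm
    simp_rw [this]
    rw [Finset.sum_comm]
  have e5 : ∑ a, ∑ b, ∑ c, g c b a = ∑ a, ∑ b, ∑ c, g a b c := by
    have : ∀ a, ∑ b, ∑ c, g c b a = ∑ c, ∑ b, g c b a := fun a => Finset.sum_comm
    simp_rw [this]
    rw [Finset.sum_comm]
    exact Finset.sum_congr rfl fun a _ => Finset.sum_comm
  calc ∑ a, ∑ b, ∑ c, (if (G.Adj a b ∧ G.Adj b c ∧ G.Adj a c) then F a b c else 0)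
      ≤ ∑ a, ∑ b, ∑ c, (g a b c + g a c b + g b a c + g b c a + g c a b + g c b a) :=
        Finset.sum_le_sum fun a _ => Finset.sum_le_sum fun b _ => Finset.sum_le_sum fun c _ =>
          key a b c
    _ = 6 * ∑ a, ∑ b, ∑ c, g a b c := by
        simp only [Finset.sum_add_distrib]
        rw [e1, e2, e3, e4, e5]
        ring

/-- the level set -/
private noncomputable def US (w : ι → ℕ) (B j : ℕ) : Finset ι :=
  Finset.univ.filter fun i => Nat.log B (w i) ≤ j ∧ j ≤ Nat.log B (w i) + 1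

private noncomputable def triU (G : SimpleGraph ι) (w : ι → ℕ) (B j : ℕ) : Finset (ι × ι × ι) :=
  (triS G).filter fun p => p.1 ∈ US w B j ∧ p.2.1 ∈ US w B j ∧ p.2.2 ∈ US w B j

private theorem card_triU_sq (G : SimpleGraph ι) (w : ι → ℕ) (B j : ℕ)
    (hG : ∀ a b c d : ι, G.Adj a b → G.Adj a c → G.Adj b c → G.Adj a d → G.Adj b d → c = d) :
    (triU G w B j).card ≤ (US w B j).card * (US w B j).card := by
  rw [← Finset.card_product]
  apply Finset.card_le_card_of_injOn (fun p : ι × ι × ι => (p.1, p.2.1))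
  · intro p hp
    have := (Finset.mem_filter.1 (Finset.mem_coe.1 hp)).2
    simp only [Finset.coe_product, Set.mem_prod, Finset.mem_coe]
    exact ⟨this.1, this.2.1⟩
  · intro p hp q hq h
    exact triS_inj G hG (Finset.mem_filter.1 (Finset.mem_coe.1 hp)).1
      (Finset.mem_filter.1 (Finset.mem_coe.1 hq)).1 h

private theorem card_triU_rs (G : SimpleGraph ι) (w : ι → ℕ) (B j : ℕ) (ε : ℝ) (N : ℕ)
    (hN : ∀ (V : Type) [Fintype V] (G : SimpleGraph V),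
    (∀ a b c d : V, G.Adj a b → G.Adj a c → G.Adj b c → G.Adj a d → G.Adj b d → c = d) →
    N ≤ Fintype.card V →
    (((Finset.univ : Finset (V × V × V)).filter
      (fun p => G.Adj p.1 p.2.1 ∧ G.Adj p.2.1 p.2.2 ∧ G.Adj p.1 p.2.2)).card : ℝ) ≤
      ε * (Fintype.card V : ℝ) ^ 2)
    (hG : ∀ a b c d : ι, G.Adj a b → G.Adj a c → G.Adj b c → G.Adj a d → G.Adj b d → c = d)
    (hc : N ≤ (US w B j).card) :
    ((triU G w B j).card : ℝ) ≤ ε * ((US w B j).card : ℝ) ^ 2 := by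
  have hV := hN {i // i ∈ US w B j} (G.comap Subtype.val)
    (fun a b c d h1 h2 h3 h4 h5 => Subtype.ext (hG a b c d h1 h2 h3 h4 h5))
    (by rw [Fintype.card_coe]; exact hc)
  rw [Fintype.card_coe] at hV
  refine le_trans ?_ hV
  have hsub : triU G w B j ⊆ ((Finset.univ : Finset ({i // i ∈ US w B j} × {i // i ∈ US w B j} ×
      {i // i ∈ US w B j})).filter
      (fun p => (G.comap Subtype.val).Adj p.1 p.2.1 ∧ (G.comap Subtype.val).Adj p.2.1 p.2.2 ∧
        (G.comap Subtype.val).Adj p.1 p.2.2)).image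
      (fun q => ((q.1 : ι), (q.2.1 : ι), (q.2.2 : ι))) := by
    rintro ⟨a, b, c⟩ hp
    obtain ⟨h1, h2, h3, h4⟩ := Finset.mem_filter.1 hp
    have h5 := (mem_triS G a b c).1 h1
    rw [Finset.mem_image]
    refine ⟨(⟨a, h2⟩, ⟨b, h3⟩, ⟨c, h4⟩), ?_, rfl⟩
    rw [Finset.mem_filter]
    exact ⟨Finset.mem_univ _, h5.1, h5.2.1, h5.2.2⟩
  exact_mod_cast (Finset.card_le_card hsub).trans Finset.card_image_le

private theorem level_bound (G : SimpleGraph ι) (w : ι → ℕ) (B j : ℕ) (hB : 2 ≤ B) (ε θ : ℝ)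
    (hε : 0 ≤ ε) (hθ : 0 ≤ θ) (N : ℕ)
    (hN : ∀ (V : Type) [Fintype V] (G : SimpleGraph V),
    (∀ a b c d : V, G.Adj a b → G.Adj a c → G.Adj b c → G.Adj a d → G.Adj b d → c = d) →
    N ≤ Fintype.card V →
    (((Finset.univ : Finset (V × V × V)).filter
      (fun p => G.Adj p.1 p.2.1 ∧ G.Adj p.2.1 p.2.2 ∧ G.Adj p.1 p.2.2)).card : ℝ) ≤
      ε * (Fintype.card V : ℝ) ^ 2)
    (hw : ∀ i, 1 ≤ w i)
    (hG : ∀ a b c d : ι, G.Adj a b → G.Adj a c → G.Adj b c → G.Adj a d → G.Adj b d → c = d)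
    (hθw : ∀ i, (w i : ℝ) ≤ θ * ∑ j, (w j : ℝ)) :
    ∑ p ∈ triU G w B j, (w p.1 : ℝ) * (w p.2.1 : ℝ) * (w p.2.2 : ℝ) ≤
      (ε + N * θ) * (B : ℝ) ^ 6 * (∑ j, (w j : ℝ)) * ∑ i ∈ US w B j, (w i : ℝ) ^ 2 := by
  set m : ℝ := ∑ j, (w j : ℝ) with hm
  set Pj : ℝ := ∑ i ∈ US w B j, (w i : ℝ) ^ 2 with hPj
  set X : ℝ := (B : ℝ) ^ j with hX
  set n : ℝ := ((US w B j).card : ℝ) with hn
  have hB0 : (0 : ℝ) < B := by exact_mod_cast (by omega : 0 < B)
  have hB1 : 1 < B := by omega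
  have hX0 : 0 < X := by positivity
  have hm0 : 0 ≤ m := Finset.sum_nonneg fun i _ => by positivity
  have hPj0 : 0 ≤ Pj := Finset.sum_nonneg fun i _ => by positivity
  have hn0 : 0 ≤ n := by positivity
  -- bounds for the weights
  have hup : ∀ i ∈ US w B j, (w i : ℝ) ≤ B * X := by
    intro i hi
    have h1 := (Finset.mem_filter.1 hi).2
    have h2 : w i < B ^ (Nat.log B (w i) + 1) := Nat.lt_pow_succ_log_self hB1 _
    have h3 : B ^ (Nat.log B (w i) + 1) ≤ B ^ (j + 1) := Nat.pow_le_pow_right (by omega) (by omega)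
    have h4 : w i ≤ B ^ (j + 1) := by omega
    have h5 : (w i : ℝ) ≤ (B : ℝ) ^ (j + 1) := by exact_mod_cast h4
    rw [pow_succ] at h5
    rw [hX]; linarith
  have hlo : ∀ i ∈ US w B j, X ≤ B * (w i : ℝ) := by
    intro i hi
    have h1 := (Finset.mem_filter.1 hi).2
    have h2 : B ^ (Nat.log B (w i)) ≤ w i := Nat.pow_log_le_self B (by have := hw i; omega)
    have h3 : B ^ j ≤ B ^ (Nat.log B (w i) + 1) := Nat.pow_le_pow_right (by omega) h1.2
    have h4 : B ^ j ≤ B * w i := by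
      calc B ^ j ≤ B ^ (Nat.log B (w i) + 1) := h3
        _ = B * B ^ (Nat.log B (w i)) := by rw [pow_succ]; ring
        _ ≤ B * w i := Nat.mul_le_mul_left _ h2
    rw [hX]
    exact_mod_cast h4
  have hnX : n * X ≤ B * m := by
    have h1 : n * X = ∑ i ∈ US w B j, X := by rw [Finset.sum_const, nsmul_eq_mul]
    have h2 : ∑ i ∈ US w B j, X ≤ ∑ i ∈ US w B j, (B : ℝ) * (w i : ℝ) := Finset.sum_le_sum hlo
    have h3 : ∑ i ∈ US w B j, (B : ℝ) * (w i : ℝ) ≤ ∑ i, (B : ℝ) * (w i : ℝ) :=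
      Finset.sum_le_sum_of_subset_of_nonneg (Finset.subset_univ _) fun i _ _ => by positivity
    rw [← Finset.mul_sum (s := Finset.univ)] at h3
    rw [h1, hm]
    exact h2.trans h3
  have hnX2 : n * X ^ 2 ≤ (B : ℝ) ^ 2 * Pj := by
    have h1 : n * X ^ 2 = ∑ i ∈ US w B j, X ^ 2 := by rw [Finset.sum_const, nsmul_eq_mul]
    have h2 : ∑ i ∈ US w B j, X ^ 2 ≤ ∑ i ∈ US w B j, (B : ℝ) ^ 2 * (w i : ℝ) ^ 2 :=
      Finset.sum_le_sum fun i hi => by
        have h3 := hlo i hi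
        calc X ^ 2 ≤ (B * (w i : ℝ)) ^ 2 := pow_le_pow_left₀ hX0.le h3 2
          _ = _ := by ring
    rw [← Finset.mul_sum] at h2
    rw [h1, hPj]
    exact h2
  -- the sum
  have hsum : ∑ p ∈ triU G w B j, (w p.1 : ℝ) * (w p.2.1 : ℝ) * (w p.2.2 : ℝ) ≤
      ((triU G w B j).card : ℝ) * (B * X) ^ 3 := by
    have h1 : ∀ p ∈ triU G w B j, (w p.1 : ℝ) * (w p.2.1 : ℝ) * (w p.2.2 : ℝ) ≤ (B * X) ^ 3 := by
      intro p hp
      obtain ⟨-, h1, h2, h3⟩ := Finset.mem_filter.1 hp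
      have a1 := hup _ h1
      have a2 := hup _ h2
      have a3 := hup _ h3
      have h4 : (w p.1 : ℝ) * (w p.2.1 : ℝ) ≤ (B * X) * (B * X) :=
        mul_le_mul a1 a2 (by positivity) (by positivity)
      calc (w p.1 : ℝ) * (w p.2.1 : ℝ) * (w p.2.2 : ℝ) ≤ ((B * X) * (B * X)) * (B * X) :=
            mul_le_mul h4 a3 (by positivity) (by positivity)
        _ = _ := by ring
    calc ∑ p ∈ triU G w B j, (w p.1 : ℝ) * (w p.2.1 : ℝ) * (w p.2.2 : ℝ)
        ≤ ∑ p ∈ triU G w B j, (B * X) ^ 3 := Finset.sum_le_sum h1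
      _ = _ := by rw [Finset.sum_const, nsmul_eq_mul]
  by_cases hcase : N ≤ (US w B j).card
  · have h1 := card_triU_rs G w B j ε N hN hG hcase
    have h2 : (n * X) * (n * X ^ 2) ≤ (B * m) * ((B : ℝ) ^ 2 * Pj) :=
      mul_le_mul hnX hnX2 (by positivity) (by positivity)
    calc ∑ p ∈ triU G w B j, (w p.1 : ℝ) * (w p.2.1 : ℝ) * (w p.2.2 : ℝ)
        ≤ ((triU G w B j).card : ℝ) * (B * X) ^ 3 := hsum
      _ ≤ (ε * n ^ 2) * (B * X) ^ 3 := mul_le_mul_of_nonneg_right h1 (by positivity)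
      _ = ε * B ^ 3 * ((n * X) * (n * X ^ 2)) := by ring
      _ ≤ ε * B ^ 3 * ((B * m) * ((B : ℝ) ^ 2 * Pj)) :=
          mul_le_mul_of_nonneg_left h2 (by positivity)
      _ = ε * (B : ℝ) ^ 6 * m * Pj := by ring
      _ ≤ (ε + N * θ) * (B : ℝ) ^ 6 * m * Pj := by
          have : 0 ≤ (N : ℝ) * θ * ((B : ℝ) ^ 6 * m * Pj) := by positivity
          nlinarith
  · push Not at hcase
    rcases Finset.eq_empty_or_nonempty (US w B j) with hE | ⟨i, hi⟩
    · have h0 : triU G w B j = ∅ := by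
        rw [Finset.eq_empty_iff_forall_notMem]
        intro p hp
        have := (Finset.mem_filter.1 hp).2.1
        rw [hE] at this
        exact absurd this (Finset.notMem_empty _)
      rw [h0, Finset.sum_empty]
      positivity
    · have h1 : ((triU G w B j).card : ℝ) ≤ n * n := by
        rw [hn]
        exact_mod_cast card_triU_sq G w B j hG
      have h2 : n ≤ N := by rw [hn]; exact_mod_cast hcase.le
      have h3 : X ≤ B * (θ * m) := (hlo i hi).trans (mul_le_mul_of_nonneg_left (hθw i) hB0.le)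
      have h4 : ((triU G w B j).card : ℝ) ≤ N * n := h1.trans (mul_le_mul_of_nonneg_right h2 hn0)
      calc ∑ p ∈ triU G w B j, (w p.1 : ℝ) * (w p.2.1 : ℝ) * (w p.2.2 : ℝ)
          ≤ ((triU G w B j).card : ℝ) * (B * X) ^ 3 := hsum
        _ ≤ (N * n) * (B * X) ^ 3 := mul_le_mul_of_nonneg_right h4 (by positivity)
        _ = N * B ^ 3 * (X * (n * X ^ 2)) := by ring
        _ ≤ N * B ^ 3 * ((B * (θ * m)) * ((B : ℝ) ^ 2 * Pj)) := by
            apply mul_le_mul_of_nonneg_left _ (by positivity)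
            exact mul_le_mul h3 hnX2 (by positivity) (by positivity)
        _ = (N * θ) * (B : ℝ) ^ 6 * m * Pj := by ring
        _ ≤ (ε + N * θ) * (B : ℝ) ^ 6 * m * Pj := by
            have : 0 ≤ ε * ((B : ℝ) ^ 6 * m * Pj) := by positivity
            nlinarith

private theorem sum_P (w : ι → ℕ) (B J : ℕ) :
    ∑ j ∈ Finset.range J, ∑ i ∈ US w B j, (w i : ℝ) ^ 2 ≤ 2 * ∑ i, (w i : ℝ) ^ 2 := by
  have h1 : ∑ j ∈ Finset.range J, ∑ i ∈ US w B j, (w i : ℝ) ^ 2 =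
      ∑ i, ∑ j ∈ Finset.range J, (if i ∈ US w B j then (w i : ℝ) ^ 2 else 0) := by
    rw [Finset.sum_comm]
    refine Finset.sum_congr rfl fun j _ => ?_
    rw [Finset.sum_ite_mem, Finset.univ_inter]
  rw [h1, Finset.mul_sum]
  refine Finset.sum_le_sum fun i _ => ?_
  have h2 : ∑ j ∈ Finset.range J, (if i ∈ US w B j then (w i : ℝ) ^ 2 else 0) =
      (((Finset.range J).filter fun j => i ∈ US w B j).card : ℝ) * (w i : ℝ) ^ 2 := by
    rw [← Finset.sum_filter, Finset.sum_const, nsmul_eq_mul]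
  rw [h2]
  have h3 : ((Finset.range J).filter fun j => i ∈ US w B j) ⊆
      {Nat.log B (w i), Nat.log B (w i) + 1} := by
    intro j hj
    have := (Finset.mem_filter.1 (Finset.mem_filter.1 hj).2).2
    simp only [Finset.mem_insert, Finset.mem_singleton]
    omega
  have h4 : (((Finset.range J).filter fun j => i ∈ US w B j).card : ℝ) ≤ 2 := by
    exact_mod_cast (Finset.card_le_card h3).trans Finset.card_le_two
  exact mul_le_mul_of_nonneg_right h4 (by positivity)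

private theorem split_bound (G : SimpleGraph ι) (w : ι → ℕ) (K J : ℕ) (hK : 2 ≤ K)
    (hw : ∀ i, 1 ≤ w i) (hJ : ∀ i, w i < J)
    (hG : ∀ a b c d : ι, G.Adj a b → G.Adj a c → G.Adj b c → G.Adj a d → G.Adj b d → c = d) :
    ∑ p ∈ (triS G).filter (fun p => w p.2.2 ≤ w p.2.1 ∧ w p.2.1 ≤ w p.1),
        (w p.1 : ℝ) * (w p.2.1 : ℝ) * (w p.2.2 : ℝ) ≤
      2 / K * (∑ j, (w j : ℝ)) * (∑ j, (w j : ℝ) ^ 2) +
      ∑ j ∈ Finset.range J, ∑ p ∈ triU G w (K ^ 2) j,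
        (w p.1 : ℝ) * (w p.2.1 : ℝ) * (w p.2.2 : ℝ) := by
  have hK0 : (0 : ℝ) < K := by exact_mod_cast (by omega : 0 < K)
  have hB1 : 1 < K ^ 2 := by nlinarith
  have key : ∀ p ∈ (triS G).filter (fun p => w p.2.2 ≤ w p.2.1 ∧ w p.2.1 ≤ w p.1),
      (w p.1 : ℝ) * (w p.2.1 : ℝ) * (w p.2.2 : ℝ) ≤
      (w p.1 : ℝ) * (w p.2.1 : ℝ) ^ 2 / K + (w p.1 : ℝ) ^ 2 * (w p.2.1 : ℝ) / K +
      ∑ j ∈ Finset.range J, (if p ∈ triU G w (K ^ 2) j then
        (w p.1 : ℝ) * (w p.2.1 : ℝ) * (w p.2.2 : ℝ) else 0) := by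
    rintro ⟨a, b, c⟩ hp
    obtain ⟨hp1, hp2, hp3⟩ := Finset.mem_filter.1 hp
    simp only at hp2 hp3 ⊢
    have n1 : 0 ≤ (w a : ℝ) * (w b : ℝ) ^ 2 / K := by positivity
    have n2 : 0 ≤ (w a : ℝ) ^ 2 * (w b : ℝ) / K := by positivity
    have n3 : 0 ≤ ∑ j ∈ Finset.range J, (if (a, b, c) ∈ triU G w (K ^ 2) j then
        (w a : ℝ) * (w b : ℝ) * (w c : ℝ) else 0) :=
      Finset.sum_nonneg fun j _ => by split_ifs <;> positivity
    by_cases h1 : K * w c ≤ w b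
    · have h2 : (K : ℝ) * w c ≤ w b := by exact_mod_cast h1
      have h3 : (w c : ℝ) ≤ (w b : ℝ) / K := by
        rw [le_div_iff₀ hK0]; linarith
      have h4 : (w a : ℝ) * (w b : ℝ) * (w c : ℝ) ≤ (w a : ℝ) * (w b : ℝ) * ((w b : ℝ) / K) :=
        mul_le_mul_of_nonneg_left h3 (by positivity)
      have h5 : (w a : ℝ) * (w b : ℝ) * ((w b : ℝ) / K) = (w a : ℝ) * (w b : ℝ) ^ 2 / K := by ring
      linarith
    by_cases h2 : K * w b ≤ w a
    · have h3 : (K : ℝ) * w b ≤ w a := by exact_mod_cast h2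
      have h4 : (w b : ℝ) ≤ (w a : ℝ) / K := by
        rw [le_div_iff₀ hK0]; linarith
      have h5 : (w c : ℝ) ≤ (w a : ℝ) / K := le_trans (by exact_mod_cast hp2) h4
      have h6 : (w a : ℝ) * (w b : ℝ) * (w c : ℝ) ≤ (w a : ℝ) * (w b : ℝ) * ((w a : ℝ) / K) :=
        mul_le_mul_of_nonneg_left h5 (by positivity)
      have h7 : (w a : ℝ) * (w b : ℝ) * ((w a : ℝ) / K) = (w a : ℝ) ^ 2 * (w b : ℝ) / K := by ring
      linarith
    · push Not at h1 h2
      have hac : w a < K ^ 2 * w c := by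
        calc w a < K * w b := h2
          _ ≤ K * (K * w c) := Nat.mul_le_mul_left _ h1.le
          _ = K ^ 2 * w c := by ring
      have hlog : ∀ i, w i ≤ w a → w a < K ^ 2 * w i → i ∈ US w (K ^ 2) (Nat.log (K ^ 2) (w a)) := by
        intro i hi1 hi2
        rw [US, Finset.mem_filter]
        refine ⟨Finset.mem_univ _, Nat.log_mono_right hi1, ?_⟩
        rw [← Nat.log_mul_base hB1 (by have := hw i; omega)]
        exact Nat.log_mono_right (by rw [mul_comm]; exact hi2.le)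
      have hmem : (a, b, c) ∈ triU G w (K ^ 2) (Nat.log (K ^ 2) (w a)) := by
        rw [triU, Finset.mem_filter]
        refine ⟨hp1, hlog a le_rfl ?_, hlog b hp3 ?_, hlog c (hp2.trans hp3) hac⟩
        · have := hw a
          nlinarith
        · exact hac.trans_le (Nat.mul_le_mul_left _ hp2)
      have hjJ : Nat.log (K ^ 2) (w a) ∈ Finset.range J := by
        rw [Finset.mem_range]
        exact (Nat.log_le_self _ _).trans_lt (hJ a)
      have h8 : (if (a, b, c) ∈ triU G w (K ^ 2) (Nat.log (K ^ 2) (w a)) then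
          (w a : ℝ) * (w b : ℝ) * (w c : ℝ) else 0) ≤
          ∑ j ∈ Finset.range J, (if (a, b, c) ∈ triU G w (K ^ 2) j then
            (w a : ℝ) * (w b : ℝ) * (w c : ℝ) else 0) :=
        Finset.single_le_sum (f := fun j => (if (a, b, c) ∈ triU G w (K ^ 2) j then
            (w a : ℝ) * (w b : ℝ) * (w c : ℝ) else 0))
          (fun j _ => by
            show (0 : ℝ) ≤ (if (a, b, c) ∈ triU G w (K ^ 2) j then
              (w a : ℝ) * (w b : ℝ) * (w c : ℝ) else 0)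
            split_ifs <;> positivity) hjJ
      rw [if_pos hmem] at h8
      linarith
  set D := (triS G).filter (fun p => w p.2.2 ≤ w p.2.1 ∧ w p.2.1 ≤ w p.1) with hD
  have hDs : D ⊆ triS G := Finset.filter_subset _ _
  have e1 : ∑ p ∈ D, (w p.1 : ℝ) * (w p.2.1 : ℝ) ^ 2 / K ≤
      1 / K * (∑ j, (w j : ℝ)) * (∑ j, (w j : ℝ) ^ 2) := by
    calc ∑ p ∈ D, (w p.1 : ℝ) * (w p.2.1 : ℝ) ^ 2 / K
        ≤ ∑ p ∈ triS G, (w p.1 : ℝ) * (w p.2.1 : ℝ) ^ 2 / K :=
          Finset.sum_le_sum_of_subset_of_nonneg hDs fun p _ _ => by positivity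
      _ ≤ ∑ a, ∑ b, (w a : ℝ) * (w b : ℝ) ^ 2 / K :=
          sum_pair_le G hG (fun a b => (w a : ℝ) * (w b : ℝ) ^ 2 / K) fun a b => by positivity
      _ = _ := by
          rw [mul_assoc, Finset.sum_mul_sum, Finset.mul_sum]
          refine Finset.sum_congr rfl fun a _ => ?_
          rw [Finset.mul_sum]
          refine Finset.sum_congr rfl fun b _ => ?_
          ring
  have e2 : ∑ p ∈ D, (w p.1 : ℝ) ^ 2 * (w p.2.1 : ℝ) / K ≤
      1 / K * (∑ j, (w j : ℝ)) * (∑ j, (w j : ℝ) ^ 2) := by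
    calc ∑ p ∈ D, (w p.1 : ℝ) ^ 2 * (w p.2.1 : ℝ) / K
        ≤ ∑ p ∈ triS G, (w p.1 : ℝ) ^ 2 * (w p.2.1 : ℝ) / K :=
          Finset.sum_le_sum_of_subset_of_nonneg hDs fun p _ _ => by positivity
      _ ≤ ∑ a, ∑ b, (w a : ℝ) ^ 2 * (w b : ℝ) / K :=
          sum_pair_le G hG (fun a b => (w a : ℝ) ^ 2 * (w b : ℝ) / K) fun a b => by positivity
      _ = _ := by
          rw [mul_assoc, mul_comm (∑ j, (w j : ℝ)), Finset.sum_mul_sum, Finset.mul_sum]
          refine Finset.sum_congr rfl fun a _ => ?_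
          rw [Finset.mul_sum]
          refine Finset.sum_congr rfl fun b _ => ?_
          ring
  have e3 : ∑ p ∈ D, ∑ j ∈ Finset.range J, (if p ∈ triU G w (K ^ 2) j then
        (w p.1 : ℝ) * (w p.2.1 : ℝ) * (w p.2.2 : ℝ) else 0) ≤
      ∑ j ∈ Finset.range J, ∑ p ∈ triU G w (K ^ 2) j,
        (w p.1 : ℝ) * (w p.2.1 : ℝ) * (w p.2.2 : ℝ) := by
    rw [Finset.sum_comm]
    refine Finset.sum_le_sum fun j _ => ?_
    rw [← Finset.sum_filter]
    refine Finset.sum_le_sum_of_subset_of_nonneg ?_ fun p _ _ => by positivity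
    intro p hp
    exact (Finset.mem_filter.1 hp).2
  calc ∑ p ∈ D, (w p.1 : ℝ) * (w p.2.1 : ℝ) * (w p.2.2 : ℝ)
      ≤ ∑ p ∈ D, ((w p.1 : ℝ) * (w p.2.1 : ℝ) ^ 2 / K + (w p.1 : ℝ) ^ 2 * (w p.2.1 : ℝ) / K +
      ∑ j ∈ Finset.range J, (if p ∈ triU G w (K ^ 2) j then
        (w p.1 : ℝ) * (w p.2.1 : ℝ) * (w p.2.2 : ℝ) else 0)) := Finset.sum_le_sum key
    _ = ∑ p ∈ D, (w p.1 : ℝ) * (w p.2.1 : ℝ) ^ 2 / K + ∑ p ∈ D, (w p.1 : ℝ) ^ 2 * (w p.2.1 : ℝ) / K
        + ∑ p ∈ D, ∑ j ∈ Finset.range J, (if p ∈ triU G w (K ^ 2) j then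
        (w p.1 : ℝ) * (w p.2.1 : ℝ) * (w p.2.2 : ℝ) else 0) := by
        rw [Finset.sum_add_distrib, Finset.sum_add_distrib]
    _ ≤ 1 / K * (∑ j, (w j : ℝ)) * (∑ j, (w j : ℝ) ^ 2) +
        1 / K * (∑ j, (w j : ℝ)) * (∑ j, (w j : ℝ) ^ 2) +
        ∑ j ∈ Finset.range J, ∑ p ∈ triU G w (K ^ 2) j,
        (w p.1 : ℝ) * (w p.2.1 : ℝ) * (w p.2.2 : ℝ) := add_le_add (add_le_add e1 e2) e3
    _ = _ := by ring

end RSb

theorem rs_weights (ε : ℝ) (hε : 0 < ε) : ∃ θ : ℝ, 0 < θ ∧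
    ∀ (ι : Type) [Fintype ι] (w : ι → ℕ) (G : SimpleGraph ι), (∀ i, 1 ≤ w i) →
    (∀ a b c d : ι, G.Adj a b → G.Adj a c → G.Adj b c → G.Adj a d → G.Adj b d → c = d) →
    (∀ i, (w i : ℝ) ≤ θ * ∑ j, (w j : ℝ)) →
    (∑ p ∈ (Finset.univ : Finset (ι × ι × ι)).filter
      (fun p => G.Adj p.1 p.2.1 ∧ G.Adj p.2.1 p.2.2 ∧ G.Adj p.1 p.2.2),
        (w p.1 : ℝ) * (w p.2.1 : ℝ) * (w p.2.2 : ℝ)) ≤
      ε * (∑ j, (w j : ℝ)) * ∑ j, (w j : ℝ) ^ 2 := by
  set K : ℕ := ⌈24 / ε⌉₊ + 2 with hKd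
  have hK2 : 2 ≤ K := by omega
  have hK0 : (0 : ℝ) < K := by exact_mod_cast (by omega : 0 < K)
  have hKε : 24 / ε ≤ K := by
    have h1 := Nat.le_ceil (24 / ε)
    have h2 : ((⌈24 / ε⌉₊ : ℕ) : ℝ) ≤ (K : ℝ) := by exact_mod_cast (by omega : ⌈24 / ε⌉₊ ≤ K)
    linarith
  have h12K : 12 * (1 / (K : ℝ)) ≤ ε / 2 := by
    rw [div_le_iff₀ hε] at hKε
    rw [mul_one_div, div_le_iff₀ hK0]
    linarith
  set B : ℕ := K ^ 2 with hBd
  have hB2 : 2 ≤ B := by rw [hBd]; nlinarith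
  have hB0 : (0 : ℝ) < B := by exact_mod_cast (by omega : 0 < B)
  set ε' : ℝ := ε / (48 * (B : ℝ) ^ 6) with hε'
  have hε'0 : 0 < ε' := by positivity
  obtain ⟨N, hN⟩ := rs_graph ε' hε'0
  refine ⟨ε / (48 * ((N : ℝ) + 1) * (B : ℝ) ^ 6), by positivity, ?_⟩
  intro ι _ w G hw hG hθ
  set θ : ℝ := ε / (48 * ((N : ℝ) + 1) * (B : ℝ) ^ 6) with hθd
  have hθ0 : 0 < θ := by positivity
  have hδ : 12 * ((ε' + N * θ) * (B : ℝ) ^ 6) ≤ ε / 2 := by
    have h1 : ε' * (B : ℝ) ^ 6 = ε / 48 := by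
      rw [hε']; field_simp
    have h2 : N * θ * (B : ℝ) ^ 6 ≤ ε / 48 := by
      have h3 : ((N : ℝ) + 1) * θ * (B : ℝ) ^ 6 = ε / 48 := by
        rw [hθd]; field_simp
      have h4 : 0 ≤ θ * (B : ℝ) ^ 6 := by positivity
      nlinarith
    nlinarith
  set m : ℝ := ∑ j, (w j : ℝ) with hm
  set P : ℝ := ∑ j, (w j : ℝ) ^ 2 with hP
  have hm0 : 0 ≤ m := Finset.sum_nonneg fun i _ => by positivity
  have hP0 : 0 ≤ P := Finset.sum_nonneg fun i _ => by positivity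
  set J : ℕ := (∑ j, w j) + 1 with hJd
  have hJ : ∀ i, w i < J := fun i => by
    have := Finset.single_le_sum (f := w) (fun j _ => Nat.zero_le _) (Finset.mem_univ i)
    omega
  have h1 := sym_bound G w
  have h2 := split_bound G w K J hK2 hw hJ hG
  have h3 : ∑ j ∈ Finset.range J, ∑ p ∈ triU G w (K ^ 2) j,
        (w p.1 : ℝ) * (w p.2.1 : ℝ) * (w p.2.2 : ℝ) ≤
      ∑ j ∈ Finset.range J, (ε' + N * θ) * (B : ℝ) ^ 6 * m * ∑ i ∈ US w B j, (w i : ℝ) ^ 2 :=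
    Finset.sum_le_sum fun j _ =>
      level_bound G w B j hB2 ε' θ hε'0.le hθ0.le N hN hw hG hθ
  rw [← Finset.mul_sum] at h3
  have h4 := sum_P w B J
  have h5 : 0 ≤ (ε' + N * θ) * (B : ℝ) ^ 6 * m := by positivity
  have h6 := mul_le_mul_of_nonneg_left h4 h5
  have hmP : 0 ≤ m * P := mul_nonneg hm0 hP0
  have h7 : 6 * (2 / K * m * P + (ε' + N * θ) * (B : ℝ) ^ 6 * m * (2 * P)) ≤ ε * m * P := by
    have e1 : 6 * (2 / K * m * P + (ε' + N * θ) * (B : ℝ) ^ 6 * m * (2 * P)) =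
        (12 * (1 / (K : ℝ)) + 12 * ((ε' + N * θ) * (B : ℝ) ^ 6)) * (m * P) := by ring
    rw [e1]
    have e2 : ε * m * P = (ε / 2 + ε / 2) * (m * P) := by ring
    rw [e2]
    exact mul_le_mul_of_nonneg_right (add_le_add h12K hδ) hmP
  change ∑ p ∈ triS G, (w p.1 : ℝ) * (w p.2.1 : ℝ) * (w p.2.2 : ℝ) ≤ ε * m * P
  linarith

end Pool.Agent.LC3
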