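import Pool.Agent.LC3.RSb

/-!
# LC3.RSc : from a set with an equivalence relation to weighted classes

`r` is an equivalence relation on the finite set `V` and `d` a symmetric relation compatible with `r`,
disjoint from `r`, such that the common `d`-neighbours of a `d`-pair are all equivalent. Apply `rs_weights`
to the type of classes (`ι = Quotient`), `w` = size of the class, `G.Adj` = `d` on representatives
(well defined by compatibility; irreflexive since `d` is disjoint from `r`). The number of ordered triples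
of `V` which are pairwise in `d` is `∑ w a w b w c` over the ordered triangles of classes, `∑ w = |V|` and
`∑ w^2` is the number of pairs in `r` (fiberwise counting, `Finset.card_eq_sum_card_fiberwise`).
-/

set_option autoImplicit false

open Classical

namespace Pool.Agent.LC3

private theorem rsc_sum {V ι : Type} [Fintype V] [Fintype ι] (q : V → ι) (g : ι → ℝ) :
    ∑ x : V, g (q x) =
      ∑ c : ι, (((Finset.univ : Finset V).filter (fun x => q x = c)).card : ℝ) * g c := by
  rw [← Finset.sum_fiberwise (s := Finset.univ) (g := q) (f := fun x => g (q x))]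
  refine Finset.sum_congr rfl fun c _ => ?_
  rw [Finset.sum_congr rfl (g := fun _ => g c)
    (fun x hx => by rw [(Finset.mem_filter.1 hx).2]), Finset.sum_const, nsmul_eq_mul]

private theorem rsc_card3 {V : Type} [Fintype V] (D : V → V → V → Prop) :
    (((Finset.univ : Finset (V × V × V)).filter (fun p => D p.1 p.2.1 p.2.2)).card : ℝ) =
      ∑ x : V, ∑ y : V, ∑ z : V, (if D x y z then (1 : ℝ) else 0) := by
  have h : ∀ x : V, ∑ y : V, ∑ z : V, (if D x y z then (1 : ℝ) else 0) =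
      ∑ p : V × V, (if D x p.1 p.2 then (1 : ℝ) else 0) := fun x =>
    (Fintype.sum_prod_type (fun p : V × V => (if D x p.1 p.2 then (1 : ℝ) else 0))).symm
  rw [Finset.sum_congr rfl (fun x _ => h x),
    ← Fintype.sum_prod_type (fun p : V × V × V => (if D p.1 p.2.1 p.2.2 then (1 : ℝ) else 0)),
    ← Finset.sum_filter, Finset.sum_const, nsmul_eq_mul, mul_one]

private theorem rsc_card2 {V : Type} [Fintype V] (D : V → V → Prop) :
    (((Finset.univ : Finset (V × V)).filter (fun p => D p.1 p.2)).card : ℝ) =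
      ∑ x : V, ∑ y : V, (if D x y then (1 : ℝ) else 0) := by
  rw [← Fintype.sum_prod_type (fun p : V × V => (if D p.1 p.2 then (1 : ℝ) else 0)),
    ← Finset.sum_filter, Finset.sum_const, nsmul_eq_mul, mul_one]

private theorem rsc_main {V ι : Type} [Fintype V] [Fintype ι] (ε θ : ℝ)
    (H : ∀ (w : ι → ℕ) (G : SimpleGraph ι), (∀ i, 1 ≤ w i) →
    (∀ a b c d : ι, G.Adj a b → G.Adj a c → G.Adj b c → G.Adj a d → G.Adj b d → c = d) →
    (∀ i, (w i : ℝ) ≤ θ * ∑ j, (w j : ℝ)) →
    (∑ p ∈ (Finset.univ : Finset (ι × ι × ι)).filter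
      (fun p => G.Adj p.1 p.2.1 ∧ G.Adj p.2.1 p.2.2 ∧ G.Adj p.1 p.2.2),
        (w p.1 : ℝ) * (w p.2.1 : ℝ) * (w p.2.2 : ℝ)) ≤
      ε * (∑ j, (w j : ℝ)) * ∑ j, (w j : ℝ) ^ 2)
    (r d : V → V → Prop) (q : V → ι) (hqs : ∀ c, ∃ x, q x = c) (hq : ∀ x y, q x = q y ↔ r x y)
    (hsymm : ∀ x y, d x y → d y x) (hdisj : ∀ x y, d x y → ¬ r x y)
    (hcomp2 : ∀ x x' y y', r x x' → r y y' → d x y → d x' y')
    (htri : ∀ x y z z', d x y → d x z → d y z → d x z' → d y z' → r z z')
    (hsmall : ∀ x, (((Finset.univ : Finset V).filter (fun y => r x y)).card : ℝ) ≤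
      θ * Fintype.card V) :
    (((Finset.univ : Finset (V × V × V)).filter
      (fun p => d p.1 p.2.1 ∧ d p.2.1 p.2.2 ∧ d p.1 p.2.2)).card : ℝ) ≤
      ε * (Fintype.card V : ℝ) *
        (((Finset.univ : Finset (V × V)).filter (fun p => r p.1 p.2)).card : ℝ) := by
  set w : ι → ℕ := fun c => ((Finset.univ : Finset V).filter (fun x => q x = c)).card with hw
  let G : SimpleGraph ι :=
    { Adj := fun a b => ∃ x y, q x = a ∧ q y = b ∧ d x y
      symm := ⟨by
        rintro a b ⟨x, y, h1, h2, h3⟩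
        exact ⟨y, x, h2, h1, hsymm _ _ h3⟩⟩
      loopless := ⟨by
        rintro a ⟨x, y, h1, h2, h3⟩
        exact hdisj x y h3 ((hq x y).1 (h1.trans h2.symm))⟩ }
  have hG : ∀ x y, G.Adj (q x) (q y) ↔ d x y := by
    intro x y
    constructor
    · rintro ⟨x', y', h1, h2, h3⟩
      exact hcomp2 x' x y' y ((hq _ _).1 h1) ((hq _ _).1 h2) h3
    · intro h
      exact ⟨x, y, rfl, rfl, h⟩
  have hs : ∀ g : ι → ℝ, ∑ x : V, g (q x) = ∑ c : ι, (w c : ℝ) * g c := fun g => rsc_sum q g
  have hsum1 : ∑ j, (w j : ℝ) = (Fintype.card V : ℝ) := by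
    have h := hs (fun _ => (1 : ℝ))
    simp only [Finset.sum_const, Finset.card_univ, nsmul_eq_mul, mul_one] at h
    exact h.symm
  have hrow : ∀ x, ∑ y : V, (if r x y then (1 : ℝ) else 0) = (w (q x) : ℝ) := by
    intro x
    rw [← Finset.sum_filter, Finset.sum_const, nsmul_eq_mul, mul_one, hw]
    congr 2
    ext y
    simp only [Finset.mem_filter, Finset.mem_univ, true_and]
    rw [hq y x, ← hq x y, ← hq y x]
    exact eq_comm
  have hsum2 : ∑ j, (w j : ℝ) ^ 2 =
      (((Finset.univ : Finset (V × V)).filter (fun p => r p.1 p.2)).card : ℝ) := by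
    rw [rsc_card2, Finset.sum_congr rfl (fun x _ => hrow x), hs (fun c => (w c : ℝ))]
    exact Finset.sum_congr rfl fun c _ => pow_two _
  have hsum3 : (∑ p ∈ (Finset.univ : Finset (ι × ι × ι)).filter
      (fun p => G.Adj p.1 p.2.1 ∧ G.Adj p.2.1 p.2.2 ∧ G.Adj p.1 p.2.2),
        (w p.1 : ℝ) * (w p.2.1 : ℝ) * (w p.2.2 : ℝ)) =
      (((Finset.univ : Finset (V × V × V)).filter
      (fun p => d p.1 p.2.1 ∧ d p.2.1 p.2.2 ∧ d p.1 p.2.2)).card : ℝ) := by
    set T : ι → ι → ι → ℝ := fun a b c =>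
      if G.Adj a b ∧ G.Adj b c ∧ G.Adj a c then (1 : ℝ) else 0 with hT
    have h1 : (((Finset.univ : Finset (V × V × V)).filter
        (fun p => d p.1 p.2.1 ∧ d p.2.1 p.2.2 ∧ d p.1 p.2.2)).card : ℝ) =
        ∑ x : V, ∑ y : V, ∑ z : V, T (q x) (q y) (q z) := by
      have h0 := rsc_card3 (fun x y z => d x y ∧ d y z ∧ d x z)
      have h00 : ∑ x : V, ∑ y : V, ∑ z : V, (if d x y ∧ d y z ∧ d x z then (1 : ℝ) else 0) =
          ∑ x : V, ∑ y : V, ∑ z : V, T (q x) (q y) (q z) := by
        refine Finset.sum_congr rfl fun x _ => Finset.sum_congr rfl fun y _ =>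
          Finset.sum_congr rfl fun z _ => ?_
        simp only [hT, hG]
      rw [← h00]
      convert h0
    have h2 : ∑ x : V, ∑ y : V, ∑ z : V, T (q x) (q y) (q z) =
        ∑ a : ι, (w a : ℝ) * ∑ b : ι, (w b : ℝ) * ∑ c : ι, (w c : ℝ) * T a b c := by
      rw [← hs (fun a => ∑ b : ι, (w b : ℝ) * ∑ c : ι, (w c : ℝ) * T a b c)]
      refine Finset.sum_congr rfl fun x _ => ?_
      rw [← hs (fun b => ∑ c : ι, (w c : ℝ) * T (q x) b c)]
      refine Finset.sum_congr rfl fun y _ => ?_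
      exact hs (fun c => T (q x) (q y) c)
    rw [h1, h2, Finset.sum_filter, Fintype.sum_prod_type]
    refine Finset.sum_congr rfl fun a _ => ?_
    rw [Fintype.sum_prod_type, Finset.mul_sum]
    refine Finset.sum_congr rfl fun b _ => ?_
    rw [Finset.mul_sum, Finset.mul_sum]
    refine Finset.sum_congr rfl fun c _ => ?_
    simp only [hT]
    split_ifs
    · ring
    · ring
  rw [← hsum1, ← hsum2, ← hsum3]
  have key := H w G ?_ ?_ ?_
  · convert key
  · intro c
    obtain ⟨x, hx⟩ := hqs c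
    exact Finset.card_pos.2 ⟨x, Finset.mem_filter.2 ⟨Finset.mem_univ x, hx⟩⟩
  · intro a b c e h1 h2 h3 h4 h5
    obtain ⟨x, rfl⟩ := hqs a
    obtain ⟨y, rfl⟩ := hqs b
    obtain ⟨z, rfl⟩ := hqs c
    obtain ⟨z', rfl⟩ := hqs e
    rw [hG] at h1 h2 h3 h4 h5
    exact (hq z z').2 (htri x y z z' h1 h2 h3 h4 h5)
  · intro c
    obtain ⟨x, rfl⟩ := hqs c
    rw [hsum1, ← hrow x, ← Finset.sum_filter, Finset.sum_const, nsmul_eq_mul, mul_one]
    exact hsmall x

theorem rs_abs (ε : ℝ) (hε : 0 < ε) : ∃ θ : ℝ, 0 < θ ∧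
    ∀ (V : Type) [Fintype V] (r d : V → V → Prop), Equivalence r →
    (∀ x y, d x y → d y x) → (∀ x y, d x y → ¬ r x y) →
    (∀ x x' y, r x x' → d x y → d x' y) →
    (∀ x y z z', d x y → d x z → d y z → d x z' → d y z' → r z z') →
    (∀ x, (((Finset.univ : Finset V).filter (fun y => r x y)).card : ℝ) ≤ θ * Fintype.card V) →
    (((Finset.univ : Finset (V × V × V)).filter
      (fun p => d p.1 p.2.1 ∧ d p.2.1 p.2.2 ∧ d p.1 p.2.2)).card : ℝ) ≤
      ε * (Fintype.card V : ℝ) *
        (((Finset.univ : Finset (V × V)).filter (fun p => r p.1 p.2)).card : ℝ) := by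
  obtain ⟨θ, hθ, H⟩ := rs_weights ε hε
  refine ⟨θ, hθ, ?_⟩
  intro V _ r d hr hsymm hdisj hcomp htri hsmall
  have hcomp2 : ∀ x x' y y', r x x' → r y y' → d x y → d x' y' := fun x x' y y' h1 h2 h3 =>
    hsymm _ _ (hcomp y y' x' h2 (hsymm _ _ (hcomp x x' y h1 h3)))
  let s : Setoid V := ⟨r, hr⟩
  have hfin : Finite (Quotient s) := Quotient.finite s
  have hft : Fintype (Quotient s) := Fintype.ofFinite _
  exact rsc_main ε θ (fun w G => H (Quotient s) w G) r d (Quotient.mk s)
    (fun c => Quotient.exists_rep c) (fun x y => Quotient.eq (r := s)) hsymm hdisj hcomp2 htri hsmall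

end Pool.Agent.LC3
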