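import Pool.Agent.LC3.Union

/-!
# LC3.Sparse : small subgraphs of the sparse random graph have few edges

`0 ≤ t ≤ be/n`.
* `sparse_small`: for every fixed `s0`, with probability `≥ 1 - C/n` every set of less than `s0` vertices
  spans at most as many edges as vertices: by `prob_exists_dense` with `r = s+1`,
  `C(n,s) C(s^2/2,s+1) t^(s+1) ≤ n^s C_s (be/n)^(s+1) = C'/n`; sum over `s < s0`.
* `sparse_mid`: for `ε > 0` there are `s0`, `δ > 0`: with probability `≥ 1 - C/n^3` every set `S` of size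
  between `s0` and `δ n` spans at most `(1+ε)|S|` edges. By `dense_bound` with
  `r = ⌊(1+ε) s⌋ + 1 > (1+ε) s`, the expected number of bad sets of size `s` is
  `≤ (e n/s)^s (e s^2 t/(2r))^r ≤ (e n/s)^s (e be s/(2 n))^r`. If `s ≤ δ n` with `e be δ/2 ≤ 1` the second
  base is `≤ 1` so we may replace `r` by `(1+ε)s`: the bound is `≤ (C0 (s/n)^ε)^s` with
  `C0 = e (e be)^(1+ε)` (real powers). Choose `δ` with `C0 δ^ε ≤ 1/2`. For `s ≤ √n` the bound is
  `≤ (C0 n^(-ε/2))^s ≤ (n^(-ε/4))^s ≤ n^(-4)` if `s ≥ s0 = ⌈16/ε⌉` and `n` is large; there are at most `√n`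
  such `s`. For `s > √n` it is `≤ 2^(-s)`, the sum is `≤ 2 * 2^(-√n) ≤ n^(-3)`.
* `edges_tail`: `E[|A| 1(|A| > 30 n)] ≤ E[2^|A| 2^(|A| - 30 n)] = 2^(-30n) E[4^|A|] = 2^(-30n)(1+3t)^|E|
   ≤ 2^(-30 n) exp(3 (be/n) n^2/2) = 2^(-30n) exp(1.5 be n) ≤ exp(-10 n) ≤ 1/n` (`ex_pow_card`;
   `1.5*5.04 = 7.56`, `30 ln 2 > 20`).
-/

set_option autoImplicit false

open Classical

namespace Pool.Agent.LC3

theorem sparse_t_le_one {n : ℕ} (hn : 6 ≤ n) {t : ℝ} (ht : t ≤ be / n) : t ≤ 1 := by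
  have hn' : (6 : ℝ) ≤ n := by exact_mod_cast hn
  refine ht.trans ?_
  rw [div_le_one (by linarith)]
  unfold be
  linarith

theorem sparse_small (s0 : ℕ) : ∃ C : ℝ, 0 < C ∧ ∀ n : ℕ, 6 ≤ n → ∀ t : ℝ, 0 ≤ t → t ≤ be / n →
    ex t (EN n) (fun A => ind (∃ S ⊆ Finset.range n, S.card < s0 ∧ S.card < eIn A S)) ≤ C / n := by
  refine ⟨1 + ∑ s ∈ Finset.range s0, (((s.choose 2).choose (s + 1) : ℕ) : ℝ) * be ^ (s + 1), ?_, ?_⟩
  · have : (0 : ℝ) ≤ ∑ s ∈ Finset.range s0, (((s.choose 2).choose (s + 1) : ℕ) : ℝ) * be ^ (s + 1) := by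
      refine Finset.sum_nonneg (fun s _ => ?_)
      have : (0 : ℝ) ≤ be := by unfold be; norm_num
      positivity
    linarith
  intro n hn t h0 ht
  have h1 := sparse_t_le_one hn ht
  have hnpos : (0 : ℝ) < n := by
    have : 0 < n := by omega
    exact_mod_cast this
  have hbe : (0 : ℝ) ≤ be := by unfold be; norm_num
  have hA : ex t (EN n) (fun A => ind (∃ S ⊆ Finset.range n, S.card < s0 ∧ S.card < eIn A S)) ≤
      ex t (EN n) (fun A => ind (∃ s ∈ Finset.range s0,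
        ∃ S ⊆ Finset.range n, S.card = s ∧ s + 1 ≤ eIn A S)) := by
    refine ex_mono h0 h1 (fun A _ => ind_mono ?_)
    rintro ⟨S, hS, h2, h3⟩
    exact ⟨S.card, Finset.mem_range.2 h2, S, hS, rfl, h3⟩
  refine hA.trans ((ex_exists_le h0 h1 (EN n) (Finset.range s0)
    (fun s A => ∃ S ⊆ Finset.range n, S.card = s ∧ s + 1 ≤ eIn A S)).trans ?_)
  have hB : ∀ s ∈ Finset.range s0,
      ex t (EN n) (fun A => ind (∃ S ⊆ Finset.range n, S.card = s ∧ s + 1 ≤ eIn A S)) ≤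
        (((s.choose 2).choose (s + 1) : ℕ) : ℝ) * be ^ (s + 1) / n := by
    intro s _
    refine (prob_exists_dense h0 h1 s (s + 1)).trans ?_
    have e1 : (n.choose s : ℝ) ≤ (n : ℝ) ^ s := by
      exact_mod_cast Nat.choose_le_pow n s
    have e2 : t ^ (s + 1) ≤ (be / n) ^ (s + 1) := pow_le_pow_left₀ h0 ht _
    calc (n.choose s : ℝ) * ((((s.choose 2).choose (s + 1) : ℕ) : ℝ) * t ^ (s + 1))
        ≤ (n : ℝ) ^ s * ((((s.choose 2).choose (s + 1) : ℕ) : ℝ) * (be / n) ^ (s + 1)) := by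
          gcongr
      _ = (((s.choose 2).choose (s + 1) : ℕ) : ℝ) * be ^ (s + 1) / n := by
          rw [div_pow, pow_succ (n : ℝ) s]
          field_simp
  refine (Finset.sum_le_sum hB).trans ?_
  rw [← Finset.sum_div]
  apply div_le_div_of_nonneg_right _ hnpos.le
  linarith

/-- one term of the union bound -/
theorem sparse_term {ε : ℝ} (hε : 0 < ε) {n s r : ℕ} (hn : 1 ≤ n) (hs : 1 ≤ s)
    (hr : (1 + ε) * s ≤ r) {t : ℝ} (h0 : 0 ≤ t) (ht : t ≤ be / n)
    (hx : (Real.exp 1 * be / 2) * ((s : ℝ) / n) ≤ 1) :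
    (Real.exp 1 * n / s) ^ s * (Real.exp 1 * (s : ℝ) ^ 2 * t / (2 * r)) ^ r ≤
      (Real.exp 1 * (Real.exp 1 * be / 2) ^ (1 + ε) * ((s : ℝ) / n) ^ ε) ^ s := by
  have hnpos : (0 : ℝ) < n := by exact_mod_cast hn
  have hspos : (0 : ℝ) < s := by exact_mod_cast hs
  have hbe : (0 : ℝ) < be := by unfold be; norm_num
  have he : (0 : ℝ) < Real.exp 1 := Real.exp_pos 1
  set b : ℝ := Real.exp 1 * be / 2 with hb
  set x : ℝ := (s : ℝ) / n with hxd
  have hbpos : 0 < b := by positivity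
  have hxpos : 0 < x := by positivity
  have hsr : (s : ℝ) ≤ r := by nlinarith
  have hrpos : (0 : ℝ) < r := by linarith
  have h2 : Real.exp 1 * (s : ℝ) ^ 2 * t / (2 * r) ≤ b * x := by
    rw [div_le_iff₀ (by positivity)]
    calc Real.exp 1 * (s : ℝ) ^ 2 * t ≤ Real.exp 1 * (s : ℝ) ^ 2 * (be / n) := by gcongr
      _ = b * x * (2 * s) := by
          rw [hb, hxd]
          field_simp
      _ ≤ b * x * (2 * r) := by gcongr
  have h3 : 0 ≤ Real.exp 1 * (s : ℝ) ^ 2 * t / (2 * r) := by positivity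
  have hbx : 0 < b * x := by positivity
  have h4 : (Real.exp 1 * (s : ℝ) ^ 2 * t / (2 * r)) ^ r ≤ ((b * x) ^ (1 + ε)) ^ s := by
    calc (Real.exp 1 * (s : ℝ) ^ 2 * t / (2 * r)) ^ r ≤ (b * x) ^ r := pow_le_pow_left₀ h3 h2 r
      _ = (b * x) ^ (r : ℝ) := (Real.rpow_natCast _ _).symm
      _ ≤ (b * x) ^ ((1 + ε) * s) := Real.rpow_le_rpow_of_exponent_ge hbx hx hr
      _ = ((b * x) ^ (1 + ε)) ^ s := by
          rw [Real.rpow_mul hbx.le, Real.rpow_natCast]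
  have h5 : Real.exp 1 * n / s = Real.exp 1 / x := by
    rw [hxd]
    field_simp
  rw [h5]
  calc (Real.exp 1 / x) ^ s * (Real.exp 1 * (s : ℝ) ^ 2 * t / (2 * r)) ^ r
      ≤ (Real.exp 1 / x) ^ s * ((b * x) ^ (1 + ε)) ^ s := by gcongr
    _ = (Real.exp 1 / x * (b * x) ^ (1 + ε)) ^ s := by rw [mul_pow]
    _ = (Real.exp 1 * b ^ (1 + ε) * x ^ ε) ^ s := by
        congr 1
        rw [Real.mul_rpow hbpos.le hxpos.le, Real.rpow_add hxpos, Real.rpow_one]
        field_simp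

theorem pow8_le {s : ℕ} (hs : 44 ≤ s) : s ^ 8 ≤ 2 ^ s := by
  induction s, hs using Nat.le_induction with
  | base => norm_num
  | succ s hs ih =>
    have h1 : (s + 1) * 44 ≤ 45 * s := by omega
    have h2 : ((s + 1) * 44) ^ 8 ≤ (45 * s) ^ 8 := Nat.pow_le_pow_left h1 8
    rw [mul_pow, mul_pow] at h2
    have h3 : (45 : ℕ) ^ 8 * s ^ 8 ≤ (2 * 44 ^ 8) * s ^ 8 := Nat.mul_le_mul_right _ (by norm_num)
    have h4 : (s + 1) ^ 8 * 44 ^ 8 ≤ (2 * s ^ 8) * 44 ^ 8 := by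
      calc (s + 1) ^ 8 * 44 ^ 8 ≤ (2 * 44 ^ 8) * s ^ 8 := h2.trans h3
        _ = (2 * s ^ 8) * 44 ^ 8 := by ring
    have h5 : (s + 1) ^ 8 ≤ 2 * s ^ 8 := Nat.le_of_mul_le_mul_right h4 (by norm_num)
    calc (s + 1) ^ 8 ≤ 2 * s ^ 8 := h5
      _ ≤ 2 * 2 ^ s := Nat.mul_le_mul_left _ ih
      _ = 2 ^ (s + 1) := by ring

theorem sparse_mid (ε : ℝ) (hε : 0 < ε) : ∃ s0 : ℕ, ∃ δ : ℝ, 0 < δ ∧ ∃ C : ℝ, 0 < C ∧ ∃ N : ℕ,
    ∀ n : ℕ, N ≤ n → ∀ t : ℝ, 0 ≤ t → t ≤ be / n →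
    ex t (EN n) (fun A => ind (∃ S ⊆ Finset.range n, s0 ≤ S.card ∧ (S.card : ℝ) ≤ δ * n ∧
      (1 + ε) * S.card < (eIn A S : ℝ))) ≤ C / (n : ℝ) ^ 3 := by
  have hbe : (0 : ℝ) < be := by unfold be; norm_num
  have he : (0 : ℝ) < Real.exp 1 := Real.exp_pos 1
  set b : ℝ := Real.exp 1 * be / 2 with hb
  have hbpos : 0 < b := by positivity
  set C0 : ℝ := Real.exp 1 * b ^ (1 + ε) with hC0
  have hC0pos : 0 < C0 := by
    have := Real.rpow_pos_of_pos hbpos (1 + ε)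
    positivity
  -- the choice of `δ`
  obtain ⟨δ, hδ0, hδ1, hδb, hδC⟩ : ∃ δ : ℝ, 0 < δ ∧ δ ≤ 1 ∧ b * δ ≤ 1 ∧ C0 * δ ^ ε ≤ 1 / 2 := by
    refine ⟨min 1 (min (1 / b) ((1 / (2 * C0)) ^ (1 / ε))), ?_, min_le_left _ _, ?_, ?_⟩
    · refine lt_min one_pos (lt_min (by positivity) ?_)
      exact Real.rpow_pos_of_pos (by positivity) _
    · calc b * min 1 (min (1 / b) ((1 / (2 * C0)) ^ (1 / ε))) ≤ b * (1 / b) := by
            gcongr
            exact (min_le_right _ _).trans (min_le_left _ _)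
        _ = 1 := by field_simp
    · have h1 : (min 1 (min (1 / b) ((1 / (2 * C0)) ^ (1 / ε)))) ^ ε ≤ 1 / (2 * C0) := by
        calc (min 1 (min (1 / b) ((1 / (2 * C0)) ^ (1 / ε)))) ^ ε
            ≤ ((1 / (2 * C0)) ^ (1 / ε)) ^ ε := by
              refine Real.rpow_le_rpow ?_ ((min_le_right _ _).trans (min_le_right _ _)) hε.le
              refine le_min zero_le_one (le_min (by positivity) ?_)
              exact Real.rpow_nonneg (by positivity) _
          _ = 1 / (2 * C0) := by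
              rw [← Real.rpow_mul (by positivity)]
              rw [one_div_mul_cancel hε.ne', Real.rpow_one]
      calc C0 * _ ≤ C0 * (1 / (2 * C0)) := by gcongr
        _ = 1 / 2 := by field_simp
  -- the choice of `N`
  obtain ⟨N1, hN1⟩ : ∃ N1 : ℕ, ∀ n : ℕ, N1 ≤ n → C0 ≤ (n : ℝ) ^ (ε / 4) := by
    have h1 : Filter.Tendsto (fun n : ℕ => (n : ℝ) ^ (ε / 4)) Filter.atTop Filter.atTop :=
      (tendsto_rpow_atTop (by positivity)).comp tendsto_natCast_atTop_atTop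
    exact Filter.eventually_atTop.1 (h1.eventually_ge_atTop C0)
  refine ⟨max 44 ⌈16 / ε⌉₊, δ, hδ0, 1, one_pos, max N1 6, ?_⟩
  intro n hn t h0 ht
  have hn6 : 6 ≤ n := (le_max_right _ _).trans hn
  have hnN : N1 ≤ n := (le_max_left _ _).trans hn
  have h1 := sparse_t_le_one hn6 ht
  have hn1 : (1 : ℝ) ≤ n := by
    have : 1 ≤ n := by omega
    exact_mod_cast this
  have hnpos : (0 : ℝ) < n := by linarith
  set s0 : ℕ := max 44 ⌈16 / ε⌉₊ with hs0
  set I : Finset ℕ := Finset.Icc s0 ⌊δ * n⌋₊ with hI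
  -- each term
  have hterm : ∀ s ∈ I, ex t (EN n) (fun A => ind (∃ S ⊆ Finset.range n, S.card = s ∧
      (⌊(1 + ε) * s⌋₊ + 1) ≤ eIn A S)) ≤ 1 / (n : ℝ) ^ 4 := by
    intro s hs
    rw [hI, Finset.mem_Icc] at hs
    have hs44 : 44 ≤ s := (le_max_left _ _).trans hs.1
    have hs16 : 16 / ε ≤ s := by
      have h2 : ⌈16 / ε⌉₊ ≤ s := (le_max_right _ _).trans hs.1
      exact (Nat.le_ceil _).trans (by exact_mod_cast h2)
    have hspos : (0 : ℝ) < s := by
      have : 0 < s := by omega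
      exact_mod_cast this
    have hsδ : (s : ℝ) ≤ δ * n := by
      refine le_trans (by exact_mod_cast hs.2) (Nat.floor_le (by positivity))
    have hxδ : (s : ℝ) / n ≤ δ := by
      rw [div_le_iff₀ hnpos]
      exact hsδ
    have hxpos : 0 < (s : ℝ) / n := by positivity
    have hrr : (1 + ε) * s ≤ ((⌊(1 + ε) * s⌋₊ + 1 : ℕ) : ℝ) := by
      push_cast
      exact (Nat.lt_floor_add_one _).le
    refine (prob_exists_dense h0 h1 s (⌊(1 + ε) * s⌋₊ + 1)).trans ?_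
    refine (dense_bound (by omega) (by omega) (by omega) h0).trans ?_
    refine (sparse_term hε (by omega) (by omega) hrr h0 ht ?_).trans ?_
    · refine le_trans ?_ hδb
      gcongr
    rw [← hb, ← hC0]
    by_cases hc : s ^ 2 ≤ n
    · -- `s ≤ √n`
      have hc' : (s : ℝ) ^ 2 ≤ n := by exact_mod_cast hc
      have hx2 : ((s : ℝ) / n) ≤ (n : ℝ) ^ (-(1 / 2) : ℝ) := by
        have h3 : ((s : ℝ) / n) ^ 2 ≤ ((n : ℝ) ^ (-(1 / 2) : ℝ)) ^ 2 := by
          rw [← Real.rpow_natCast ((n : ℝ) ^ (-(1 / 2) : ℝ)) 2, ← Real.rpow_mul hnpos.le]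
          norm_num
          rw [Real.rpow_neg_one, div_pow, div_le_iff₀ (by positivity)]
          calc (s : ℝ) ^ 2 ≤ n := hc'
            _ = (n : ℝ)⁻¹ * (n : ℝ) ^ 2 := by field_simp
        exact (pow_le_pow_iff_left₀ hxpos.le (Real.rpow_nonneg hnpos.le _) two_ne_zero).1 h3
      have hy : C0 * ((s : ℝ) / n) ^ ε ≤ (n : ℝ) ^ (-(ε / 4)) := by
        calc C0 * ((s : ℝ) / n) ^ ε ≤ (n : ℝ) ^ (ε / 4) * ((n : ℝ) ^ (-(1 / 2) : ℝ)) ^ ε := by
              gcongr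
              exact hN1 n hnN
          _ = (n : ℝ) ^ (ε / 4 + -(1 / 2) * ε) := by
              rw [← Real.rpow_mul hnpos.le, ← Real.rpow_add hnpos]
          _ = (n : ℝ) ^ (-(ε / 4)) := by
              congr 1
              ring
      have hy0 : 0 ≤ C0 * ((s : ℝ) / n) ^ ε := by
        have := Real.rpow_nonneg hxpos.le ε
        positivity
      calc (C0 * ((s : ℝ) / n) ^ ε) ^ s ≤ ((n : ℝ) ^ (-(ε / 4))) ^ s := pow_le_pow_left₀ hy0 hy s
        _ = (n : ℝ) ^ (-(ε / 4) * s) := by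
            rw [Real.rpow_mul hnpos.le, Real.rpow_natCast]
        _ ≤ (n : ℝ) ^ (-4 : ℝ) := by
            apply Real.rpow_le_rpow_of_exponent_le hn1
            rw [div_le_iff₀ hε] at hs16
            nlinarith
        _ = 1 / (n : ℝ) ^ 4 := by
            rw [Real.rpow_neg hnpos.le, one_div]
            congr 1
            exact_mod_cast Real.rpow_natCast (n : ℝ) 4
    · -- `s > √n`
      rw [not_le] at hc
      have hy : C0 * ((s : ℝ) / n) ^ ε ≤ 1 / 2 := by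
        refine le_trans ?_ hδC
        gcongr
      have hy0 : 0 ≤ C0 * ((s : ℝ) / n) ^ ε := by
        have := Real.rpow_nonneg hxpos.le ε
        positivity
      have h4 : n ^ 4 ≤ 2 ^ s := by
        calc n ^ 4 ≤ (s ^ 2) ^ 4 := Nat.pow_le_pow_left hc.le 4
          _ = s ^ 8 := by ring
          _ ≤ 2 ^ s := pow8_le hs44
      have h4' : (n : ℝ) ^ 4 ≤ 2 ^ s := by exact_mod_cast h4
      calc (C0 * ((s : ℝ) / n) ^ ε) ^ s ≤ (1 / 2 : ℝ) ^ s := pow_le_pow_left₀ hy0 hy s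
        _ = 1 / 2 ^ s := by rw [div_pow, one_pow]
        _ ≤ 1 / (n : ℝ) ^ 4 := one_div_le_one_div_of_le (by positivity) h4'
  -- the union bound
  have hA : ex t (EN n) (fun A => ind (∃ S ⊆ Finset.range n, s0 ≤ S.card ∧
      (S.card : ℝ) ≤ δ * n ∧ (1 + ε) * S.card < (eIn A S : ℝ))) ≤
      ex t (EN n) (fun A => ind (∃ s ∈ I, ∃ S ⊆ Finset.range n, S.card = s ∧
        (⌊(1 + ε) * s⌋₊ + 1) ≤ eIn A S)) := by
    refine ex_mono h0 h1 (fun A _ => ind_mono ?_)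
    rintro ⟨S, hS, h2, h3, h4⟩
    refine ⟨S.card, ?_, S, hS, rfl, ?_⟩
    · rw [hI, Finset.mem_Icc]
      exact ⟨h2, Nat.le_floor h3⟩
    · have h5 : ⌊(1 + ε) * (S.card : ℝ)⌋₊ < eIn A S := by
        rw [Nat.floor_lt (by positivity)]
        exact h4
      exact h5
  refine hA.trans ((ex_exists_le h0 h1 (EN n) I (fun s A => ∃ S ⊆ Finset.range n, S.card = s ∧
        (⌊(1 + ε) * s⌋₊ + 1) ≤ eIn A S)).trans ?_)
  refine (Finset.sum_le_sum hterm).trans ?_
  rw [Finset.sum_const, nsmul_eq_mul]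
  have hcard : (I.card : ℝ) ≤ n := by
    have h2 : I.card ≤ ⌊δ * n⌋₊ := by
      rw [hI, Nat.card_Icc]
      have : 44 ≤ s0 := le_max_left _ _
      omega
    calc (I.card : ℝ) ≤ (⌊δ * n⌋₊ : ℝ) := by exact_mod_cast h2
      _ ≤ δ * n := Nat.floor_le (by positivity)
      _ ≤ 1 * n := by gcongr
      _ = n := one_mul _
  calc (I.card : ℝ) * (1 / (n : ℝ) ^ 4) ≤ n * (1 / (n : ℝ) ^ 4) := by gcongr
    _ = 1 / (n : ℝ) ^ 3 := by field_simp

theorem edges_tail : ∃ N : ℕ, ∀ n : ℕ, N ≤ n → ∀ t : ℝ, 0 ≤ t → t ≤ be / n →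
    ex t (EN n) (fun A => (A.card : ℝ) * ind (30 * n < A.card)) ≤ 1 / (n : ℝ) := by
  refine ⟨6, fun n hn t h0 ht => ?_⟩
  have h1 := sparse_t_le_one hn ht
  have hnpos : (0 : ℝ) < n := by
    have : 0 < n := by omega
    exact_mod_cast this
  have hA : ex t (EN n) (fun A => (A.card : ℝ) * ind (30 * n < A.card)) ≤
      ex t (EN n) (fun A => (1 / 2 ^ (30 * n)) * (4 : ℝ) ^ A.card) := by
    refine ex_mono h0 h1 (fun A _ => ?_)
    by_cases hc : 30 * n < A.card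
    · rw [ind_of hc, mul_one]
      have h2 : (A.card : ℝ) ≤ 2 ^ A.card := by
        exact_mod_cast (Nat.lt_two_pow_self (n := A.card)).le
      have h3 : (2 : ℝ) ^ (30 * n) ≤ 2 ^ A.card := pow_le_pow_right₀ (by norm_num) hc.le
      have h4 : (4 : ℝ) ^ A.card = 2 ^ A.card * 2 ^ A.card := by
        rw [← mul_pow]
        norm_num
      rw [h4, one_div, ← div_eq_inv_mul, le_div_iff₀ (by positivity)]
      gcongr
    · rw [ind_of_not hc, mul_zero]
      positivity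
  refine hA.trans ?_
  rw [ex_mul_left, ex_pow_card, card_EN]
  have h5 : (1 - t + t * 4) ^ (n.choose 2) ≤ (2 : ℝ) ^ (12 * n) := by
    have h6 : 1 - t + t * 4 ≤ Real.exp (3 * t) := by
      have := Real.add_one_le_exp (3 * t)
      linarith
    have h7 : (n.choose 2 : ℝ) ≤ (n : ℝ) ^ 2 / 2 := by
      rw [Nat.cast_choose_two]
      nlinarith
    calc (1 - t + t * 4) ^ (n.choose 2) ≤ (Real.exp (3 * t)) ^ (n.choose 2) :=
          pow_le_pow_left₀ (by linarith) h6 _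
      _ = Real.exp ((n.choose 2 : ℝ) * (3 * t)) := by rw [← Real.exp_nat_mul]
      _ ≤ Real.exp ((n : ℝ) * 8) := by
          apply Real.exp_le_exp.2
          calc (n.choose 2 : ℝ) * (3 * t) ≤ ((n : ℝ) ^ 2 / 2) * (3 * (be / n)) := by gcongr
            _ = n * (3 * be / 2) := by field_simp
            _ ≤ n * 8 := by
                gcongr
                unfold be
                norm_num
      _ = (Real.exp 8) ^ n := by rw [← Real.exp_nat_mul]
      _ ≤ ((2 : ℝ) ^ 12) ^ n := by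
          apply pow_le_pow_left₀ (Real.exp_pos 8).le
          have h8 : Real.exp 8 = (Real.exp 1) ^ 8 := by
            rw [← Real.exp_nat_mul]
            norm_num
          rw [h8]
          have h9 := Real.exp_one_lt_d9
          calc (Real.exp 1) ^ 8 ≤ (2.7182818286 : ℝ) ^ 8 :=
                pow_le_pow_left₀ (Real.exp_pos 1).le h9.le 8
            _ ≤ 2 ^ 12 := by norm_num
      _ = 2 ^ (12 * n) := by rw [← pow_mul]
  calc 1 / 2 ^ (30 * n) * (1 - t + t * 4) ^ (n.choose 2) ≤ 1 / 2 ^ (30 * n) * (2 : ℝ) ^ (12 * n) := by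
        gcongr
    _ = 1 / (2 : ℝ) ^ (18 * n) := by
        have h10 : 30 * n = 18 * n + 12 * n := by ring
        rw [h10, pow_add]
        field_simp
    _ ≤ 1 / (n : ℝ) := by
        apply one_div_le_one_div_of_le hnpos
        have h11 : n ≤ 2 ^ (18 * n) := by
          calc n ≤ 2 ^ n := (Nat.lt_two_pow_self).le
            _ ≤ 2 ^ (18 * n) := Nat.pow_le_pow_right (by norm_num) (by omega)
        exact_mod_cast h11

end Pool.Agent.LC3
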