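import Pool.Agent.LC3.Split
import Pool.Agent.LC3.NetBasic

/-!
# LC3.Trans : translation to the random graph process of the frozen statement

`nuX n` is the probability that in a uniformly random ordering of the edges of `K_n` the last
3-colourable stage is not 3-choosable: the number of orderings whose first `|A|` edges form `A` and whose
next edge is `e` is `|A|! (N-|A|-1)!`, and `∫_0^1 t^a (1-t)^b dt = a! b! / (a+b+1)!`.
-/

set_option autoImplicit false

open Classical

namespace Pool.Agent.LC3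

/-- the Beta integral for natural numbers -/
theorem beta_nat (a b : ℕ) :
    (∫ t in (0 : ℝ)..1, t ^ a * (1 - t) ^ b) * ((a + b + 1).factorial : ℝ) =
      (a.factorial : ℝ) * (b.factorial : ℝ) := by
  induction b generalizing a with
  | zero =>
    simp only [pow_zero, mul_one, add_zero, Nat.factorial_zero, Nat.cast_one]
    rw [integral_pow, Nat.factorial_succ]
    push_cast
    have : (a : ℝ) + 1 ≠ 0 := by positivity
    field_simp
    simp
  | succ b ih =>
    have h1 : ((a : ℝ) + 1) * (∫ t in (0 : ℝ)..1, t ^ a * (1 - t) ^ (b + 1)) =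
        ((b : ℝ) + 1) * ∫ t in (0 : ℝ)..1, t ^ (a + 1) * (1 - t) ^ b := by
      have h2 : ∫ t in (0 : ℝ)..1, (((a : ℝ) + 1) * (t ^ a * (1 - t) ^ (b + 1)) -
          ((b : ℝ) + 1) * (t ^ (a + 1) * (1 - t) ^ b)) =
          (1 : ℝ) ^ (a + 1) * (1 - 1) ^ (b + 1) - (0 : ℝ) ^ (a + 1) * (1 - 0) ^ (b + 1) := by
        apply intervalIntegral.integral_eq_sub_of_hasDerivAt
          (f := fun t : ℝ => t ^ (a + 1) * (1 - t) ^ (b + 1))
        · intro t _
          have e1 : HasDerivAt (fun t : ℝ => t ^ (a + 1)) (((a + 1 : ℕ) : ℝ) * t ^ a) t := by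
            simpa using hasDerivAt_pow (a + 1) t
          have e2 : HasDerivAt (fun t : ℝ => (1 - t) ^ (b + 1))
              (((b + 1 : ℕ) : ℝ) * (1 - t) ^ b * (-1)) t := by
            have e4 : HasDerivAt (fun t : ℝ => 1 - t) (-1) t := by
              simpa using (hasDerivAt_id t).const_sub (1 : ℝ)
            exact (e4.fun_pow (b + 1)).congr_deriv (by simp)
          have e3 := e1.mul e2
          refine e3.congr_deriv ?_
          push_cast
          ring
        · apply Continuous.intervalIntegrable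
          fun_prop
      rw [intervalIntegral.integral_sub, intervalIntegral.integral_const_mul,
        intervalIntegral.integral_const_mul] at h2
      · have h3 : (1 : ℝ) ^ (a + 1) * (1 - 1) ^ (b + 1) - (0 : ℝ) ^ (a + 1) * (1 - 0) ^ (b + 1) = 0 := by
          simp
        linarith
      · apply Continuous.intervalIntegrable
        fun_prop
      · apply Continuous.intervalIntegrable
        fun_prop
    have h4 := ih (a + 1)
    have h5 : a + 1 + b + 1 = a + (b + 1) + 1 := by ring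
    rw [h5] at h4
    have h6 : ((a + 1).factorial : ℝ) = ((a : ℝ) + 1) * (a.factorial : ℝ) := by
      rw [Nat.factorial_succ]; push_cast; ring
    have h7 : ((b + 1).factorial : ℝ) = ((b : ℝ) + 1) * (b.factorial : ℝ) := by
      rw [Nat.factorial_succ]; push_cast; ring
    have ha : (a : ℝ) + 1 ≠ 0 := by positivity
    rw [h7]
    have h8 : ((a : ℝ) + 1) * ((∫ t in (0 : ℝ)..1, t ^ a * (1 - t) ^ (b + 1)) *
        ((a + (b + 1) + 1).factorial : ℝ)) =
        ((a : ℝ) + 1) * ((a.factorial : ℝ) * (((b : ℝ) + 1) * (b.factorial : ℝ))) := by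
      rw [← mul_assoc, h1, mul_assoc, h4, h6]
      ring
    exact mul_left_cancel₀ ha h8

/-- number of bijections with prescribed colour pattern -/
theorem count_equiv {N : ℕ} {E : Type} [Fintype E]
    (f : Fin N → Fin 3) (g : E → Fin 3)
    (h : ∀ c, Fintype.card {x // f x = c} = Fintype.card {y // g y = c})
    [Fintype {σ : Fin N ≃ E // g ∘ σ = f}] :
    Fintype.card {σ : Fin N ≃ E // g ∘ σ = f} =
      ∏ c : Fin 3, (Fintype.card {x // f x = c}).factorial := by
  let σ0 : Fin N ≃ E := Equiv.ofFiberEquiv (f := f) (g := g)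
    (fun c => Fintype.equivOfCardEq (h c))
  have h0 : g ∘ σ0 = f := funext fun i => Equiv.ofFiberEquiv_map _ i
  rw [← DomMulAct.stabilizer_card f]
  refine Fintype.card_congr ((Equiv.equivCongr (Equiv.refl (Fin N)) σ0.symm).subtypeEquiv ?_)
  intro σ
  constructor
  · intro hσ
    funext i
    have e1 : g (σ0 (σ0.symm (σ i))) = f (σ0.symm (σ i)) := congrFun h0 _
    rw [Equiv.apply_symm_apply] at e1
    have e2 : g (σ i) = f i := congrFun hσ i
    change f (σ0.symm (σ i)) = f i
    rw [← e1, e2]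
  · intro hσ
    funext i
    have e1 : g (σ0 (σ0.symm (σ i))) = f (σ0.symm (σ i)) := congrFun h0 _
    rw [Equiv.apply_symm_apply] at e1
    have e2 : f (σ0.symm (σ i)) = f i := congrFun hσ i
    change g (σ i) = f i
    rw [e1, e2]

/-- the pattern of the index: first `a` positions, position `a`, the rest -/
def fpat (N a : ℕ) (i : Fin N) : Fin 3 := if (i : ℕ) < a then 0 else if (i : ℕ) = a then 1 else 2

theorem fpat_zero {N a : ℕ} {i : Fin N} : fpat N a i = 0 ↔ (i : ℕ) < a := by
  unfold fpat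
  split_ifs <;> simp_all

theorem fpat_one {N a : ℕ} {i : Fin N} : fpat N a i = 1 ↔ (i : ℕ) = a := by
  unfold fpat
  split_ifs with h1 h2
  · simp; omega
  · simp [h2]
  · simp [h2]

theorem fpat_two {N a : ℕ} {i : Fin N} : fpat N a i = 2 ↔ a < (i : ℕ) := by
  unfold fpat
  split_ifs with h1 h2
  · simp; omega
  · simp; omega
  · simp; omega

theorem card_fpat_zero {N a : ℕ} (h : a < N) : Fintype.card {i : Fin N // fpat N a i = 0} = a := by
  rw [Fintype.card_subtype]
  have : (Finset.univ.filter (fun i : Fin N => fpat N a i = 0)) = Finset.Iio (⟨a, h⟩ : Fin N) := by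
    ext i
    rw [Finset.mem_filter, fpat_zero, Finset.mem_Iio, Fin.lt_def]
    simp
  rw [this, Fin.card_Iio]

theorem card_fpat_one {N a : ℕ} (h : a < N) : Fintype.card {i : Fin N // fpat N a i = 1} = 1 := by
  rw [Fintype.card_subtype, Finset.card_eq_one]
  refine ⟨⟨a, h⟩, ?_⟩
  ext i
  rw [Finset.mem_filter, fpat_one, Finset.mem_singleton, Fin.ext_iff]
  simp

theorem card_fpat_two {N a : ℕ} (h : a < N) :
    Fintype.card {i : Fin N // fpat N a i = 2} = N - 1 - a := by
  rw [Fintype.card_subtype]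
  have : (Finset.univ.filter (fun i : Fin N => fpat N a i = 2)) = Finset.Ioi (⟨a, h⟩ : Fin N) := by
    ext i
    rw [Finset.mem_filter, fpat_two, Finset.mem_Ioi, Fin.lt_def]
    simp
  rw [this, Fin.card_Ioi]

/-- the edge `x` of the complete graph on `Fin n` as an element of `EN n` -/
noncomputable def phi (n : ℕ) (x : (⊤ : SimpleGraph (Fin n)).edgeSet) : Sym2 ℕ := Sym2.map Fin.val x.val

theorem phi_inj (n : ℕ) : Function.Injective (phi n) := by
  intro x y h
  exact Subtype.ext (Sym2.map.injective Fin.val_injective h)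

theorem phi_mem {n : ℕ} (x : (⊤ : SimpleGraph (Fin n)).edgeSet) : phi n x ∈ EN n := by
  obtain ⟨x, hx⟩ := x
  induction x using Sym2.ind with
  | _ a b =>
    have h : a ≠ b := by simpa using hx
    unfold phi
    rw [Sym2.map_mk, mem_EN]
    exact ⟨a.2, b.2, fun h' => h (Fin.ext h')⟩

theorem phi_surj {n : ℕ} {e : Sym2 ℕ} (he : e ∈ EN n) : ∃ x, phi n x = e := by
  induction e using Sym2.ind with
  | _ a b =>
    rw [mem_EN] at he
    refine ⟨⟨s(⟨a, he.1⟩, ⟨b, he.2.1⟩), ?_⟩, ?_⟩
    · simp only [SimpleGraph.mem_edgeSet, SimpleGraph.top_adj, ne_eq, Fin.mk.injEq]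
      exact he.2.2
    · unfold phi
      rw [Sym2.map_mk]

theorem card_phi {n : ℕ} {B : Finset (Sym2 ℕ)} (hB : B ⊆ EN n) :
    Fintype.card {x // phi n x ∈ B} = B.card := by
  rw [Fintype.card_subtype]
  have h : (Finset.univ.filter (fun x => phi n x ∈ B)).image (phi n) = B := by
    ext e
    rw [Finset.mem_image]
    constructor
    · rintro ⟨x, hx, rfl⟩
      exact (Finset.mem_filter.1 hx).2
    · intro he
      obtain ⟨x, rfl⟩ := phi_surj (hB he)
      exact ⟨x, Finset.mem_filter.2 ⟨Finset.mem_univ _, he⟩, rfl⟩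
  rw [← Finset.card_image_of_injective _ (phi_inj n), h]

theorem card_edgeSet (n : ℕ) :
    Nat.card (⊤ : SimpleGraph (Fin n)).edgeSet = (EN n).card := by
  rw [Nat.card_eq_fintype_card, ← card_phi (n := n) (Finset.Subset.refl _)]
  refine Fintype.card_congr (Equiv.subtypeUnivEquiv ?_).symm
  exact fun x => phi_mem x

/-- the pattern of an edge: in `A`, equal to `e`, or later -/
noncomputable def gpat (n : ℕ) (e : Sym2 ℕ) (A : Finset (Sym2 ℕ)) (x : (⊤ : SimpleGraph (Fin n)).edgeSet) : Fin 3 :=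
  if phi n x ∈ A then 0 else if phi n x = e then 1 else 2

theorem gpat_zero {n : ℕ} {e : Sym2 ℕ} {A : Finset (Sym2 ℕ)} {x : (⊤ : SimpleGraph (Fin n)).edgeSet} :
    gpat n e A x = 0 ↔ phi n x ∈ A := by
  unfold gpat
  split_ifs <;> simp_all

theorem gpat_one {n : ℕ} {e : Sym2 ℕ} {A : Finset (Sym2 ℕ)} (he : e ∉ A)
    {x : (⊤ : SimpleGraph (Fin n)).edgeSet} : gpat n e A x = 1 ↔ phi n x = e := by
  unfold gpat
  split_ifs with h1 h2
  · simp
    rintro rfl
    exact he h1
  · simp [h2]
  · simp [h2]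

theorem gpat_two {n : ℕ} {e : Sym2 ℕ} {A : Finset (Sym2 ℕ)}
    {x : (⊤ : SimpleGraph (Fin n)).edgeSet} : gpat n e A x = 2 ↔ phi n x ∈ EN n \ insert e A := by
  have h0 := phi_mem x
  rw [Finset.mem_sdiff, Finset.mem_insert]
  unfold gpat
  split_ifs with h1 h2
  · simp [h1]
  · simp [h2]
  · simp [h1, h2, h0]

theorem card_gpat {n : ℕ} {e : Sym2 ℕ} {A : Finset (Sym2 ℕ)} (hA : A ⊆ EN n) (he : e ∈ EN n)
    (heA : e ∉ A) (c : Fin 3) :
    Fintype.card {i : Fin (Nat.card (⊤ : SimpleGraph (Fin n)).edgeSet) //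
        fpat (Nat.card (⊤ : SimpleGraph (Fin n)).edgeSet) A.card i = c} =
      Fintype.card {y // gpat n e A y = c} := by
  have hlt : A.card < Nat.card (⊤ : SimpleGraph (Fin n)).edgeSet := by
    rw [card_edgeSet]
    exact Finset.card_lt_card ⟨hA, fun h => heA (h he)⟩
  have h3 : ∀ c : Fin 3, c = 0 ∨ c = 1 ∨ c = 2 := by decide
  rcases h3 c with rfl | rfl | rfl
  · rw [card_fpat_zero hlt, Fintype.card_congr (Equiv.subtypeEquivRight fun x => gpat_zero),
      card_phi hA]
  · rw [card_fpat_one hlt, Fintype.card_congr (Equiv.subtypeEquivRight fun x => (gpat_one heA).trans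
      (Finset.mem_singleton (a := e)).symm), card_phi (Finset.singleton_subset_iff.2 he),
      Finset.card_singleton]
  · rw [card_fpat_two hlt, Fintype.card_congr (Equiv.subtypeEquivRight fun x => gpat_two),
      card_phi Finset.sdiff_subset, Finset.card_sdiff_of_subset (Finset.insert_subset he hA),
      Finset.card_insert_of_notMem heA, card_edgeSet]
    omega

theorem count_pair {n : ℕ} {e : Sym2 ℕ} {A : Finset (Sym2 ℕ)} (hA : A ⊆ EN n) (he : e ∈ EN n)
    (heA : e ∉ A) :
    Fintype.card {σ : Fin (Nat.card (⊤ : SimpleGraph (Fin n)).edgeSet) ≃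
        (⊤ : SimpleGraph (Fin n)).edgeSet //
      gpat n e A ∘ σ = fpat (Nat.card (⊤ : SimpleGraph (Fin n)).edgeSet) A.card} =
      A.card.factorial * ((EN n).card - 1 - A.card).factorial := by
  have hlt : A.card < Nat.card (⊤ : SimpleGraph (Fin n)).edgeSet := by
    rw [card_edgeSet]
    exact Finset.card_lt_card ⟨hA, fun h => heA (h he)⟩
  rw [count_equiv _ _ (card_gpat hA he heA), Fin.prod_univ_three, card_fpat_zero hlt, card_fpat_one hlt, card_fpat_two hlt, card_edgeSet]
  simp

/-- the pairs (last colourable stage, next edge) with a stage which is not 3-choosable -/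
noncomputable def Iset (n : ℕ) : Finset (Sym2 ℕ × Finset (Sym2 ℕ)) :=
  ((EN n) ×ˢ (EN n).powerset).filter (fun p => p.1 ∉ p.2 ∧ Bd p.2 ∧ ¬ Col (insert p.1 p.2))

theorem nuX_eq_sum (n : ℕ) :
    nuX n * ((EN n).card.factorial : ℝ) =
      ∑ p ∈ Iset n, ((p.2.card.factorial * ((EN n).card - 1 - p.2.card).factorial : ℕ) : ℝ) := by
  have h1 : nuX n = ∑ e ∈ EN n, ∑ A ∈ ((EN n).erase e).powerset,
      (∫ t in (0 : ℝ)..1, t ^ A.card * (1 - t) ^ ((EN n).card - 1 - A.card)) *
        ind (Bd A ∧ ¬ Col (insert e A)) := by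
    unfold nuX
    rw [intervalIntegral.integral_finsetSum]
    · refine Finset.sum_congr rfl fun e he => ?_
      unfold ex
      rw [intervalIntegral.integral_finsetSum]
      · refine Finset.sum_congr rfl fun A _ => ?_
        rw [intervalIntegral.integral_mul_const, Finset.card_erase_of_mem he]
      · intro A _
        apply Continuous.intervalIntegrable
        fun_prop
    · intro e _
      apply Continuous.intervalIntegrable
      unfold ex
      fun_prop
  rw [h1, Finset.sum_mul]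
  unfold Iset
  rw [Finset.sum_filter, Finset.sum_product]
  refine Finset.sum_congr rfl fun e he => ?_
  have h2 : ((EN n).erase e).powerset = (EN n).powerset.filter (fun A => e ∉ A) := by
    ext A
    rw [Finset.mem_filter, Finset.mem_powerset, Finset.mem_powerset, Finset.subset_erase]
  rw [h2, Finset.sum_filter, Finset.sum_mul]
  refine Finset.sum_congr rfl fun A hA => ?_
  rw [Finset.mem_powerset] at hA
  by_cases h3 : e ∉ A
  · rw [if_pos h3]
    by_cases h4 : Bd A ∧ ¬ Col (insert e A)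
    · rw [if_pos ⟨h3, h4⟩]
      have h5 : ind (Bd A ∧ ¬ Col (insert e A)) = 1 := if_pos h4
      rw [h5, mul_one]
      have hlt : A.card < (EN n).card := Finset.card_lt_card ⟨hA, fun h => h3 (h he)⟩
      have h6 := beta_nat A.card ((EN n).card - 1 - A.card)
      have h7 : A.card + ((EN n).card - 1 - A.card) + 1 = (EN n).card := by omega
      rw [h7] at h6
      rw [h6]
      push_cast
      ring
    · rw [if_neg (fun h => h4 h.2)]
      have h5 : ind (Bd A ∧ ¬ Col (insert e A)) = 0 := if_neg h4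
      rw [h5]
      ring
  · rw [if_neg h3, if_neg (fun h => h3 h.1)]
    ring

/-- the ordering `σ` is good for `k`: every `k`-colourable stage is `k`-choosable -/
def GoodOrd (n k : ℕ) (σ : Fin (Nat.card (⊤ : SimpleGraph (Fin n)).edgeSet) ≃
    (⊤ : SimpleGraph (Fin n)).edgeSet) : Prop :=
  ∀ m : ℕ, ∀ G : SimpleGraph (Fin n),
    G = SimpleGraph.fromEdgeSet
        {e : Sym2 (Fin n) |
          ∃ i : Fin (Nat.card (⊤ : SimpleGraph (Fin n)).edgeSet),
            (i : ℕ) < m ∧ (σ i).val = e} →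
    G.Colorable k →
    ∀ L : Fin n → Finset ℕ, (∀ v, (L v).card = k) →
      ∃ f : Fin n → ℕ, (∀ v, f v ∈ L v) ∧ ∀ u v, G.Adj u v → f u ≠ f v

theorem mem_stage {n : ℕ} {e : Sym2 ℕ} {A : Finset (Sym2 ℕ)}
    {σ : Fin (Nat.card (⊤ : SimpleGraph (Fin n)).edgeSet) ≃ (⊤ : SimpleGraph (Fin n)).edgeSet}
    (h : gpat n e A ∘ σ = fpat (Nat.card (⊤ : SimpleGraph (Fin n)).edgeSet) A.card)
    (i : Fin (Nat.card (⊤ : SimpleGraph (Fin n)).edgeSet)) :
    (i : ℕ) < A.card ↔ phi n (σ i) ∈ A := by
  rw [← fpat_zero, ← h, Function.comp_apply, gpat_zero]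

theorem bad_of_pair {n : ℕ} {e : Sym2 ℕ} {A : Finset (Sym2 ℕ)} (hA : A ⊆ EN n)
    (hB : Bd A)
    {σ : Fin (Nat.card (⊤ : SimpleGraph (Fin n)).edgeSet) ≃ (⊤ : SimpleGraph (Fin n)).edgeSet}
    (h : gpat n e A ∘ σ = fpat (Nat.card (⊤ : SimpleGraph (Fin n)).edgeSet) A.card) :
    ¬ GoodOrd n 3 σ := by
  intro hg
  obtain ⟨⟨τ, hτ⟩, hC⟩ := hB
  apply hC
  intro L hL
  have h1 := hg A.card _ rfl ?_ (fun v => L v) (fun v => hL v)
  · obtain ⟨f, hf1, hf2⟩ := h1
    have hne : ∀ v : ℕ, ∃ x, x ∈ L v := fun v => by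
      have : (L v).Nonempty := by
        rw [← Finset.card_pos, hL v]
        norm_num
      exact this
    choose x hx using hne
    refine ⟨fun v => if hv : v < n then f ⟨v, hv⟩ else x v, ?_, ?_⟩
    · intro v
      by_cases hv : v < n
      · simp only [dif_pos hv]
        exact hf1 ⟨v, hv⟩
      · simp only [dif_neg hv]
        exact hx v
    · intro a b hab
      have hab2 := hA hab
      rw [mem_EN] at hab2
      obtain ⟨ha, hb, hne⟩ := hab2
      simp only [dif_pos ha, dif_pos hb]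
      apply hf2
      rw [SimpleGraph.fromEdgeSet_adj]
      refine ⟨?_, fun h' => hne (congrArg Fin.val h')⟩
      obtain ⟨y, hy⟩ := phi_surj (hA hab)
      refine ⟨σ.symm y, ?_, ?_⟩
      · rw [mem_stage h, Equiv.apply_symm_apply, hy]
        exact hab
      · rw [Equiv.apply_symm_apply]
        apply Sym2.map.injective Fin.val_injective
        unfold phi at hy
        rw [hy, Sym2.map_mk]
  · refine ⟨SimpleGraph.Coloring.mk (fun v : Fin n => τ v) ?_⟩
    intro u v huv
    rw [SimpleGraph.fromEdgeSet_adj] at huv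
    obtain ⟨⟨i, hi1, hi2⟩, _⟩ := huv
    rw [mem_stage h] at hi1
    apply hτ
    unfold phi at hi1
    rw [hi2, Sym2.map_mk] at hi1
    exact hi1

/-- an ordering determines the pair -/
theorem pair_unique {n : ℕ} {e e' : Sym2 ℕ} {A A' : Finset (Sym2 ℕ)} (hA : A ⊆ EN n)
    (hA' : A' ⊆ EN n) (he : e ∈ EN n) (he' : e' ∈ EN n) (heA : e ∉ A) (heA' : e' ∉ A')
    (hB : Bd A) (hB' : Bd A') (hC : ¬ Col (insert e A)) (hC' : ¬ Col (insert e' A'))
    {σ : Fin (Nat.card (⊤ : SimpleGraph (Fin n)).edgeSet) ≃ (⊤ : SimpleGraph (Fin n)).edgeSet}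
    (h : gpat n e A ∘ σ = fpat (Nat.card (⊤ : SimpleGraph (Fin n)).edgeSet) A.card)
    (h' : gpat n e' A' ∘ σ = fpat (Nat.card (⊤ : SimpleGraph (Fin n)).edgeSet) A'.card) :
    (e, A) = (e', A') := by
  have key : ∀ (e₁ e₂ : Sym2 ℕ) (A₁ A₂ : Finset (Sym2 ℕ)), A₁ ⊆ EN n → e₁ ∈ EN n → e₁ ∉ A₁ →
      gpat n e₁ A₁ ∘ σ = fpat (Nat.card (⊤ : SimpleGraph (Fin n)).edgeSet) A₁.card →
      gpat n e₂ A₂ ∘ σ = fpat (Nat.card (⊤ : SimpleGraph (Fin n)).edgeSet) A₂.card →
      Bd A₂ → ¬ Col (insert e₁ A₁) → ¬ A₁.card < A₂.card := by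
    intro e₁ e₂ A₁ A₂ g1 g2 g3 g4 g5 g6 g7 g8
    apply g7
    refine Col.mono ?_ g6.1
    intro x hx
    have hxE : x ∈ EN n := by
      rcases Finset.mem_insert.1 hx with rfl | hx
      · exact g2
      · exact g1 hx
    obtain ⟨y, rfl⟩ := phi_surj hxE
    have g9 := mem_stage g5 (σ.symm y)
    rw [Equiv.apply_symm_apply] at g9
    rw [← g9]
    rcases Finset.mem_insert.1 hx with hx | hx
    · have g10 : fpat (Nat.card (⊤ : SimpleGraph (Fin n)).edgeSet) A₁.card (σ.symm y) = 1 := by
        rw [← g4, Function.comp_apply, Equiv.apply_symm_apply, gpat_one g3]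
        exact hx
      rw [fpat_one] at g10
      omega
    · have g10 := mem_stage g4 (σ.symm y)
      rw [Equiv.apply_symm_apply] at g10
      have := g10.2 hx
      omega
  have k1 := key e e' A A' hA he heA h h' hB' hC
  have k2 := key e' e A' A hA' he' heA' h' h hB hC'
  have hcard : A.card = A'.card := by omega
  have hAA : A = A' := by
    ext x
    by_cases hx : x ∈ EN n
    · obtain ⟨y, rfl⟩ := phi_surj hx
      have m1 := mem_stage h (σ.symm y)
      have m2 := mem_stage h' (σ.symm y)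
      rw [Equiv.apply_symm_apply] at m1 m2
      rw [← m1, ← m2, hcard]
    · exact ⟨fun h1 => absurd (hA h1) hx, fun h1 => absurd (hA' h1) hx⟩
  subst hAA
  obtain ⟨y, rfl⟩ := phi_surj he
  have m1 : fpat (Nat.card (⊤ : SimpleGraph (Fin n)).edgeSet) A.card (σ.symm y) = 1 := by
    rw [← h, Function.comp_apply, Equiv.apply_symm_apply, gpat_one heA]
  have m2 : gpat n e' A y = 1 := by
    rw [← m1, ← h', Function.comp_apply, Equiv.apply_symm_apply]
  rw [gpat_one heA'] at m2
  rw [m2]

theorem bad_count (n : ℕ) :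
    nuX n * ((EN n).card.factorial : ℝ) ≤
      (Fintype.card {σ : Fin (Nat.card (⊤ : SimpleGraph (Fin n)).edgeSet) ≃
        (⊤ : SimpleGraph (Fin n)).edgeSet // ¬ GoodOrd n 3 σ} : ℝ) := by
  rw [nuX_eq_sum, ← Nat.cast_sum]
  norm_cast
  rw [Fintype.card_subtype]
  have h1 : ∑ p ∈ Iset n, p.2.card.factorial * ((EN n).card - 1 - p.2.card).factorial =
      ((Iset n).biUnion (fun p => Finset.univ.filter
        (fun σ : Fin (Nat.card (⊤ : SimpleGraph (Fin n)).edgeSet) ≃
          (⊤ : SimpleGraph (Fin n)).edgeSet => gpat n p.1 p.2 ∘ σ =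
            fpat (Nat.card (⊤ : SimpleGraph (Fin n)).edgeSet) p.2.card))).card := by
    rw [Finset.card_biUnion]
    · refine Finset.sum_congr rfl fun p hp => ?_
      unfold Iset at hp
      rw [Finset.mem_filter, Finset.mem_product, Finset.mem_powerset] at hp
      obtain ⟨⟨g1, g2⟩, g3, g4, g5⟩ := hp
      rw [← count_pair g2 g1 g3, Fintype.card_subtype]
    · intro p hp p' hp' hne
      unfold Iset at hp hp'
      rw [Finset.mem_coe, Finset.mem_filter, Finset.mem_product, Finset.mem_powerset] at hp hp'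
      obtain ⟨⟨g1, g2⟩, g3, g4, g5⟩ := hp
      obtain ⟨⟨g1', g2'⟩, g3', g4', g5'⟩ := hp'
      rw [Function.onFun, Finset.disjoint_left]
      intro σ hσ hσ'
      rw [Finset.mem_filter] at hσ hσ'
      exact hne (pair_unique g2 g2' g1 g1' g3 g3' g4 g4' g5 g5' hσ.2 hσ'.2)
  rw [h1]
  apply Finset.card_le_card
  intro σ hσ
  rw [Finset.mem_biUnion] at hσ
  obtain ⟨p, hp, hσ⟩ := hσ
  unfold Iset at hp
  rw [Finset.mem_filter, Finset.mem_product, Finset.mem_powerset] at hp
  obtain ⟨⟨g1, g2⟩, g3, g4, g5⟩ := hp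
  rw [Finset.mem_filter] at hσ ⊢
  exact ⟨Finset.mem_univ _, bad_of_pair g2 g4 hσ.2⟩

/-- the fraction of good orderings is at most `1 - nuX n` -/
theorem good_frac_le (n : ℕ) :
    (Nat.card {σ : Fin (Nat.card (⊤ : SimpleGraph (Fin n)).edgeSet) ≃
        (⊤ : SimpleGraph (Fin n)).edgeSet // GoodOrd n 3 σ} : ℝ) /
      (Nat.card (Fin (Nat.card (⊤ : SimpleGraph (Fin n)).edgeSet) ≃
        (⊤ : SimpleGraph (Fin n)).edgeSet) : ℝ) ≤ 1 - nuX n := by
  have hN : Nat.card (Fin (Nat.card (⊤ : SimpleGraph (Fin n)).edgeSet) ≃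
        (⊤ : SimpleGraph (Fin n)).edgeSet) = (EN n).card.factorial := by
    rw [Nat.card_eq_fintype_card]
    have e0 : Fin (Nat.card (⊤ : SimpleGraph (Fin n)).edgeSet) ≃ (⊤ : SimpleGraph (Fin n)).edgeSet :=
      (Finite.equivFin _).symm
    rw [Fintype.card_equiv e0, Fintype.card_fin, card_edgeSet]
  have hpos : (0 : ℝ) < ((EN n).card.factorial : ℝ) := by positivity
  rw [hN, div_le_iff₀ hpos]
  have h1 := bad_count n
  have h2 := Fintype.card_subtype_compl (fun σ : Fin (Nat.card (⊤ : SimpleGraph (Fin n)).edgeSet) ≃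
        (⊤ : SimpleGraph (Fin n)).edgeSet => GoodOrd n 3 σ)
  have h3 := Fintype.card_subtype_le (fun σ : Fin (Nat.card (⊤ : SimpleGraph (Fin n)).edgeSet) ≃
        (⊤ : SimpleGraph (Fin n)).edgeSet => GoodOrd n 3 σ)
  rw [Nat.card_eq_fintype_card] at hN
  rw [h2, Nat.cast_sub h3, hN] at h1
  rw [Nat.card_eq_fintype_card]
  linarith

/-- the statement of the negation of the problem (S19416) -/
theorem frozen_of_nuX {c : ℝ} (hc : 0 < c) (h : ∀ N : ℕ, ∃ n : ℕ, N ≤ n ∧ c ≤ nuX n) :
    ¬ (∀ k : ℕ, 3 ≤ k →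
      Filter.Tendsto
        (fun n : ℕ =>
          (Nat.card
              {σ : Fin (Nat.card (⊤ : SimpleGraph (Fin n)).edgeSet) ≃ (⊤ : SimpleGraph (Fin n)).edgeSet //
                ∀ m : ℕ, ∀ G : SimpleGraph (Fin n),
                  G = SimpleGraph.fromEdgeSet
                      {e : Sym2 (Fin n) |
                        ∃ i : Fin (Nat.card (⊤ : SimpleGraph (Fin n)).edgeSet),
                          (i : ℕ) < m ∧ (σ i).val = e} →
                  G.Colorable k →
                  ∀ L : Fin n → Finset ℕ, (∀ v, (L v).card = k) →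
                    ∃ f : Fin n → ℕ, (∀ v, f v ∈ L v) ∧ ∀ u v, G.Adj u v → f u ≠ f v} : ℝ) /
            (Nat.card
              (Fin (Nat.card (⊤ : SimpleGraph (Fin n)).edgeSet) ≃ (⊤ : SimpleGraph (Fin n)).edgeSet) : ℝ))
        Filter.atTop (nhds 1)) := by
  intro hall
  have h1 := hall 3 le_rfl
  rw [Metric.tendsto_atTop] at h1
  obtain ⟨N, hN⟩ := h1 c hc
  obtain ⟨n, hn1, hn2⟩ := h N
  have h2 := hN n hn1
  have h3 := good_frac_le n
  unfold GoodOrd at h3
  rw [Real.dist_eq, abs_lt] at h2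
  linarith [h2.1]

end Pool.Agent.LC3
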