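import Pool.Agent.LC3.Split

/-!
# LC3.Union : union bounds for subgraphs of `G(n,t)`

* `prob_subset`: `P(F ⊆ A) = t^|F|` for `F ⊆ E`.
* `prob_dense`: `P(eIn A S ≥ r) ≤ C(C(s,2), r) t^r` for `S ⊆ range n`, `|S| = s`: some `r` of the
  `C(s,2)` edges of `EE S ⊆ EN n` are all present. (`eIn A S = |A ∩ EE S|` for `A ⊆ EN n`.)
* `prob_exists_dense`: sum over the `C(n,s)` sets `S` of size `s`.
* `choose_bound`: `C(n,s) ≤ (e n/s)^s` and `C(C(s,2),r) t^r ≤ (e s^2 t/(2r))^r`, from
  `C(N,r) ≤ N^r/r! ≤ (e N/r)^r` (`r! ≥ (r/e)^r`), `C(s,2) ≤ s^2/2`.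
-/

set_option autoImplicit false

open Classical

namespace Pool.Agent.LC3

theorem prob_subset {α : Type*} {t : ℝ} (h0 : 0 ≤ t) (h1 : t ≤ 1) (E F : Finset α) (h : F ⊆ E) :
    ex t E (fun A => ind (F ⊆ A)) = t ^ F.card := by
  have _ := h0
  have _ := h1
  have hE : E = F ∪ (E \ F) := (Finset.union_sdiff_of_subset h).symm
  have hd : Disjoint F (E \ F) := Finset.disjoint_sdiff
  have h2 : ex t (F ∪ (E \ F)) (fun A => ind (F ⊆ A)) = t ^ F.card := by
    rw [ex_union t F (E \ F) hd]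
    have h3 : ex t F (fun A => ex t (E \ F) (fun B => ind (F ⊆ A ∪ B))) =
        ex t F (fun A => ind (A = F) * (fun _ : Finset α => (1 : ℝ)) A) := by
      apply ex_congr
      intro A hA
      have h4 : ex t (E \ F) (fun B => ind (F ⊆ A ∪ B)) = ex t (E \ F) (fun _ => ind (A = F)) := by
        apply ex_congr
        intro B hB
        have : (F ⊆ A ∪ B) ↔ (A = F) := by
          constructor
          · intro hF
            apply Finset.Subset.antisymm hA
            intro x hx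
            have := hF hx
            rw [Finset.mem_union] at this
            rcases this with h5 | h5
            · exact h5
            · exact absurd hx (Finset.mem_sdiff.1 (hB h5)).2
          · intro hF
            rw [hF]
            exact Finset.subset_union_left
        simp only [this]
      rw [h4, ex_const]
      simp
    rw [h3, ex_eq_single t F F (Finset.Subset.refl F)]
    simp
  rw [← hE] at h2
  exact h2

/-- general union bound over a finite index set -/
theorem ex_exists_le {α ι : Type*} {t : ℝ} (h0 : 0 ≤ t) (h1 : t ≤ 1) (E : Finset α)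
    (I : Finset ι) (X : ι → Finset α → Prop) :
    ex t E (fun A => ind (∃ i ∈ I, X i A)) ≤ ∑ i ∈ I, ex t E (fun A => ind (X i A)) := by
  rw [← ex_sum]
  apply ex_mono h0 h1
  intro A _
  by_cases hA : ∃ i ∈ I, X i A
  · obtain ⟨i, hi, hx⟩ := hA
    rw [ind_of ⟨i, hi, hx⟩]
    calc (1 : ℝ) = ind (X i A) := (ind_of hx).symm
      _ ≤ ∑ i ∈ I, ind (X i A) :=
        Finset.single_le_sum (f := fun i => ind (X i A)) (fun j _ => ind_nonneg _) hi
  · rw [ind_of_not hA]
    exact Finset.sum_nonneg (fun j _ => ind_nonneg _)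

private theorem EE_eq_image (S : Finset ℕ) : EE S = S.offDiag.image (fun p => s(p.1, p.2)) := by
  ext e
  induction e using Sym2.ind with
  | _ a b =>
    simp only [EE, Finset.mem_filter, Finset.mk_mem_sym2_iff, Sym2.mk_isDiag_iff,
      Finset.mem_image, Finset.mem_offDiag, Prod.exists]
    constructor
    · rintro ⟨⟨ha, hb⟩, hab⟩
      exact ⟨a, b, ⟨ha, hb, hab⟩, rfl⟩
    · rintro ⟨x, y, ⟨hx, hy, hxy⟩, he⟩
      rw [Sym2.eq_iff] at he
      rcases he with ⟨rfl, rfl⟩ | ⟨rfl, rfl⟩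
      · exact ⟨⟨hx, hy⟩, hxy⟩
      · exact ⟨⟨hy, hx⟩, fun h => hxy h.symm⟩

private theorem card_EE (S : Finset ℕ) : (EE S).card = S.card.choose 2 := by
  rw [EE_eq_image]
  exact Sym2.card_image_offDiag S

private theorem EE_mono {S T : Finset ℕ} (h : S ⊆ T) : EE S ⊆ EE T := by
  intro e
  induction e using Sym2.ind with
  | _ a b =>
    simp only [EE, Finset.mem_filter, Finset.mk_mem_sym2_iff, Sym2.mk_isDiag_iff]
    rintro ⟨⟨ha, hb⟩, hab⟩
    exact ⟨⟨h ha, h hb⟩, hab⟩

theorem prob_dense {n : ℕ} {t : ℝ} (h0 : 0 ≤ t) (h1 : t ≤ 1) (S : Finset ℕ)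
    (hS : S ⊆ Finset.range n) (r : ℕ) :
    ex t (EN n) (fun A => ind (r ≤ eIn A S)) ≤ ((S.card.choose 2).choose r : ℝ) * t ^ r := by
  have hsub : EE S ⊆ EN n := EE_mono hS
  calc ex t (EN n) (fun A => ind (r ≤ eIn A S))
      ≤ ex t (EN n) (fun A => ind (∃ F ∈ (EE S).powersetCard r, F ⊆ A)) := by
        apply ex_mono h0 h1
        intro A hA
        apply ind_mono
        intro hr
        obtain ⟨F, hF1, hF2⟩ := Finset.exists_subset_card_eq hr
        refine ⟨F, ?_, fun x hx => (Finset.mem_filter.1 (hF1 hx)).1⟩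
        rw [Finset.mem_powersetCard]
        refine ⟨?_, hF2⟩
        intro e he
        have h2 := Finset.mem_filter.1 (hF1 he)
        have h3 := hA h2.1
        revert h2 h3
        induction e using Sym2.ind with
        | _ a b =>
          intro h2 h3
          rw [mem_EN] at h3
          simp only [EE, Finset.mem_filter, Finset.mk_mem_sym2_iff, Sym2.mk_isDiag_iff]
          exact ⟨⟨h2.2 a (Sym2.mem_mk_left a b), h2.2 b (Sym2.mem_mk_right a b)⟩, h3.2.2⟩
    _ ≤ ∑ F ∈ (EE S).powersetCard r, ex t (EN n) (fun A => ind (F ⊆ A)) :=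
        ex_exists_le h0 h1 (EN n) ((EE S).powersetCard r) (fun F A => F ⊆ A)
    _ = ∑ F ∈ (EE S).powersetCard r, t ^ r := by
        apply Finset.sum_congr rfl
        intro F hF
        rw [Finset.mem_powersetCard] at hF
        rw [prob_subset h0 h1 (EN n) F (hF.1.trans hsub), hF.2]
    _ = ((S.card.choose 2).choose r : ℝ) * t ^ r := by
        rw [Finset.sum_const, Finset.card_powersetCard, card_EE, nsmul_eq_mul]

theorem prob_exists_dense {n : ℕ} {t : ℝ} (h0 : 0 ≤ t) (h1 : t ≤ 1) (s r : ℕ) :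
    ex t (EN n) (fun A => ind (∃ S ⊆ Finset.range n, S.card = s ∧ r ≤ eIn A S)) ≤
      (n.choose s : ℝ) * (((s.choose 2).choose r : ℝ) * t ^ r) := by
  calc ex t (EN n) (fun A => ind (∃ S ⊆ Finset.range n, S.card = s ∧ r ≤ eIn A S))
      ≤ ex t (EN n) (fun A => ind (∃ S ∈ (Finset.range n).powersetCard s, r ≤ eIn A S)) := by
        apply ex_mono h0 h1
        intro A _
        apply ind_mono
        rintro ⟨S, h2, h3, h4⟩
        exact ⟨S, Finset.mem_powersetCard.2 ⟨h2, h3⟩, h4⟩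
    _ ≤ ∑ S ∈ (Finset.range n).powersetCard s, ex t (EN n) (fun A => ind (r ≤ eIn A S)) :=
        ex_exists_le h0 h1 (EN n) ((Finset.range n).powersetCard s) (fun S A => r ≤ eIn A S)
    _ ≤ ∑ S ∈ (Finset.range n).powersetCard s, (((s.choose 2).choose r : ℝ) * t ^ r) := by
        apply Finset.sum_le_sum
        intro S hS
        rw [Finset.mem_powersetCard] at hS
        have := prob_dense h0 h1 S hS.1 r
        rw [hS.2] at this
        exact this
    _ = (n.choose s : ℝ) * (((s.choose 2).choose r : ℝ) * t ^ r) := by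
        rw [Finset.sum_const, Finset.card_powersetCard, Finset.card_range, nsmul_eq_mul]

theorem choose_le_exp (N r : ℕ) (hr : 1 ≤ r) :
    (N.choose r : ℝ) ≤ (Real.exp 1 * N / r) ^ r := by
  have hr0 : (0 : ℝ) < r := by exact_mod_cast hr
  have h1 : (N.choose r : ℝ) ≤ (N : ℝ) ^ r / (r.factorial : ℝ) := by
    exact_mod_cast Nat.choose_le_pow_div (α := ℝ) r N
  have h2 : (r : ℝ) ^ r / (r.factorial : ℝ) ≤ Real.exp (r : ℝ) :=
    Real.pow_div_factorial_le_exp (r : ℝ) hr0.le r
  have h3 : Real.exp (r : ℝ) = Real.exp 1 ^ r := by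
    rw [← Real.exp_nat_mul, mul_one]
  calc (N.choose r : ℝ) ≤ (N : ℝ) ^ r / (r.factorial : ℝ) := h1
    _ = ((N : ℝ) / r) ^ r * ((r : ℝ) ^ r / (r.factorial : ℝ)) := by
        have : (r : ℝ) ^ r ≠ 0 := pow_ne_zero _ hr0.ne'
        have hf : (r.factorial : ℝ) ≠ 0 := by exact_mod_cast r.factorial_ne_zero
        rw [div_pow]
        field_simp
    _ ≤ ((N : ℝ) / r) ^ r * Real.exp (r : ℝ) := by
        apply mul_le_mul_of_nonneg_left h2
        positivity
    _ = (Real.exp 1 * N / r) ^ r := by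
        rw [h3, ← mul_pow]
        congr 1
        ring

/-- the bound for one size: with `c = n t`,
`C(n,s) C(C(s,2),r) t^r ≤ (e n/s)^s (e s c/(2 (r/s) n))^r`. -/
theorem dense_bound {n s r : ℕ} (hn : 1 ≤ n) (hs : 1 ≤ s) (hr : 1 ≤ r) {t : ℝ} (h0 : 0 ≤ t) :
    (n.choose s : ℝ) * (((s.choose 2).choose r : ℝ) * t ^ r) ≤
      (Real.exp 1 * n / s) ^ s * (Real.exp 1 * (s : ℝ) ^ 2 * t / (2 * r)) ^ r := by
  have _ := hn
  have hr0 : (0 : ℝ) < r := by exact_mod_cast hr
  have h1 := choose_le_exp n s hs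
  have h2 := choose_le_exp (s.choose 2) r hr
  have h3 : ((s.choose 2 : ℕ) : ℝ) ≤ (s : ℝ) ^ 2 / 2 := by
    rw [Nat.cast_choose_two]
    nlinarith [(Nat.cast_nonneg s : (0 : ℝ) ≤ (s : ℝ))]
  have he := Real.exp_pos (1 : ℝ)
  have h4 : (((s.choose 2).choose r : ℕ) : ℝ) * t ^ r ≤
      (Real.exp 1 * (s : ℝ) ^ 2 * t / (2 * r)) ^ r := by
    calc (((s.choose 2).choose r : ℕ) : ℝ) * t ^ r
        ≤ (Real.exp 1 * ((s.choose 2 : ℕ) : ℝ) / r) ^ r * t ^ r :=
          mul_le_mul_of_nonneg_right h2 (pow_nonneg h0 r)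
      _ = (Real.exp 1 * ((s.choose 2 : ℕ) : ℝ) / r * t) ^ r := by rw [← mul_pow]
      _ ≤ (Real.exp 1 * (s : ℝ) ^ 2 * t / (2 * r)) ^ r := by
          apply pow_le_pow_left₀
          · positivity
          · have h5 : Real.exp 1 * ((s.choose 2 : ℕ) : ℝ) / r * t ≤
                Real.exp 1 * ((s : ℝ) ^ 2 / 2) / r * t := by
              gcongr
            refine h5.trans (le_of_eq ?_)
            field_simp
  apply mul_le_mul h1 h4
  · positivity
  · positivity

end Pool.Agent.LC3
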