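import Pool.Agent.LC3.Split
import Pool.Agent.LC3.Sym
import Pool.Agent.LC3.NetBasic

/-!
# LC3.VertId : pivotal vertices and edges through one vertex

`G(m+1,t)` is `G(m,t)` plus the vertex `m` joined to a random set `W` (`ex_EN_succ`), and
`A ∪ st m W` is colourable iff `W` is not a net of `A` (`col_st`; `m` does not occur in `A ⊆ EN m`).

* `H_hh`: `q (m+1) t = P(Net A W)`, and `q m t = P(¬ Col A)`; if `¬ Col A` then `Net A W`
  (`net_of_not_col`). So `q (m+1) t - q m t = P(Col A, Net A W)`.
* `Dn_eq`: `Dn (m+1) t = ∑_{v < m+1} P(¬ Col A, Col (A without v))`. By `ex_rel`, `exists_swap`,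
  `col_rel`, `rel_filter` every vertex gives the same as `v = m`, for which the probability is
  `P(Col A', Net A' W) = q (m+1) t - q m t` (`filter_succ`).
* `kap_vertex`: `2 * #{e ∈ A : Col (A.erase e)} = ∑_{v < m+1} #{e ∈ A : v ∈ e, Col (A.erase e)}`
  (every edge of `A ⊆ EN (m+1)` has exactly two end points, both `< m+1`). By symmetry every `v` gives
  the same expectation as `v = m`. For `v = m`, `A = A' ∪ st m W`, `A.erase s(m,w) = A' ∪ st m (W.erase w)`
  is colourable iff `W.erase w` is not a net of `A'`; if this happens for some `w` then `Col A'`.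
-/

set_option autoImplicit false

open Classical

namespace Pool.Agent.LC3

private theorem vid_notMem {m : ℕ} {W : Finset ℕ} (hW : W ⊆ Finset.range m) : m ∉ W := by
  intro h
  have := Finset.mem_range.1 (hW h)
  omega

private theorem vid_ncol {m : ℕ} {A : Finset (Sym2 ℕ)} {W : Finset ℕ} (hA : A ⊆ EN m)
    (hW : W ⊆ Finset.range m) : (¬ Col (A ∪ st m W)) ↔ Net A W := by
  rw [col_st (not_mem_of_EN le_rfl hA) (vid_notMem hW), not_not]

private theorem vid_hh {m : ℕ} {t : ℝ} {A : Finset (Sym2 ℕ)} (h : ¬ Col A) : hh m t A = 1 := by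
  unfold hh
  have : (fun W : Finset ℕ => ind (Net A W)) = fun _ => (1 : ℝ) := by
    funext W
    exact ind_of (net_of_not_col h W)
  rw [this, ex_const]

theorem H_hh (m : ℕ) (t : ℝ) :
    q (m + 1) t - q m t = ex t (EN m) (fun A => ind (Col A) * hh m t A) := by
  unfold q
  rw [ex_EN_succ, ← ex_sub]
  refine ex_congr fun A hA => ?_
  have h1 : ex t (Finset.range m) (fun W => ind (¬ Col (A ∪ st m W))) = hh m t A := by
    unfold hh
    refine ex_congr fun W hW => ?_
    rw [vid_ncol hA hW]
  rw [h1]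
  by_cases hc : Col A
  · rw [ind_of hc, ind_of_not (not_not.2 hc)]
    ring
  · rw [ind_of_not hc, ind_of hc, vid_hh hc]
    ring

private theorem vid_Dv (m v : ℕ) (hv : v < m + 1) (t : ℝ) :
    ex t (EN (m + 1)) (fun A => ind (¬ Col A) * ind (Col (A.filter (fun e => v ∉ e)))) =
      q (m + 1) t - q m t := by
  obtain ⟨π, h1, h2, h3⟩ := exists_swap (Nat.lt_succ_self m) hv
  rw [← ex_rel h1]
  have h4 : (fun A : Finset (Sym2 ℕ) => ind (¬ Col (rel π A)) *
      ind (Col ((rel π A).filter (fun e => v ∉ e)))) =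
      fun A => ind (¬ Col A) * ind (Col (A.filter (fun e => m ∉ e))) := by
    funext A
    rw [col_rel, ← h2, rel_filter, col_rel]
  rw [h4, ex_EN_succ, H_hh]
  refine ex_congr fun A hA => ?_
  unfold hh
  rw [← ex_mul_left]
  refine ex_congr fun W hW => ?_
  rw [vid_ncol hA hW, filter_succ hA, mul_comm]

theorem Dn_eq (m : ℕ) (t : ℝ) : Dn (m + 1) t = ((m : ℝ) + 1) * (q (m + 1) t - q m t) := by
  unfold Dn Dset
  have h1 : (fun A : Finset (Sym2 ℕ) => ind (¬ Col A) *
      ((((Finset.range (m + 1)).filter (fun v => Col (A.filter (fun e => v ∉ e)))).card : ℕ) : ℝ)) =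
      fun A => ∑ v ∈ Finset.range (m + 1),
        ind (¬ Col A) * ind (Col (A.filter (fun e => v ∉ e))) := by
    funext A
    rw [← Finset.mul_sum]
    congr 1
    rw [Finset.card_filter]
    push_cast
    rfl
  rw [h1, ex_sum, Finset.sum_congr rfl fun v hv => vid_Dv m v (Finset.mem_range.1 hv) t,
    Finset.sum_const, Finset.card_range, nsmul_eq_mul]
  push_cast
  ring

private theorem vid_two {n : ℕ} {e : Sym2 ℕ} (he : e ∈ EN n) :
    ((Finset.range n).filter (fun v => v ∈ e)).card = 2 := by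
  induction e using Sym2.ind with
  | _ a b =>
    rw [mem_EN] at he
    have h1 : (Finset.range n).filter (fun v => v ∈ s(a, b)) = {a, b} := by
      ext v
      rw [Finset.mem_filter, Finset.mem_range, Sym2.mem_iff, Finset.mem_insert,
        Finset.mem_singleton]
      constructor
      · exact fun h => h.2
      · rintro (rfl | rfl)
        · exact ⟨he.1, Or.inl rfl⟩
        · exact ⟨he.2.1, Or.inr rfl⟩
    rw [h1, Finset.card_pair he.2.2]

private theorem vid_count {n : ℕ} {A : Finset (Sym2 ℕ)} (hA : A ⊆ EN n) (P : Sym2 ℕ → Prop) :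
    2 * ((A.filter P).card : ℝ) =
      ∑ v ∈ Finset.range n, ((A.filter (fun e => v ∈ e ∧ P e)).card : ℝ) := by
  have h1 : ∀ v, ((A.filter (fun e => v ∈ e ∧ P e)).card : ℝ) =
      ∑ e ∈ A.filter P, if v ∈ e then (1 : ℝ) else 0 := by
    intro v
    rw [Finset.sum_ite, Finset.sum_const_zero, add_zero, Finset.sum_const, nsmul_eq_mul, mul_one,
      Finset.filter_filter]
    congr 2
    ext e
    rw [Finset.mem_filter, Finset.mem_filter, and_comm (a := P e)]
  rw [Finset.sum_congr rfl fun v _ => h1 v, Finset.sum_comm]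
  have h2 : ∀ e ∈ A.filter P, (∑ v ∈ Finset.range n, if v ∈ e then (1 : ℝ) else 0) = 2 := by
    intro e he
    rw [Finset.sum_ite, Finset.sum_const_zero, add_zero, Finset.sum_const, nsmul_eq_mul, mul_one,
      vid_two (hA (Finset.mem_filter.1 he).1)]
    norm_num
  rw [Finset.sum_congr rfl h2, Finset.sum_const, nsmul_eq_mul, mul_comm]

private theorem vid_map_inj (π : Equiv.Perm ℕ) : Function.Injective (Sym2.map π) :=
  Sym2.map.injective π.injective

private theorem vid_filter_rel (π : Equiv.Perm ℕ) (m : ℕ) (A : Finset (Sym2 ℕ)) :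
    ((rel π A).filter (fun e => π m ∈ e ∧ Col ((rel π A).erase e))).card =
      (A.filter (fun e => m ∈ e ∧ Col (A.erase e))).card := by
  have h1 : (rel π A).filter (fun e => π m ∈ e ∧ Col ((rel π A).erase e)) =
      (A.filter (fun e => m ∈ e ∧ Col (A.erase e))).image (Sym2.map π) := by
    ext e
    rw [Finset.mem_filter, Finset.mem_image]
    constructor
    · rintro ⟨h1, h2, h3⟩
      unfold rel at h1
      obtain ⟨f, hf, rfl⟩ := Finset.mem_image.1 h1
      refine ⟨f, Finset.mem_filter.2 ⟨hf, ?_, ?_⟩, rfl⟩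
      · rw [Sym2.mem_map] at h2
        obtain ⟨x, hx, hx2⟩ := h2
        rwa [← π.injective hx2]
      · rwa [rel_erase, col_rel] at h3
    · rintro ⟨f, hf, rfl⟩
      obtain ⟨h1, h2, h3⟩ := Finset.mem_filter.1 hf
      refine ⟨Finset.mem_image_of_mem _ h1, Sym2.mem_map.2 ⟨m, h2, rfl⟩, ?_⟩
      rwa [rel_erase, col_rel]
  rw [h1, Finset.card_image_of_injective _ (vid_map_inj π)]

private theorem vid_erase {m : ℕ} {A : Finset (Sym2 ℕ)} {W : Finset ℕ} (hA : A ⊆ EN m) {w : ℕ} :
    (A ∪ st m W).erase s(m, w) = A ∪ st m (W.erase w) := by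
  have h1 : s(m, w) ∉ A := fun h => not_mem_of_EN le_rfl hA _ h (Sym2.mem_mk_left _ _)
  rw [Finset.erase_union_distrib, Finset.erase_eq_of_notMem h1]
  congr 1
  unfold st
  exact (Finset.image_erase st_inj _ _).symm

private theorem vid_filter_st {m : ℕ} {A : Finset (Sym2 ℕ)} {W : Finset ℕ} (hA : A ⊆ EN m)
    (hW : W ⊆ Finset.range m) :
    ((A ∪ st m W).filter (fun e => m ∈ e ∧ Col ((A ∪ st m W).erase e))).card =
      (W.filter (fun w => ¬ Net A (W.erase w))).card := by
  have h1 : (A ∪ st m W).filter (fun e => m ∈ e ∧ Col ((A ∪ st m W).erase e)) =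
      (W.filter (fun w => ¬ Net A (W.erase w))).image (fun w => s(m, w)) := by
    have h0 : ∀ w, Col ((A ∪ st m W).erase s(m, w)) ↔ ¬ Net A (W.erase w) := by
      intro w
      rw [vid_erase hA, col_st (not_mem_of_EN le_rfl hA)
        (vid_notMem ((Finset.erase_subset _ _).trans hW))]
    ext e
    rw [Finset.mem_filter, Finset.mem_image]
    constructor
    · rintro ⟨h1, h2, h3⟩
      rcases Finset.mem_union.1 h1 with h1 | h1
      · exact absurd h2 (not_mem_of_EN le_rfl hA _ h1)
      · unfold st at h1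
        obtain ⟨w, hw, rfl⟩ := Finset.mem_image.1 h1
        exact ⟨w, Finset.mem_filter.2 ⟨hw, (h0 w).1 h3⟩, rfl⟩
    · rintro ⟨w, hw, rfl⟩
      obtain ⟨h1, h2⟩ := Finset.mem_filter.1 hw
      refine ⟨Finset.mem_union_right _ ?_, Sym2.mem_mk_left _ _, (h0 w).2 h2⟩
      unfold st
      exact Finset.mem_image_of_mem _ h1
  rw [h1, Finset.card_image_of_injective _ st_inj]

theorem kap_vertex (m : ℕ) (t : ℝ) :
    2 * kap (m + 1) t = ((m : ℝ) + 1) * ex t (EN m) (fun A => ind (Col A) *
      ex t (Finset.range m) (fun W => ind (Net A W) *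
        ((W.filter (fun w => ¬ Net A (W.erase w))).card : ℝ))) := by
  have h1 : 2 * kap (m + 1) t = ∑ v ∈ Finset.range (m + 1), ex t (EN (m + 1)) (fun A =>
      ind (¬ Col A) * ((A.filter (fun e => v ∈ e ∧ Col (A.erase e))).card : ℝ)) := by
    unfold kap
    rw [← ex_mul_left, ← ex_sum]
    refine ex_congr fun A hA => ?_
    rw [← Finset.mul_sum, ← vid_count hA]
    ring
  have h2 : ∀ v ∈ Finset.range (m + 1), ex t (EN (m + 1)) (fun A =>
      ind (¬ Col A) * ((A.filter (fun e => v ∈ e ∧ Col (A.erase e))).card : ℝ)) =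
      ex t (EN m) (fun A => ind (Col A) *
      ex t (Finset.range m) (fun W => ind (Net A W) *
        ((W.filter (fun w => ¬ Net A (W.erase w))).card : ℝ))) := by
    intro v hv
    obtain ⟨π, h1, h2, h3⟩ := exists_swap (Nat.lt_succ_self m) (Finset.mem_range.1 hv)
    rw [← ex_rel h1]
    have h4 : (fun A : Finset (Sym2 ℕ) => ind (¬ Col (rel π A)) *
        (((rel π A).filter (fun e => v ∈ e ∧ Col ((rel π A).erase e))).card : ℝ)) =
        fun A => ind (¬ Col A) * ((A.filter (fun e => m ∈ e ∧ Col (A.erase e))).card : ℝ) := by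
      funext A
      rw [col_rel, ← h2, vid_filter_rel]
    rw [h4, ex_EN_succ]
    refine ex_congr fun A hA => ?_
    rw [← ex_mul_left]
    refine ex_congr fun W hW => ?_
    rw [vid_ncol hA hW, vid_filter_st hA hW]
    by_cases hc : Col A
    · rw [ind_of hc, one_mul]
    · have h5 : W.filter (fun w => ¬ Net A (W.erase w)) = ∅ :=
        Finset.filter_false_of_mem fun w _ => not_not.2 (net_of_not_col hc _)
      rw [h5]
      simp
  rw [h1, Finset.sum_congr rfl h2, Finset.sum_const, Finset.card_range, nsmul_eq_mul]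
  push_cast
  ring

end Pool.Agent.LC3
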