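import Pool.Agent.LC3.BBounds

/-!
# LC3.W1 : the binomial weights converge to the Poisson weights, uniformly in the window

`po c i = e^{-c} c^i / i!`. For `c = (m+1) t ∈ [al, be]` (so `t = c/(m+1)`):
`bb m i t = C(m,i) t^i (1-t)^(m-i)`, where
`C(m,i) t^i = (c^i/i!) ∏_{j<i} (m-j)/(m+1)` and `∏_{j<i} (m-j)/(m+1) ∈ [1 - i(i+1)/(m+1), 1]`,
and `(1-t)^(m-i) → e^{-c}` uniformly: `(1-t)^(m-i) ≤ exp(-t(m-i)) ≤ e^{-c} exp(be (i+1)/(m+1))` and
`(1-t)^(m-i) ≥ (1-t)^(m+1) ≥ exp(-c - 2 t^2 (m+1)) ≥ e^{-c} (1 - 2 be^2/(m+1))`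
(using `log(1-t) ≥ -t - 2 t^2` for `0 ≤ t ≤ 1/2`). Since `c ≤ be`, everything is uniform.
An alternative proof by contradiction: take `m_k → ∞`, `c_k → c` in the compact interval `[al,be]`
and use `Real.tendsto_one_add_div_pow_exp`-type limits.
-/

set_option autoImplicit false

open Classical

namespace Pool.Agent.LC3

/-- Poisson weights -/
noncomputable def po (c : ℝ) (i : ℕ) : ℝ := Real.exp (-c) * c ^ i / (i.factorial : ℝ)

theorem w1_choose (i : ℕ) : Filter.Tendsto (fun m : ℕ => (m.choose i : ℝ) / ((m : ℝ) + 1) ^ i)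
    Filter.atTop (nhds (1 / (i.factorial : ℝ))) := by
  induction i with
  | zero => simp
  | succ i ih =>
    have h1 : Filter.Tendsto (fun m : ℕ => ((m : ℝ) - i) / ((m : ℝ) + 1)) Filter.atTop (nhds 1) := by
      have h2 : Filter.Tendsto (fun m : ℕ => 1 - ((i : ℝ) + 1) * (1 / ((m : ℝ) + 1))) Filter.atTop
          (nhds (1 - ((i : ℝ) + 1) * 0)) :=
        (tendsto_one_div_add_atTop_nhds_zero_nat.const_mul _).const_sub _
      rw [mul_zero, sub_zero] at h2
      refine h2.congr (fun m => ?_)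
      have : (m : ℝ) + 1 ≠ 0 := by positivity
      field_simp
      ring
    have h3 := (ih.mul h1).mul_const (1 / ((i : ℝ) + 1))
    have e : 1 / (i.factorial : ℝ) * 1 * (1 / ((i : ℝ) + 1)) = 1 / ((i + 1).factorial : ℝ) := by
      rw [Nat.factorial_succ]
      push_cast
      have : (i.factorial : ℝ) ≠ 0 := by positivity
      field_simp
    rw [e] at h3
    refine h3.congr' ?_
    filter_upwards [Filter.eventually_ge_atTop i] with m hm
    have hc : ((m.choose (i + 1) : ℕ) : ℝ) * ((i : ℝ) + 1) = (m.choose i : ℝ) * ((m : ℝ) - i) := by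
      have h4 := Nat.choose_succ_right_eq m i
      have h5 : ((m.choose (i + 1) * (i + 1) : ℕ) : ℝ) = ((m.choose i * (m - i) : ℕ) : ℝ) := by
        rw [h4]
      rw [Nat.cast_mul, Nat.cast_mul, Nat.cast_sub hm] at h5
      push_cast at h5
      exact h5
    have h6 : (m : ℝ) + 1 ≠ 0 := by positivity
    have h7 : (i : ℝ) + 1 ≠ 0 := by positivity
    have h8 : ((m.choose (i + 1) : ℕ) : ℝ) = (m.choose i : ℝ) * ((m : ℝ) - i) / ((i : ℝ) + 1) := by
      rw [eq_div_iff h7, hc]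
    rw [h8]
    field_simp
    ring

theorem w1_pow {M : ℝ} {k m : ℕ} (hM : M = (m : ℝ) + 1) (hk : k ≤ m) {t : ℝ} (h0 : 0 ≤ t)
    (h1 : t ≤ 1 / 2) {B : ℝ} (hB : M * t ≤ B) :
    |(1 - t) ^ (m - k) - Real.exp (-(M * t))| ≤
      (Real.exp (B * ((k : ℝ) + 1) * (1 / M)) - 1) + 2 * B ^ 2 * (1 / M) := by
  have hMp : 0 < M := by rw [hM]; positivity
  have hMt : 0 ≤ M * t := mul_nonneg hMp.le h0
  have hB0 : 0 ≤ B := hMt.trans hB
  have ht : t ≤ B * (1 / M) := by
    rw [mul_one_div, le_div_iff₀ hMp]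
    linarith
  have h1t : 0 < 1 - t := by linarith
  have hcast : ((m - k : ℕ) : ℝ) = M - ((k : ℝ) + 1) := by
    rw [Nat.cast_sub hk, hM]
    ring
  -- upper bound
  have hup : (1 - t) ^ (m - k) ≤ Real.exp (-(M * t)) * Real.exp (B * ((k : ℝ) + 1) * (1 / M)) := by
    have h2 : 1 - t ≤ Real.exp (-t) := by
      have := Real.add_one_le_exp (-t)
      linarith
    calc (1 - t) ^ (m - k) ≤ (Real.exp (-t)) ^ (m - k) := pow_le_pow_left₀ h1t.le h2 _
      _ = Real.exp (((m - k : ℕ) : ℝ) * (-t)) := (Real.exp_nat_mul _ _).symm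
      _ ≤ Real.exp (-(M * t) + B * ((k : ℝ) + 1) * (1 / M)) := by
          apply Real.exp_le_exp.2
          rw [hcast]
          have h3 : t * ((k : ℝ) + 1) ≤ B * (1 / M) * ((k : ℝ) + 1) :=
            mul_le_mul_of_nonneg_right ht (by positivity)
          linarith
      _ = _ := Real.exp_add _ _
  have hlow : Real.exp (-(M * t)) - 2 * B ^ 2 * (1 / M) ≤ (1 - t) ^ (m - k) := by
    have h2 : (1 - t) ^ (m + 1) ≤ (1 - t) ^ (m - k) :=
      pow_le_pow_of_le_one h1t.le (by linarith) (by omega)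
    have h3 : (1 - t) ^ (m + 1) = Real.exp (((m + 1 : ℕ) : ℝ) * Real.log (1 - t)) := by
      rw [Real.exp_nat_mul, Real.exp_log h1t]
    have h4 : -t - 2 * t ^ 2 ≤ Real.log (1 - t) := by
      have h5 := Real.one_sub_inv_le_log_of_pos h1t
      have h6 : (1 - t)⁻¹ ≤ 1 + t + 2 * t ^ 2 := by
        rw [inv_le_iff_one_le_mul₀ h1t]
        nlinarith [mul_nonneg h0 h0, mul_nonneg (mul_nonneg h0 h0) (by linarith : (0:ℝ) ≤ 1 / 2 - t)]
      linarith
    have h7 : -(M * t) - 2 * B ^ 2 * (1 / M) ≤ ((m + 1 : ℕ) : ℝ) * Real.log (1 - t) := by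
      have h8 : ((m + 1 : ℕ) : ℝ) = M := by rw [hM]; push_cast; ring
      rw [h8]
      have h9 : M * (-t - 2 * t ^ 2) ≤ M * Real.log (1 - t) := mul_le_mul_of_nonneg_left h4 hMp.le
      have h10 : M * t ^ 2 ≤ B ^ 2 * (1 / M) := by
        have h11 : (M * t) ^ 2 ≤ B ^ 2 := pow_le_pow_left₀ hMt hB 2
        have h12 : M * t ^ 2 = (M * t) ^ 2 * (1 / M) := by
          field_simp
        rw [h12]
        exact mul_le_mul_of_nonneg_right h11 (by positivity)
      nlinarith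
    have h13 : Real.exp (-(M * t)) - 2 * B ^ 2 * (1 / M) ≤
        Real.exp (-(M * t) - 2 * B ^ 2 * (1 / M)) := by
      have e1 : Real.exp (-(M * t) - 2 * B ^ 2 * (1 / M)) =
          Real.exp (-(M * t)) * Real.exp (-(2 * B ^ 2 * (1 / M))) := by
        rw [← Real.exp_add]
        congr 1
      have e2 := Real.add_one_le_exp (-(2 * B ^ 2 * (1 / M)))
      have e3 : Real.exp (-(M * t)) ≤ 1 := Real.exp_le_one_iff.2 (by linarith)
      have e4 : 0 ≤ Real.exp (-(M * t)) := (Real.exp_pos _).le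
      have e5 : 0 ≤ 2 * B ^ 2 * (1 / M) := by positivity
      rw [e1]
      nlinarith
    calc Real.exp (-(M * t)) - 2 * B ^ 2 * (1 / M) ≤ Real.exp (-(M * t) - 2 * B ^ 2 * (1 / M)) := h13
      _ ≤ Real.exp (((m + 1 : ℕ) : ℝ) * Real.log (1 - t)) := Real.exp_le_exp.2 h7
      _ = (1 - t) ^ (m + 1) := h3.symm
      _ ≤ _ := h2
  have he1 : Real.exp (-(M * t)) ≤ 1 := Real.exp_le_one_iff.2 (by linarith)
  have he0 : 0 ≤ Real.exp (-(M * t)) := (Real.exp_pos _).le
  have hE : 0 ≤ Real.exp (B * ((k : ℝ) + 1) * (1 / M)) - 1 := by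
    have : 0 ≤ B * ((k : ℝ) + 1) * (1 / M) := by positivity
    have := Real.one_le_exp this
    linarith
  have hQ : 0 ≤ 2 * B ^ 2 * (1 / M) := by positivity
  rw [abs_le]
  constructor
  · linarith
  · nlinarith

theorem bb_po (i : ℕ) (ε : ℝ) (hε : 0 < ε) : ∃ N : ℕ, ∀ m : ℕ, N ≤ m → ∀ t : ℝ,
    al / ((m : ℝ) + 1) ≤ t → t ≤ be / ((m : ℝ) + 1) → |bb m i t - po (((m : ℝ) + 1) * t) i| ≤ ε := by
  have hal : (0 : ℝ) < al := by unfold al; norm_num
  have hbe : (0 : ℝ) < be := by unfold be; norm_num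
  have hK : 0 < be ^ i := pow_pos hbe i
  set η : ℝ := ε / (2 * be ^ i) with hη
  have hηp : 0 < η := by positivity
  have hinv := tendsto_one_div_add_atTop_nhds_zero_nat (𝕜 := ℝ)
  have hδ : Filter.Tendsto (fun m : ℕ => (Real.exp (be * ((i : ℝ) + 1) * (1 / ((m : ℝ) + 1))) - 1) +
      2 * be ^ 2 * (1 / ((m : ℝ) + 1))) Filter.atTop (nhds 0) := by
    have h1 := hinv.const_mul (be * ((i : ℝ) + 1))
    rw [mul_zero] at h1
    have h2 := ((Real.continuous_exp.tendsto 0).comp h1).sub_const 1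
    rw [Real.exp_zero, sub_self] at h2
    have h3 := hinv.const_mul (2 * be ^ 2)
    rw [mul_zero] at h3
    have h4 := h2.add h3
    rw [add_zero] at h4
    exact h4
  have hev1 := (Metric.tendsto_nhds.1 (w1_choose i)) η hηp
  have hev2 := (Metric.tendsto_nhds.1 hδ) η hηp
  have hev3 : ∀ᶠ m : ℕ in Filter.atTop, be / ((m : ℝ) + 1) ≤ 1 / 2 := by
    have h3 := hinv.const_mul be
    rw [mul_zero] at h3
    filter_upwards [(Metric.tendsto_nhds.1 h3) (1 / 2) (by norm_num)] with m hm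
    rw [Real.dist_eq, sub_zero] at hm
    have := (abs_lt.1 hm).2
    rw [mul_one_div] at this
    exact this.le
  obtain ⟨N, hN⟩ := Filter.eventually_atTop.1
    (hev1.and (hev2.and (hev3.and (Filter.eventually_ge_atTop i))))
  refine ⟨N, fun m hm t ht1 ht2 => ?_⟩
  obtain ⟨h1, h2, h3, h4⟩ := hN m hm
  rw [Real.dist_eq] at h1 h2
  rw [sub_zero] at h2
  have hMp : 0 < (m : ℝ) + 1 := by positivity
  have ht0 : 0 ≤ t := le_trans (by positivity) ht1
  have hc : ((m : ℝ) + 1) * t ≤ be := by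
    rw [le_div_iff₀ hMp] at ht2
    linarith
  have hc0 : 0 ≤ ((m : ℝ) + 1) * t := mul_nonneg hMp.le ht0
  have hw := w1_pow (M := (m : ℝ) + 1) rfl h4 ht0 (ht2.trans h3) hc
  have hw2 := hw.trans ((le_abs_self _).trans h2.le)
  unfold bb po
  set c : ℝ := ((m : ℝ) + 1) * t with hcdef
  set b : ℝ := (1 - t) ^ (m - i) with hb
  set u : ℝ := (m.choose i : ℝ) / ((m : ℝ) + 1) ^ i with hu
  have e1 : (m.choose i : ℝ) * t ^ i * b = c ^ i * u * b := by
    rw [hu, hcdef, mul_pow]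
    field_simp
  have e2 : c ^ i * u * b - Real.exp (-c) * c ^ i / (i.factorial : ℝ) =
      c ^ i * ((u - 1 / (i.factorial : ℝ)) * b + (1 / (i.factorial : ℝ)) * (b - Real.exp (-c))) := by
    ring
  rw [e1, e2, abs_mul]
  have hci : |c ^ i| ≤ be ^ i := by
    rw [abs_of_nonneg (pow_nonneg hc0 i)]
    exact pow_le_pow_left₀ hc0 hc i
  have hb0 : 0 ≤ b := pow_nonneg (by linarith [ht2.trans h3]) _
  have hb1 : b ≤ 1 := pow_le_one₀ (by linarith [ht2.trans h3]) (by linarith)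
  have hf0 : 0 ≤ 1 / (i.factorial : ℝ) := by positivity
  have hf1 : 1 / (i.factorial : ℝ) ≤ 1 := by
    rw [div_le_one (by positivity)]
    exact_mod_cast Nat.one_le_iff_ne_zero.2 (Nat.factorial_ne_zero i)
  have hsum : |(u - 1 / (i.factorial : ℝ)) * b + (1 / (i.factorial : ℝ)) * (b - Real.exp (-c))| ≤
      η + η := by
    refine (abs_add_le _ _).trans (add_le_add ?_ ?_)
    · rw [abs_mul, abs_of_nonneg hb0]
      calc |u - 1 / (i.factorial : ℝ)| * b ≤ η * 1 :=
            mul_le_mul h1.le hb1 hb0 hηp.le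
        _ = η := mul_one _
    · rw [abs_mul, abs_of_nonneg hf0]
      calc 1 / (i.factorial : ℝ) * |b - Real.exp (-c)| ≤ 1 * η :=
            mul_le_mul hf1 hw2 (abs_nonneg _) zero_le_one
        _ = η := one_mul _
  calc |c ^ i| * |(u - 1 / (i.factorial : ℝ)) * b + (1 / (i.factorial : ℝ)) * (b - Real.exp (-c))| ≤
        be ^ i * (η + η) := mul_le_mul hci hsum (abs_nonneg _) hK.le
    _ = ε := by
      rw [hη]
      field_simp
      ring

end Pool.Agent.LC3
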