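import Pool.Agent.LC3.W1

/-!
# LC3.W2 : the numerical inequality which makes the proof work

`SP κ j c = ∑_{i=j}^{17} ((1-κ)(i+1) po c (i+1) - 2 (1 - ∑_{k ≤ i} po c k))`.
Claim: for `κ > 0` small, `SP κ 3` and `SP κ 4` are bounded below by some `δ > 0` on `[al, be] = [0.1, 5.04]`.

Proof. With `T c = e^c - ∑_{n < 19} c^n/n!` one has the exact identities
`e^c SP 0 3 c = c^4/12 + c^5/120 - ∑_{n=7}^{18} (n-6) c^n/n! - 30 T c` and
`e^c SP 0 4 c = c^5/40 + c^6/360 + c^7/5040 - ∑_{n=9}^{18} (n-8) c^n/n! - 28 T c`.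
With `u = c/be ≤ 1` the right-hand sides are at least `u^7` (resp. `u^9`) times their values at `c = be`,
which are positive (numerically, with a rational bound for `exp (126/25) = exp (63/100) ^ 8`).
-/

set_option autoImplicit false

open Classical

namespace Pool.Agent.LC3

/-- truncated sums of the weights (Poisson version) -/
noncomputable def SP (κ : ℝ) (j : ℕ) (c : ℝ) : ℝ :=
  ∑ i ∈ Finset.Ico j 18,
    ((1 - κ) * (((i : ℝ) + 1) * po c (i + 1)) - 2 * (1 - ∑ k ∈ Finset.range (i + 1), po c k))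

/-- the tail of the exponential series -/
noncomputable def W2T (c : ℝ) : ℝ := Real.exp c - ∑ n ∈ Finset.range 19, c ^ n / (n.factorial : ℝ)

theorem W2_T_eq (c : ℝ) : W2T c = ∑' n : ℕ, c ^ (n + 19) / ((n + 19).factorial : ℝ) := by
  have h1 : Real.exp c = ∑' n : ℕ, c ^ n / (n.factorial : ℝ) := by
    rw [Real.exp_eq_exp_ℝ, NormedSpace.exp_eq_tsum_div]
  have h2 : Summable (fun n : ℕ => c ^ n / (n.factorial : ℝ)) := Real.summable_pow_div_factorial c
  have h3 := h2.sum_add_tsum_nat_add 19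
  unfold W2T
  rw [h1, ← h3]
  ring

theorem W2_T_scale (u b : ℝ) (hu : 0 ≤ u) (hu1 : u ≤ 1) (hb : 0 ≤ b) :
    W2T (u * b) ≤ u ^ 19 * W2T b := by
  rw [W2_T_eq, W2_T_eq, ← tsum_mul_left]
  have s1 : Summable (fun n : ℕ => (u * b) ^ (n + 19) / ((n + 19).factorial : ℝ)) :=
    (summable_nat_add_iff 19).2 (Real.summable_pow_div_factorial (u * b))
  have s2 : Summable (fun n : ℕ => u ^ 19 * (b ^ (n + 19) / ((n + 19).factorial : ℝ))) :=
    ((summable_nat_add_iff 19).2 (Real.summable_pow_div_factorial b)).mul_left _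
  refine s1.tsum_le_tsum (fun n => ?_) s2
  have hf : (0 : ℝ) < ((n + 19).factorial : ℝ) := by exact_mod_cast Nat.factorial_pos _
  rw [← mul_div_assoc]
  apply div_le_div_of_nonneg_right _ hf.le
  rw [mul_pow]
  apply mul_le_mul_of_nonneg_right _ (pow_nonneg hb _)
  exact pow_le_pow_of_le_one hu hu1 (by omega)

theorem W2_T_nonneg (b : ℝ) (hb : 0 ≤ b) : 0 ≤ W2T b := by
  rw [W2_T_eq]
  exact tsum_nonneg (fun n => by positivity)

theorem W2_exp_mul (j : ℕ) (c : ℝ) : Real.exp c * SP 0 j c =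
    ∑ i ∈ Finset.Ico j 18, (((i : ℝ) + 1) * (c ^ (i + 1) / ((i + 1).factorial : ℝ)) -
      2 * (Real.exp c - ∑ k ∈ Finset.range (i + 1), c ^ k / (k.factorial : ℝ))) := by
  have he : Real.exp c * Real.exp (-c) = 1 := by rw [← Real.exp_add]; simp
  have hpo : ∀ i : ℕ, Real.exp c * po c i = c ^ i / (i.factorial : ℝ) := by
    intro i
    unfold po
    calc Real.exp c * (Real.exp (-c) * c ^ i / (i.factorial : ℝ))
        = (Real.exp c * Real.exp (-c)) * c ^ i / (i.factorial : ℝ) := by ring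
      _ = _ := by rw [he, one_mul]
  unfold SP
  rw [Finset.mul_sum]
  refine Finset.sum_congr rfl (fun i _ => ?_)
  have h2 : Real.exp c * ∑ k ∈ Finset.range (i + 1), po c k =
      ∑ k ∈ Finset.range (i + 1), c ^ k / (k.factorial : ℝ) := by
    rw [Finset.mul_sum]
    exact Finset.sum_congr rfl (fun k _ => hpo k)
  rw [← h2, ← hpo]
  ring

theorem W2_id3 (c : ℝ) : Real.exp c * SP 0 3 c = c ^ 4 / 12 + c ^ 5 / 120
    - ∑ n ∈ Finset.Ico (7 : ℕ) 19, ((n : ℝ) - 6) * (c ^ n / (n.factorial : ℝ)) - 30 * W2T c := by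
  rw [W2_exp_mul]
  unfold W2T
  generalize Real.exp c = e
  simp only [Finset.sum_Ico_eq_sum_range, Finset.sum_range_succ, Finset.sum_range_zero,
    Nat.factorial]
  norm_num [Finset.sum_range_succ, Nat.factorial]
  ring

theorem W2_id4 (c : ℝ) : Real.exp c * SP 0 4 c = c ^ 5 / 40 + c ^ 6 / 360 + c ^ 7 / 5040
    - ∑ n ∈ Finset.Ico (9 : ℕ) 19, ((n : ℝ) - 8) * (c ^ n / (n.factorial : ℝ)) - 28 * W2T c := by
  rw [W2_exp_mul]
  unfold W2T
  generalize Real.exp c = e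
  simp only [Finset.sum_Ico_eq_sum_range, Finset.sum_range_succ, Finset.sum_range_zero,
    Nat.factorial]
  norm_num [Finset.sum_range_succ, Nat.factorial]
  ring

theorem W2_exp_be : Real.exp be ≤ 1544703 / 10000 := by
  have h1 : Real.exp be = Real.exp (63 / 100) ^ 8 := by
    rw [← Real.exp_nat_mul]
    congr 1
    unfold be
    norm_num
  have h2 : Real.exp (63 / 100) ≤ ∑ m ∈ Finset.range 10, (63 / 100 : ℝ) ^ m / (m.factorial : ℝ)
      + (63 / 100 : ℝ) ^ 10 * ((10 : ℕ) + 1) / (((10 : ℕ).factorial : ℝ) * (10 : ℕ)) :=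
    Real.exp_bound' (by norm_num) (by norm_num) (by norm_num)
  have h3 : Real.exp (63 / 100) ≤ 18776106 / 10000000 := by
    refine h2.trans ?_
    simp only [Finset.sum_range_succ, Finset.sum_range_zero, Nat.factorial]
    norm_num
  rw [h1]
  calc Real.exp (63 / 100) ^ 8 ≤ (18776106 / 10000000 : ℝ) ^ 8 :=
        pow_le_pow_left₀ (Real.exp_pos _).le h3 8
    _ ≤ _ := by norm_num

/-- the value at the right end, `j = 3` -/
theorem W2_F3 : 0 < be ^ 4 / 12 + be ^ 5 / 120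
    - ∑ n ∈ Finset.Ico (7 : ℕ) 19, ((n : ℝ) - 6) * (be ^ n / (n.factorial : ℝ)) - 30 * W2T be := by
  have h := W2_exp_be
  have h2 : W2T be ≤ 1544703 / 10000 - ∑ n ∈ Finset.range 19, be ^ n / (n.factorial : ℝ) := by
    unfold W2T
    linarith
  refine lt_of_lt_of_le ?_ (sub_le_sub_left (mul_le_mul_of_nonneg_left h2 (by norm_num)) _)
  unfold be
  simp only [Finset.sum_Ico_eq_sum_range, Finset.sum_range_succ, Finset.sum_range_zero,
    Nat.factorial]
  norm_num [Finset.sum_range_succ, Nat.factorial]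

/-- the value at the right end, `j = 4` -/
theorem W2_F4 : 0 < be ^ 5 / 40 + be ^ 6 / 360 + be ^ 7 / 5040
    - ∑ n ∈ Finset.Ico (9 : ℕ) 19, ((n : ℝ) - 8) * (be ^ n / (n.factorial : ℝ)) - 28 * W2T be := by
  have h := W2_exp_be
  have h2 : W2T be ≤ 1544703 / 10000 - ∑ n ∈ Finset.range 19, be ^ n / (n.factorial : ℝ) := by
    unfold W2T
    linarith
  refine lt_of_lt_of_le ?_ (sub_le_sub_left (mul_le_mul_of_nonneg_left h2 (by norm_num)) _)
  unfold be
  simp only [Finset.sum_Ico_eq_sum_range, Finset.sum_range_succ, Finset.sum_range_zero,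
    Nat.factorial]
  norm_num [Finset.sum_range_succ, Nat.factorial]

theorem W2_neg_part (N a : ℕ) (w : ℕ → ℝ) (hw : ∀ n ∈ Finset.Ico a N, 0 ≤ w n) (u b : ℝ)
    (hu : 0 ≤ u) (hu1 : u ≤ 1) (hb : 0 ≤ b) :
    ∑ n ∈ Finset.Ico a N, w n * ((u * b) ^ n / (n.factorial : ℝ)) ≤
      u ^ a * ∑ n ∈ Finset.Ico a N, w n * (b ^ n / (n.factorial : ℝ)) := by
  rw [Finset.mul_sum]
  refine Finset.sum_le_sum (fun n hn => ?_)
  have hf : (0 : ℝ) < (n.factorial : ℝ) := by exact_mod_cast Nat.factorial_pos _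
  have h1 : (u * b) ^ n / (n.factorial : ℝ) ≤ u ^ a * (b ^ n / (n.factorial : ℝ)) := by
    rw [← mul_div_assoc]
    apply div_le_div_of_nonneg_right _ hf.le
    rw [mul_pow]
    apply mul_le_mul_of_nonneg_right _ (pow_nonneg hb _)
    exact pow_le_pow_of_le_one hu hu1 (Finset.mem_Ico.1 hn).1
  calc w n * ((u * b) ^ n / (n.factorial : ℝ)) ≤ w n * (u ^ a * (b ^ n / (n.factorial : ℝ))) :=
        mul_le_mul_of_nonneg_left h1 (hw n hn)
    _ = _ := by ring

theorem W2_be_pos : 0 < be := by unfold be; norm_num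

theorem W2_al_pos : 0 < al := by unfold al; norm_num

theorem W2_lower3 (u : ℝ) (hu : 0 ≤ u) (hu1 : u ≤ 1) :
    u ^ 7 * (be ^ 4 / 12 + be ^ 5 / 120
      - ∑ n ∈ Finset.Ico (7 : ℕ) 19, ((n : ℝ) - 6) * (be ^ n / (n.factorial : ℝ)) - 30 * W2T be)
      ≤ Real.exp (u * be) * SP 0 3 (u * be) := by
  rw [W2_id3]
  have hb := W2_be_pos.le
  have h1 := W2_neg_part 19 7 (fun n => (n : ℝ) - 6) (fun n hn => by
    have : 7 ≤ n := (Finset.mem_Ico.1 hn).1
    have : (7 : ℝ) ≤ n := by exact_mod_cast this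
    show (0 : ℝ) ≤ (n : ℝ) - 6
    linarith) u be hu hu1 hb
  have h2 := W2_T_scale u be hu hu1 hb
  have h3 : u ^ 19 * W2T be ≤ u ^ 7 * W2T be :=
    mul_le_mul_of_nonneg_right (pow_le_pow_of_le_one hu hu1 (by norm_num)) (W2_T_nonneg be hb)
  have h4 : u ^ 7 * be ^ 4 ≤ (u * be) ^ 4 := by
    rw [mul_pow]
    exact mul_le_mul_of_nonneg_right (pow_le_pow_of_le_one hu hu1 (by norm_num)) (pow_nonneg hb _)
  have h5 : u ^ 7 * be ^ 5 ≤ (u * be) ^ 5 := by
    rw [mul_pow]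
    exact mul_le_mul_of_nonneg_right (pow_le_pow_of_le_one hu hu1 (by norm_num)) (pow_nonneg hb _)
  have e : u ^ 7 * (be ^ 4 / 12 + be ^ 5 / 120
      - ∑ n ∈ Finset.Ico (7 : ℕ) 19, ((n : ℝ) - 6) * (be ^ n / (n.factorial : ℝ)) - 30 * W2T be)
      = (u ^ 7 * be ^ 4) / 12 + (u ^ 7 * be ^ 5) / 120
      - u ^ 7 * (∑ n ∈ Finset.Ico (7 : ℕ) 19, ((n : ℝ) - 6) * (be ^ n / (n.factorial : ℝ)))
      - 30 * (u ^ 7 * W2T be) := by ring
  rw [e]
  linarith

theorem W2_lower4 (u : ℝ) (hu : 0 ≤ u) (hu1 : u ≤ 1) :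
    u ^ 9 * (be ^ 5 / 40 + be ^ 6 / 360 + be ^ 7 / 5040
      - ∑ n ∈ Finset.Ico (9 : ℕ) 19, ((n : ℝ) - 8) * (be ^ n / (n.factorial : ℝ)) - 28 * W2T be)
      ≤ Real.exp (u * be) * SP 0 4 (u * be) := by
  rw [W2_id4]
  have hb := W2_be_pos.le
  have h1 := W2_neg_part 19 9 (fun n => (n : ℝ) - 8) (fun n hn => by
    have : 9 ≤ n := (Finset.mem_Ico.1 hn).1
    have : (9 : ℝ) ≤ n := by exact_mod_cast this
    show (0 : ℝ) ≤ (n : ℝ) - 8
    linarith) u be hu hu1 hb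
  have h2 := W2_T_scale u be hu hu1 hb
  have h3 : u ^ 19 * W2T be ≤ u ^ 9 * W2T be :=
    mul_le_mul_of_nonneg_right (pow_le_pow_of_le_one hu hu1 (by norm_num)) (W2_T_nonneg be hb)
  have h4 : u ^ 9 * be ^ 5 ≤ (u * be) ^ 5 := by
    rw [mul_pow]
    exact mul_le_mul_of_nonneg_right (pow_le_pow_of_le_one hu hu1 (by norm_num)) (pow_nonneg hb _)
  have h5 : u ^ 9 * be ^ 6 ≤ (u * be) ^ 6 := by
    rw [mul_pow]
    exact mul_le_mul_of_nonneg_right (pow_le_pow_of_le_one hu hu1 (by norm_num)) (pow_nonneg hb _)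
  have h6 : u ^ 9 * be ^ 7 ≤ (u * be) ^ 7 := by
    rw [mul_pow]
    exact mul_le_mul_of_nonneg_right (pow_le_pow_of_le_one hu hu1 (by norm_num)) (pow_nonneg hb _)
  have e : u ^ 9 * (be ^ 5 / 40 + be ^ 6 / 360 + be ^ 7 / 5040
      - ∑ n ∈ Finset.Ico (9 : ℕ) 19, ((n : ℝ) - 8) * (be ^ n / (n.factorial : ℝ)) - 28 * W2T be)
      = (u ^ 9 * be ^ 5) / 40 + (u ^ 9 * be ^ 6) / 360 + (u ^ 9 * be ^ 7) / 5040
      - u ^ 9 * (∑ n ∈ Finset.Ico (9 : ℕ) 19, ((n : ℝ) - 8) * (be ^ n / (n.factorial : ℝ)))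
      - 28 * (u ^ 9 * W2T be) := by ring
  rw [e]
  linarith

/-- from the bound for `exp c * SP` to a uniform bound for `SP` -/
theorem W2_unif (j a : ℕ) (F : ℝ) (hF : 0 < F)
    (h : ∀ u : ℝ, 0 ≤ u → u ≤ 1 → u ^ a * F ≤ Real.exp (u * be) * SP 0 j (u * be)) (c : ℝ)
    (h1 : al ≤ c) (h2 : c ≤ be) : Real.exp (-be) * ((al / be) ^ a * F) ≤ SP 0 j c := by
  have hb := W2_be_pos
  have ha := W2_al_pos
  have hc : 0 < c := lt_of_lt_of_le ha h1
  have h3 := h (c / be) (div_nonneg hc.le hb.le) ((div_le_one hb).2 h2)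
  rw [div_mul_cancel₀ c hb.ne'] at h3
  have h4 : (al / be) ^ a * F ≤ (c / be) ^ a * F := by
    apply mul_le_mul_of_nonneg_right _ hF.le
    apply pow_le_pow_left₀ (div_nonneg ha.le hb.le)
    exact div_le_div_of_nonneg_right h1 hb.le
  have h5 : (al / be) ^ a * F ≤ Real.exp c * SP 0 j c := h4.trans h3
  have h6 : 0 ≤ (al / be) ^ a * F := mul_nonneg (pow_nonneg (div_nonneg ha.le hb.le) _) hF.le
  calc Real.exp (-be) * ((al / be) ^ a * F) ≤ Real.exp (-c) * ((al / be) ^ a * F) :=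
        mul_le_mul_of_nonneg_right (Real.exp_le_exp.2 (by linarith)) h6
    _ ≤ Real.exp (-c) * (Real.exp c * SP 0 j c) :=
        mul_le_mul_of_nonneg_left h5 (Real.exp_pos _).le
    _ = SP 0 j c := by
        rw [← mul_assoc, ← Real.exp_add]
        simp

theorem W2_split (κ : ℝ) (j : ℕ) (c : ℝ) : SP κ j c = SP 0 j c -
    κ * ∑ i ∈ Finset.Ico j 18, (((i : ℝ) + 1) * po c (i + 1)) := by
  unfold SP
  rw [Finset.mul_sum, ← Finset.sum_sub_distrib]
  refine Finset.sum_congr rfl (fun i _ => ?_)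
  ring

theorem W2_po_le (c : ℝ) (h0 : 0 ≤ c) (h : c ≤ be) (i : ℕ) :
    po c i ≤ be ^ i / (i.factorial : ℝ) := by
  have hf : (0 : ℝ) < (i.factorial : ℝ) := by exact_mod_cast Nat.factorial_pos _
  unfold po
  apply div_le_div_of_nonneg_right _ hf.le
  calc Real.exp (-c) * c ^ i ≤ 1 * be ^ i :=
        mul_le_mul (Real.exp_le_one_iff.2 (by linarith)) (pow_le_pow_left₀ h0 h i)
          (pow_nonneg h0 _) zero_le_one
    _ = be ^ i := one_mul _

theorem SP_pos : ∃ κ : ℝ, 0 < κ ∧ κ ≤ 1 / 100 ∧ ∃ δ : ℝ, 0 < δ ∧ ∀ c : ℝ, al ≤ c → c ≤ be →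
    δ ≤ SP κ 3 c ∧ δ ≤ SP κ 4 c := by
  have hb := W2_be_pos
  have ha := W2_al_pos
  set F3 := be ^ 4 / 12 + be ^ 5 / 120
    - ∑ n ∈ Finset.Ico (7 : ℕ) 19, ((n : ℝ) - 6) * (be ^ n / (n.factorial : ℝ)) - 30 * W2T be with hF3
  set F4 := be ^ 5 / 40 + be ^ 6 / 360 + be ^ 7 / 5040
    - ∑ n ∈ Finset.Ico (9 : ℕ) 19, ((n : ℝ) - 8) * (be ^ n / (n.factorial : ℝ)) - 28 * W2T be with hF4
  have p3 : 0 < F3 := W2_F3
  have p4 : 0 < F4 := W2_F4
  have u3 := W2_unif 3 7 F3 p3 W2_lower3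
  have u4 := W2_unif 4 9 F4 p4 W2_lower4
  set m3 := Real.exp (-be) * ((al / be) ^ 7 * F3) with hm3
  set m4 := Real.exp (-be) * ((al / be) ^ 9 * F4) with hm4
  have q3 : 0 < m3 := mul_pos (Real.exp_pos _) (mul_pos (pow_pos (div_pos ha hb) _) p3)
  have q4 : 0 < m4 := mul_pos (Real.exp_pos _) (mul_pos (pow_pos (div_pos ha hb) _) p4)
  set M : ℝ := ∑ i ∈ Finset.Ico (3 : ℕ) 18, (((i : ℝ) + 1) * (be ^ (i + 1) / ((i + 1).factorial : ℝ)))
    with hM
  have hMpos : 0 < M := by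
    apply Finset.sum_pos
    · intro i _
      have hf : (0 : ℝ) < ((i + 1).factorial : ℝ) := by exact_mod_cast Nat.factorial_pos _
      exact mul_pos (by positivity) (div_pos (pow_pos hb _) hf)
    · exact ⟨3, by simp⟩
  set d := min m3 m4 / 2 with hd
  have hdpos : 0 < d := half_pos (lt_min q3 q4)
  refine ⟨min (1 / 100) (d / M), lt_min (by norm_num) (div_pos hdpos hMpos), min_le_left _ _, d,
    hdpos, fun c h1 h2 => ?_⟩
  have hc : 0 ≤ c := ha.le.trans h1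
  set κ := min (1 / 100) (d / M) with hκ
  have hκ0 : 0 < κ := lt_min (by norm_num) (div_pos hdpos hMpos)
  have hS3 : ∑ i ∈ Finset.Ico (3 : ℕ) 18, (((i : ℝ) + 1) * po c (i + 1)) ≤ M := by
    refine Finset.sum_le_sum (fun i _ => ?_)
    exact mul_le_mul_of_nonneg_left (W2_po_le c hc h2 (i + 1)) (by positivity)
  have hpo0 : ∀ i : ℕ, 0 ≤ po c i := fun i => by
    unfold po
    exact div_nonneg (mul_nonneg (Real.exp_pos _).le (pow_nonneg hc _)) (by positivity)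
  have hS4 : ∑ i ∈ Finset.Ico (4 : ℕ) 18, (((i : ℝ) + 1) * po c (i + 1)) ≤ M := by
    refine le_trans ?_ hS3
    apply Finset.sum_le_sum_of_subset_of_nonneg
    · exact Finset.Ico_subset_Ico_left (by norm_num)
    · intro i _ _
      exact mul_nonneg (by positivity) (hpo0 _)
  have hκM : κ * M ≤ d := by
    calc κ * M ≤ (d / M) * M := mul_le_mul_of_nonneg_right (min_le_right _ _) hMpos.le
      _ = d := div_mul_cancel₀ d hMpos.ne'
  have hm : 2 * d = min m3 m4 := by rw [hd]; ring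
  have g3 : 2 * d ≤ m3 := hm ▸ min_le_left _ _
  have g4 : 2 * d ≤ m4 := hm ▸ min_le_right _ _
  constructor
  · rw [W2_split]
    have := u3 c h1 h2
    have := mul_le_mul_of_nonneg_left hS3 hκ0.le
    linarith
  · rw [W2_split]
    have := u4 c h1 h2
    have := mul_le_mul_of_nonneg_left hS4 hκ0.le
    linarith

end Pool.Agent.LC3
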